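import Pool.Agent.Lib.P5.Defs
import Pool.Agent.Lib.JP.Facts
import Pool.Agent.Lib.JP.F23

/-! Facts about a minimal counterexample of the pentagon world (MP_c95763_co). -/

set_option autoImplicit false

namespace JP.CG

open Finset Classical

variable {V D : Type*} {G : CG V D} {K : Finset V} {F : Finset D}

/-- no vertex has three tokens -/
theorem MC.tk2 (h : G.MC K F) : ∀ v ∈ G.vs, (G.tk {v}).card ≤ 2 := by
  intro v hv
  by_contra hlt
  have h1 := B0.dg_singleton h.inst.b0 hv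
  have hs : ({v} : Finset V) ⊆ G.vs := singleton_subset_iff.2 hv
  have h2 : (G.bd (G.vs \ {v})).card = (G.bd {v}).card := G.bd_compl hs
  have h3 := G.tk_compl hs
  have h4 := h.four
  have h5 : (G.vs \ {v}).card + ({v} : Finset V).card = G.vs.card :=
    card_sdiff_add_card_eq_card hs
  rw [card_singleton] at h5
  have h6 := h.inst.b0 (G.vs \ {v}) sdiff_subset (by
    obtain ⟨k, hk⟩ := h.inst.even
    have h7 : 0 < G.vs.card := card_pos.2 ⟨v, hv⟩
    exact ⟨k - 1, by omega⟩)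
  unfold dg at h1 h6
  omega

/-- (F2) by `glue`: one token and two edges, or two tokens and one edge -/
theorem MC.glue2 (h : G.MC K F) {X : Finset V} (hX : X ⊆ G.vs) (ho : Odd X.card)
    (h1 : 1 < X.card) (h3 : G.dg X = 3) (ht : (G.tk X).Nonempty) :
    ∃ v, G.vs \ X = {v} ∧ (G.tk {v}).card = 2 := by
  obtain ⟨v, h4, h5, -⟩ := h.F2 hX ho (by obtain ⟨k, hk⟩ := ho; omega) ht h3
  exact ⟨v, h4, h5⟩

/-- (F3): absorb the circuit of the neighbour of `s` -/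
theorem MC.dbl2 (h : G.MC K F) {s v : V}
    (hs : (G.tk {s}).card = 2) (hv : (G.tk {v}).card = 2) : K ≠ {s, v} :=
  fun hK => h.F3 hK hs hv

theorem MC.pw (h : G.MC K F) (hf : G.Full K F)
    (hp : ∀ v ∈ G.vs, v ∉ K → ∃ p f l, G.Pen K F p f l ∧ p 0 = v) : G.PW K F := by
  have hK : ∀ v ∈ G.vs, ¬ G.Abs K F v → v ∉ K := fun v hv ha hvK => ha ((hf.abs_iff hv).2 hvK)
  refine ⟨h.inst.even, h.inst.b0, h.inst.cls, h.inst.cc, hf, h.four, ?_, hp, ?_, ?_, h.tk2, ?_, ?_⟩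
  · intro X hX he hne hne'
    exact h.two_le_bd hX he hne hne'
  · intro X hX ho h1 h3 ht
    exact h.glue2 hX ho h1 h3 ht
  · intro s v _ hs hv
    exact h.dbl2 hs hv
  · intro σ mσ τ mτ u mu tσ tτ pτ pu n1 n2 n3
    have h1 := h.double mσ mτ mu tσ tτ pτ pu n1 n2 n3
    exact ⟨h1.1, hK _ (G.pi_mem _ (G.al_mem u mu)) h1.2⟩
  · intro σ mσ u1 m1 u2 m2 tσ t1 t2 p1 p2 n1 n2 n3
    have h1 := h.alpha mσ m1 m2 tσ t1 t2 p1 p2 n1 n2 n3
    exact ⟨hK _ (G.pi_mem _ (G.al_mem u1 m1)) h1.1, hK _ (G.pi_mem _ (G.al_mem u2 m2)) h1.2.1,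
      h1.2.2.1⟩

end JP.CG
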