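import Pool.Agent.Lib.P5.Defs
import Pool.Agent.Lib.JP.PZ
import Pool.Agent.Lib.JP.F4

/-! (F4): in a minimal counterexample of the pentagon world every fresh circuit is a pentagon without
chords (MP_c95763_co). -/

set_option autoImplicit false

namespace JP.CG

open Finset Classical

variable {V D : Type*} {G : CG V D} {K : Finset V} {F : Finset D}

/-- the fresh circuits of a minimal counterexample are pentagons -/
theorem MC.pen (h : G.MC K F) (hf : G.Full K F) :
    ∀ v ∈ G.vs, v ∉ K → ∃ p f l, G.Pen K F p f l ∧ p 0 = v := by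
  intro v hv hvK
  have hc := h.inst.cls
  obtain ⟨Z, hZ, hvZ⟩ : ∃ Z, G.Adm K F Z ∧ v ∈ Z := by
    by_contra hno
    push Not at hno
    exact hvK (hf.abs v hv fun Z hZ => hno Z hZ)
  obtain ⟨P, -, hP, hvP, h5, -⟩ := h.pent hZ hvZ
  obtain ⟨lg, hlg⟩ := h.pent_lg hP h5
  have h2 := hc.F2 v hv hvK
  obtain ⟨a, ha⟩ : (F.filter fun d => G.pi d = v).Nonempty := card_pos.1 (by omega)
  rw [mem_filter] at ha
  have hmin : ∀ Y, G.Adm K F Y → Y ⊆ P → Y.Nonempty → Y = P := by
    intro Y hY hs hne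
    refine eq_of_subset_of_card_le hs ?_
    by_contra hlt
    exact hne.ne_empty (h.no_small hY (by omega))
  obtain ⟨r, hr, hr0⟩ : ∃ r : ZMod 5 → D, Cy G F P 5 r ∧ r 0 = a := by
    have h3 := exists_cy hc hP hmin ha.1 (by rw [ha.2]; exact hvP)
    rw [h5] at h3
    exact h3
  refine ⟨fun i => G.pi (r i), r, fun i => lg (G.pi (r i)), ⟨fun i j e => hr.inj i j e,
    fun i => hP.dis _ (hr.memC i), hr.memF, fun _ => rfl, hr.nxt, fun i => hlg.mem _ (hr.memC i),
    ?_, fun i => hlg.pi _ (hr.memC i), ?_, ?_⟩, ?_⟩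
  · intro i hF
    refine hlg.out _ (hr.memC i) (hP.clo _ hF ?_)
    rw [hlg.pi _ (hr.memC i)]
    exact hr.memC i
  · intro i j e
    exact hlg.out _ (hr.memC i) (e ▸ hr.memC j)
  · intro i d hd hp
    by_cases hdF : d ∈ F
    · have h3 : d ∈ F.filter fun d => G.pi d = G.pi (r i) := mem_filter.2 ⟨hdF, hp⟩
      rw [hr.fdarts hc hP, mem_insert, mem_singleton] at h3
      rcases h3 with h3 | h3
      · exact Or.inl h3
      · exact Or.inr (Or.inl h3)
    · right
      right
      refine leg_unique hc (hP.sub (hr.memC i)) (hP.dis _ (hr.memC i)) hd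
        (hlg.mem _ (hr.memC i)) hdF ?_ hp (hlg.pi _ (hr.memC i))
      intro hF
      refine hlg.out _ (hr.memC i) (hP.clo _ hF ?_)
      rw [hlg.pi _ (hr.memC i)]
      exact hr.memC i
  · change G.pi (r 0) = v
    rw [hr0]
    exact ha.2

end JP.CG
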