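import Pool.Agent.Lib.P5.Win
import Pool.Agent.Lib.P5.Facts
import Pool.Agent.Lib.P5.PenF4

/-! Theorem P5 (MP_c95763_co, pentagon world). -/

set_option autoImplicit false

namespace JP

open Finset Classical

/-- **Theorem P5** -/
theorem P5main (V D : Type) (G : CG V D) (K : Finset V) (F : Finset D) (hI : G.Inst K F) :
    ∃ M, G.Good K F M := by
  refine CG.main_of2 ?_ G K F hI
  intro G K F hm
  obtain ⟨K', F', hm', hf⟩ := hm.exists_full
  obtain ⟨z, t, hw, hb, h4, hj, hv⟩ := (hm'.toMC.pw hf (hm'.toMC.pen hf)).win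
  exact hm'.zkill hf hw hb h4 hj hv

end JP
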