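import Pool.Agent.Lib.P5.Mod

/-! Pentagons, nodes, the start gadget (MP_c95763_co, pentagon world). -/

set_option autoImplicit false

namespace JP.CG

open Finset Classical

variable {V D : Type*} {G : CG V D} {K : Finset V} {F : Finset D}

namespace Pen

variable {p : ZMod 5 → V} {f l : ZMod 5 → D}

lemma fm (h : G.Pen K F p f l) (hc : G.Cls K F) (i : ZMod 5) : f i ∈ G.ds := hc.Fsub (h.fF i)

lemma pv (h : G.Pen K F p f l) (hc : G.Cls K F) (i : ZMod 5) : p i ∈ G.vs := by
  rw [← h.fp i]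
  exact G.pi_mem _ (h.fm hc i)

/-- the pentagon is admissible -/
lemma adm (h : G.Pen K F p f l) (hc : G.Cls K F) : G.Adm K F (univ.image p) := by
  have hm : ∀ i, p i ∈ univ.image p := fun i => mem_image_of_mem p (mem_univ i)
  refine ⟨?_, ?_, ?_⟩
  · intro v hv
    obtain ⟨i, -, rfl⟩ := mem_image.1 hv
    exact h.pv hc i
  · intro v hv
    obtain ⟨i, -, rfl⟩ := mem_image.1 hv
    exact h.nK i
  · intro d hd hv
    obtain ⟨i, -, hi⟩ := mem_image.1 hv
    rcases h.three i d (hc.Fsub hd) hi.symm with h1 | h1 | h1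
    · rw [h1, h.fa]
      exact hm _
    · rw [h1, G.al_al _ (h.fm hc _), h.fp]
      exact hm _
    · exact absurd (h1 ▸ hd) (h.lF i)

/-- an admissible set which meets the pentagon contains it -/
lemma adm_sub (h : G.Pen K F p f l) (hc : G.Cls K F) {Z : Finset V} (hZ : G.Adm K F Z) {i : ZMod 5}
    (hi : p i ∈ Z) : univ.image p ⊆ Z := by
  have key : ∀ n : ℕ, p (i + (n : ZMod 5)) ∈ Z := by
    intro n
    induction n with
    | zero =>
      rw [Nat.cast_zero, add_zero]
      exact hi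
    | succ n ih =>
      have h1 := hZ.clo _ (h.fF (i + (n : ZMod 5))) (by rw [h.fp]; exact ih)
      rw [h.fa] at h1
      rw [Nat.cast_succ, ← add_assoc]
      exact h1
  intro v hv
  obtain ⟨j, -, rfl⟩ := mem_image.1 hv
  have h2 := key (j - i).val
  rw [ZMod.natCast_zmod_val, add_sub_cancel] at h2
  exact h2

lemma cir_eq (h : G.Pen K F p f l) (hc : G.Cls K F) (i : ZMod 5) :
    G.cir K F (p i) = univ.image p := by
  apply Subset.antisymm
  · exact cir_sub (h.adm hc) (mem_image_of_mem p (mem_univ i))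
  · intro v hv
    refine mem_cir.2 ⟨(h.adm hc).sub hv, fun Z hZ hi => h.adm_sub hc hZ hi hv⟩

lemma card (h : G.Pen K F p f l) : (univ.image p).card = 5 := by
  rw [card_image_of_injective _ h.inj, card_univ, ZMod.card]

/-- the star of a pentagon consists of the five legs -/
lemma mem_sb_img (h : G.Pen K F p f l) (hc : G.Cls K F) {d : D} :
    d ∈ G.sb (univ.image p) ↔ ∃ i, d = l i := by
  have hm : ∀ i, p i ∈ univ.image p := fun i => mem_image_of_mem p (mem_univ i)
  rw [mem_sb]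
  constructor
  · rintro ⟨h1, h2, h3⟩
    obtain ⟨i, -, hi⟩ := mem_image.1 h2
    rcases h.three i d h1 hi.symm with h4 | h4 | h4
    · exfalso
      rw [h4] at h3
      rcases h3 with h3 | h3
      · exact hc.Ftok _ (h.fF i) h3
      · exact h3 (by rw [h.fa]; exact hm _)
    · exfalso
      rw [h4, G.al_al _ (h.fm hc _)] at h3
      rcases h3 with h3 | h3
      · exact hc.Ftok _ (h.fF _) h3.symm
      · exact h3 (by rw [h.fp]; exact hm _)
    · exact ⟨i, h4⟩
  · rintro ⟨i, rfl⟩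
    refine ⟨h.lm i, by rw [h.lp]; exact hm i, Or.inr ?_⟩
    intro h1
    obtain ⟨j, -, hj⟩ := mem_image.1 h1
    exact h.lo i j hj.symm

lemma l_inj (h : G.Pen K F p f l) : Function.Injective l := by
  intro i j hij
  apply h.inj
  rw [← h.lp i, ← h.lp j, hij]

/-- legs are not tokens -/
lemma l_tok (h : G.Pen K F p f l) (i : ZMod 5) : G.al (l i) ≠ l i := by
  intro he
  exact h.lo i i (by rw [he, h.lp])

/-- reflection -/
lemma mirror (h : G.Pen K F p f l) (hc : G.Cls K F) :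
    G.Pen K F (fun i => p (-i)) (fun i => G.al (f (-i - 1))) (fun i => l (-i)) where
  inj := fun i j hij => neg_injective (h.inj hij)
  nK := fun i => h.nK (-i)
  fF := fun i => hc.Fal _ (h.fF _)
  fp := fun i => by
    change G.pi (G.al (f (-i - 1))) = p (-i)
    rw [h.fa, sub_add_cancel]
  fa := fun i => by
    change G.pi (G.al (G.al (f (-i - 1)))) = p (-(i + 1))
    rw [G.al_al _ (h.fm hc _), h.fp, neg_add']
  lm := fun i => h.lm (-i)
  lF := fun i => h.lF (-i)
  lp := fun i => h.lp (-i)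
  lo := fun i j => h.lo (-i) (-j)
  three := fun i d hd hi => by
    change d = G.al (f (-i - 1)) ∨ d = G.al (G.al (f (-(i - 1) - 1))) ∨ d = l (-i)
    have h0 : -(i - 1) - 1 = -i := by ring
    rw [G.al_al _ (h.fm hc _), h0]
    rcases h.three (-i) d hd hi with h1 | h1 | h1
    · exact Or.inr (Or.inl h1)
    · exact Or.inl h1
    · exact Or.inr (Or.inr h1)

end Pen

namespace PW

variable (h : G.PW K F)
include h

/-- fresh vertices have no tokens -/
lemma notok {d : D} (hd : d ∈ G.ds) (hK : G.pi d ∉ K) : G.al d ≠ d := fun ht =>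
  hK (h.cls.tokK d hd ht)

/-- classes of fresh vertices are pentagons -/
lemma cir_pen {v : V} (hv : v ∈ G.vs) (hK : v ∉ K) : ∃ p f l, G.Pen K F p f l ∧ p 0 = v ∧
    G.cir K F v = univ.image p := by
  obtain ⟨p, f, l, hp, hv0⟩ := h.pen v hv hK
  exact ⟨p, f, l, hp, hv0, by rw [← hv0]; exact hp.cir_eq h.cls 0⟩

lemma cir_adm {v : V} (hv : v ∈ G.vs) (hK : v ∉ K) : G.Adm K F (G.cir K F v) := by
  obtain ⟨p, f, l, hp, -, he⟩ := h.cir_pen hv hK
  rw [he]
  exact hp.adm h.cls

end PW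

namespace St

variable {τ c c' : D} {p : ZMod 5 → V} {f l : ZMod 5 → D}

lemma mirror (h : G.St K F τ c c' p f l) (hc : G.Cls K F) :
    G.St K F τ c c' (fun i => p (-i)) (fun i => G.al (f (-i - 1))) (fun i => l (-i)) where
  pen := h.pen.mirror hc
  mτ := h.mτ
  tτ := h.tτ
  mc := h.mc
  pc := h.pc
  ac := by
    change G.al c = l (-0)
    rw [neg_zero]
    exact h.ac
  mc' := h.mc'
  pc' := h.pc'
  n1 := h.n1
  n2 := h.n2
  n3 := h.n3
  dich := by
    rcases h.dich with h1 | ⟨h1, h2, h3, h4⟩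
    · exact Or.inl h1
    · exact Or.inr ⟨h1, h2, fun i => h3 (-i), h4⟩

lemma gd_mirror : G.gd τ (fun i => p (-i)) = G.gd τ p := by
  have h1 : univ.image (fun i => p (-i)) = univ.image p := by
    ext v
    rw [mem_image, mem_image]
    constructor
    · rintro ⟨i, -, hi⟩
      exact ⟨-i, mem_univ _, hi⟩
    · rintro ⟨i, -, hi⟩
      refine ⟨-i, mem_univ _, ?_⟩
      change p (- -i) = v
      rw [neg_neg]
      exact hi
  unfold gd
  rw [h1]

lemma mem_gd {v : V} : v ∈ G.gd τ p ↔ v = G.pi τ ∨ ∃ i, v = p i := by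
  unfold gd
  rw [mem_insert, mem_image]
  constructor
  · rintro (h | ⟨i, -, hi⟩)
    · exact Or.inl h
    · exact Or.inr ⟨i, hi.symm⟩
  · rintro (h | ⟨i, hi⟩)
    · exact Or.inl h
    · exact Or.inr ⟨i, mem_univ _, hi.symm⟩

lemma sK (h : G.St K F τ c c' p f l) (hc : G.Cls K F) : G.pi τ ∈ K := hc.tokK τ h.mτ h.tτ

lemma gd_sub (h : G.St K F τ c c' p f l) (hc : G.Cls K F) : G.gd τ p ⊆ G.vs := by
  intro v hv
  rcases mem_gd.1 hv with h1 | ⟨i, h1⟩
  · rw [h1]
    exact G.pi_mem _ h.mτ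
  · rw [h1]
    exact h.pen.pv hc i

lemma s_ne (h : G.St K F τ c c' p f l) (hc : G.Cls K F) (i : ZMod 5) : G.pi τ ≠ p i := by
  intro he
  exact h.pen.nK i (he ▸ h.sK hc)

lemma gd_card (h : G.St K F τ c c' p f l) (hc : G.Cls K F) : (G.gd τ p).card = 6 := by
  unfold gd
  rw [card_insert_of_notMem, h.pen.card]
  intro hm
  obtain ⟨i, -, hi⟩ := mem_image.1 hm
  exact h.s_ne hc i hi.symm

/-- the three darts at `s` -/
lemma three (h : G.St K F τ c c' p f l) {d : D} (hd : d ∈ G.ds) (hp : G.pi d = G.pi τ) :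
    d = τ ∨ d = c ∨ d = c' := by
  have h3 := G.cubic (G.pi τ) (G.pi_mem τ h.mτ)
  have hs : ({τ, c, c'} : Finset D) ⊆ G.ds.filter fun d => G.pi d = G.pi τ := by
    intro e he
    rw [mem_insert, mem_insert, mem_singleton] at he
    rw [mem_filter]
    rcases he with he | he | he
    · rw [he]
      exact ⟨h.mτ, rfl⟩
    · rw [he]
      exact ⟨h.mc, h.pc⟩
    · rw [he]
      exact ⟨h.mc', h.pc'⟩
  have hcard : ({τ, c, c'} : Finset D).card = 3 := by
    rw [card_eq_three]
    exact ⟨τ, c, c', h.n1, h.n2, h.n3, rfl⟩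
  have he := eq_of_subset_of_card_le hs (by rw [hcard, h3])
  have hm : d ∈ ({τ, c, c'} : Finset D) := by
    rw [he, mem_filter]
    exact ⟨hd, hp⟩
  rw [mem_insert, mem_insert, mem_singleton] at hm
  exact hm

/-- the far end of `c'` is outside the gadget if `c'` is not a token -/
lemma c'_out (h : G.St K F τ c c' p f l) (hw : G.PW K F) (ht : G.al c' ≠ c') :
    G.pi (G.al c') ∉ G.gd τ p := by
  rcases h.dich with h1 | ⟨h1, h2, h3, h4⟩
  · exact absurd h1 ht
  · intro hm
    rcases mem_gd.1 hm with h5 | ⟨i, h5⟩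
    · exact h2 (h5 ▸ h.sK hw.cls)
    · exact h3 i h5

/-- the outer ends of the legs are outside the gadget -/
lemma o_out (h : G.St K F τ c c' p f l) (hw : G.PW K F) {i : ZMod 5} (hi : i ≠ 0) :
    G.pi (G.al (l i)) ∉ G.gd τ p := by
  intro hm
  rcases mem_gd.1 hm with h5 | ⟨j, h5⟩
  · have hal := G.al_al _ (h.pen.lm i)
    rcases h.three (G.al_mem _ (h.pen.lm i)) h5 with h1 | h1 | h1
    · rw [h1, h.tτ] at hal
      apply h.s_ne hw.cls i
      rw [hal, h.pen.lp]
    · rw [h1, h.ac] at hal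
      exact hi (h.pen.l_inj hal.symm)
    · rw [h1] at hal
      have h2 : G.pi (G.al c') = p i := by rw [hal, h.pen.lp]
      have h3 : G.al c' ≠ c' := by
        intro he
        rw [he, h.pc'] at h2
        exact h.s_ne hw.cls i h2
      exact h.c'_out hw h3 (mem_gd.2 (Or.inr ⟨i, h2⟩))
  · exact h.pen.lo i j h5

/-- the star of the gadget -/
lemma mem_sb_gd (h : G.St K F τ c c' p f l) (hw : G.PW K F) {d : D} :
    d ∈ G.sb (G.gd τ p) ↔ d = τ ∨ d = c' ∨ ∃ i, i ≠ 0 ∧ d = l i := by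
  have hm : ∀ i, p i ∈ G.gd τ p := fun i => mem_gd.2 (Or.inr ⟨i, rfl⟩)
  have hs : G.pi τ ∈ G.gd τ p := mem_gd.2 (Or.inl rfl)
  have hc := hw.cls
  rw [mem_sb]
  constructor
  · rintro ⟨h1, h2, h3⟩
    rcases mem_gd.1 h2 with h4 | ⟨i, h4⟩
    · rcases h.three h1 h4 with h5 | h5 | h5
      · exact Or.inl h5
      · exfalso
        rw [h5, h.ac] at h3
        rcases h3 with h3 | h3
        · apply h.s_ne hc 0
          rw [← h.pc, ← h3, h.pen.lp]
        · exact h3 (by rw [h.pen.lp]; exact hm _)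
      · exact Or.inr (Or.inl h5)
    · rcases h.pen.three i d h1 h4 with h5 | h5 | h5
      · exfalso
        rw [h5] at h3
        rcases h3 with h3 | h3
        · exact hc.Ftok _ (h.pen.fF i) h3
        · exact h3 (by rw [h.pen.fa]; exact hm _)
      · exfalso
        rw [h5, G.al_al _ (h.pen.fm hc _)] at h3
        rcases h3 with h3 | h3
        · exact hc.Ftok _ (h.pen.fF _) h3.symm
        · exact h3 (by rw [h.pen.fp]; exact hm _)
      · refine Or.inr (Or.inr ⟨i, ?_, h5⟩)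
        intro h0
        rw [h5, h0] at h3
        have hal : G.al (l 0) = c := by rw [← h.ac, G.al_al c h.mc]
        rcases h3 with h3 | h3
        · exact h.pen.l_tok 0 h3
        · exact h3 (by rw [hal, h.pc]; exact hs)
  · rintro (rfl | rfl | ⟨i, h0, rfl⟩)
    · exact ⟨h.mτ, hs, Or.inl h.tτ⟩
    · refine ⟨h.mc', by rw [h.pc']; exact hs, ?_⟩
      by_cases ht : G.al d = d
      · exact Or.inl ht
      · exact Or.inr (h.c'_out hw ht)
    · exact ⟨h.pen.lm i, by rw [h.pen.lp]; exact hm i, Or.inr (h.o_out hw h0)⟩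

lemma dg_gd (h : G.St K F τ c c' p f l) (hw : G.PW K F) : G.dg (G.gd τ p) = 6 := by
  have hc := hw.cls
  have hne : ∀ d i, G.pi d = G.pi τ → d ≠ l i := by
    intro d i hd he
    apply h.s_ne hc i
    rw [← hd, he, h.pen.lp]
  have he : G.sb (G.gd τ p) = insert τ (insert c' ((univ.erase 0).image l)) := by
    ext d
    rw [h.mem_sb_gd hw, mem_insert, mem_insert, mem_image]
    constructor
    · rintro (h1 | h1 | ⟨i, h1, h2⟩)
      · exact Or.inl h1
      · exact Or.inr (Or.inl h1)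
      · exact Or.inr (Or.inr ⟨i, mem_erase.2 ⟨h1, mem_univ _⟩, h2.symm⟩)
    · rintro (h1 | h1 | ⟨i, h1, h2⟩)
      · exact Or.inl h1
      · exact Or.inr (Or.inl h1)
      · exact Or.inr (Or.inr ⟨i, (mem_erase.1 h1).1, h2.symm⟩)
  have hn : ∀ d, G.pi d = G.pi τ → d ∉ ((univ : Finset (ZMod 5)).erase 0).image l := by
    intro d hd hm
    obtain ⟨i, -, hi⟩ := mem_image.1 hm
    exact hne d i hd hi.symm
  have h2 : τ ∉ insert c' (((univ : Finset (ZMod 5)).erase 0).image l) := by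
    intro hm
    rcases mem_insert.1 hm with h1 | h1
    · exact h.n2 h1
    · exact hn τ rfl h1
  rw [dg_sb, he, card_insert_of_notMem h2, card_insert_of_notMem (hn c' h.pc'),
    card_image_of_injective _ h.pen.l_inj, card_erase_of_mem (mem_univ _), card_univ, ZMod.card]

/-- the nodes form a partition -/
lemma nabs (hw : G.PW K F) {v : V} (hv : v ∈ G.vs) (hK : v ∉ K) : ¬ G.Abs K F v := fun ha =>
  ha _ (hw.cir_adm hv hK) (self_mem_cir hv)

/-- the circuit of a fresh vertex outside the pentagon is outside the gadget -/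
lemma cir_gd (h : G.St K F τ c c' p f l) (hw : G.PW K F) {v w : V} (hv : v ∈ G.vs) (hK : v ∉ K)
    (hg : ∀ i, v ≠ p i) (hm : w ∈ G.cir K F v) : w ∉ G.gd τ p ∧ w ∉ K ∧
      G.cir K F w = G.cir K F v := by
  have hwK : w ∉ K := (hw.cir_adm hv hK).dis w hm
  have he := cir_eq hw.cls (nabs hw hv hK) hm
  refine ⟨?_, hwK, he⟩
  intro h1
  rcases mem_gd.1 h1 with h2 | ⟨i, h2⟩
  · exact hwK (h2 ▸ h.sK hw.cls)
  · rw [h2, h.pen.cir_eq hw.cls i] at he
    have h3 := self_mem_cir (K := K) (F := F) hv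
    rw [← he] at h3
    obtain ⟨j, -, hj⟩ := mem_image.1 h3
    exact hg j hj.symm

lemma part (h : G.St K F τ c c' p f l) (hw : G.PW K F) : G.Part (G.nd K F (G.gd τ p)) where
  self := by
    intro v hv
    unfold nd
    split_ifs with h1 h2
    · exact h1
    · exact mem_singleton_self v
    · exact self_mem_cir hv
  sub := by
    intro v hv
    unfold nd
    split_ifs with h1 h2
    · exact h.gd_sub hw.cls
    · exact singleton_subset_iff.2 hv
    · exact (hw.cir_adm hv h2).sub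
  eq := by
    intro v hv w hm
    by_cases h1 : v ∈ G.gd τ p
    · unfold nd at hm ⊢
      rw [if_pos h1] at hm ⊢
      rw [if_pos hm]
    · by_cases h2 : v ∈ K
      · unfold nd at hm
        rw [if_neg h1, if_pos h2, mem_singleton] at hm
        rw [hm]
      · unfold nd at hm ⊢
        rw [if_neg h1, if_neg h2] at hm ⊢
        obtain ⟨h3, h4, h5⟩ := h.cir_gd hw hv h2
          (fun i hi => h1 (mem_gd.2 (Or.inr ⟨i, hi⟩))) hm
        rw [if_neg h3, if_neg h4, h5]

lemma gd_sat (h : G.St K F τ c c' p f l) (hw : G.PW K F) :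
    CSat (G.nd K F (G.gd τ p)) (G.gd τ p) := by
  intro v hv
  unfold nd
  rw [if_pos hv]

/-- the target set is saturated, in `vs`, and disjoint from the gadget -/
lemma tg_sat (h : G.St K F τ c c' p f l) (hw : G.PW K F) :
    CSat (G.nd K F (G.gd τ p)) (G.tg K F τ c') ∧ G.tg K F τ c' ⊆ G.vs ∧
      Disjoint (G.tg K F τ c') (G.gd τ p) := by
  have hc := hw.cls
  -- the elements of the target
  have key : ∀ v ∈ G.tg K F τ c', (v ∈ K ∧ v ≠ G.pi τ) ∨ (G.al c' ≠ c' ∧
      v ∈ G.cir K F (G.pi (G.al c')) ∧ v ∉ G.gd τ p ∧ v ∉ K ∧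
      G.cir K F v = G.cir K F (G.pi (G.al c'))) := by
    intro v hv
    unfold tg at hv
    rcases mem_union.1 hv with h1 | h1
    · rw [mem_erase] at h1
      exact Or.inl ⟨h1.2, h1.1⟩
    · by_cases ht : G.al c' = c'
      · rw [if_pos ht] at h1
        exact absurd h1 (notMem_empty v)
      · rw [if_neg ht] at h1
        rcases h.dich with h2 | ⟨h2, h3, h4, -⟩
        · exact absurd h2 ht
        · have hm' := G.pi_mem _ (G.al_mem _ h.mc')
          obtain ⟨h5, h6, h7⟩ := h.cir_gd hw hm' h3 h4 h1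
          exact Or.inr ⟨ht, h1, h5, h6, h7⟩
  have hsub : G.tg K F τ c' ⊆ G.vs := by
    intro v hv
    rcases key v hv with h1 | ⟨-, h1, -⟩
    · exact hc.Ksub h1.1
    · exact (mem_cir.1 h1).1
  have hout : ∀ v ∈ G.tg K F τ c', v ∉ G.gd τ p := by
    intro v hv
    rcases key v hv with ⟨h1, h2⟩ | ⟨-, -, h1, -⟩
    · intro h3
      rcases mem_gd.1 h3 with h4 | ⟨i, h4⟩
      · exact h2 h4
      · exact h.pen.nK i (h4 ▸ h1)
    · exact h1
  refine ⟨?_, hsub, disjoint_left.2 hout⟩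
  intro v hv w hm
  unfold nd at hm
  rw [if_neg (hout v hv)] at hm
  rcases key v hv with ⟨h1, h2⟩ | ⟨ht, h1, h2, h3, h4⟩
  · rw [if_pos h1, mem_singleton] at hm
    rw [hm]
    exact hv
  · rw [if_neg h3, h4] at hm
    unfold tg
    rw [if_neg ht]
    exact mem_union_right _ hm

/-- saturated sets outside the gadget and the target are unions of fresh circuits -/
lemma adm_of_sat (h : G.St K F τ c c' p f l) (hw : G.PW K F) {X : Finset V} (hX : X ⊆ G.vs)
    (hs : CSat (G.nd K F (G.gd τ p)) X) (hg : Disjoint X (G.gd τ p))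
    (hT : Disjoint X (G.tg K F τ c')) : G.Adm K F X := by
  have hs' : G.pi τ ∈ G.gd τ p := mem_gd.2 (Or.inl rfl)
  have hK : ∀ v ∈ X, v ∉ K := by
    intro v hv hvK
    refine disjoint_left.1 hT hv ?_
    unfold tg
    refine mem_union_left _ (mem_erase.2 ⟨?_, hvK⟩)
    intro he
    exact disjoint_left.1 hg hv (he ▸ hs')
  refine ⟨hX, hK, ?_⟩
  intro d hd hv
  have h1 := hs _ hv
  unfold nd at h1
  rw [if_neg (disjoint_left.1 hg hv), if_neg (hK _ hv)] at h1
  exact h1 (cir_mem_al hw.cls hd)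

/-- (C) for saturated sets -/
lemma five (h : G.St K F τ c c' p f l) (hw : G.PW K F) {X : Finset V} (hX : X ⊆ G.vs)
    (hs : CSat (G.nd K F (G.gd τ p)) X) (hg : Disjoint X (G.gd τ p))
    (hT : Disjoint X (G.tg K F τ c')) (ho : Odd X.card) : 5 ≤ G.dg X := by
  have h1 := hw.cc X (h.adm_of_sat hw hX hs hg hT) ho
  unfold dg
  omega

/-- (F2), (F3): odd sets containing the gadget -/
lemma five_gd (h : G.St K F τ c c' p f l) (hw : G.PW K F) {X : Finset V} (hX : X ⊆ G.vs)
    (hg : G.gd τ p ⊆ X) (ho : Odd X.card) (h3 : G.dg X ≤ 3) :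
    ∃ v, G.vs \ X = {v} ∧ (G.tk {v}).card = 2 ∧ v ≠ G.pi τ ∧ G.al c' = c' := by
  have hs' : G.pi τ ∈ X := hg (mem_gd.2 (Or.inl rfl))
  have h1 := hw.b0 X hX ho
  have h6 := card_le_card hg
  rw [h.gd_card hw.cls] at h6
  have hne : (G.tk X).Nonempty := ⟨τ, G.mem_tk.2 ⟨h.mτ, hs', h.tτ⟩⟩
  obtain ⟨v, hv, h2⟩ := hw.glue X hX ho (by omega) (by omega) hne
  have hvm : v ∈ G.vs \ X := by
    rw [hv]
    exact mem_singleton_self v
  rw [mem_sdiff] at hvm
  refine ⟨v, hv, h2, ?_, ?_⟩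
  · intro he
    exact hvm.2 (he ▸ hs')
  · rcases h.dich with h3 | ⟨-, -, -, h4⟩
    · exact h3
    · have h5 := h4 v hvm.1
      omega

end St

lemma csat_union {cl : V → Finset V} {X Y : Finset V} (hX : CSat cl X) (hY : CSat cl Y) :
    CSat cl (X ∪ Y) := by
  intro v hv
  rcases mem_union.1 hv with h1 | h1
  · exact (hX v h1).trans subset_union_left
  · exact (hY v h1).trans subset_union_right

lemma csat_inter {cl : V → Finset V} {X Y : Finset V} (hX : CSat cl X) (hY : CSat cl Y) :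
    CSat cl (X ∩ Y) := fun v hv =>
  subset_inter (hX v (mem_inter.1 hv).1) (hY v (mem_inter.1 hv).2)

lemma csat_sdiff {cl : V → Finset V} (hp : G.Part cl) {X Y : Finset V} (hXv : X ⊆ G.vs)
    (hX : CSat cl X) (hY : CSat cl Y) : CSat cl (X \ Y) := by
  intro v hv w hw
  rw [mem_sdiff] at hv ⊢
  refine ⟨hX v hv.1 hw, fun h1 => hv.2 ?_⟩
  have h2 := hp.eq v (hXv hv.1) w hw
  have h3 := hY w h1
  rw [h2] at h3
  exact h3 (hp.self v (hXv hv.1))

end JP.CG
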