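import Pool.Agent.Lib.P5.Defs

/-! Blocking sets (MP_c95763_co, pentagon world). -/

set_option autoImplicit false

namespace JP.CG

open Finset Classical

variable {V D : Type*}

/-- an odd union of nodes outside the gadget -/
structure Blk (G : CG V D) (K : Finset V) (F : Finset D) (τ : D) (p : ZMod 5 → V) (X : Finset V) :
    Prop where
  sub : X ⊆ G.vs
  sat : CSat (G.nd K F (G.gd τ p)) X
  dis : Disjoint X (G.gd τ p)
  odd : Odd X.card

end JP.CG
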