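import Pool.Agent.Lib.P5.Basic
import Pool.Agent.Lib.P5.Blk

/-! Both exits blocked: uncrossing of the two blocking sets (MP_c95763_co, pentagon world). -/

set_option autoImplicit false

namespace JP.CG

open Finset Classical

variable {V D : Type*} {G : CG V D} {K : Finset V} {F : Finset D}

private lemma bb_pgd {τ : D} {p : ZMod 5 → V} (i : ZMod 5) : p i ∈ G.gd τ p :=
  mem_insert_of_mem (mem_image_of_mem p (mem_univ i))

private lemma bb_sgd {τ : D} {p : ZMod 5 → V} : G.pi τ ∈ G.gd τ p := mem_insert_self _ _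

/-- legs of the gadget ending in `W` -/
private lemma bb_add (h : G.PW K F) {τ c c' : D} {p : ZMod 5 → V} {f l : ZMod 5 → D}
    (st : G.St K F τ c c' p f l) {W : Finset V} (hd : Disjoint W (G.gd τ p)) {L : Finset D}
    (hL : ∀ d ∈ L, d ∈ G.ds ∧ G.pi d ∈ G.gd τ p ∧ G.pi (G.al d) ∈ W) :
    G.dg (W ∪ G.gd τ p) + 2 * L.card ≤ G.dg W + 6 := by
  have h1 := G.dg_union hd.symm
  have h2 : L ⊆ G.ed (G.gd τ p) W := fun d hd' => G.mem_ed.2 (hL d hd')
  have h3 := card_le_card h2
  have h4 := st.dg_gd h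
  rw [union_comm]
  omega

private lemma bb_fin (h : G.PW K F) {τ c c' : D} {p : ZMod 5 → V} {f l : ZMod 5 → D}
    (st : G.St K F τ c c' p f l) {W : Finset V} (hW : W ⊆ G.vs) (hd : Disjoint W (G.gd τ p))
    (ho : Odd W.card) {L : Finset D}
    (hL : ∀ d ∈ L, d ∈ G.ds ∧ G.pi d ∈ G.gd τ p ∧ G.pi (G.al d) ∈ W)
    (hc : G.dg W + 3 ≤ 2 * L.card) :
    ∃ v, G.vs \ (W ∪ G.gd τ p) = {v} ∧ (G.tk {v}).card = 2 ∧ v ≠ G.pi τ ∧ G.al c' = c' := by
  have h1 := bb_add h st hd hL
  have h2 : Odd (W ∪ G.gd τ p).card := by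
    rw [card_union_of_disjoint hd, st.gd_card h.cls]
    obtain ⟨k, hk⟩ := ho
    exact ⟨k + 3, by omega⟩
  exact st.five_gd h (union_subset hW (st.gd_sub h.cls)) subset_union_right h2 (by omega)

private lemma bb_l (h : G.PW K F) {τ c c' : D} {p : ZMod 5 → V} {f l : ZMod 5 → D}
    (st : G.St K F τ c c' p f l) {W : Finset V} {i : ZMod 5} (hi : G.pi (G.al (l i)) ∈ W) :
    l i ∈ G.ds ∧ G.pi (l i) ∈ G.gd τ p ∧ G.pi (G.al (l i)) ∈ W :=
  ⟨st.pen.lm i, by rw [st.pen.lp i]; exact bb_pgd i, hi⟩

private lemma bb_c {τ c c' : D} {p : ZMod 5 → V} {f l : ZMod 5 → D}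
    (st : G.St K F τ c c' p f l) {W : Finset V} (hi : G.pi (G.al c') ∈ W) :
    c' ∈ G.ds ∧ G.pi c' ∈ G.gd τ p ∧ G.pi (G.al c') ∈ W :=
  ⟨st.mc', by rw [st.pc']; exact bb_sgd, hi⟩

private lemma bb_cl (h : G.PW K F) {τ c c' : D} {p : ZMod 5 → V} {f l : ZMod 5 → D}
    (st : G.St K F τ c c' p f l) (i : ZMod 5) : c' ≠ l i := by
  intro he
  have h1 := st.sK h.cls
  rw [← st.pc', he, st.pen.lp i] at h1
  exact st.pen.nK i h1

/-- odd union -/
private lemma bb_odd_union {X Z : Finset V} (hX : Odd X.card) (hZ : Odd Z.card)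
    (hI : Odd (X ∩ Z).card) : Odd (X ∪ Z).card := by
  have h1 := card_union_add_card_inter X Z
  rw [Nat.odd_iff] at *
  omega

private lemma bb_odd_sdiff {X Z : Finset V} (hX : Odd X.card)
    (hI : Even (X ∩ Z).card) : Odd (X \ Z).card := by
  have h1 := card_sdiff_add_card_inter X Z
  rw [Nat.even_iff] at hI
  rw [Nat.odd_iff] at *
  omega

/-- the union of two blocking sets with three legs -/
private lemma bb_three (h : G.PW K F) {τ c c' : D} {p : ZMod 5 → V} {f l : ZMod 5 → D}
    (st : G.St K F τ c c' p f l) {X Z : Finset V} (hX : G.Blk K F τ p X) (hZ : G.Blk K F τ p Z)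
    (hI : Odd (X ∩ Z).card) (h3 : G.dg (X ∪ Z) ≤ 3) (hc : G.al c' ≠ c')
    (hc' : G.pi (G.al c') ∈ X ∪ Z) {i j : ZMod 5} (hij : i ≠ j)
    (hi : G.pi (G.al (l i)) ∈ X ∪ Z) (hj : G.pi (G.al (l j)) ∈ X ∪ Z) : False := by
  have hd : Disjoint (X ∪ Z) (G.gd τ p) := disjoint_union_left.2 ⟨hX.dis, hZ.dis⟩
  have hcard : ({c', l i, l j} : Finset D).card = 3 := by
    rw [card_insert_of_notMem, card_insert_of_notMem, card_singleton]
    · rw [mem_singleton]
      exact fun he => hij (st.pen.l_inj he)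
    · rw [mem_insert, mem_singleton, not_or]
      exact ⟨bb_cl h st i, bb_cl h st j⟩
  obtain ⟨v, -, -, -, h4⟩ := bb_fin h st (union_subset hX.sub hZ.sub) hd
    (bb_odd_union hX.odd hZ.odd hI) (L := {c', l i, l j}) (by
      intro d hd
      rcases mem_insert.1 hd with rfl | hd
      · exact bb_c st hc'
      rcases mem_insert.1 hd with rfl | hd
      · exact bb_l h st hi
      · rw [mem_singleton.1 hd]
        exact bb_l h st hj) (by omega)
  exact hc h4

/-- types (i) and (iii) do not occur together -/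
private lemma bb_mixed (h : G.PW K F) {τ c c' : D} {p : ZMod 5 → V} {f l : ZMod 5 → D}
    (st : G.St K F τ c c' p f l) {X Z : Finset V} (hX : G.Blk K F τ p X) (hZ : G.Blk K F τ p Z)
    {i j : ZMod 5} (hij : i ≠ j)
    (hi : G.pi (G.al (l i)) ∈ X) (hj : G.pi (G.al (l j)) ∈ X) (hT : Disjoint X (G.tg K F τ c'))
    (dX : G.dg X = 5) (hc : G.al c' ≠ c') (hcZ : G.pi (G.al c') ∈ Z)
    (hjZ : G.pi (G.al (l j)) ∈ Z) (dZ : G.dg Z = 3) : False := by
  have hpart := st.part h
  rcases Nat.even_or_odd (X ∩ Z).card with hI | hI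
  · have o1 := bb_odd_sdiff hX.odd hI
    have o2 : Odd (Z \ X).card := bb_odd_sdiff hZ.odd (by rw [inter_comm]; exact hI)
    have h5 := st.five h (sdiff_subset.trans hX.sub) (csat_sdiff hpart hX.sub hX.sat hZ.sat)
      (hX.dis.mono_left sdiff_subset) (hT.mono_left sdiff_subset) o1
    have h3 := h.b0 (Z \ X) (sdiff_subset.trans hZ.sub) o2
    have hp := dg_posi2 hX.sub hZ.sub (G.al_mem _ (st.pen.lm j)) hj hjZ (Or.inr (by
      rw [G.al_al _ (st.pen.lm j), st.pen.lp j, mem_union, not_or]
      exact ⟨fun h' => disjoint_left.1 hX.dis h' (bb_pgd j),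
        fun h' => disjoint_left.1 hZ.dis h' (bb_pgd j)⟩))
    omega
  · have h5 := st.five h (inter_subset_left.trans hX.sub) (csat_inter hX.sat hZ.sat)
      (hX.dis.mono_left inter_subset_left) (hT.mono_left inter_subset_left) hI
    have hs := G.dg_sub X Z
    exact bb_three h st hX hZ hI (by omega) hc (mem_union_right _ hcZ) hij
      (mem_union_left _ hi) (mem_union_left _ hj)

/-- both exits blocked, after (S2), (S3): the two blocking sets can be made disjoint -/
theorem PW.bb (h : G.PW K F) {τ c c' : D} {p : ZMod 5 → V} {f l : ZMod 5 → D}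
    (st : G.St K F τ c c' p f l) {X Z : Finset V} (hX : G.Blk K F τ p X) (hZ : G.Blk K F τ p Z)
    (h1 : (G.pi (G.al (l 1)) ∈ X ∧ G.pi (G.al (l 2)) ∈ X ∧ Disjoint X (G.tg K F τ c') ∧
        G.dg X = 5) ∨
      (G.al c' ≠ c' ∧ G.pi (G.al c') ∈ X ∧ G.pi (G.al (l 3)) ∈ X ∧ G.dg X = 3))
    (h2 : (G.pi (G.al (l 4)) ∈ Z ∧ G.pi (G.al (l 3)) ∈ Z ∧ Disjoint Z (G.tg K F τ c') ∧
        G.dg Z = 5) ∨
      (G.al c' ≠ c' ∧ G.pi (G.al c') ∈ Z ∧ G.pi (G.al (l 2)) ∈ Z ∧ G.dg Z = 3)) :
    ∃ X Z, G.Blk K F τ p X ∧ G.Blk K F τ p Z ∧ Disjoint X Z ∧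
      G.pi (G.al (l 1)) ∈ X ∧ G.pi (G.al (l 2)) ∈ X ∧ Disjoint X (G.tg K F τ c') ∧ G.dg X = 5 ∧
      G.pi (G.al (l 4)) ∈ Z ∧ G.pi (G.al (l 3)) ∈ Z ∧ Disjoint Z (G.tg K F τ c') ∧
      G.dg Z = 5 := by
  have hpart := st.part h
  have hout : ∀ i, p i ∉ X ∪ Z := by
    intro i h'
    rcases mem_union.1 h' with h' | h'
    · exact disjoint_left.1 hX.dis h' (bb_pgd i)
    · exact disjoint_left.1 hZ.dis h' (bb_pgd i)
  rcases h1 with ⟨x1, x2, tX, dX⟩ | ⟨hc, xc, x3, dX⟩
  · rcases h2 with ⟨z4, z3, tZ, dZ⟩ | ⟨hc, zc, z2, dZ⟩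
    · rcases Nat.even_or_odd (X ∩ Z).card with hI | hI
      · -- disjoint versions
        have o1 := bb_odd_sdiff hX.odd hI
        have o2 : Odd (Z \ X).card := bb_odd_sdiff hZ.odd (by rw [inter_comm]; exact hI)
        have s1 := csat_sdiff hpart hX.sub hX.sat hZ.sat
        have s2 := csat_sdiff hpart hZ.sub hZ.sat hX.sat
        have d1 : Disjoint (X \ Z) (G.gd τ p) := hX.dis.mono_left sdiff_subset
        have d2 : Disjoint (Z \ X) (G.gd τ p) := hZ.dis.mono_left sdiff_subset
        have t1 : Disjoint (X \ Z) (G.tg K F τ c') := tX.mono_left sdiff_subset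
        have t2 : Disjoint (Z \ X) (G.tg K F τ c') := tZ.mono_left sdiff_subset
        have f1 := st.five h (sdiff_subset.trans hX.sub) s1 d1 t1 o1
        have f2 := st.five h (sdiff_subset.trans hZ.sub) s2 d2 t2 o2
        have hp := G.dg_posi hX.sub hZ.sub
        have hno : ∀ i, G.pi (G.al (l i)) ∈ X → G.pi (G.al (l i)) ∈ Z → False := by
          intro i hi1 hi2
          have := dg_posi2 hX.sub hZ.sub (G.al_mem _ (st.pen.lm i)) hi1 hi2 (Or.inr (by
            rw [G.al_al _ (st.pen.lm i), st.pen.lp i]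
            exact hout i))
          omega
        refine ⟨X \ Z, Z \ X, ⟨sdiff_subset.trans hX.sub, s1, d1, o1⟩,
          ⟨sdiff_subset.trans hZ.sub, s2, d2, o2⟩, ?_, ?_, ?_, t1, by omega, ?_, ?_, t2, by omega⟩
        · rw [disjoint_left]
          intro v h3 h4
          exact (mem_sdiff.1 h3).2 (mem_sdiff.1 h4).1
        · exact mem_sdiff.2 ⟨x1, fun h' => hno 1 x1 h'⟩
        · exact mem_sdiff.2 ⟨x2, fun h' => hno 2 x2 h'⟩
        · exact mem_sdiff.2 ⟨z4, fun h' => hno 4 h' z4⟩
        · exact mem_sdiff.2 ⟨z3, fun h' => hno 3 h' z3⟩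
      · exfalso
        have h5 := st.five h (inter_subset_left.trans hX.sub) (csat_inter hX.sat hZ.sat)
          (hX.dis.mono_left inter_subset_left) (tX.mono_left inter_subset_left) hI
        have hs := G.dg_sub X Z
        have hd : Disjoint (X ∪ Z) (G.gd τ p) := disjoint_union_left.2 ⟨hX.dis, hZ.dis⟩
        have hcard : (({1, 2, 3, 4} : Finset (ZMod 5)).image l).card = 4 := by
          rw [card_image_of_injective _ st.pen.l_inj]
          decide
        obtain ⟨v, hv1, hv2, hv3, hv4⟩ := bb_fin h st (union_subset hX.sub hZ.sub) hd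
          (bb_odd_union hX.odd hZ.odd hI) (L := ({1, 2, 3, 4} : Finset (ZMod 5)).image l) (by
            intro d hd
            obtain ⟨i, hi, rfl⟩ := mem_image.1 hd
            apply bb_l h st
            simp only [mem_insert, mem_singleton] at hi
            rcases hi with rfl | rfl | rfl | rfl
            · exact mem_union_left _ x1
            · exact mem_union_left _ x2
            · exact mem_union_right _ z3
            · exact mem_union_right _ z4) (by omega)
        -- `K = {s, v}`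
        have hvv : v ∈ G.vs := (mem_sdiff.1 (by rw [hv1]; exact mem_singleton_self v)).1
        have hs2 : (G.tk {G.pi τ}).card = 2 := by
          have e1 : G.tk {G.pi τ} = {τ, c'} := by
            ext d
            rw [G.mem_tk, mem_singleton, mem_insert, mem_singleton]
            constructor
            · rintro ⟨m1, m2, m3⟩
              rcases st.three m1 m2 with rfl | rfl | rfl
              · exact Or.inl rfl
              · exfalso
                rw [st.ac] at m3
                have h6 := bb_cl h st 0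
                have h7 := st.sK h.cls
                rw [← m2, ← m3, st.pen.lp 0] at h7
                exact st.pen.nK 0 h7
              · exact Or.inr rfl
            · rintro (rfl | rfl)
              · exact ⟨st.mτ, rfl, st.tτ⟩
              · exact ⟨st.mc', st.pc', hv4⟩
          rw [e1, card_pair st.n2]
        refine h.dbl2 (G.pi τ) v hv3.symm hs2 hv2 ?_
        have hvK : v ∈ K := by
          obtain ⟨d, hd'⟩ := card_pos.1 (by rw [hv2]; norm_num : 0 < (G.tk {v}).card)
          rw [G.mem_tk, mem_singleton] at hd'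
          rw [← hd'.2.1]
          exact h.cls.tokK d hd'.1 hd'.2.2
        apply Subset.antisymm
        · intro w hw
          rw [mem_insert, mem_singleton]
          by_contra hcon
          rw [not_or] at hcon
          have hwv := h.cls.Ksub hw
          have hw2 : w ∈ X ∪ Z ∪ G.gd τ p := by
            by_contra h'
            have h8 : w ∈ G.vs \ (X ∪ Z ∪ G.gd τ p) := mem_sdiff.2 ⟨hwv, h'⟩
            rw [hv1, mem_singleton] at h8
            exact hcon.2 h8
          have htg : w ∈ G.tg K F τ c' := by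
            unfold tg
            exact mem_union_left _ (mem_erase.2 ⟨hcon.1, hw⟩)
          rcases mem_union.1 hw2 with h8 | h8
          · rcases mem_union.1 h8 with h8 | h8
            · exact disjoint_left.1 tX h8 htg
            · exact disjoint_left.1 tZ h8 htg
          · unfold gd at h8
            rcases mem_insert.1 h8 with h8 | h8
            · exact hcon.1 h8
            · obtain ⟨i, -, rfl⟩ := mem_image.1 h8
              exact st.pen.nK i hw
        · intro w hw
          rw [mem_insert, mem_singleton] at hw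
          rcases hw with rfl | rfl
          · exact st.sK h.cls
          · exact hvK
    · exact (bb_mixed h st hX hZ (i := 1) (j := 2) (by decide) x1 x2 tX dX hc zc z2 dZ).elim
  · rcases h2 with ⟨z4, z3, tZ, dZ⟩ | ⟨-, zc, z2, dZ⟩
    · exact (bb_mixed h st hZ hX (i := 4) (j := 3) (by decide) z4 z3 tZ dZ hc xc x3 dX).elim
    · exfalso
      rcases Nat.even_or_odd (X ∩ Z).card with hI | hI
      · have o1 := bb_odd_sdiff hX.odd hI
        have o2 : Odd (Z \ X).card := bb_odd_sdiff hZ.odd (by rw [inter_comm]; exact hI)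
        have h3 := h.b0 (X \ Z) (sdiff_subset.trans hX.sub) o1
        have h4 := h.b0 (Z \ X) (sdiff_subset.trans hZ.sub) o2
        have hp := dg_posi2 hX.sub hZ.sub (G.al_mem _ st.mc') xc zc (Or.inr (by
          rw [G.al_al _ st.mc', st.pc', mem_union, not_or]
          exact ⟨fun h' => disjoint_left.1 hX.dis h' bb_sgd,
            fun h' => disjoint_left.1 hZ.dis h' bb_sgd⟩))
        omega
      · have h3 := h.b0 (X ∩ Z) (inter_subset_left.trans hX.sub) hI
        have hs := G.dg_sub X Z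
        exact bb_three h st hX hZ hI (by omega) hc (mem_union_left _ xc) (i := 3) (j := 2)
          (by decide) (mem_union_left _ x3) (mem_union_right _ z2)

end JP.CG
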