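import Pool.Agent.Lib.P5.S5Fill

/-! Merged classes and symmetries modulo classes (MP_c95763_co, pentagon world). -/

set_option autoImplicit false

namespace JP.CG

open Finset Classical

variable {V D : Type*} {G : CG V D}

/-! ### merged classes -/

lemma co_mem {cl : V → Finset V} {X : Finset V} {v : V} (h : v ∈ X) : co cl X v = X := if_pos h

lemma co_not {cl : V → Finset V} {X : Finset V} {v : V} (h : v ∉ X) : co cl X v = cl v := if_neg h

lemma Part.mem_iff {cl : V → Finset V} (hp : G.Part cl) {X : Finset V} (sX : CSat cl X) {v w : V}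
    (hv : v ∈ G.vs) (hw : w ∈ cl v) : w ∈ X ↔ v ∈ X := by
  constructor
  · intro h
    have h1 := sX w h
    rw [hp.eq v hv w hw] at h1
    exact h1 (hp.self v hv)
  · intro h
    exact sX v h hw

lemma Part.co {cl : V → Finset V} (hp : G.Part cl) {X : Finset V} (hX : X ⊆ G.vs)
    (sX : CSat cl X) : G.Part (co cl X) where
  self := by
    intro v hv
    by_cases h : v ∈ X
    · rw [co_mem h]
      exact h
    · rw [co_not h]
      exact hp.self v hv
  sub := by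
    intro v hv
    by_cases h : v ∈ X
    · rw [co_mem h]
      exact hX
    · rw [co_not h]
      exact hp.sub v hv
  eq := by
    intro v hv w hw
    by_cases h : v ∈ X
    · rw [co_mem h] at hw ⊢
      rw [co_mem hw]
    · rw [co_not h] at hw ⊢
      rw [co_not fun h1 => h ((hp.mem_iff sX hv hw).1 h1)]
      exact hp.eq v hv w hw

lemma csat_co_disj {cl : V → Finset V} {X Y : Finset V} (hd : Disjoint Y X) (sY : CSat cl Y) :
    CSat (co cl X) Y := by
  intro v hv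
  rw [co_not (disjoint_left.1 hd hv)]
  exact sY v hv

lemma csat_of_co {cl : V → Finset V} {X Y : Finset V} (sX : CSat cl X) (hY : CSat (co cl X) Y) :
    CSat cl Y := by
  intro v hv
  by_cases h : v ∈ X
  · have h1 := hY v hv
    rw [co_mem h] at h1
    exact (sX v h).trans h1
  · have h1 := hY v hv
    rwa [co_not h] at h1

lemma co_comm (cl : V → Finset V) {X Z : Finset V} (hd : Disjoint X Z) :
    co (co cl X) Z = co (co cl Z) X := by
  funext v
  by_cases hX : v ∈ X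
  · rw [co_mem hX, co_not (disjoint_left.1 hd hX), co_mem hX]
  · rw [co_not hX]
    by_cases hZ : v ∈ Z
    · rw [co_mem hZ, co_mem hZ]
    · rw [co_not hZ, co_not hZ, co_not hX]

/-! ### symmetries modulo the classes -/

private lemma co_sb {X : Finset V} {d : D} :
    d ∈ G.sb X ↔ d ∈ G.ds ∧ G.pi d ∈ X ∧ (G.al d = d ∨ G.pi (G.al d) ∉ X) := by
  unfold sb
  rw [mem_filter]

/-- an involution of the darts which respects the edges and the classes -/
structure Sy (G : CG V D) (cl : V → Finset V) (σ : D → D) : Prop where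
  ds : ∀ d ∈ G.ds, σ d ∈ G.ds
  inv : ∀ d ∈ G.ds, σ (σ d) = d
  al : ∀ d ∈ G.ds, G.al (σ d) = σ (G.al d)
  pi : ∀ d ∈ G.ds, G.pi (σ d) ∈ cl (G.pi d)

namespace Sy

variable {cl : V → Finset V} {σ : D → D}

lemma mem_iff (hs : Sy G cl σ) (hp : G.Part cl) {X : Finset V} (sX : CSat cl X) {d : D}
    (hd : d ∈ G.ds) : G.pi (σ d) ∈ X ↔ G.pi d ∈ X :=
  hp.mem_iff sX (G.pi_mem d hd) (hs.pi d hd)

lemma cl_sat (hp : G.Part cl) {v : V} (hv : v ∈ G.vs) : CSat cl (cl v) := by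
  intro w hw
  rw [hp.eq v hv w hw]

lemma inj (hs : Sy G cl σ) {d d' : D} (hd : d ∈ G.ds) (hd' : d' ∈ G.ds) (h : σ d = σ d') :
    d = d' := by
  rw [← hs.inv d hd, h, hs.inv d' hd']

lemma sb_iff (hs : Sy G cl σ) (hp : G.Part cl) {X : Finset V} (sX : CSat cl X) {d : D}
    (hd : d ∈ G.ds) : σ d ∈ G.sb X ↔ d ∈ G.sb X := by
  rw [co_sb, co_sb, hs.mem_iff hp sX hd, hs.al d hd, hs.mem_iff hp sX (G.al_mem d hd)]
  constructor
  · rintro ⟨-, h1, h2⟩
    refine ⟨hd, h1, h2.imp_left fun h3 => hs.inj (G.al_mem d hd) hd h3⟩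
  · rintro ⟨-, h1, h2⟩
    refine ⟨hs.ds d hd, h1, h2.imp_left fun h3 => by rw [h3]⟩

lemma rv_eq (hs : Sy G cl σ) (hp : G.Part cl) {X : Finset V} (sX : CSat cl X) {A : Finset D}
    (hA : A ⊆ G.ds) (u : V) : G.rv (A.image σ) u X = G.rv A u X := by
  unfold rv
  have h1 : G.sb X \ A.image σ = (G.sb X \ A).image σ := by
    ext d
    rw [mem_sdiff, mem_image, mem_image]
    constructor
    · rintro ⟨h2, h3⟩
      have hd := (co_sb.1 h2).1
      refine ⟨σ d, ?_, hs.inv d hd⟩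
      rw [mem_sdiff, hs.sb_iff hp sX hd]
      exact ⟨h2, fun h4 => h3 ⟨σ d, h4, hs.inv d hd⟩⟩
    · rintro ⟨d', h2, rfl⟩
      rw [mem_sdiff] at h2
      have hd := (co_sb.1 h2.1).1
      rw [hs.sb_iff hp sX hd]
      refine ⟨h2.1, ?_⟩
      rintro ⟨d'', h3, h4⟩
      rw [hs.inj (hA h3) hd h4] at h3
      exact h2.2 h3
  rw [h1, card_image_of_injOn]
  intro d hd d' hd' h2
  rw [coe_sdiff, Set.mem_sdiff, mem_coe] at hd hd'
  exact hs.inj (co_sb.1 hd.1).1 (co_sb.1 hd'.1).1 h2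

lemma rt (hs : Sy G cl σ) (hp : G.Part cl) {T : Finset V} (sT : CSat cl T) {e φ : D}
    {A : Finset D} {u : V} (h : G.Rt cl G.vs T e φ A u) (he : σ e = e) (mφ : φ ∈ G.ds)
    (hφ : σ φ = φ) (hT : ∀ d ∈ G.ds, G.pi d ∈ T → σ d = d) :
    G.Rt cl G.vs T e φ (A.image σ) u := by
  have hu := h.um
  have hsu : CSat cl (cl u) := cl_sat hp hu.1
  have huT : cl u ⊆ T := sT u hu.2
  have hds : ∀ d ∈ A, d ∈ G.ds := fun d hd => (h.sub d hd).1
  have hne : ∀ d ∈ G.ds, σ d ≠ e → d ≠ e := by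
    rintro d hd h1 rfl
    exact h1 he
  refine ⟨?_, ?_, ?_, ?_, hu, ?_, ?_, ?_, ?_, ?_⟩
  · intro d hd
    rw [mem_image] at hd
    obtain ⟨d', h1, rfl⟩ := hd
    exact ⟨hs.ds _ (hds _ h1), G.pi_mem _ (hs.ds _ (hds _ h1))⟩
  · exact mem_image.2 ⟨e, h.mem, he⟩
  · intro d hd h2
    rw [mem_image] at hd
    obtain ⟨d', h1, rfl⟩ := hd
    obtain ⟨h3, h4, h5⟩ := h.clo d' h1 (hne _ (hds _ h1) h2)
    rw [hs.al _ (hds _ h1)]
    refine ⟨fun h6 => h3 (hs.inj (hds _ h4) (hds _ h1) h6), mem_image_of_mem _ h4, fun h6 => h5 ?_⟩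
    rw [← hs.inv _ (hds _ h4), h6, he]
  · intro d hd h2
    rw [mem_image] at hd
    obtain ⟨d', h1, rfl⟩ := hd
    have hd' := hds _ h1
    have h3 := h.nl d' h1 (hne _ hd' h2)
    rw [hs.al _ hd', hp.eq _ (G.pi_mem _ hd') _ (hs.pi _ hd'),
      hs.mem_iff hp (cl_sat hp (G.pi_mem _ hd')) (G.al_mem _ hd')]
    exact h3
  · obtain ⟨d, h1, h2, h3⟩ := h.land
    have h4 : σ d = d := hT d (hds _ h1) (by rw [h2]; exact hu.2)
    refine ⟨d, mem_image.2 ⟨d, h1, h4⟩, h2, ?_⟩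
    intro d' hd' h5
    rw [mem_image] at hd'
    obtain ⟨d'', h6, rfl⟩ := hd'
    rw [hs.mem_iff hp hsu (hds _ h6)] at h5
    rw [h3 d'' h6 h5, h4]
  · intro v hv hvu
    have h1 : ((A.image σ).filter fun d => G.pi d ∈ cl v) =
        (A.filter fun d => G.pi d ∈ cl v).image σ := by
      ext d
      rw [mem_filter, mem_image, mem_image]
      constructor
      · rintro ⟨⟨d', h2, rfl⟩, h3⟩
        rw [hs.mem_iff hp (cl_sat hp hv) (hds _ h2)] at h3
        exact ⟨d', mem_filter.2 ⟨h2, h3⟩, rfl⟩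
      · rintro ⟨d', h2, rfl⟩
        rw [mem_filter] at h2
        rw [hs.mem_iff hp (cl_sat hp hv) (hds _ h2.1)]
        exact ⟨⟨d', h2.1, rfl⟩, h2.2⟩
    rw [h1, card_image_of_injOn]
    · exact h.deg v hv hvu
    · intro d hd d' hd' h2
      rw [mem_coe, mem_filter] at hd hd'
      exact hs.inj (hds _ hd.1) (hds _ hd'.1) h2
  · intro d hd h2
    rw [mem_image] at hd
    obtain ⟨d', h1, rfl⟩ := hd
    rw [hs.mem_iff hp sT (hds _ h1)] at h2
    rw [hs.mem_iff hp hsu (hds _ h1)]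
    exact h.off d' h1 h2
  · intro X hX sX h1 h2
    obtain ⟨d1, h3, h4⟩ := h1
    obtain ⟨d2, h5, h6⟩ := h2
    rw [mem_image] at h3 h5
    obtain ⟨d1, h3, rfl⟩ := h3
    obtain ⟨d2, h5, rfl⟩ := h5
    rw [hs.mem_iff hp sX (hds _ h3)] at h4
    rw [hs.mem_iff hp sX (hds _ h5)] at h6
    obtain ⟨d, h7, h8, h9, h10⟩ := h.con X hX sX ⟨d1, h3, h4⟩ ⟨d2, h5, h6⟩
    refine ⟨σ d, mem_image_of_mem _ h7, fun h11 => h8 ?_, ?_, ?_⟩
    · rw [← hs.inv _ (hds _ h7), h11, he]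
    · rwa [hs.mem_iff hp sX (hds _ h7)]
    · rwa [hs.al _ (hds _ h7), hs.mem_iff hp sX (G.al_mem _ (hds _ h7))]
  · intro h1
    obtain ⟨h2, h3⟩ := h.nphi h1
    constructor
    · intro h4
      rw [mem_image] at h4
      obtain ⟨d, h5, h6⟩ := h4
      rw [← hs.inv _ (hds _ h5), h6, hφ] at h5
      exact h2 h5
    · intro h4
      rw [mem_image] at h4
      obtain ⟨d, h5, h6⟩ := h4
      rw [← hs.inv _ (hds _ h5), h6, ← hs.al _ mφ, hφ] at h5
      exact h3 h5

end Sy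

/-- exchange of two parallel edges -/
noncomputable def sw (G : CG V D) (a b d : D) : D :=
  if d = a then b else if d = b then a else if d = G.al a then G.al b
    else if d = G.al b then G.al a else d

lemma sw_fix {a b d : D} (h1 : d ≠ a) (h2 : d ≠ b) (h3 : d ≠ G.al a) (h4 : d ≠ G.al b) :
    G.sw a b d = d := by
  unfold sw
  rw [if_neg h1, if_neg h2, if_neg h3, if_neg h4]

lemma sw_a {a b : D} : G.sw a b a = b := if_pos rfl

lemma sw_b {a b : D} (h : b ≠ a) : G.sw a b b = a := by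
  unfold sw
  rw [if_neg h, if_pos rfl]

lemma sw_aa {a b : D} (h1 : G.al a ≠ a) (h2 : G.al a ≠ b) : G.sw a b (G.al a) = G.al b := by
  unfold sw
  rw [if_neg h1, if_neg h2, if_pos rfl]

lemma sw_bb {a b : D} (h1 : G.al b ≠ a) (h2 : G.al b ≠ b) (h3 : G.al b ≠ G.al a) :
    G.sw a b (G.al b) = G.al a := by
  unfold sw
  rw [if_neg h1, if_neg h2, if_neg h3, if_pos rfl]

lemma sy_sw {cl : V → Finset V} (hp : G.Part cl) {a b : D} (ma : a ∈ G.ds) (mb : b ∈ G.ds)
    (ta : G.al a ≠ a) (tb : G.al b ≠ b) (n1 : a ≠ b) (n2 : G.al a ≠ b)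
    (h1 : G.pi b ∈ cl (G.pi a)) (h2 : G.pi (G.al b) ∈ cl (G.pi (G.al a))) :
    G.Sy cl (G.sw a b) := by
  have ea := G.al_al a ma
  have eb := G.al_al b mb
  have n3 : G.al b ≠ a := by
    intro h
    apply n2
    rw [← h, eb]
  have n4 : G.al b ≠ G.al a := by
    intro h
    apply n1
    rw [← ea, ← h, eb]
  have ma' := G.al_mem a ma
  have mb' := G.al_mem b mb
  have s1 : G.sw a b a = b := sw_a
  have s2 : G.sw a b b = a := sw_b n1.symm
  have s3 : G.sw a b (G.al a) = G.al b := sw_aa ta n2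
  have s4 : G.sw a b (G.al b) = G.al a := sw_bb n3 tb n4
  have hc : ∀ d, d = a ∨ d = b ∨ d = G.al a ∨ d = G.al b ∨ (d ≠ a ∧ d ≠ b ∧ d ≠ G.al a ∧
      d ≠ G.al b ∧ G.sw a b d = d) := by
    intro d
    by_cases e1 : d = a
    · exact Or.inl e1
    by_cases e2 : d = b
    · exact Or.inr (Or.inl e2)
    by_cases e3 : d = G.al a
    · exact Or.inr (Or.inr (Or.inl e3))
    by_cases e4 : d = G.al b
    · exact Or.inr (Or.inr (Or.inr (Or.inl e4)))
    · exact Or.inr (Or.inr (Or.inr (Or.inr ⟨e1, e2, e3, e4, sw_fix e1 e2 e3 e4⟩)))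
  have h1' : G.pi a ∈ cl (G.pi b) := by
    rw [hp.eq _ (G.pi_mem _ ma) _ h1]
    exact hp.self _ (G.pi_mem _ ma)
  have h2' : G.pi (G.al a) ∈ cl (G.pi (G.al b)) := by
    rw [hp.eq _ (G.pi_mem _ ma') _ h2]
    exact hp.self _ (G.pi_mem _ ma')
  refine ⟨?_, ?_, ?_, ?_⟩
  · intro d hd
    rcases hc d with rfl | rfl | rfl | rfl | ⟨-, -, -, -, h5⟩
    · rw [s1]; exact mb
    · rw [s2]; exact ma
    · rw [s3]; exact mb'
    · rw [s4]; exact ma'
    · rw [h5]; exact hd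
  · intro d hd
    rcases hc d with rfl | rfl | rfl | rfl | ⟨-, -, -, -, h5⟩
    · rw [s1, s2]
    · rw [s2, s1]
    · rw [s3, s4]
    · rw [s4, s3]
    · rw [h5, h5]
  · intro d hd
    rcases hc d with rfl | rfl | rfl | rfl | ⟨e1, e2, e3, e4, h5⟩
    · rw [s1, s3]
    · rw [s2, s4]
    · rw [s3, ea, s1, eb]
    · rw [s4, eb, s2, ea]
    · rw [h5, sw_fix]
      · intro h6
        apply e3
        rw [← h6, G.al_al d hd]
      · intro h6
        apply e4
        rw [← h6, G.al_al d hd]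
      · intro h6
        apply e1
        rw [← G.al_al d hd, h6, ea]
      · intro h6
        apply e2
        rw [← G.al_al d hd, h6, eb]
  · intro d hd
    rcases hc d with rfl | rfl | rfl | rfl | ⟨-, -, -, -, h5⟩
    · rw [s1]; exact h1
    · rw [s2]; exact h1'
    · rw [s3]; exact h2
    · rw [s4]; exact h2'
    · rw [h5]; exact hp.self _ (G.pi_mem _ hd)

end JP.CG
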