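import Pool.Agent.Lib.JP.ZRed
import Pool.Agent.Lib.JP.Cyc

/-! The pentagon world (MP_c95763_co, fallback): definitions used by all modules. -/

set_option autoImplicit false

namespace JP.CG

open Finset Classical

variable {V D : Type*}

/-! ### stars, partitions, routes -/

/-- the star of a set: boundary darts and tokens -/
noncomputable def sb (G : CG V D) (X : Finset V) : Finset D :=
  G.ds.filter fun d => G.pi d ∈ X ∧ (G.al d = d ∨ G.pi (G.al d) ∉ X)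

/-- a partition of the vertices, `cl v` is the class of `v` -/
structure Part (G : CG V D) (cl : V → Finset V) : Prop where
  self : ∀ v ∈ G.vs, v ∈ cl v
  sub : ∀ v ∈ G.vs, cl v ⊆ G.vs
  eq : ∀ v ∈ G.vs, ∀ w ∈ cl v, cl w = cl v

/-- saturated: a union of classes -/
def CSat (cl : V → Finset V) (X : Finset V) : Prop := ∀ v ∈ X, cl v ⊆ X

/-- a route: a path in the graph of classes inside the region `R` (everything outside `R` is the
root), starting with the dart `e` (a token or a dart leaving `R`) and ending at the vertex `u`, whose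
class is in `T`; `φ` is a forbidden edge -/
structure Rt (G : CG V D) (cl : V → Finset V) (R T : Finset V) (e φ : D) (A : Finset D) (u : V) :
    Prop where
  sub : ∀ d ∈ A, d ∈ G.ds ∧ G.pi d ∈ R
  mem : e ∈ A
  clo : ∀ d ∈ A, d ≠ e → G.al d ≠ d ∧ G.al d ∈ A ∧ G.al d ≠ e
  nl : ∀ d ∈ A, d ≠ e → G.pi (G.al d) ∉ cl (G.pi d)
  um : u ∈ R ∧ u ∈ T
  land : ∃ d ∈ A, G.pi d = u ∧ ∀ d' ∈ A, G.pi d' ∈ cl u → d' = d
  deg : ∀ v ∈ R, v ∉ cl u → (A.filter fun d => G.pi d ∈ cl v).card = 0 ∨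
    (A.filter fun d => G.pi d ∈ cl v).card = 2
  off : ∀ d ∈ A, G.pi d ∈ T → G.pi d ∈ cl u
  con : ∀ X ⊆ R, CSat cl X → (∃ d ∈ A, G.pi d ∈ X) → (∃ d ∈ A, G.pi d ∉ X) →
    ∃ d ∈ A, d ≠ e ∧ G.pi d ∈ X ∧ G.pi (G.al d) ∉ X
  nphi : G.al φ ≠ φ → φ ∉ A ∧ G.al φ ∉ A

/-- the value of a route: live darts of the star, plus the new token -/
noncomputable def rv (G : CG V D) (A : Finset D) (u : V) (X : Finset V) : ℕ :=
  (G.sb X \ A).card + if u ∈ X then 1 else 0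

/-- a crossing of the region `R` from `e1` to `e2` (both leave `R`) -/
structure Rx (G : CG V D) (cl : V → Finset V) (R : Finset V) (e1 e2 : D) (B : Finset D) :
    Prop where
  sub : ∀ d ∈ B, d ∈ G.ds ∧ G.pi d ∈ R
  mem1 : e1 ∈ B
  mem2 : e2 ∈ B
  clo : ∀ d ∈ B, d ≠ e1 → d ≠ e2 → G.al d ≠ d ∧ G.al d ∈ B ∧ G.al d ≠ e1 ∧ G.al d ≠ e2
  nl : ∀ d ∈ B, d ≠ e1 → d ≠ e2 → G.pi (G.al d) ∉ cl (G.pi d)
  deg : ∀ v ∈ R, (B.filter fun d => G.pi d ∈ cl v).card = 0 ∨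
    (B.filter fun d => G.pi d ∈ cl v).card = 2
  con : ∀ X ⊆ R, CSat cl X → (∃ d ∈ B, G.pi d ∈ X) → (∃ d ∈ B, G.pi d ∉ X) →
    ∃ d ∈ B, d ≠ e1 ∧ d ≠ e2 ∧ G.pi d ∈ X ∧ G.pi (G.al d) ∉ X

/-! ### the pentagon world -/

/-- a labelled fresh pentagon: vertices `p i`, circuit darts `f i` (from `p i` to `p (i+1)`), legs
`l i` -/
structure Pen (G : CG V D) (K : Finset V) (F : Finset D) (p : ZMod 5 → V) (f l : ZMod 5 → D) :
    Prop where
  inj : Function.Injective p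
  nK : ∀ i, p i ∉ K
  fF : ∀ i, f i ∈ F
  fp : ∀ i, G.pi (f i) = p i
  fa : ∀ i, G.pi (G.al (f i)) = p (i + 1)
  lm : ∀ i, l i ∈ G.ds
  lF : ∀ i, l i ∉ F
  lp : ∀ i, G.pi (l i) = p i
  lo : ∀ i j, G.pi (G.al (l i)) ≠ p j
  three : ∀ i, ∀ d ∈ G.ds, G.pi d = p i → d = f i ∨ d = G.al (f (i - 1)) ∨ d = l i

/-- the facts about a minimal counterexample of the pentagon world which are used -/
structure PW (G : CG V D) (K : Finset V) (F : Finset D) : Prop where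
  even : Even G.vs.card
  b0 : G.B0
  cls : G.Cls K F
  cc : G.CC K F
  full : G.Full K F
  four : (G.tk G.vs).card = 4
  /-- (F0) -/
  two : ∀ X ⊆ G.vs, Even X.card → X.Nonempty → X ≠ G.vs → 2 ≤ (G.bd X).card
  /-- (F4) -/
  pen : ∀ v ∈ G.vs, v ∉ K → ∃ p f l, G.Pen K F p f l ∧ p 0 = v
  /-- (F2) -/
  glue : ∀ X ⊆ G.vs, Odd X.card → 1 < X.card → G.dg X = 3 → (G.tk X).Nonempty →
    ∃ v, G.vs \ X = {v} ∧ (G.tk {v}).card = 2
  /-- (F3) -/
  dbl2 : ∀ s v, s ≠ v → (G.tk {s}).card = 2 → (G.tk {v}).card = 2 → K ≠ {s, v}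
  /-- (F1) -/
  tk2 : ∀ v ∈ G.vs, (G.tk {v}).card ≤ 2
  double : ∀ σ ∈ G.ds, ∀ τ ∈ G.ds, ∀ u ∈ G.ds, G.al σ = σ → G.al τ = τ → G.pi τ = G.pi σ →
    G.pi u = G.pi σ → σ ≠ τ → σ ≠ u → τ ≠ u → G.al u ≠ u ∧ G.pi (G.al u) ∉ K
  single : ∀ σ ∈ G.ds, ∀ u1 ∈ G.ds, ∀ u2 ∈ G.ds, G.al σ = σ → G.al u1 ≠ u1 → G.al u2 ≠ u2 →
    G.pi u1 = G.pi σ → G.pi u2 = G.pi σ → σ ≠ u1 → σ ≠ u2 → u1 ≠ u2 →
    G.pi (G.al u1) ∉ K ∧ G.pi (G.al u2) ∉ K ∧
      ∃ Z, G.Adm K F Z ∧ G.pi (G.al u1) ∈ Z ∧ G.pi (G.al u2) ∉ Z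

/-- weights which finish (see `MC2.zkill`) -/
def Win (G : CG V D) (K : Finset V) (F : Finset D) : Prop :=
  ∃ (z : D → ℕ) (t : V → ℕ), G.ZW z t ∧ G.ZB z t ∧
    ∑ d ∈ G.tk G.vs, z d + ∑ v ∈ G.vs, t v ≤ 4 ∧ G.ZJoined K F z ∧ ∃ v ∈ G.ztch z, v ∉ K

/-- the nodes: the set `C`, the vertices of `K` outside `C`, the fresh circuits outside `C` -/
noncomputable def nd (G : CG V D) (K : Finset V) (F : Finset D) (C : Finset V) (v : V) : Finset V :=
  if v ∈ C then C else if v ∈ K then {v} else G.cir K F v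

/-- the start gadget: a token `τ` at the vertex `s`, the edge `c` from `s` to the vertex `p 0` of the
pentagon `p`; the third dart `c'` at `s` is a token (`s` is double) or (`s` is single and no vertex
is double) goes to a fresh vertex of another pentagon -/
structure St (G : CG V D) (K : Finset V) (F : Finset D) (τ c c' : D) (p : ZMod 5 → V)
    (f l : ZMod 5 → D) : Prop where
  pen : G.Pen K F p f l
  mτ : τ ∈ G.ds
  tτ : G.al τ = τ
  mc : c ∈ G.ds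
  pc : G.pi c = G.pi τ
  ac : G.al c = l 0
  mc' : c' ∈ G.ds
  pc' : G.pi c' = G.pi τ
  n1 : τ ≠ c
  n2 : τ ≠ c'
  n3 : c ≠ c'
  dich : G.al c' = c' ∨ (G.al c' ≠ c' ∧ G.pi (G.al c') ∉ K ∧ (∀ i, G.pi (G.al c') ≠ p i) ∧
    ∀ v ∈ G.vs, (G.tk {v}).card ≤ 1)

/-- the vertex set of the start gadget (`C1'`) -/
noncomputable def gd (G : CG V D) (τ : D) (p : ZMod 5 → V) : Finset V :=
  insert (G.pi τ) (univ.image p)

/-- the target set: `K` without `s`, and the pentagon of the far end of `c'` (if `c'` is an edge) -/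
noncomputable def tg (G : CG V D) (K : Finset V) (F : Finset D) (τ c' : D) : Finset V :=
  K.erase (G.pi τ) ∪ if G.al c' = c' then ∅ else G.cir K F (G.pi (G.al c'))

end JP.CG
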