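import Pool.Agent.Lib.P5.Mod

/-! Lemma V (toggling), MP_c95763_co, pentagon world. -/

set_option autoImplicit false

namespace JP.CG

open Finset Classical

variable {V D : Type*} {G : CG V D}

/-- value of the darts from `S` to the rest of `P` -/
noncomputable def zin (G : CG V D) (z : D → ℕ) (P S : Finset V) : ℕ :=
  ∑ d ∈ G.ds.filter (fun d => G.pi d ∈ S ∧ G.pi (G.al d) ∈ P ∧ G.pi (G.al d) ∉ S), z d

/-- value of the darts leaving `P` from `S`, the tokens and the new tokens in `S` -/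
noncomputable def zex (G : CG V D) (z : D → ℕ) (t : V → ℕ) (P S : Finset V) : ℕ :=
  ∑ d ∈ G.ds.filter (fun d => G.pi d ∈ S ∧ (G.al d = d ∨ G.pi (G.al d) ∉ P)), z d +
    ∑ v ∈ S, t v

/-- a class which can be made uncut by toggling an even part -/
def Tm (G : CG V D) (z : D → ℕ) (t : V → ℕ) (P : Finset V) : Prop :=
  ∀ S ⊆ P, S.Nonempty → S ≠ P → 1 ≤ G.zin z P S ∧ (G.zin z P S ≤ 1 →
    ∃ S', (S' = S ∨ S' = P \ S) ∧ Even S'.card ∧ G.zex z t P S' ≤ 1)

/-- a sum over a subset which avoids another subset -/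
private lemma lv_sum {A B C : Finset D} {z : D → ℕ} (hA : A ⊆ C) (hB : B ⊆ C)
    (h : Disjoint A B) : ∑ d ∈ A, z d + ∑ d ∈ B, z d ≤ ∑ d ∈ C, z d := by
  rw [← sum_union h]
  exact sum_le_sum_of_subset (union_subset hA hB)

/-- the darts from `S` to the rest of `P` are in the star of `X` if `P ∩ X = S` -/
private lemma lv_zin_sub {P X S : Finset V} (hS : S = P ∩ X) :
    G.ds.filter (fun d => G.pi d ∈ S ∧ G.pi (G.al d) ∈ P ∧ G.pi (G.al d) ∉ S) ⊆ G.sb X := by
  intro d hd
  rw [mem_filter] at hd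
  obtain ⟨h1, h2, h3, h4⟩ := hd
  rw [hS, mem_inter] at h2 h4
  rw [mem_sb]
  exact ⟨h1, h2.2, Or.inr fun h => h4 ⟨h3, h⟩⟩

/-- taking away the part of `P` -/
private lemma lv_sdiff {z : D → ℕ} (hs : ∀ d ∈ G.ds, z (G.al d) = z d) (t : V → ℕ)
    {P X S : Finset V} (hS : S = P ∩ X) :
    G.wv z t (X \ S) + G.zin z P S ≤ G.wv z t X + G.zex z t P S := by
  -- the star of `X \ S`
  obtain ⟨A, hA⟩ : ∃ A : Finset D, A = G.ds.filter fun d => G.pi d ∈ X \ S ∧
    (G.al d = d ∨ G.pi (G.al d) ∉ X) := ⟨_, rfl⟩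
  obtain ⟨B, hB⟩ : ∃ B : Finset D, B = G.ds.filter fun d => G.pi d ∈ X \ S ∧ G.pi (G.al d) ∈ S :=
    ⟨_, rfl⟩
  obtain ⟨B', hB'⟩ : ∃ B : Finset D, B = G.ds.filter fun d => G.pi d ∈ S ∧
    G.pi (G.al d) ∈ X \ S := ⟨_, rfl⟩
  have h1 : ∑ d ∈ G.sb (X \ S), z d ≤ ∑ d ∈ A, z d + ∑ d ∈ B, z d := by
    have hdis : Disjoint A B := by
      rw [disjoint_left]
      intro d hd hd'
      rw [hA, mem_filter] at hd
      rw [hB, mem_filter] at hd'
      rcases hd.2.2 with h | h
      · rw [h] at hd'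
        exact (mem_sdiff.1 hd'.2.1).2 hd'.2.2
      · have h3 := hd'.2.2
        rw [hS, mem_inter] at h3
        exact h h3.2
    rw [← sum_union hdis]
    refine sum_le_sum_of_subset ?_
    intro d hd
    rw [mem_sb] at hd
    obtain ⟨h1, h2, h3⟩ := hd
    rw [mem_union, hA, hB, mem_filter, mem_filter]
    rcases h3 with h3 | h3
    · exact Or.inl ⟨h1, h2, Or.inl h3⟩
    · rw [mem_sdiff, not_and_or, not_not] at h3
      rcases h3 with h3 | h3
      · exact Or.inl ⟨h1, h2, Or.inr h3⟩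
      · exact Or.inr ⟨h1, h2, h3⟩
  have h2 : ∑ d ∈ B, z d = ∑ d ∈ B', z d := by
    refine sum_bij' (fun d _ => G.al d) (fun d _ => G.al d) ?_ ?_ ?_ ?_ ?_
    · intro d hd
      rw [hB, mem_filter] at hd
      rw [hB', mem_filter, G.al_al _ hd.1]
      exact ⟨G.al_mem _ hd.1, hd.2.2, hd.2.1⟩
    · intro d hd
      rw [hB', mem_filter] at hd
      rw [hB, mem_filter, G.al_al _ hd.1]
      exact ⟨G.al_mem _ hd.1, hd.2.2, hd.2.1⟩
    · intro d hd
      rw [hB, mem_filter] at hd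
      exact G.al_al _ hd.1
    · intro d hd
      rw [hB', mem_filter] at hd
      exact G.al_al _ hd.1
    · intro d hd
      rw [hB, mem_filter] at hd
      exact (hs d hd.1).symm
  have h3 : ∑ d ∈ B', z d ≤
      ∑ d ∈ G.ds.filter (fun d => G.pi d ∈ S ∧ (G.al d = d ∨ G.pi (G.al d) ∉ P)), z d := by
    refine sum_le_sum_of_subset ?_
    intro d hd
    rw [hB', mem_filter] at hd
    obtain ⟨h1, h2, h3⟩ := hd
    rw [mem_filter]
    refine ⟨h1, h2, Or.inr fun h => ?_⟩
    rw [mem_sdiff, hS, mem_inter] at h3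
    exact h3.2 ⟨h, h3.1⟩
  have h4 : ∑ d ∈ A, z d + G.zin z P S ≤ ∑ d ∈ G.sb X, z d := by
    refine lv_sum ?_ (lv_zin_sub hS) ?_
    · intro d hd
      rw [hA, mem_filter] at hd
      rw [mem_sb]
      exact ⟨hd.1, (mem_sdiff.1 hd.2.1).1, hd.2.2⟩
    · rw [disjoint_left]
      intro d hd hd'
      rw [hA, mem_filter] at hd
      rw [mem_filter] at hd'
      exact (mem_sdiff.1 hd.2.1).2 hd'.2.1
  have h5 : ∑ v ∈ X \ S, t v ≤ ∑ v ∈ X, t v := sum_le_sum_of_subset sdiff_subset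
  unfold wv zex
  omega

/-- adding the rest of `P` -/
private lemma lv_union (z : D → ℕ) (t : V → ℕ) {P X S : Finset V} (hS : S = P ∩ X) :
    G.wv z t (X ∪ (P \ S)) + G.zin z P S ≤ G.wv z t X + G.zex z t P (P \ S) := by
  have hP : ∀ v ∈ P, v ∈ X ∪ (P \ S) := by
    intro v hv
    rw [mem_union, mem_sdiff, hS, mem_inter]
    tauto
  obtain ⟨A, hA⟩ : ∃ A : Finset D, A = G.ds.filter fun d => G.pi d ∈ X ∧
    (G.al d = d ∨ G.pi (G.al d) ∉ X ∪ (P \ S)) := ⟨_, rfl⟩
  obtain ⟨B, hB⟩ : ∃ B : Finset D, B = G.ds.filter fun d => G.pi d ∈ P \ S ∧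
    (G.al d = d ∨ G.pi (G.al d) ∉ P) := ⟨_, rfl⟩
  have h1 : ∑ d ∈ G.sb (X ∪ (P \ S)), z d ≤ ∑ d ∈ A, z d + ∑ d ∈ B, z d := by
    have hdis : Disjoint A B := by
      rw [disjoint_left]
      intro d hd hd'
      rw [hA, mem_filter] at hd
      rw [hB, mem_filter] at hd'
      have h3 := hd'.2.1
      rw [mem_sdiff, hS, mem_inter] at h3
      exact h3.2 ⟨h3.1, hd.2.1⟩
    rw [← sum_union hdis]
    refine sum_le_sum_of_subset ?_
    intro d hd
    rw [mem_sb] at hd
    obtain ⟨h1, h2, h3⟩ := hd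
    rw [mem_union, hA, hB, mem_filter, mem_filter]
    rcases mem_union.1 h2 with h2 | h2
    · exact Or.inl ⟨h1, h2, h3⟩
    · refine Or.inr ⟨h1, h2, ?_⟩
      rcases h3 with h3 | h3
      · exact Or.inl h3
      · exact Or.inr fun h => h3 (hP _ h)
  have h4 : ∑ d ∈ A, z d + G.zin z P S ≤ ∑ d ∈ G.sb X, z d := by
    refine lv_sum ?_ (lv_zin_sub hS) ?_
    · intro d hd
      rw [hA, mem_filter] at hd
      rw [mem_sb]
      refine ⟨hd.1, hd.2.1, ?_⟩
      rcases hd.2.2 with h | h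
      · exact Or.inl h
      · exact Or.inr fun h' => h (mem_union_left _ h')
    · rw [disjoint_left]
      intro d hd hd'
      rw [hA, mem_filter] at hd
      rw [mem_filter] at hd'
      rcases hd.2.2 with h | h
      · rw [h] at hd'
        exact hd'.2.2.2 hd'.2.1
      · exact h (hP _ hd'.2.2.1)
  have h5 : ∑ v ∈ X ∪ (P \ S), t v ≤ ∑ v ∈ X, t v + ∑ v ∈ P \ S, t v := by
    have hdis : Disjoint X (P \ S) := by
      rw [disjoint_left]
      intro v hv hv'
      rw [mem_sdiff, hS, mem_inter] at hv'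
      exact hv'.2 ⟨hv'.1, hv⟩
    rw [sum_union hdis]
  unfold wv zex
  rw [hB] at h1
  omega

/-- no odd set of value at most one -/
private lemma lv_main {z : D → ℕ} {t : V → ℕ} (hw : G.ZW z t) {cl : V → Finset V}
    (hp : G.Part cl) (ht : ∀ v ∈ G.vs, G.Tm z t (cl v))
    (hs : ∀ X ⊆ G.vs, CSat cl X → Odd X.card → 2 ≤ G.zc z t X) :
    ∀ n : ℕ, ∀ X ⊆ G.vs, Odd X.card → G.wv z t X ≤ 1 →
      (G.vs.filter fun v => ¬ cl v ⊆ X ∧ ¬ Disjoint (cl v) X).card ≤ n → False := by
  -- toggling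
  have key : ∀ X ⊆ G.vs, Odd X.card → G.wv z t X ≤ 1 → ∀ v ∈ G.vs, ¬ cl v ⊆ X →
      ¬ Disjoint (cl v) X → ∃ X' ⊆ G.vs, Odd X'.card ∧ G.wv z t X' ≤ 1 ∧
        (∀ w, w ∉ cl v → (w ∈ X' ↔ w ∈ X)) ∧ (cl v ⊆ X' ∨ Disjoint (cl v) X') := by
    intro X hX ho hv v hvv hn hd
    obtain ⟨S, hS⟩ : ∃ S, S = cl v ∩ X := ⟨_, rfl⟩
    have hSP : S ⊆ cl v := by rw [hS]; exact inter_subset_left
    have hSX : S ⊆ X := by rw [hS]; exact inter_subset_right
    have hSn : S.Nonempty := by
      rw [hS, ← not_disjoint_iff_nonempty_inter]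
      exact hd
    have hSne : S ≠ cl v := by
      intro h
      exact hn (h ▸ hSX)
    obtain ⟨h1, h2⟩ := ht v hvv S hSP hSn hSne
    have hle : G.zin z (cl v) S ≤ 1 := by
      have h3 : G.zin z (cl v) S ≤ ∑ d ∈ G.sb X, z d := sum_le_sum_of_subset (lv_zin_sub hS)
      unfold wv at hv
      omega
    obtain ⟨S', hS', he, hx⟩ := h2 hle
    rcases hS' with rfl | rfl
    · refine ⟨X \ S', sdiff_subset.trans hX, ?_, ?_, ?_, Or.inr ?_⟩
      · have := card_sdiff_add_card_eq_card hSX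
        rw [Nat.odd_iff] at ho ⊢
        rw [Nat.even_iff] at he
        omega
      · have := lv_sdiff hw.sym t hS
        omega
      · intro w hw'
        rw [mem_sdiff]
        exact ⟨fun h => h.1, fun h => ⟨h, fun h' => hw' (hSP h')⟩⟩
      · rw [disjoint_left]
        intro w hw1 hw2
        rw [mem_sdiff, hS, mem_inter] at hw2
        exact hw2.2 ⟨hw1, hw2.1⟩
    · refine ⟨X ∪ (cl v \ S), union_subset hX (sdiff_subset.trans (hp.sub v hvv)), ?_, ?_, ?_,
        Or.inl ?_⟩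
      · have hdis : Disjoint X (cl v \ S) := by
          rw [disjoint_left]
          intro w hw1 hw2
          rw [mem_sdiff, hS, mem_inter] at hw2
          exact hw2.2 ⟨hw2.1, hw1⟩
        rw [card_union_of_disjoint hdis]
        rw [Nat.odd_iff] at ho ⊢
        rw [Nat.even_iff] at he
        omega
      · have := lv_union (G := G) z t hS
        omega
      · intro w hw'
        rw [mem_union, mem_sdiff]
        exact ⟨fun h => h.resolve_right fun h' => hw' h'.1, Or.inl⟩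
      · intro w hw1
        rw [mem_union, mem_sdiff, hS, mem_inter]
        tauto
  intro n
  induction n with
  | zero =>
    intro X hX ho hv hn
    have hsat : CSat cl X := by
      intro v hvX
      by_contra h
      have h1 : v ∈ G.vs.filter fun v => ¬ cl v ⊆ X ∧ ¬ Disjoint (cl v) X := by
        rw [mem_filter]
        refine ⟨hX hvX, h, ?_⟩
        rw [not_disjoint_iff]
        exact ⟨v, hp.self v (hX hvX), hvX⟩
      rw [Nat.le_zero, card_eq_zero] at hn
      rw [hn] at h1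
      exact notMem_empty _ h1
    have := hs X hX hsat ho
    rw [zc_wv] at this
    omega
  | succ n ih =>
    intro X hX ho hv hn
    by_cases h0 : (G.vs.filter fun v => ¬ cl v ⊆ X ∧ ¬ Disjoint (cl v) X) = ∅
    · exact ih X hX ho hv (by rw [h0, card_empty]; omega)
    · obtain ⟨v, hvf⟩ := nonempty_iff_ne_empty.2 h0
      rw [mem_filter] at hvf
      obtain ⟨hvv, h1, h2⟩ := hvf
      obtain ⟨X', hX', ho', hv', hout, hin⟩ := key X hX ho hv v hvv h1 h2
      refine ih X' hX' ho' hv' ?_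
      have hss : (G.vs.filter fun w => ¬ cl w ⊆ X' ∧ ¬ Disjoint (cl w) X') ⊂
          (G.vs.filter fun w => ¬ cl w ⊆ X ∧ ¬ Disjoint (cl w) X) := by
        rw [ssubset_iff_of_subset]
        · refine ⟨v, mem_filter.2 ⟨hvv, h1, h2⟩, ?_⟩
          intro h
          rw [mem_filter] at h
          rcases hin with h3 | h3
          · exact h.2.1 h3
          · exact h.2.2 h3
        · intro w hw'
          rw [mem_filter] at hw' ⊢
          obtain ⟨hwv, h3, h4⟩ := hw'
          -- the class of `w` is disjoint from the class of `v`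
          have hdis : ∀ x ∈ cl w, x ∉ cl v := by
            intro x hx hx'
            have e1 := hp.eq w hwv x hx
            have e2 := hp.eq v hvv x hx'
            rw [← e1, e2] at h3 h4
            rcases hin with h5 | h5
            · exact h3 h5
            · exact h4 h5
          refine ⟨hwv, fun h => h3 fun x hx => (hout x (hdis x hx)).2 (h hx), fun h => h4 ?_⟩
          rw [disjoint_left] at h ⊢
          exact fun x hx hx' => h hx ((hout x (hdis x hx)).1 hx')
      have := card_lt_card hss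
      omega

/-- **Lemma V** -/
theorem lemV {z : D → ℕ} {t : V → ℕ} (hw : G.ZW z t) {cl : V → Finset V} (hp : G.Part cl)
    (ht : ∀ v ∈ G.vs, G.Tm z t (cl v))
    (hs : ∀ X ⊆ G.vs, CSat cl X → Odd X.card → 2 ≤ G.zc z t X) : G.ZB z t := by
  intro X hX ho
  by_contra hlt
  have hpar := ZW.parity G hw hX
  have h1 : G.zc z t X ≤ 1 := by
    have h2 := hpar.2 ho
    rw [Nat.odd_iff] at h2
    omega
  rw [zc_wv] at h1
  exact lv_main hw hp ht hs _ X hX ho h1 le_rfl

end JP.CG
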