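import Pool.Agent.Lib.P5.Basic
import Pool.Agent.Lib.P5.LemV

/-! Weights on the pentagons outside the start gadget (MP_c95763_co, pentagon world). -/

set_option autoImplicit false

namespace JP.CG

open Finset Classical

variable {V D : Type*} {G : CG V D} {K : Finset V} {F : Finset D}

/-- the cut value of `S` in the weighted pentagon -/
def cut5 (g : ZMod 5 → ℕ) (S : Finset (ZMod 5)) : ℕ :=
  ∑ k, if (k ∈ S ∧ k + 1 ∉ S) ∨ (k ∉ S ∧ k + 1 ∈ S) then g k else 0

/-- explicit weights -/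
def g5 (i j : ZMod 5) (k : ZMod 5) : ℕ :=
  if j = i + 1 then (if k = i then 2 else 1)
  else if i = j + 1 then (if k = j then 2 else 1)
  else if j = i + 2 then (if k = i + 2 then 2 else if k = i + 3 then 0 else if k = i + 4 then 2 else 1)
  else (if k = j + 2 then 2 else if k = j + 3 then 0 else if k = j + 4 then 2 else 1)

theorem loc5a : ∀ i j : ZMod 5, i ≠ j → ∀ k,
    g5 i j (k - 1) + g5 i j k = 2 + if k = i ∨ k = j then 1 else 0 := by
  decide

theorem loc5b : ∀ i j : ZMod 5, i ≠ j → ∀ S : Finset (ZMod 5), S.Nonempty → S ≠ univ →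
    1 ≤ cut5 (g5 i j) S ∧ (cut5 (g5 i j) S ≤ 1 →
      (Even S.card ∧ (S.filter fun k => k ≠ i ∧ k ≠ j).card ≤ 1) ∨
      (Even Sᶜ.card ∧ (Sᶜ.filter fun k => k ≠ i ∧ k ≠ j).card ≤ 1)) := by
  decide +kernel

/-- weights of a pentagon with two killed legs -/
theorem loc5 (i j : ZMod 5) (hij : i ≠ j) : ∃ g : ZMod 5 → ℕ,
    (∀ k, g (k - 1) + g k = 2 + if k = i ∨ k = j then 1 else 0) ∧
    ∀ S : Finset (ZMod 5), S.Nonempty → S ≠ univ → 1 ≤ cut5 g S ∧ (cut5 g S ≤ 1 →
      ∃ S', (S' = S ∨ S' = Sᶜ) ∧ Even S'.card ∧ (S'.filter fun k => k ≠ i ∧ k ≠ j).card ≤ 1) := by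
  refine ⟨g5 i j, loc5a i j hij, fun S h1 h2 => ?_⟩
  obtain ⟨h3, h4⟩ := loc5b i j hij S h1 h2
  refine ⟨h3, fun h5 => ?_⟩
  rcases h4 h5 with h6 | h6
  · exact ⟨S, Or.inl rfl, h6.1, h6.2⟩
  · exact ⟨Sᶜ, Or.inr rfl, h6.1, h6.2⟩

theorem loc5one : ∀ S : Finset (ZMod 5), S.Nonempty → S ≠ univ → 2 ≤ cut5 (fun _ => 1) S := by
  decide +kernel

section Far

variable {p : ZMod 5 → V} {f l : ZMod 5 → D}

lemma far_nn : ∀ i : ZMod 5, i + 1 ≠ i - 1 := by decide

lemma far_ffa (h : G.Pen K F p f l) (hc : G.Cls K F) (i j : ZMod 5) : f i ≠ G.al (f j) := by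
  intro he
  have h1 : p i = p (j + 1) := by rw [← h.fp i, he, h.fa j]
  have h2 : p (i + 1) = p j := by
    rw [← h.fa i, he, G.al_al _ (hc.Fsub (h.fF j)), h.fp j]
  have h3 := h.inj h1
  have h4 := h.inj h2
  exact far_nn j (by rw [← h3, ← h4]; ring)

lemma far_finj (h : G.Pen K F p f l) {i j : ZMod 5} (he : f i = f j) : i = j := by
  apply h.inj
  rw [← h.fp i, ← h.fp j, he]

lemma far_fainj (h : G.Pen K F p f l) {i j : ZMod 5} (he : G.al (f i) = G.al (f j)) :
    i = j := by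
  have h1 : p (i + 1) = p (j + 1) := by rw [← h.fa i, ← h.fa j, he]
  have := h.inj h1
  exact add_right_cancel this

/-- the weights on the darts of the pentagon -/
noncomputable def wD (G : CG V D) (f : ZMod 5 → D) (g : ZMod 5 → ℕ) (d : D) : ℕ :=
  ∑ k, if d = f k ∨ d = G.al (f k) then g k else 0

lemma wD_f (h : G.Pen K F p f l) (hc : G.Cls K F) (g : ZMod 5 → ℕ) (i : ZMod 5) :
    G.wD f g (f i) = g i := by
  unfold wD
  rw [Finset.sum_eq_single i]
  · simp
  · intro k _ hk
    rw [if_neg]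
    rintro (h1 | h1)
    · exact hk (far_finj h h1).symm
    · exact far_ffa h hc i k h1
  · simp

lemma wD_fa (h : G.Pen K F p f l) (hc : G.Cls K F) (g : ZMod 5 → ℕ) (i : ZMod 5) :
    G.wD f g (G.al (f i)) = g i := by
  unfold wD
  rw [Finset.sum_eq_single i]
  · simp
  · intro k _ hk
    rw [if_neg]
    rintro (h1 | h1)
    · exact far_ffa h hc k i h1.symm
    · exact hk (far_fainj h h1).symm
  · simp

lemma far_star (h : G.Pen K F p f l) (hc : G.Cls K F) (i : ZMod 5) :
    (F.filter fun d => G.pi d = p i) = {f i, G.al (f (i - 1))} := by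
  ext d
  rw [mem_filter, mem_insert, mem_singleton]
  constructor
  · rintro ⟨h1, h2⟩
    rcases h.three i d (hc.Fsub h1) h2 with h3 | h3 | h3
    · exact Or.inl h3
    · exact Or.inr h3
    · exact absurd (h3 ▸ h1) (h.lF i)
  · rintro (h1 | h1)
    · rw [h1]
      exact ⟨h.fF i, h.fp i⟩
    · rw [h1]
      refine ⟨hc.Fal _ (h.fF _), ?_⟩
      rw [h.fa]
      simp

lemma far_mem (h : G.Pen K F p f l) (hc : G.Cls K F) {d : D} (hd : d ∈ F)
    (hp : G.pi d ∈ univ.image p) : ∃ k, d = f k ∨ d = G.al (f k) := by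
  obtain ⟨i, -, hi⟩ := mem_image.1 hp
  have h1 : d ∈ F.filter fun d => G.pi d = p i := mem_filter.2 ⟨hd, hi.symm⟩
  rw [far_star h hc i, mem_insert, mem_singleton] at h1
  rcases h1 with h1 | h1
  · exact ⟨i, Or.inl h1⟩
  · exact ⟨i - 1, Or.inr h1⟩

/-- indices of the vertices in `S` -/
noncomputable def idx (p : ZMod 5 → V) (S : Finset V) : Finset (ZMod 5) :=
  univ.filter fun k => p k ∈ S

lemma mem_idx {S : Finset V} {k : ZMod 5} : k ∈ idx p S ↔ p k ∈ S := by
  simp [idx]

lemma idx_image {S : Finset V} (hS : S ⊆ univ.image p) : (idx p S).image p = S := by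
  ext v
  rw [mem_image]
  constructor
  · rintro ⟨k, hk, rfl⟩
    exact mem_idx.1 hk
  · intro hv
    obtain ⟨k, -, hk⟩ := mem_image.1 (hS hv)
    exact ⟨k, mem_idx.2 (hk ▸ hv), hk⟩

lemma idx_compl {S : Finset V} : idx p (univ.image p \ S) = (idx p S)ᶜ := by
  ext k
  rw [mem_idx, mem_compl, mem_idx, mem_sdiff]
  exact ⟨fun h => h.2, fun h => ⟨mem_image_of_mem _ (mem_univ _), h⟩⟩

lemma far_zin (h : G.Pen K F p f l) (hc : G.Cls K F) (g : ZMod 5 → ℕ) {z : D → ℕ}
    (hz : ∀ d ∈ F, G.pi d ∈ univ.image p → z d = G.wD f g d) {S : Finset V}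
    (hS : S ⊆ univ.image p) : G.zin z (univ.image p) S = cut5 g (idx p S) := by
  unfold zin cut5
  have h0 : ∀ d ∈ G.ds.filter (fun d => G.pi d ∈ S ∧ G.pi (G.al d) ∈ univ.image p ∧
      G.pi (G.al d) ∉ S), d ∈ F := by
    intro d hd
    rw [mem_filter] at hd
    obtain ⟨i, -, hi⟩ := mem_image.1 (hS hd.2.1)
    rcases h.three i d hd.1 hi.symm with h3 | h3 | h3
    · rw [h3]; exact h.fF i
    · rw [h3]; exact hc.Fal _ (h.fF _)
    · exfalso
      obtain ⟨j, -, hj⟩ := mem_image.1 hd.2.2.1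
      rw [h3] at hj
      exact h.lo i j hj.symm
  have h1 : ∑ d ∈ G.ds.filter (fun d => G.pi d ∈ S ∧ G.pi (G.al d) ∈ univ.image p ∧
      G.pi (G.al d) ∉ S), z d = ∑ d ∈ G.ds.filter (fun d => G.pi d ∈ S ∧
      G.pi (G.al d) ∈ univ.image p ∧ G.pi (G.al d) ∉ S), G.wD f g d :=
    sum_congr rfl fun d hd => hz d (h0 d hd) (hS (mem_filter.1 hd).2.1)
  rw [h1]
  unfold wD
  rw [sum_comm]
  refine sum_congr rfl fun k _ => ?_
  have ham : G.al (f k) ∈ G.ds := G.al_mem _ (hc.Fsub (h.fF k))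
  have hfm : f k ∈ G.ds := hc.Fsub (h.fF k)
  have haa : G.al (G.al (f k)) = f k := G.al_al _ hfm
  have m1 : f k ∈ G.ds.filter (fun d => G.pi d ∈ S ∧ G.pi (G.al d) ∈ univ.image p ∧
      G.pi (G.al d) ∉ S) ↔ (k ∈ idx p S ∧ k + 1 ∉ idx p S) := by
    rw [mem_filter, h.fp, h.fa, mem_idx, mem_idx]
    exact ⟨fun h => ⟨h.2.1, h.2.2.2⟩, fun h => ⟨hfm, h.1, mem_image_of_mem _ (mem_univ _), h.2⟩⟩
  have m2 : G.al (f k) ∈ G.ds.filter (fun d => G.pi d ∈ S ∧ G.pi (G.al d) ∈ univ.image p ∧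
      G.pi (G.al d) ∉ S) ↔ (k ∉ idx p S ∧ k + 1 ∈ idx p S) := by
    rw [mem_filter, haa, h.fp, h.fa, mem_idx, mem_idx]
    exact ⟨fun h => ⟨h.2.2.2, h.2.1⟩, fun h => ⟨ham, h.2, mem_image_of_mem _ (mem_univ _), h.1⟩⟩
  by_cases c1 : k ∈ idx p S ∧ k + 1 ∉ idx p S
  · rw [if_pos (Or.inl c1), Finset.sum_eq_single (f k)]
    · simp
    · intro d hd hne
      rw [if_neg]
      rintro (h2 | h2)
      · exact hne h2
      · rw [h2] at hd
        exact (m2.1 hd).1 c1.1
    · intro h2
      exact absurd (m1.2 c1) h2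
  · by_cases c2 : k ∉ idx p S ∧ k + 1 ∈ idx p S
    · rw [if_pos (Or.inr c2), Finset.sum_eq_single (G.al (f k))]
      · simp
      · intro d hd hne
        rw [if_neg]
        rintro (h2 | h2)
        · rw [h2] at hd
          exact c1 (m1.1 hd)
        · exact hne h2
      · intro h2
        exact absurd (m2.2 c2) h2
    · rw [if_neg (by rintro (h2 | h2); exacts [c1 h2, c2 h2])]
      apply sum_eq_zero
      intro d hd
      rw [if_neg]
      rintro (h2 | h2)
      · rw [h2] at hd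
        exact c1 (m1.1 hd)
      · rw [h2] at hd
        exact c2 (m2.1 hd)

/-- the property of the weights of one class -/
def FarP (G : CG V D) (F A : Finset D) (P : Finset V) (w : D → ℕ) : Prop :=
  (∀ d ∈ F, G.pi d ∈ P → w (G.al d) = w d) ∧
  (∀ v ∈ P, (∑ d ∈ F.filter fun d => G.pi d = v, w d) = 2 +
    if (A.filter fun d => G.pi d ∈ P).card = 2 then (A.filter fun d => G.pi d = v).card else 0) ∧
  ∀ (z : D → ℕ) (t : V → ℕ), (∀ d ∈ F, G.pi d ∈ P → z d = w d) →
    (∀ d ∈ G.ds, d ∉ F → G.pi d ∈ P → z d = if d ∈ A then 0 else 1) →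
    ((A.filter fun d => G.pi d ∈ P).card = 2 → ∀ v ∈ P, t v = 0) → G.Tm z t P

lemma far_exists (h : G.Pen K F p f l) (hc : G.Cls K F) {A : Finset D} (hA : A ⊆ G.ds)
    (hAF : ∀ d ∈ A, d ∉ F) : ∃ w, G.FarP F A (univ.image p) w := by
  have hw1 : ∀ g : ZMod 5 → ℕ, ∀ d ∈ F, G.pi d ∈ univ.image p →
      G.wD f g (G.al d) = G.wD f g d := by
    intro g d hd hp
    obtain ⟨k, hk | hk⟩ := far_mem h hc hd hp
    · rw [hk, wD_f h hc, wD_fa h hc]
    · rw [hk, G.al_al _ (hc.Fsub (h.fF k)), wD_f h hc, wD_fa h hc]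
  have hw2 : ∀ g : ZMod 5 → ℕ, ∀ i, (∑ d ∈ F.filter fun d => G.pi d = p i, G.wD f g d) =
      g (i - 1) + g i := by
    intro g i
    rw [far_star h hc i, sum_pair (far_ffa h hc i (i - 1)), wD_f h hc, wD_fa h hc, add_comm]
  have hleg : ∀ d ∈ A, G.pi d ∈ univ.image p → ∃ k, d = l k := by
    intro d hd hp
    obtain ⟨i, -, hi⟩ := mem_image.1 hp
    rcases h.three i d (hA hd) hi.symm with h3 | h3 | h3
    · exact absurd (h3 ▸ h.fF i) (hAF d hd)
    · exact absurd (h3 ▸ hc.Fal _ (h.fF _)) (hAF d hd)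
    · exact ⟨i, h3⟩
  have hlinj : Function.Injective l := h.l_inj
  have hne : ∀ S ⊆ univ.image p, S.Nonempty → (idx p S).Nonempty := by
    intro S hS ⟨v, hv⟩
    obtain ⟨k, -, hk⟩ := mem_image.1 (hS hv)
    exact ⟨k, mem_idx.2 (hk ▸ hv)⟩
  have hnu : ∀ S ⊆ univ.image p, S ≠ univ.image p → idx p S ≠ univ := by
    intro S hS hne he
    apply hne
    apply Subset.antisymm hS
    intro v hv
    obtain ⟨k, -, hk⟩ := mem_image.1 hv
    rw [← hk]
    exact mem_idx.1 (he ▸ mem_univ k)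
  by_cases h2 : (A.filter fun d => G.pi d ∈ univ.image p).card = 2
  · obtain ⟨a, b, hab, hAab⟩ := card_eq_two.1 h2
    have ha : a ∈ A.filter fun d => G.pi d ∈ univ.image p := by rw [hAab]; simp
    have hb : b ∈ A.filter fun d => G.pi d ∈ univ.image p := by rw [hAab]; simp
    obtain ⟨i, hi⟩ := hleg a (mem_filter.1 ha).1 (mem_filter.1 ha).2
    obtain ⟨j, hj⟩ := hleg b (mem_filter.1 hb).1 (mem_filter.1 hb).2
    have hij : i ≠ j := fun he => hab (by rw [hi, hj, he])
    have hlA : ∀ k, l k ∈ A ↔ k = i ∨ k = j := by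
      intro k
      have h3 : l k ∈ A ↔ l k ∈ A.filter fun d => G.pi d ∈ univ.image p := by
        rw [mem_filter, h.lp]
        exact ⟨fun h => ⟨h, mem_image_of_mem _ (mem_univ _)⟩, fun h => h.1⟩
      rw [h3, hAab, mem_insert, mem_singleton, hi, hj, hlinj.eq_iff, hlinj.eq_iff]
    obtain ⟨g, hg1, hg2⟩ := loc5 i j hij
    refine ⟨G.wD f g, hw1 g, ?_, ?_⟩
    · intro v hv
      obtain ⟨k, -, hk⟩ := mem_image.1 hv
      rw [← hk, hw2, hg1, if_pos h2]
      congr 1
      have h4 : (A.filter fun d => G.pi d = p k) = if k = i ∨ k = j then {l k} else ∅ := by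
        ext d
        constructor
        · intro hd
          rw [mem_filter] at hd
          obtain ⟨k', hk'⟩ := hleg d hd.1 (hd.2 ▸ mem_image_of_mem _ (mem_univ _))
          have h5 : k' = k := h.inj (by rw [← h.lp k', ← hk', hd.2])
          rw [h5] at hk'
          have h6 := (hlA k).1 (hk' ▸ hd.1)
          rw [if_pos h6, mem_singleton, hk']
        · intro hd
          split_ifs at hd with h6
          · rw [mem_singleton] at hd
            rw [mem_filter, hd]
            exact ⟨(hlA k).2 h6, h.lp k⟩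
          · simp at hd
      rw [h4]
      split_ifs <;> simp
    · intro z t hz1 hz2 ht S hS hSn hSne
      rw [far_zin h hc g hz1 hS]
      obtain ⟨h3, h4⟩ := hg2 (idx p S) (hne S hS hSn) (hnu S hS hSne)
      refine ⟨h3, fun h5 => ?_⟩
      obtain ⟨S5, h6, h7, h8⟩ := h4 h5
      have key : ∃ S', (S' = S ∨ S' = univ.image p \ S) ∧ S' ⊆ univ.image p ∧ idx p S' = S5 := by
        rcases h6 with h6 | h6
        · exact ⟨S, Or.inl rfl, hS, h6.symm⟩
        · exact ⟨univ.image p \ S, Or.inr rfl, sdiff_subset, by rw [idx_compl, h6]⟩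
      obtain ⟨S', h9, h10, h11⟩ := key
      refine ⟨S', h9, ?_, ?_⟩
      · rw [← idx_image h10, card_image_of_injective _ h.inj, h11]
        exact h7
      · have h12 : ∑ v ∈ S', t v = 0 := sum_eq_zero fun v hv => ht h2 v (h10 hv)
        unfold zex
        rw [h12, add_zero]
        have h13 : G.ds.filter (fun d => G.pi d ∈ S' ∧ (G.al d = d ∨ G.pi (G.al d) ∉
            univ.image p)) ⊆ S5.image l := by
          intro d hd
          rw [mem_filter] at hd
          obtain ⟨k, -, hk⟩ := mem_image.1 (h10 hd.2.1)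
          rcases h.three k d hd.1 hk.symm with h14 | h14 | h14
          · exfalso
            rcases hd.2.2 with h15 | h15
            · rw [h14] at h15
              exact hc.Ftok _ (h.fF k) h15
            · apply h15
              rw [h14, h.fa]
              exact mem_image_of_mem _ (mem_univ _)
          · exfalso
            have h16 := hc.Fal _ (h.fF (k - 1))
            rcases hd.2.2 with h15 | h15
            · rw [h14] at h15
              exact hc.Ftok _ h16 h15
            · apply h15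
              rw [h14, G.al_al _ (hc.Fsub (h.fF _)), h.fp]
              exact mem_image_of_mem _ (mem_univ _)
          · rw [mem_image]
            refine ⟨k, ?_, h14.symm⟩
            rw [← h11, mem_idx, hk]
            exact hd.2.1
        refine (sum_le_sum_of_subset h13).trans ?_
        rw [sum_image fun x _ y _ hxy => hlinj hxy]
        have h17 : ∀ k ∈ S5, z (l k) = if k ≠ i ∧ k ≠ j then 1 else 0 := by
          intro k _
          rw [hz2 (l k) (h.lm k) (h.lF k) (by rw [h.lp]; exact mem_image_of_mem _ (mem_univ _))]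
          by_cases h18 : k = i ∨ k = j
          · rw [if_pos ((hlA k).2 h18), if_neg]
            rintro ⟨h19, h20⟩
            rcases h18 with h18 | h18
            · exact h19 h18
            · exact h20 h18
          · rw [if_neg (fun h19 => h18 ((hlA k).1 h19)), if_pos]
            exact ⟨fun h19 => h18 (Or.inl h19), fun h19 => h18 (Or.inr h19)⟩
        rw [sum_congr rfl h17, sum_boole]
        exact_mod_cast h8
  · refine ⟨G.wD f fun _ => 1, hw1 _, ?_, ?_⟩
    · intro v hv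
      obtain ⟨k, -, hk⟩ := mem_image.1 hv
      rw [← hk, hw2, if_neg h2]
    · intro z t hz1 _ _ S hS hSn hSne
      rw [far_zin h hc _ hz1 hS]
      have h3 := loc5one (idx p S) (hne S hS hSn) (hnu S hS hSne)
      exact ⟨by omega, fun h4 => absurd h4 (by omega)⟩

end Far

/-- weights `g` on `F` for all fresh circuits outside `C`: a set `A` of killed darts (no `F`-darts)
with at most two darts at each of these circuits. If there are two, the weights at a killed leg sum
to 3 and the circuit is tame; otherwise all weights are 1 (and the circuit is tame). -/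
theorem PW.far (h : G.PW K F) {A : Finset D} (hA : A ⊆ G.ds) (hAF : ∀ d ∈ A, d ∉ F)
    {C : Finset V}
    (h2 : ∀ v ∈ G.vs, v ∉ K → v ∉ C → (A.filter fun d => G.pi d ∈ G.cir K F v).card ≤ 2) :
    ∃ g : D → ℕ, (∀ d ∈ F, g (G.al d) = g d) ∧
      (∀ v ∈ G.vs, v ∉ K → v ∉ C → (∑ d ∈ F.filter fun d => G.pi d = v, g d) = 2 +
        if (A.filter fun d => G.pi d ∈ G.cir K F v).card = 2 then
          (A.filter fun d => G.pi d = v).card else 0) ∧
      ∀ v ∈ G.vs, v ∉ K → v ∉ C → ∀ (z : D → ℕ) (t : V → ℕ),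
        (∀ d ∈ F, G.pi d ∈ G.cir K F v → z d = g d) →
        (∀ d ∈ G.ds, d ∉ F → G.pi d ∈ G.cir K F v → z d = if d ∈ A then 0 else 1) →
        ((A.filter fun d => G.pi d ∈ G.cir K F v).card = 2 → ∀ w ∈ G.cir K F v, t w = 0) →
        G.Tm z t (G.cir K F v) := by
  let W : Finset V → D → ℕ := fun P =>
    if hP : ∃ w, G.FarP F A P w then Classical.choose hP else fun _ => 0
  have hW : ∀ v ∈ G.vs, v ∉ K → G.FarP F A (G.cir K F v) (W (G.cir K F v)) := by
    intro v hv hK
    obtain ⟨p, f, l, hp, -, he⟩ := h.cir_pen hv hK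
    have hex : ∃ w, G.FarP F A (G.cir K F v) w := by
      rw [he]
      exact far_exists hp h.cls hA hAF
    have : W (G.cir K F v) = Classical.choose hex := by
      simp only [W]
      rw [dif_pos hex]
    rw [this]
    exact Classical.choose_spec hex
  have hcF : ∀ d ∈ F, G.cir K F (G.pi (G.al d)) = G.cir K F (G.pi d) := by
    intro d hd
    unfold cir
    apply filter_congr
    intro w _
    have h3 : ∀ Z, G.Adm K F Z → (G.pi (G.al d) ∈ Z ↔ G.pi d ∈ Z) := by
      intro Z hZ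
      constructor
      · intro h4
        have := hZ.clo _ (h.cls.Fal d hd) h4
        rwa [G.al_al _ (h.cls.Fsub hd)] at this
      · exact fun h4 => hZ.clo _ hd h4
    constructor
    · intro h4 Z hZ h5
      exact h4 Z hZ ((h3 Z hZ).2 h5)
    · intro h4 Z hZ h5
      exact h4 Z hZ ((h3 Z hZ).1 h5)
  have hself : ∀ d ∈ F, G.pi d ∈ G.cir K F (G.pi d) := by
    intro d hd
    unfold cir
    rw [mem_filter]
    exact ⟨G.pi_mem _ (h.cls.Fsub hd), fun Z _ h3 => h3⟩
  have hcir : ∀ v ∈ G.vs, v ∉ K → ∀ w ∈ G.cir K F v, G.cir K F w = G.cir K F v := by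
    intro v hv hK w hw
    obtain ⟨p, f, l, hp, -, he⟩ := h.cir_pen hv hK
    rw [he] at hw ⊢
    obtain ⟨k, -, hk⟩ := mem_image.1 hw
    rw [← hk]
    exact hp.cir_eq h.cls k
  refine ⟨fun d => W (G.cir K F (G.pi d)) d, ?_, ?_, ?_⟩
  · intro d hd
    simp only
    rw [hcF d hd]
    by_cases hex : ∃ w, G.FarP F A (G.cir K F (G.pi d)) w
    · have : W (G.cir K F (G.pi d)) = Classical.choose hex := by
        simp only [W]
        rw [dif_pos hex]
      rw [this]
      exact (Classical.choose_spec hex).1 d hd (hself d hd)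
    · have : W (G.cir K F (G.pi d)) = fun _ => 0 := by
        simp only [W]
        rw [dif_neg hex]
      rw [this]
  · intro v hv hK _
    have h3 := (hW v hv hK).2.1 v (by unfold cir; rw [mem_filter]; exact ⟨hv, fun Z _ h3 => h3⟩)
    rw [← h3]
    apply sum_congr rfl
    intro d hd
    show W (G.cir K F (G.pi d)) d = W (G.cir K F v) d
    rw [(mem_filter.1 hd).2]
  · intro v hv hK _ z t hz1 hz2 ht
    refine (hW v hv hK).2.2 z t ?_ hz2 ht
    intro d hd hp
    rw [hz1 d hd hp]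
    show W (G.cir K F (G.pi d)) d = W (G.cir K F v) d
    rw [hcir v hv hK _ hp]

end JP.CG
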