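import Pool.Agent.Lib.P5.Basic

/-! The graph `G4`: the gadget is deleted, `o1 o2` and `o3 c2` are joined, `o4` gets a token
(MP_c95763_co, pentagon world). -/

set_option autoImplicit false

namespace JP.CG

open Finset Classical

variable {V D : Type*} {G : CG V D} {K : Finset V} {F : Finset D}

/-- the new involution -/
noncomputable def al4 (G : CG V D) (c' : D) (l : ZMod 5 → D) (d : D) : D :=
  if d = G.al (l 1) then G.al (l 2) else
  if d = G.al (l 2) then G.al (l 1) else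
  if d = G.al (l 3) then (if G.al c' = c' then G.al (l 3) else G.al c') else
  if d = G.al (l 4) then G.al (l 4) else
  if d = G.al c' then G.al (l 3) else G.al d

namespace St

variable {τ c c' : D} {p : ZMod 5 → V} {f l : ZMod 5 → D}

/-- the darts which change -/
lemma g4_ll (st : G.St K F τ c c' p f l) {i j : ZMod 5} (hij : i ≠ j) :
    G.al (l i) ≠ G.al (l j) := by
  intro he
  apply hij
  apply st.pen.l_inj
  rw [← G.al_al _ (st.pen.lm i), ← G.al_al _ (st.pen.lm j), he]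

lemma g4_pgd (i : ZMod 5) : p i ∈ G.gd τ p := by
  unfold gd
  exact mem_insert_of_mem (mem_image_of_mem p (mem_univ i))

lemma g4_sgd : G.pi τ ∈ G.gd τ p := by
  unfold gd
  exact mem_insert_self _ _

lemma g4_cl (st : G.St K F τ c c' p f l) (h : G.PW K F) (i : ZMod 5) : G.al c' ≠ G.al (l i) := by
  intro he
  have h1 : c' = l i := by
    rw [← G.al_al _ st.mc', ← G.al_al _ (st.pen.lm i), he]
  have h2 : G.pi τ = p i := by
    rw [← st.pc', h1, st.pen.lp i]
  exact st.pen.nK i (h2 ▸ st.sK h.cls)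

lemma g4_al (st : G.St K F τ c c' p f l) {d : D} (hd : d ∈ G.ds)
    (hg : G.pi d ∉ G.gd τ p) :
    G.al d ≠ G.al c' ∧ ∀ i, G.al d ≠ G.al (l i) := by
  constructor
  · intro he
    have h1 : d = c' := by
      rw [← G.al_al _ hd, ← G.al_al _ st.mc', he]
    apply hg
    rw [h1, st.pc']
    exact g4_sgd
  · intro i he
    have h1 : d = l i := by
      rw [← G.al_al _ hd, ← G.al_al _ (st.pen.lm i), he]
    apply hg
    rw [h1, st.pen.lp i]
    exact g4_pgd i

lemma g4_gen (st : G.St K F τ c c' p f l) (h : G.PW K F) {d : D} (hd : d ∈ G.ds)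
    (hg : G.pi d ∉ G.gd τ p) (h1 : ∀ i, i ≠ 0 → d ≠ G.al (l i)) (h2 : d ≠ G.al c') :
    G.pi (G.al d) ∉ G.gd τ p := by
  intro h3
  have h4 : G.al d ∈ G.sb (G.gd τ p) := by
    rw [mem_sb]
    refine ⟨G.al_mem _ hd, h3, Or.inr ?_⟩
    rw [G.al_al _ hd]
    exact hg
  rw [st.mem_sb_gd h] at h4
  rcases h4 with h4 | h4 | ⟨i, hi, h4⟩
  · apply hg
    rw [← G.al_al _ hd, h4, st.tτ]
    exact g4_sgd
  · apply h2
    rw [← h4, G.al_al _ hd]
  · apply h1 i hi
    rw [← h4, G.al_al _ hd]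

end St

lemma al4_1 {c' : D} {l : ZMod 5 → D} : G.al4 c' l (G.al (l 1)) = G.al (l 2) := by
  unfold al4
  rw [if_pos rfl]

lemma al4_2 {c' : D} {l : ZMod 5 → D} (h : G.al (l 2) ≠ G.al (l 1)) :
    G.al4 c' l (G.al (l 2)) = G.al (l 1) := by
  unfold al4
  rw [if_neg h, if_pos rfl]

lemma al4_3 {c' : D} {l : ZMod 5 → D} (h1 : G.al (l 3) ≠ G.al (l 1))
    (h2 : G.al (l 3) ≠ G.al (l 2)) :
    G.al4 c' l (G.al (l 3)) = if G.al c' = c' then G.al (l 3) else G.al c' := by
  unfold al4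
  rw [if_neg h1, if_neg h2, if_pos rfl]

lemma al4_4 {c' : D} {l : ZMod 5 → D} (h1 : G.al (l 4) ≠ G.al (l 1))
    (h2 : G.al (l 4) ≠ G.al (l 2)) (h3 : G.al (l 4) ≠ G.al (l 3)) :
    G.al4 c' l (G.al (l 4)) = G.al (l 4) := by
  unfold al4
  rw [if_neg h1, if_neg h2, if_neg h3, if_pos rfl]

lemma al4_c {c' : D} {l : ZMod 5 → D} (h : ∀ i, G.al c' ≠ G.al (l i)) :
    G.al4 c' l (G.al c') = G.al (l 3) := by
  unfold al4
  rw [if_neg (h 1), if_neg (h 2), if_neg (h 3), if_neg (h 4), if_pos rfl]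

lemma al4_g {c' : D} {l : ZMod 5 → D} {d : D} (h : ∀ i, i ≠ 0 → d ≠ G.al (l i))
    (h2 : d ≠ G.al c') : G.al4 c' l d = G.al d := by
  unfold al4
  rw [if_neg (h 1 (by decide)), if_neg (h 2 (by decide)), if_neg (h 3 (by decide)),
    if_neg (h 4 (by decide)), if_neg h2]

/-- the case distinction for a dart -/
lemma al4_cases (c' : D) (l : ZMod 5 → D) (d : D) :
    d = G.al (l 1) ∨ d = G.al (l 2) ∨ d = G.al (l 3) ∨ d = G.al (l 4) ∨ d = G.al c' ∨
      ((∀ i, i ≠ 0 → d ≠ G.al (l i)) ∧ d ≠ G.al c') := by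
  by_cases h1 : d = G.al (l 1)
  · exact Or.inl h1
  by_cases h2 : d = G.al (l 2)
  · exact Or.inr (Or.inl h2)
  by_cases h3 : d = G.al (l 3)
  · exact Or.inr (Or.inr (Or.inl h3))
  by_cases h4 : d = G.al (l 4)
  · exact Or.inr (Or.inr (Or.inr (Or.inl h4)))
  by_cases h5 : d = G.al c'
  · exact Or.inr (Or.inr (Or.inr (Or.inr (Or.inl h5))))
  refine Or.inr (Or.inr (Or.inr (Or.inr (Or.inr ⟨?_, h5⟩))))
  intro i hi
  have h6 : i = 1 ∨ i = 2 ∨ i = 3 ∨ i = 4 := by
    revert i
    decide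
  rcases h6 with rfl | rfl | rfl | rfl <;> assumption

/-- the graph `G4` -/
noncomputable def g4 (G : CG V D) {K : Finset V} {F : Finset D} {τ c c' : D} {p : ZMod 5 → V}
    {f l : ZMod 5 → D} (st : G.St K F τ c c' p f l) (h : G.PW K F) : CG V D where
  vs := G.vs \ G.gd τ p
  ds := G.ds.filter fun d => G.pi d ∉ G.gd τ p
  pi := G.pi
  al := G.al4 c' l
  pi_mem := fun d hd => by
    rw [mem_filter] at hd
    exact mem_sdiff.2 ⟨G.pi_mem d hd.1, hd.2⟩
  al_mem := by
    intro d hd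
    rw [mem_filter] at hd ⊢
    obtain ⟨hd, hg⟩ := hd
    have hl : ∀ i : ZMod 5, i ≠ 0 → G.al (l i) ∈ G.ds ∧ G.pi (G.al (l i)) ∉ G.gd τ p :=
      fun i hi => ⟨G.al_mem _ (st.pen.lm i), st.o_out h hi⟩
    rcases G.al4_cases c' l d with rfl | rfl | rfl | rfl | rfl | ⟨h1, h2⟩
    · rw [al4_1]
      exact hl 2 (by decide)
    · rw [al4_2 (st.g4_ll (by decide))]
      exact hl 1 (by decide)
    · rw [al4_3 (st.g4_ll (by decide)) (st.g4_ll (by decide))]
      split_ifs with h3
      · exact hl 3 (by decide)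
      · exact ⟨G.al_mem _ st.mc', st.c'_out h h3⟩
    · rw [al4_4 (st.g4_ll (by decide)) (st.g4_ll (by decide)) (st.g4_ll (by decide))]
      exact hl 4 (by decide)
    · rw [al4_c (st.g4_cl h)]
      exact hl 3 (by decide)
    · rw [al4_g h1 h2]
      exact ⟨G.al_mem _ hd, st.g4_gen h hd hg h1 h2⟩
  al_al := by
    intro d hd
    rw [mem_filter] at hd
    obtain ⟨hd, hg⟩ := hd
    rcases G.al4_cases c' l d with rfl | rfl | rfl | rfl | rfl | ⟨h1, h2⟩
    · rw [al4_1, al4_2 (st.g4_ll (by decide))]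
    · rw [al4_2 (st.g4_ll (by decide)), al4_1]
    · rw [al4_3 (st.g4_ll (by decide)) (st.g4_ll (by decide))]
      split_ifs with h3
      · rw [al4_3 (st.g4_ll (by decide)) (st.g4_ll (by decide)), if_pos h3]
      · rw [al4_c (st.g4_cl h)]
    · rw [al4_4 (st.g4_ll (by decide)) (st.g4_ll (by decide)) (st.g4_ll (by decide)),
        al4_4 (st.g4_ll (by decide)) (st.g4_ll (by decide)) (st.g4_ll (by decide))]
    · rw [al4_c (st.g4_cl h), al4_3 (st.g4_ll (by decide)) (st.g4_ll (by decide))]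
      split_ifs with h3
      · exfalso
        apply hg
        rw [h3, st.pc']
        exact St.g4_sgd
      · rfl
    · obtain ⟨h3, h4⟩ := st.g4_al hd hg
      rw [al4_g h1 h2, al4_g (fun i _ => h4 i) h3, G.al_al _ hd]
  cubic := by
    intro v hv
    rw [mem_sdiff] at hv
    rw [← G.cubic v hv.1, filter_filter]
    congr 1
    ext d
    simp only [mem_filter]
    constructor
    · rintro ⟨h1, _, h3⟩
      exact ⟨h1, h3⟩
    · rintro ⟨h1, h3⟩
      exact ⟨h1, by rw [h3]; exact hv.2, h3⟩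

variable {τ c c' : D} {p : ZMod 5 → V} {f l : ZMod 5 → D} (st : G.St K F τ c c' p f l)
  (h : G.PW K F)

/-- the degrees in `G4` -/
theorem dg_g4 {X : Finset V} (hX : X ⊆ G.vs \ G.gd τ p) :
    (G.g4 st h).dg X + (if G.pi (G.al (l 1)) ∈ X ∧ G.pi (G.al (l 2)) ∈ X then 2 else 0) +
      (if G.al c' ≠ c' ∧ G.pi (G.al (l 3)) ∈ X ∧ G.pi (G.al c') ∈ X then 2 else 0) = G.dg X := by
  have hXg : ∀ v ∈ X, v ∉ G.gd τ p := fun v hv => (mem_sdiff.1 (hX hv)).2
  have hsX : G.pi τ ∉ X := fun h1 => hXg _ h1 St.g4_sgd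
  have hpX : ∀ i, p i ∉ X := fun i h1 => hXg _ h1 (St.g4_pgd i)
  have hll : ∀ i j : ZMod 5, i ≠ j → G.al (l i) ≠ G.al (l j) := fun i j hij => st.g4_ll hij
  have hcl := st.g4_cl h
  set A : Finset D := if G.pi (G.al (l 1)) ∈ X ∧ G.pi (G.al (l 2)) ∈ X then
    {G.al (l 1), G.al (l 2)} else ∅ with hA
  set B : Finset D := if G.al c' ≠ c' ∧ G.pi (G.al (l 3)) ∈ X ∧ G.pi (G.al c') ∈ X then
    {G.al (l 3), G.al c'} else ∅ with hB
  have hAc : A.card = if G.pi (G.al (l 1)) ∈ X ∧ G.pi (G.al (l 2)) ∈ X then 2 else 0 := by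
    rw [hA]
    split_ifs
    · exact card_pair (hll 1 2 (by decide))
    · rfl
  have hBc : B.card = if G.al c' ≠ c' ∧ G.pi (G.al (l 3)) ∈ X ∧ G.pi (G.al c') ∈ X then 2
      else 0 := by
    rw [hB]
    split_ifs
    · exact card_pair (hcl 3).symm
    · rfl
  have hAm : ∀ d ∈ A, (G.pi (G.al (l 1)) ∈ X ∧ G.pi (G.al (l 2)) ∈ X) ∧
      (d = G.al (l 1) ∨ d = G.al (l 2)) := by
    intro d hd
    rw [hA] at hd
    split_ifs at hd with h1
    · rw [mem_insert, mem_singleton] at hd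
      exact ⟨h1, hd⟩
    · exact absurd hd (notMem_empty d)
  have hBm : ∀ d ∈ B, (G.al c' ≠ c' ∧ G.pi (G.al (l 3)) ∈ X ∧ G.pi (G.al c') ∈ X) ∧
      (d = G.al (l 3) ∨ d = G.al c') := by
    intro d hd
    rw [hB] at hd
    split_ifs at hd with h1
    · rw [mem_insert, mem_singleton] at hd
      exact ⟨h1, hd⟩
    · exact absurd hd (notMem_empty d)
  have hAB : Disjoint A B := by
    rw [disjoint_left]
    intro d h1 h2
    obtain ⟨-, h1⟩ := hAm d h1
    obtain ⟨-, h2⟩ := hBm d h2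
    rcases h1 with rfl | rfl <;> rcases h2 with h2 | h2
    · exact hll 1 3 (by decide) h2
    · exact hcl 1 h2.symm
    · exact hll 2 3 (by decide) h2
    · exact hcl 2 h2.symm
  have hlsb : ∀ i : ZMod 5, G.pi (G.al (l i)) ∈ X → G.al (l i) ∈ G.sb X := by
    intro i hi
    rw [mem_sb]
    refine ⟨G.al_mem _ (st.pen.lm i), hi, Or.inr ?_⟩
    rw [G.al_al _ (st.pen.lm i), st.pen.lp i]
    exact hpX i
  have hcsb : G.pi (G.al c') ∈ X → G.al c' ∈ G.sb X := by
    intro hi
    rw [mem_sb]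
    refine ⟨G.al_mem _ st.mc', hi, Or.inr ?_⟩
    rw [G.al_al _ st.mc', st.pc']
    exact hsX
  have hsub : A ∪ B ⊆ G.sb X := by
    intro d hd
    rcases mem_union.1 hd with h1 | h1
    · obtain ⟨h2, h3⟩ := hAm d h1
      rcases h3 with rfl | rfl
      · exact hlsb 1 h2.1
      · exact hlsb 2 h2.2
    · obtain ⟨h2, h3⟩ := hBm d h1
      rcases h3 with rfl | rfl
      · exact hlsb 3 h2.2.1
      · exact hcsb h2.2.2
  have hkey : (G.g4 st h).sb X = G.sb X \ (A ∪ B) := by
    ext d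
    rw [mem_sb, mem_sdiff, mem_sb]
    show (d ∈ G.ds.filter (fun d => G.pi d ∉ G.gd τ p) ∧ G.pi d ∈ X ∧
      (G.al4 c' l d = d ∨ G.pi (G.al4 c' l d) ∉ X)) ↔ _
    rw [mem_filter]
    by_cases hd : d ∈ G.ds
    swap
    · exact ⟨fun h1 => absurd h1.1.1 hd, fun h1 => absurd h1.1.1 hd⟩
    by_cases hdX : G.pi d ∈ X
    swap
    · exact ⟨fun h1 => absurd h1.2.1 hdX, fun h1 => absurd h1.1.2.1 hdX⟩
    have hdg := hXg _ hdX
    have e1 : ((d ∈ G.ds ∧ G.pi d ∉ G.gd τ p) ∧ G.pi d ∈ X ∧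
        (G.al4 c' l d = d ∨ G.pi (G.al4 c' l d) ∉ X)) ↔
        (G.al4 c' l d = d ∨ G.pi (G.al4 c' l d) ∉ X) :=
      ⟨fun h1 => h1.2.2, fun h1 => ⟨⟨hd, hdg⟩, hdX, h1⟩⟩
    rw [e1]
    rcases G.al4_cases c' l d with rfl | rfl | rfl | rfl | rfl | ⟨h1, h2⟩
    · rw [al4_1]
      constructor
      · rintro (h1 | h1)
        · exact absurd h1 (hll 2 1 (by decide))
        · refine ⟨(mem_sb.1 (hlsb 1 hdX)), fun h2 => ?_⟩
          rcases mem_union.1 h2 with h2 | h2
          · exact h1 (hAm _ h2).1.2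
          · rcases (hBm _ h2).2 with h3 | h3
            · exact hll 1 3 (by decide) h3
            · exact hcl 1 h3.symm
      · rintro ⟨-, h2⟩
        right
        intro h3
        apply h2
        apply mem_union_left
        rw [hA, if_pos ⟨hdX, h3⟩]
        exact mem_insert_self _ _
    · rw [al4_2 (hll 2 1 (by decide))]
      constructor
      · rintro (h1 | h1)
        · exact absurd h1 (hll 1 2 (by decide))
        · refine ⟨(mem_sb.1 (hlsb 2 hdX)), fun h2 => ?_⟩
          rcases mem_union.1 h2 with h2 | h2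
          · exact h1 (hAm _ h2).1.1
          · rcases (hBm _ h2).2 with h3 | h3
            · exact hll 2 3 (by decide) h3
            · exact hcl 2 h3.symm
      · rintro ⟨-, h2⟩
        right
        intro h3
        apply h2
        apply mem_union_left
        rw [hA, if_pos ⟨h3, hdX⟩]
        exact mem_insert_of_mem (mem_singleton_self _)
    · rw [al4_3 (hll 3 1 (by decide)) (hll 3 2 (by decide))]
      constructor
      · intro h1
        refine ⟨(mem_sb.1 (hlsb 3 hdX)), fun h2 => ?_⟩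
        rcases mem_union.1 h2 with h2 | h2
        · rcases (hAm _ h2).2 with h3 | h3
          · exact hll 3 1 (by decide) h3
          · exact hll 3 2 (by decide) h3
        · have h3 := (hBm _ h2).1
          rw [if_neg h3.1] at h1
          rcases h1 with h1 | h1
          · exact hcl 3 h1
          · exact h1 h3.2.2
      · rintro ⟨-, h2⟩
        split_ifs with h3
        · exact Or.inl rfl
        · right
          intro h4
          apply h2
          apply mem_union_right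
          rw [hB, if_pos ⟨h3, hdX, h4⟩]
          exact mem_insert_self _ _
    · rw [al4_4 (hll 4 1 (by decide)) (hll 4 2 (by decide)) (hll 4 3 (by decide))]
      constructor
      · intro _
        refine ⟨(mem_sb.1 (hlsb 4 hdX)), fun h2 => ?_⟩
        rcases mem_union.1 h2 with h2 | h2
        · rcases (hAm _ h2).2 with h3 | h3
          · exact hll 4 1 (by decide) h3
          · exact hll 4 2 (by decide) h3
        · rcases (hBm _ h2).2 with h3 | h3
          · exact hll 4 3 (by decide) h3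
          · exact hcl 4 h3.symm
      · intro _
        exact Or.inl rfl
    · rw [al4_c hcl]
      have hct : G.al c' ≠ c' := by
        intro h1
        apply hsX
        rw [← st.pc', ← h1]
        exact hdX
      constructor
      · rintro (h1 | h1)
        · exact absurd h1 (hcl 3).symm
        · refine ⟨(mem_sb.1 (hcsb hdX)), fun h2 => ?_⟩
          rcases mem_union.1 h2 with h2 | h2
          · rcases (hAm _ h2).2 with h3 | h3
            · exact hcl 1 h3
            · exact hcl 2 h3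
          · exact h1 (hBm _ h2).1.2.1
      · rintro ⟨-, h2⟩
        right
        intro h3
        apply h2
        apply mem_union_right
        rw [hB, if_pos ⟨hct, h3, hdX⟩]
        exact mem_insert_of_mem (mem_singleton_self _)
    · rw [al4_g h1 h2]
      constructor
      · intro h3
        refine ⟨⟨hd, hdX, h3⟩, fun h4 => ?_⟩
        rcases mem_union.1 h4 with h4 | h4
        · rcases (hAm _ h4).2 with h5 | h5
          · exact h1 1 (by decide) h5
          · exact h1 2 (by decide) h5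
        · rcases (hBm _ h4).2 with h5 | h5
          · exact h1 3 (by decide) h5
          · exact h2 h5
      · intro h3
        exact h3.1.2.2
  rw [← hAc, ← hBc, dg_sb, dg_sb, hkey]
  have h5 := card_sdiff_add_card_eq_card hsub
  rw [card_union_of_disjoint hAB] at h5
  omega

/-- the nodes outside the gadget form a partition of `G4` -/
theorem part_g4 : (G.g4 st h).Part (G.nd K F (G.gd τ p)) := by
  have hP := st.part h
  refine ⟨fun v hv => hP.self v (mem_sdiff.1 hv).1, ?_, fun v hv => hP.eq v (mem_sdiff.1 hv).1⟩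
  intro v hv w hw
  have hv' := mem_sdiff.1 hv
  refine mem_sdiff.2 ⟨hP.sub v hv'.1 hw, fun hg => hv'.2 ?_⟩
  have h1 := hP.eq v hv'.1 w hw
  have h2 : G.nd K F (G.gd τ p) w = G.gd τ p := by
    unfold nd
    rw [if_pos hg]
  have h3 := hP.self v hv'.1
  rw [← h1, h2] at h3
  exact h3

/-- the boundary in `G4`, away from the legs -/
theorem bd_g4 {X : Finset V} (hX : X ⊆ G.vs \ G.gd τ p) {d : D}
    (h1 : ∀ i, i ≠ 0 → d ≠ G.al (l i)) (h2 : d ≠ G.al c') :
    d ∈ (G.g4 st h).bd X ↔ d ∈ G.bd X := by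
  rw [G.mem_bd, mem_bd]
  show (d ∈ G.ds.filter (fun d => G.pi d ∉ G.gd τ p) ∧ G.pi d ∈ X ∧ G.pi (G.al4 c' l d) ∉ X) ↔ _
  rw [mem_filter, al4_g h1 h2]
  constructor
  · rintro ⟨⟨h3, -⟩, h4, h5⟩
    exact ⟨h3, h4, h5⟩
  · rintro ⟨h3, h4, h5⟩
    exact ⟨⟨h3, (mem_sdiff.1 (hX h4)).2⟩, h4, h5⟩

end JP.CG
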