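import Pool.Agent.Lib.P5.Defs

/-! Modularity of all the cut functions used (MP_c95763_co, pentagon world). -/

set_option autoImplicit false

namespace JP.CG

open Finset Classical

variable {V D : Type*} {G : CG V D}

/-- weighted value -/
noncomputable def wv (G : CG V D) (z : D → ℕ) (t : V → ℕ) (X : Finset V) : ℕ :=
  ∑ d ∈ G.sb X, z d + ∑ v ∈ X, t v

lemma mem_sb {X : Finset V} {d : D} :
    d ∈ G.sb X ↔ d ∈ G.ds ∧ G.pi d ∈ X ∧ (G.al d = d ∨ G.pi (G.al d) ∉ X) := by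
  unfold sb
  rw [mem_filter]

lemma sb_eq (X : Finset V) : G.sb X = G.bd X ∪ G.tk X := by
  ext d
  rw [mem_sb, mem_union, G.mem_bd, G.mem_tk]
  tauto

lemma sb_dis (X : Finset V) : Disjoint (G.bd X) (G.tk X) := by
  rw [disjoint_left]
  intro d h1 h2
  rw [G.mem_bd] at h1
  rw [G.mem_tk] at h2
  rw [h2.2.2] at h1
  exact h1.2.2 h1.2.1

lemma dg_sb (X : Finset V) : G.dg X = (G.sb X).card := by
  rw [sb_eq, card_union_of_disjoint (sb_dis X)]
  rfl

lemma zc_wv (z : D → ℕ) (t : V → ℕ) (X : Finset V) : G.zc z t X = G.wv z t X := by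
  unfold wv
  rw [sb_eq, sum_union (sb_dis X)]
  rfl

lemma dg_wv (X : Finset V) : G.dg X = G.wv (fun _ => 1) (fun _ => 0) X := by
  unfold wv
  rw [dg_sb, sum_const, sum_const_zero, smul_eq_mul, mul_one, add_zero]

lemma rv_wv (A : Finset D) (u : V) (X : Finset V) :
    G.rv A u X = G.wv (fun d => if d ∈ A then 0 else 1) (fun v => if v = u then 1 else 0) X := by
  unfold rv wv
  have h1 : (G.sb X \ A).card = ∑ d ∈ G.sb X, if d ∈ A then 0 else 1 := by
    rw [card_eq_sum_ones, sdiff_eq_filter, sum_filter]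
    refine sum_congr rfl fun d _ => ?_
    by_cases h : d ∈ A <;> simp [h]
  have h2 : (∑ v ∈ X, if v = u then 1 else 0) = if u ∈ X then 1 else 0 := by
    rw [sum_ite_eq' X u (fun _ => 1)]
  rw [h1, h2]

private lemma wv_ds (z : D → ℕ) (t : V → ℕ) (X : Finset V) :
    G.wv z t X = ∑ d ∈ G.ds, (if G.pi d ∈ X ∧ (G.al d = d ∨ G.pi (G.al d) ∉ X) then z d else 0) +
      ∑ v ∈ X, t v := by
  unfold wv sb
  rw [sum_filter]

theorem wv_sub (z : D → ℕ) (t : V → ℕ) (X Y : Finset V) :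
    G.wv z t (X ∩ Y) + G.wv z t (X ∪ Y) ≤ G.wv z t X + G.wv z t Y := by
  rw [wv_ds, wv_ds, wv_ds z t X, wv_ds z t Y]
  have hv : ∑ v ∈ X ∪ Y, t v + ∑ v ∈ X ∩ Y, t v = ∑ v ∈ X, t v + ∑ v ∈ Y, t v :=
    sum_union_inter
  have hd : ∑ d ∈ G.ds, (if G.pi d ∈ X ∩ Y ∧ (G.al d = d ∨ G.pi (G.al d) ∉ X ∩ Y) then z d else 0) +
      ∑ d ∈ G.ds, (if G.pi d ∈ X ∪ Y ∧ (G.al d = d ∨ G.pi (G.al d) ∉ X ∪ Y) then z d else 0) ≤
      ∑ d ∈ G.ds, (if G.pi d ∈ X ∧ (G.al d = d ∨ G.pi (G.al d) ∉ X) then z d else 0) +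
      ∑ d ∈ G.ds, (if G.pi d ∈ Y ∧ (G.al d = d ∨ G.pi (G.al d) ∉ Y) then z d else 0) := by
    rw [← sum_add_distrib, ← sum_add_distrib]
    refine sum_le_sum fun d _ => ?_
    simp only [mem_inter, mem_union]
    by_cases h0 : G.al d = d
    · by_cases h1 : G.pi d ∈ X <;> by_cases h2 : G.pi d ∈ Y <;> simp [h0, h1, h2]
    · by_cases h1 : G.pi d ∈ X <;> by_cases h2 : G.pi d ∈ Y <;>
        by_cases h3 : G.pi (G.al d) ∈ X <;> by_cases h4 : G.pi (G.al d) ∈ Y <;>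
        simp [h0, h1, h2, h3, h4]
  omega

/-- posimodularity with the edges (and tokens) leaving `X ∩ Y` and `X ∪ Y` -/
theorem wv_posi {z : D → ℕ} {R : Finset V}
    (hs : ∀ d ∈ G.ds, G.al d ≠ d → G.pi d ∈ R → G.pi (G.al d) ∈ R → z (G.al d) = z d)
    (t : V → ℕ) {X Y : Finset V} (hX : X ⊆ R) (hY : Y ⊆ R) :
    G.wv z t (X \ Y) + G.wv z t (Y \ X) +
      2 * ∑ d ∈ (G.sb (X ∩ Y)).filter (fun d => G.al d = d ∨ G.pi (G.al d) ∉ X ∪ Y), z d ≤
      G.wv z t X + G.wv z t Y := by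
  have hv1 : ∑ v ∈ X \ Y, t v + ∑ v ∈ X ∩ Y, t v = ∑ v ∈ X, t v := by
    rw [add_comm]
    exact sum_inter_add_sum_sdiff X Y t
  have hv2 : ∑ v ∈ Y \ X, t v + ∑ v ∈ X ∩ Y, t v = ∑ v ∈ Y, t v := by
    rw [add_comm, inter_comm]
    exact sum_inter_add_sum_sdiff Y X t
  have hf : ∑ d ∈ (G.sb (X ∩ Y)).filter (fun d => G.al d = d ∨ G.pi (G.al d) ∉ X ∪ Y), z d =
      ∑ d ∈ G.ds, (if G.pi d ∈ X ∧ G.pi d ∈ Y ∧ (G.al d = d ∨ (G.pi (G.al d) ∉ X ∧
        G.pi (G.al d) ∉ Y)) then z d else 0) := by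
    unfold sb
    rw [filter_filter, sum_filter]
    refine sum_congr rfl fun d _ => ?_
    simp only [mem_inter, mem_union]
    by_cases h0 : G.al d = d
    · by_cases h1 : G.pi d ∈ X <;> by_cases h2 : G.pi d ∈ Y <;> simp [h0, h1, h2]
    · by_cases h1 : G.pi d ∈ X <;> by_cases h2 : G.pi d ∈ Y <;>
        by_cases h3 : G.pi (G.al d) ∈ X <;> by_cases h4 : G.pi (G.al d) ∈ Y <;>
        simp [h0, h1, h2, h3, h4]
  rw [wv_ds, wv_ds, wv_ds z t X, wv_ds z t Y, hf]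
  set a : D → ℕ := fun d =>
    (if G.pi d ∈ X \ Y ∧ (G.al d = d ∨ G.pi (G.al d) ∉ X \ Y) then z d else 0) +
    (if G.pi d ∈ Y \ X ∧ (G.al d = d ∨ G.pi (G.al d) ∉ Y \ X) then z d else 0) +
    2 * (if G.pi d ∈ X ∧ G.pi d ∈ Y ∧ (G.al d = d ∨ (G.pi (G.al d) ∉ X ∧
        G.pi (G.al d) ∉ Y)) then z d else 0) with ha
  set b : D → ℕ := fun d =>
    (if G.pi d ∈ X ∧ (G.al d = d ∨ G.pi (G.al d) ∉ X) then z d else 0) +
    (if G.pi d ∈ Y ∧ (G.al d = d ∨ G.pi (G.al d) ∉ Y) then z d else 0) with hb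
  have hab : ∑ d ∈ G.ds, a d ≤ ∑ d ∈ G.ds, b d := by
    set σ : D → D := fun d =>
      if G.al d ≠ d ∧ G.pi d ∈ R ∧ G.pi (G.al d) ∈ R then G.al d else d with hσ
    have hm : ∀ d ∈ G.ds, σ d ∈ G.ds := by
      intro d hd
      simp only [hσ]
      split_ifs
      · exact G.al_mem d hd
      · exact hd
    have hi : ∀ d ∈ G.ds, σ (σ d) = d := by
      intro d hd
      by_cases h : G.al d ≠ d ∧ G.pi d ∈ R ∧ G.pi (G.al d) ∈ R
      · have e1 : σ d = G.al d := by simp only [hσ]; rw [if_pos h]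
        have e2 : σ (G.al d) = G.al (G.al d) := by
          simp only [hσ]
          rw [if_pos]
          rw [G.al_al d hd]
          exact ⟨fun hh => h.1 hh.symm, h.2.2, h.2.1⟩
        rw [e1, e2, G.al_al d hd]
      · have e1 : σ d = d := by simp only [hσ]; rw [if_neg h]
        rw [e1, e1]
    have hs1 : ∀ g : D → ℕ, ∑ d ∈ G.ds, g (σ d) = ∑ d ∈ G.ds, g d := by
      intro g
      refine sum_nbij' σ σ (fun d hd => hm d hd) (fun d hd => hm d hd) (fun d hd => hi d hd)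
        (fun d hd => hi d hd) (fun d _ => rfl)
    have hp : ∑ d ∈ G.ds, (a d + a (σ d)) ≤ ∑ d ∈ G.ds, (b d + b (σ d)) := by
      refine sum_le_sum fun d hd => ?_
      by_cases h : G.al d ≠ d ∧ G.pi d ∈ R ∧ G.pi (G.al d) ∈ R
      · have e1 : σ d = G.al d := by simp only [hσ]; rw [if_pos h]
        rw [e1]
        have hz := hs d hd h.1 h.2.1 h.2.2
        have h5 : ¬ (d = G.al d) := fun hh => h.1 hh.symm
        have h0 : ¬ (G.al d = d) := h.1
        simp only [ha, hb, hz, G.al_al d hd, mem_sdiff]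
        by_cases h1 : G.pi d ∈ X <;> by_cases h2 : G.pi d ∈ Y <;>
          by_cases h3 : G.pi (G.al d) ∈ X <;> by_cases h4 : G.pi (G.al d) ∈ Y <;>
          simp [h0, h5, h1, h2, h3, h4] <;> omega
      · have e1 : σ d = d := by simp only [hσ]; rw [if_neg h]
        rw [e1]
        have hk : a d ≤ b d := by
          simp only [ha, hb, mem_sdiff]
          by_cases h0 : G.al d = d
          · by_cases h1 : G.pi d ∈ X <;> by_cases h2 : G.pi d ∈ Y <;> simp [h0, h1, h2] <;> omega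
          · by_cases hR : G.pi d ∈ R
            · have hq : G.pi (G.al d) ∉ R := fun hh => h ⟨h0, hR, hh⟩
              have h3 : G.pi (G.al d) ∉ X := fun hh => hq (hX hh)
              have h4 : G.pi (G.al d) ∉ Y := fun hh => hq (hY hh)
              by_cases h1 : G.pi d ∈ X <;> by_cases h2 : G.pi d ∈ Y <;>
                simp [h0, h1, h2, h3, h4] <;> omega
            · have h1 : G.pi d ∉ X := fun hh => hR (hX hh)
              have h2 : G.pi d ∉ Y := fun hh => hR (hY hh)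
              simp [h1, h2]
        omega
    have ka : ∑ d ∈ G.ds, (a d + a (σ d)) = ∑ d ∈ G.ds, a d + ∑ d ∈ G.ds, a d := by
      rw [sum_add_distrib (f := a) (g := fun d => a (σ d)), hs1 a]
    have kb : ∑ d ∈ G.ds, (b d + b (σ d)) = ∑ d ∈ G.ds, b d + ∑ d ∈ G.ds, b d := by
      rw [sum_add_distrib (f := b) (g := fun d => b (σ d)), hs1 b]
    rw [ka, kb] at hp
    omega
  simp only [ha, hb, sum_add_distrib, ← mul_sum] at hab
  omega

theorem dg_sub (X Y : Finset V) : G.dg (X ∩ Y) + G.dg (X ∪ Y) ≤ G.dg X + G.dg Y := by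
  rw [dg_wv, dg_wv, dg_wv X, dg_wv Y]
  exact wv_sub _ _ X Y

theorem dg_posi {X Y : Finset V} (hX : X ⊆ G.vs) (hY : Y ⊆ G.vs) :
    G.dg (X \ Y) + G.dg (Y \ X) ≤ G.dg X + G.dg Y := by
  have h := wv_posi (G := G) (z := fun _ => 1) (R := G.vs) (fun _ _ _ _ _ => rfl) (fun _ => 0) hX hY
  rw [dg_wv, dg_wv, dg_wv X, dg_wv Y]
  omega

theorem dg_posi2 {X Y : Finset V} (hX : X ⊆ G.vs) (hY : Y ⊆ G.vs) {d : D} (hd : d ∈ G.ds)
    (h1 : G.pi d ∈ X) (h2 : G.pi d ∈ Y) (h3 : G.al d = d ∨ G.pi (G.al d) ∉ X ∪ Y) :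
    G.dg (X \ Y) + G.dg (Y \ X) + 2 ≤ G.dg X + G.dg Y := by
  have h := wv_posi (G := G) (z := fun _ => 1) (R := G.vs) (fun _ _ _ _ _ => rfl) (fun _ => 0) hX hY
  have hm : d ∈ (G.sb (X ∩ Y)).filter (fun d => G.al d = d ∨ G.pi (G.al d) ∉ X ∪ Y) := by
    rw [mem_filter, mem_sb, mem_inter]
    refine ⟨⟨hd, ⟨h1, h2⟩, ?_⟩, h3⟩
    rcases h3 with h3 | h3
    · exact Or.inl h3
    · right
      intro hh
      exact h3 (mem_union_left _ (mem_inter.mp hh).1)
  have hc : 1 ≤ ∑ d ∈ (G.sb (X ∩ Y)).filter (fun d => G.al d = d ∨ G.pi (G.al d) ∉ X ∪ Y),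
      1 := by
    rw [← card_eq_sum_ones]
    exact card_pos.mpr ⟨d, hm⟩
  rw [dg_wv, dg_wv, dg_wv X, dg_wv Y]
  omega

/-- the killed set is symmetric inside `R` -/
def ASym (G : CG V D) (R : Finset V) (A : Finset D) : Prop :=
  ∀ d ∈ G.ds, G.al d ≠ d → G.pi d ∈ R → G.pi (G.al d) ∈ R → (G.al d ∈ A ↔ d ∈ A)

theorem rv_sub (A : Finset D) (u : V) (X Y : Finset V) :
    G.rv A u (X ∩ Y) + G.rv A u (X ∪ Y) ≤ G.rv A u X + G.rv A u Y := by
  rw [rv_wv, rv_wv, rv_wv _ _ X, rv_wv _ _ Y]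
  exact wv_sub _ _ X Y

theorem rv_posi {R : Finset V} {A : Finset D} (hA : G.ASym R A) (u : V) {X Y : Finset V}
    (hX : X ⊆ R) (hY : Y ⊆ R) :
    G.rv A u (X \ Y) + G.rv A u (Y \ X) ≤ G.rv A u X + G.rv A u Y := by
  have h := wv_posi (G := G) (z := fun d => if d ∈ A then 0 else 1) (R := R)
    (by
      intro d hd h0 h1 h2
      have h3 := hA d hd h0 h1 h2
      by_cases h4 : d ∈ A
      · simp [h4, h3.mpr h4]
      · have h5 : G.al d ∉ A := fun hh => h4 (h3.mp hh)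
        simp [h4, h5])
    (fun v => if v = u then 1 else 0) hX hY
  rw [rv_wv, rv_wv, rv_wv _ _ X, rv_wv _ _ Y]
  omega

/-- the hypothesis `he` is needed: for an edge `e` inside `R` the dart `al e` is not in `A` -/
lemma Rt.asym {cl : V → Finset V} {R T : Finset V} {e φ : D} {A : Finset D} {u : V}
    (h : G.Rt cl R T e φ A u) (he : G.al e = e ∨ G.pi (G.al e) ∉ R) : G.ASym R A := by
  intro d hd h0 h1 h2
  constructor
  · intro hA
    by_cases hde : G.al d = e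
    · exfalso
      have h3 : G.al e = d := by rw [← hde, G.al_al d hd]
      rcases he with he | he
      · rw [h3] at he
        exact h0 (hde.trans he.symm)
      · exact he (h3 ▸ h1)
    · have h3 := (h.clo _ hA hde).2.1
      rwa [G.al_al d hd] at h3
  · intro hA
    by_cases hde : d = e
    · exfalso
      subst hde
      rcases he with he | he
      · exact h0 he
      · exact he h2
    · exact (h.clo _ hA hde).2.1

/-- the formula for disjoint sets: everything between them is internal -/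
theorem sb_union_sub (X Y : Finset V) : G.sb (X ∪ Y) ⊆ G.sb X ∪ G.sb Y := by
  intro d hd
  rw [mem_sb] at hd
  rw [mem_union, mem_sb, mem_sb]
  obtain ⟨h1, h2, h3⟩ := hd
  rcases mem_union.mp h2 with h | h
  · left
    refine ⟨h1, h, ?_⟩
    rcases h3 with h3 | h3
    · exact Or.inl h3
    · exact Or.inr fun hh => h3 (mem_union_left _ hh)
  · right
    refine ⟨h1, h, ?_⟩
    rcases h3 with h3 | h3
    · exact Or.inl h3
    · exact Or.inr fun hh => h3 (mem_union_right _ hh)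

end JP.CG
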