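import Pool.Agent.Lib.P5.Defs
import Pool.Agent.Lib.JP.F4

/-! (F4) for a labelled circuit with four vertices (MP_c95763_co). -/

set_option autoImplicit false

namespace JP.CG

open Finset Classical

variable {V D : Type*} {G : CG V D} {K : Finset V} {F : Finset D}

/-- no fresh circuit with four vertices -/
theorem MC.no4 (h : G.MC K F) {q : ZMod 4 → V} {f : ZMod 4 → D}
    (hq : Function.Injective q) (hK : ∀ i, q i ∉ K) (fF : ∀ i, f i ∈ F)
    (fp : ∀ i, G.pi (f i) = q i) (fa : ∀ i, G.pi (G.al (f i)) = q (i + 1)) : False := by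
  have hc := h.inst.cls
  have hv : ∀ i, q i ∈ G.vs := by
    intro i
    rw [← fp i]
    exact G.pi_mem _ (hc.Fsub (fF i))
  have hm : ∀ i, q i ∈ univ.image q := fun i => mem_image_of_mem q (mem_univ i)
  have hA : G.Adm K F (univ.image q) := by
    refine ⟨?_, ?_, ?_⟩
    · intro v hv'
      obtain ⟨i, -, rfl⟩ := mem_image.1 hv'
      exact hv i
    · intro v hv'
      obtain ⟨i, -, rfl⟩ := mem_image.1 hv'
      exact hK i
    · intro d hd hdp
      obtain ⟨i, -, hi⟩ := mem_image.1 hdp
      -- the two darts of `F` at `q i`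
      have h1 : f i ≠ G.al (f (i - 1)) := by
        intro h2
        have h3 : G.al (f i) = f (i - 1) := by
          rw [h2, G.al_al _ (hc.Fsub (fF (i - 1)))]
        have h4 := fa i
        rw [h3, fp (i - 1)] at h4
        have h5 := hq h4
        have h6 : ∀ j : ZMod 4, j - 1 ≠ j + 1 := by decide
        exact h6 i h5
      have h2 : ({f i, G.al (f (i - 1))} : Finset D) ⊆ F.filter fun x => G.pi x = q i := by
        intro x hx
        rw [mem_insert, mem_singleton] at hx
        rw [mem_filter]
        rcases hx with rfl | rfl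
        · exact ⟨fF i, fp i⟩
        · refine ⟨hc.Fal _ (fF _), ?_⟩
          rw [fa (i - 1), sub_add_cancel]
      have h3 : ({f i, G.al (f (i - 1))} : Finset D) = F.filter fun x => G.pi x = q i := by
        apply eq_of_subset_of_card_le h2
        rw [hc.F2 _ (hv i) (hK i), card_pair h1]
      have h4 : d ∈ F.filter fun x => G.pi x = q i := mem_filter.2 ⟨hd, hi.symm⟩
      rw [← h3, mem_insert, mem_singleton] at h4
      rcases h4 with rfl | rfl
      · rw [fa i]
        exact hm _
      · rw [G.al_al _ (hc.Fsub (fF (i - 1))), fp (i - 1)]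
        exact hm _
  have h4 : (univ.image q).card = 4 := by
    rw [card_image_of_injective _ hq, card_univ, ZMod.card]
  have h5 := h.no_small hA (by omega)
  rw [h5, card_empty] at h4
  omega

end JP.CG
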