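import Pool.Agent.Lib.P5.RouteX

/-! Theorem Q for dart graphs with classes (MP_c95763_co, pentagon world). -/

set_option autoImplicit false

namespace JP.CG

open Finset Classical RX

variable {V D : Type*} {G : CG V D}

/-- **Theorem Q** -/
theorem routeQ {cl : V → Finset V} (hp : G.Part cl) {R T : Finset V} (hR : R ⊆ G.vs)
    (sR : CSat cl R) (hT : T ⊆ R) (sT : CSat cl T) {e φ : D} (me : e ∈ G.ds) (pe : G.pi e ∈ R)
    (oe : G.al e = e ∨ G.pi (G.al e) ∉ R) (mφ : φ ∈ G.ds)
    (hφe : G.al φ ≠ φ → φ ≠ e ∧ G.al φ ≠ e)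
    (hφ : G.al φ ≠ φ → G.pi φ ∈ R → G.pi (G.al φ) ∈ R → G.pi φ ∈ T ∨ G.pi (G.al φ) ∈ T)
    (L3 : ∀ X ⊆ R, CSat cl X → Odd X.card → 3 ≤ G.dg X)
    (L5 : ∀ X ⊆ R, CSat cl X → Disjoint X T → Odd X.card → 5 ≤ G.dg X)
    (E : ∀ X ⊆ R, CSat cl X → Disjoint X T → G.pi e ∈ X →
      ∃ d ∈ G.bd X, G.pi (G.al d) ∈ R ∧ d ≠ φ ∧ G.al d ≠ φ) :
    ∃ A u, G.Rt cl R T e φ A u ∧
      ∀ X ⊆ R, CSat cl X → Odd X.card → 3 ≤ G.rv A u X := by
  have he : e ∈ G.sb R := msb.2 ⟨me, pe, oe⟩
  have hSs : ({e} : Finset D) ⊆ G.sb R := singleton_subset_iff.2 he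
  set w1 := cn G cl e with hw1
  -- the value
  have hval : ∀ W : Finset (Nd V), ThmQ.dv G.al (cn G cl) (ind G cl R)
      (rho G cl R {e}) w1 W = G.dg (vsn cl R W) := by
    intro W
    have h3 := sb_count (G := G) (cl := cl) (R := R) (W := W) (P := ∅) (S := ∅) (empty_subset _)
      (empty_subset _)
    rw [union_empty, sdiff_empty, sdiff_empty] at h3
    rw [dgs, h3, sum_rho_insert W he (notMem_empty _)]
    unfold ThmQ.dv
    have h4 : insert e ∅ = ({e} : Finset D) := by simp
    rw [h4, ← hw1]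
    omega
  have hW : ∀ W : Finset (Nd V), Odd (ThmQ.dv G.al (cn G cl) (ind G cl R)
      (rho G cl R {e}) w1 W) ↔ Odd (vsn cl R W).card := by
    intro W
    rw [hval, G.dg_parity ((vsn_sub W).trans hR)]
  have hdis : ∀ W : Finset (Nd V), Disjoint W (T.image (nv cl)) → Disjoint (vsn cl R W) T := by
    intro W h
    rw [disjoint_left] at h ⊢
    intro v hv hvT
    exact h (mem_vsn.1 hv).2 (mem_image_of_mem _ hvT)
  have hI : ThmQ.DInst G.al (cn G cl) (R.image (nv cl)) (ind G cl R) (rho G cl R {e}) w1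
      (T.image (nv cl)) φ := by
    refine ⟨ind_al, fun d hd => G.al_al d (mem_ind.1 hd).1, fun d hd => (mem_ind.1 hd).2.2.1,
      fun d hd => mem_image_of_mem _ (mem_ind.1 hd).2.1, mem_image_of_mem _ pe,
      image_subset_image hT, ?_, ?_, ?_, ?_⟩
    · intro h
      have h1 := mem_ind.1 h
      rcases hφ h1.2.2.1 h1.2.1 h1.2.2.2.1 with h2 | h2
      · exact Or.inl (mem_image_of_mem _ h2)
      · exact Or.inr (mem_image_of_mem _ h2)
    · intro W _ ho
      rw [hW] at ho
      rw [hval]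
      exact L3 _ (vsn_sub W) (vsn_sat hp hR sR W) ho
    · intro W _ ho hd
      rw [hW] at ho
      rw [hval]
      exact L5 _ (vsn_sub W) (vsn_sat hp hR sR W) (hdis W hd) ho
    · intro Ω _ hw hd
      obtain ⟨d, h1, h2, h3, h4⟩ := E (vsn cl R Ω) (vsn_sub Ω) (vsn_sat hp hR sR Ω) (hdis Ω hd)
        (mem_vsn.2 ⟨pe, hw⟩)
      have h5 := G.mem_bd.1 h1
      have h6 := mem_vsn.1 h5.2.1
      have h7 : nv cl (G.pi (G.al d)) ∉ Ω := fun h => h5.2.2 (mem_vsn.2 ⟨h2, h⟩)
      refine ⟨d, ?_, h3, h4, h6.2, h7⟩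
      rw [mem_ind]
      refine ⟨h5.1, h6.1, fun h => h5.2.2 ?_, h2, fun h => h7 ?_⟩
      · rw [h]
        exact h5.2.1
      · rw [nv_eq.2 h]
        exact h6.2
  obtain ⟨P, u', hP⟩ := ThmQ.main_dart hI
  have hD := hP.path hI
  have hPs := hP.sub
  have heP : e ∉ P := by
    intro h
    have h5 := mem_ind.1 (hPs h)
    rcases oe with h6 | h6
    · exact h5.2.2.1 h6
    · exact h6 h5.2.2.2.1
  have hPR : ∀ d ∈ P, G.pi d ∈ R := fun d hd => (mem_ind.1 (hPs hd)).2.1
  have hcl : ∀ v ∈ R, ∀ d, G.pi d ∈ R → (G.pi d ∈ cl v ↔ cn G cl d = nv cl v) := by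
    intro v hv d hd
    unfold cn
    rw [nv_eq]
    constructor
    · intro h
      exact hp.eq v (hR hv) _ h
    · intro h
      rw [← h]
      exact hp.self _ (hR hd)
  -- the landing dart
  obtain ⟨dl, hdl, hdlu, hdlone⟩ : ∃ d ∈ insert e P, cn G cl d = u' ∧
      ∀ d' ∈ insert e P, cn G cl d' = u' → d' = d := by
    by_cases hu : u' = w1
    · have hPe := hD.empty hu
      refine ⟨e, mem_insert_self _ _, hu.symm, fun d' hd' _ => ?_⟩
      rw [hPe] at hd'
      simpa using hd'
    · have h1 := hD.deg_q hu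
      rw [card_eq_one] at h1
      obtain ⟨d, hd⟩ := h1
      have h2 : d ∈ P.filter fun d => cn G cl d = u' := by
        rw [hd]
        exact mem_singleton_self _
      rw [mem_filter] at h2
      refine ⟨d, mem_insert_of_mem h2.1, h2.2, fun d' hd' hd'u => ?_⟩
      rcases mem_insert.1 hd' with rfl | h3
      · exact absurd hd'u.symm hu
      · have h4 : d' ∈ P.filter fun d => cn G cl d = u' := mem_filter.2 ⟨h3, hd'u⟩
        rw [hd, mem_singleton] at h4
        exact h4
  have hAR : ∀ d ∈ insert e P, G.pi d ∈ R := by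
    intro d hd
    rcases mem_insert.1 hd with rfl | h
    · exact pe
    · exact hPR d h
  have huR : G.pi dl ∈ R := hAR dl hdl
  have huu : nv cl (G.pi dl) = u' := hdlu
  have hTm : ∀ v ∈ R, (nv cl v ∈ T.image (nv cl) ↔ v ∈ T) := by
    intro v hv
    rw [mem_image]
    constructor
    · rintro ⟨w, hw, h⟩
      apply sT w hw
      rw [nv_eq.1 h]
      exact hp.self v (hR hv)
    · intro h
      exact ⟨v, h, rfl⟩
  have huT : G.pi dl ∈ T := by
    rw [← hTm _ huR, huu]
    exact hP.uT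
  refine ⟨insert e P, G.pi dl, ⟨?_, mem_insert_self _ _, ?_, ?_, ⟨huR, huT⟩, ?_, ?_, ?_, ?_, ?_⟩,
    ?_⟩
  · intro d hd
    rcases mem_insert.1 hd with rfl | h
    · exact ⟨me, pe⟩
    · exact ⟨(mem_ind.1 (hPs h)).1, hPR d h⟩
  · intro d hd hne
    have h : d ∈ P := (mem_insert.1 hd).resolve_left hne
    have h3 := hD.clo d h
    exact ⟨(mem_ind.1 (hPs h)).2.2.1, mem_insert_of_mem h3, fun h4 => heP (h4 ▸ h3)⟩
  · intro d hd hne hc
    have h : d ∈ P := (mem_insert.1 hd).resolve_left hne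
    have h3 := mem_ind.1 (hPs h)
    exact h3.2.2.2.2 (hp.eq _ (hR h3.2.1) _ hc)
  · refine ⟨dl, hdl, rfl, fun d' hd' hc => hdlone d' hd' ?_⟩
    rw [← huu]
    exact (hcl _ huR d' (hAR d' hd')).1 hc
  · intro v hv hvu
    have hne : nv cl v ≠ u' := by
      intro h
      apply hvu
      rw [← huu, nv_eq] at h
      rw [← h]
      exact hp.self v (hR hv)
    have h3 : ((insert e P).filter fun d => G.pi d ∈ cl v) =
        (insert e P).filter fun d => cn G cl d = nv cl v := by
      ext d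
      rw [mem_filter, mem_filter]
      constructor
      · rintro ⟨h5, h6⟩
        exact ⟨h5, (hcl v hv d (hAR d h5)).1 h6⟩
      · rintro ⟨h5, h6⟩
        exact ⟨h5, (hcl v hv d (hAR d h5)).2 h6⟩
    rw [h3, filter_insert]
    by_cases h4 : cn G cl e = nv cl v
    · rw [if_pos h4, card_insert_of_notMem fun h => heP (mem_filter.1 h).1, ← h4, ← hw1,
        hD.deg_p fun h => hne (by rw [h, hw1, h4])]
      right
      rfl
    · rw [if_neg h4]
      exact hD.deg (fun h => h4 h.symm) hne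
  · intro d hd hdT
    have hdR := hAR d hd
    have h1 : cn G cl d = u' := by
      by_contra hne
      have h2 := hP.touch (cn G cl d) ((hTm _ hdR).2 hdT)
      rw [if_neg fun h => hne h.1, hD.dct_eq] at h2
      rcases mem_insert.1 hd with rfl | h
      · rw [hD.deg_p fun h => hne h.symm] at h2
        exact absurd h2 (by decide)
      · have h3 : d ∈ P.filter fun d' => cn G cl d' = cn G cl d := mem_filter.2 ⟨h, rfl⟩
        rw [card_eq_zero.1 h2] at h3
        exact notMem_empty _ h3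
    rw [hcl _ huR d hdR, h1, huu]
  · rintro X hX sX ⟨a, ha, haX⟩ ⟨b, hb, hbX⟩
    have him : ∀ d, G.pi d ∈ R → (cn G cl d ∈ X.image (nv cl) ↔ G.pi d ∈ X) :=
      fun d hd => mem_img hp hR sX hd
    have hdegP : (∃ d ∈ P, True) → ∃ d ∈ P, cn G cl d = cn G cl e := by
      rintro ⟨d0, hd0, _⟩
      have hww : u' ≠ w1 := by
        intro h
        rw [hD.empty h] at hd0
        exact notMem_empty _ hd0
      obtain ⟨d, hd⟩ := card_pos.1 (by rw [hD.deg_p hww]; exact Nat.one_pos)
      rw [mem_filter] at hd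
      exact ⟨d, hd.1, hd.2⟩
    by_cases hA : ∃ d ∈ P, G.pi d ∈ X
    · by_cases hB : ∃ d ∈ P, G.pi d ∉ X
      · obtain ⟨d1, k1, k2⟩ := hA
        obtain ⟨d2, k3, k4⟩ := hB
        obtain ⟨d, hd, hd1, hd2⟩ := hD.conn (X := X.image (nv cl))
          ⟨d1, k1, (him d1 (hPR d1 k1)).2 k2⟩ ⟨d2, k3, fun h => k4 ((him d2 (hPR d2 k3)).1 h)⟩
        refine ⟨d, mem_insert_of_mem hd, fun h => heP (h ▸ hd),
          (him d (hPR d hd)).1 hd1, fun h => hd2 ((him (G.al d) ?_).2 h)⟩
        exact hPR _ (hD.clo d hd)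
      · exfalso
        have hall : ∀ d ∈ P, G.pi d ∈ X := by
          intro d hd
          by_contra h
          exact hB ⟨d, hd, h⟩
        obtain ⟨d0, hd0, _⟩ := hA
        obtain ⟨d, hd, hde⟩ := hdegP ⟨d0, hd0, trivial⟩
        have e1X : G.pi e ∈ X := by
          rw [← him e pe, ← hde]
          exact (him d (hPR d hd)).2 (hall d hd)
        rcases mem_insert.1 hb with rfl | h
        · exact hbX e1X
        · exact hbX (hall b h)
    · exfalso
      have hall : ∀ d ∈ P, G.pi d ∉ X := by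
        intro d hd h
        exact hA ⟨d, hd, h⟩
      by_cases hB : ∃ d ∈ P, True
      · obtain ⟨d, hd, hde⟩ := hdegP hB
        have e1X : G.pi e ∉ X := by
          rw [← him e pe, ← hde]
          exact fun h => hall d hd ((him d (hPR d hd)).1 h)
        rcases mem_insert.1 ha with rfl | h
        · exact e1X haX
        · exact hall a h haX
      · have h1 : ∀ d ∈ insert e P, d = e := by
          intro d hd
          rcases mem_insert.1 hd with h | h
          · exact h
          · exact absurd ⟨d, h, trivial⟩ hB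
        rw [h1 a ha] at haX
        rw [h1 b hb] at hbX
        exact hbX haX
  · intro hne
    have h1 := hφe hne
    constructor
    · intro h
      rcases mem_insert.1 h with h2 | h2
      · exact h1.1 h2
      · exact hP.phi h2
    · intro h
      rcases mem_insert.1 h with h2 | h2
      · exact h1.2 h2
      · have h3 := hD.clo _ h2
        rw [G.al_al φ mφ] at h3
        exact hP.phi h3
  · intro X hX sX hoX
    have h3 := hP.val (X.image (nv cl)) (image_subset_image hX) (by
      rw [hW, vsn_img hp hR hX sX]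
      exact hoX)
    have h4 := sb_count (G := G) (cl := cl) (R := R) (W := X.image (nv cl)) hPs hSs
    rw [vsn_img hp hR hX sX] at h4
    unfold rv
    have h5 : insert e P = P ∪ {e} := by
      ext d
      simp only [mem_insert, mem_union, mem_singleton]
      tauto
    rw [h5, h4]
    unfold ThmQ.dv at h3
    have h6 : (if u' ∈ X.image (nv cl) then 1 else 0) = (if G.pi dl ∈ X then 1 else 0) := by
      refine if_congr ?_ rfl rfl
      rw [← huu]
      exact mem_img hp hR sX huR
    rw [h6] at h3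
    exact h3

end JP.CG
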