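import Pool.Agent.Lib.P5.Mod
import Pool.Agent.Lib.P5.RouteQ

/-! Theorem Q for dart graphs with classes (MP_c95763_co, pentagon world): `routeQ` is proved in
`P5.RouteQ`, `routeX` in `P5.RouteX` (both from `ThmQ`). -/
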