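import Pool.Agent.Lib.P5.Defs
import Pool.Agent.Lib.JP.CutB
import Pool.Agent.Lib.ThmQ.Path

/-! Crossing an odd region of degree 5 in a dart graph with classes (MP_c95763_co, pentagon world),
and the translation between classes and nodes of `ThmQ`. -/

set_option autoImplicit false

namespace JP.CG

open Finset Classical

variable {V D : Type*} {G : CG V D}

namespace RX

lemma msb {X : Finset V} {d : D} :
    d ∈ G.sb X ↔ d ∈ G.ds ∧ G.pi d ∈ X ∧ (G.al d = d ∨ G.pi (G.al d) ∉ X) := by
  unfold sb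
  rw [mem_filter]

lemma dgs (X : Finset V) : G.dg X = (G.sb X).card := by
  rw [G.dg_eq_card_union]
  congr 1
  ext d
  rw [mem_union, G.mem_bd, G.mem_tk, msb]
  tauto

/-- nodes (a wrapper of the classes, so that only the classical decidability instance is found) -/
structure Nd (V : Type*) where
  cls : Finset V

/-- the node of a vertex -/
def nv (cl : V → Finset V) (v : V) : Nd V := ⟨cl v⟩

lemma nv_eq {cl : V → Finset V} {v w : V} : nv cl v = nv cl w ↔ cl v = cl w := by
  unfold nv
  constructor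
  · intro h
    exact congrArg Nd.cls h
  · intro h
    rw [h]

/-- the node of a dart -/
def cn (G : CG V D) (cl : V → Finset V) (d : D) : Nd V := nv cl (G.pi d)

/-- the inner darts of `R` between different classes -/
noncomputable def ind (G : CG V D) (cl : V → Finset V) (R : Finset V) : Finset D :=
  G.ds.filter fun d => G.pi d ∈ R ∧ G.al d ≠ d ∧ G.pi (G.al d) ∈ R ∧
    cl (G.pi (G.al d)) ≠ cl (G.pi d)

/-- the vertices of `R` in a set of nodes -/
noncomputable def vsn (cl : V → Finset V) (R : Finset V) (W : Finset (Nd V)) : Finset V :=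
  R.filter fun v => nv cl v ∈ W

/-- root edges at a node, without `S` -/
noncomputable def rho (G : CG V D) (cl : V → Finset V) (R : Finset V) (S : Finset D)
    (c : Nd V) : ℕ :=
  ((G.sb R \ S).filter fun d => cn G cl d = c).card

variable {cl : V → Finset V} {R : Finset V}

lemma mem_ind {d : D} : d ∈ ind G cl R ↔ d ∈ G.ds ∧ G.pi d ∈ R ∧ G.al d ≠ d ∧
    G.pi (G.al d) ∈ R ∧ cl (G.pi (G.al d)) ≠ cl (G.pi d) := by
  unfold ind
  rw [mem_filter]

lemma mem_vsn {W : Finset (Nd V)} {v : V} : v ∈ vsn cl R W ↔ v ∈ R ∧ nv cl v ∈ W := by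
  unfold vsn
  rw [mem_filter]

lemma vsn_sub (W : Finset (Nd V)) : vsn cl R W ⊆ R := filter_subset _ _

lemma vsn_sat (hp : G.Part cl) (hR : R ⊆ G.vs) (sR : CSat cl R) (W : Finset (Nd V)) :
    CSat cl (vsn cl R W) := by
  intro v hv w hw
  rw [mem_vsn] at hv ⊢
  refine ⟨sR v hv.1 hw, ?_⟩
  rw [nv_eq.2 (hp.eq v (hR hv.1) w hw)]
  exact hv.2

/-- for saturated sets: nodes and vertices -/
lemma mem_img (hp : G.Part cl) {X : Finset V} (hR : R ⊆ G.vs) (sX : CSat cl X) {v : V}
    (hv : v ∈ R) : nv cl v ∈ X.image (nv cl) ↔ v ∈ X := by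
  rw [mem_image]
  constructor
  · rintro ⟨w, hw, h⟩
    apply sX w hw
    rw [nv_eq.1 h]
    exact hp.self v (hR hv)
  · intro h
    exact ⟨v, h, rfl⟩

lemma vsn_img (hp : G.Part cl) {X : Finset V} (hR : R ⊆ G.vs) (hX : X ⊆ R) (sX : CSat cl X) :
    vsn cl R (X.image (nv cl)) = X := by
  ext v
  rw [mem_vsn]
  constructor
  · rintro ⟨h1, h2⟩
    exact (mem_img hp hR sX h1).1 h2
  · intro h
    exact ⟨hX h, mem_image_of_mem _ h⟩

/-- counting the star of a saturated set -/
theorem sb_count {W : Finset (Nd V)} {P S : Finset D} (hP : P ⊆ ind G cl R)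
    (hS : S ⊆ G.sb R) : (G.sb (vsn cl R W) \ (P ∪ S)).card =
      ThmQ.dct G.al (cn G cl) (ind G cl R \ P) W + ∑ c ∈ W, rho G cl R S c := by
  have h1 : G.sb (vsn cl R W) \ (P ∪ S) =
      ((ind G cl R \ P).filter fun d => cn G cl d ∈ W ∧ cn G cl (G.al d) ∉ W) ∪
      ((G.sb R \ S).filter fun d => cn G cl d ∈ W) := by
    ext d
    rw [mem_sdiff, mem_union, mem_union, mem_filter, mem_filter, mem_sdiff, mem_sdiff, msb, msb,
      mem_vsn, mem_vsn]
    change _ ↔ (_ ∧ nv cl (G.pi d) ∈ W ∧ nv cl (G.pi (G.al d)) ∉ W) ∨ (_ ∧ nv cl (G.pi d) ∈ W)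
    constructor
    · rintro ⟨⟨h1, h2, h3⟩, h4⟩
      by_cases h5 : G.al d = d
      · exact Or.inr ⟨⟨⟨h1, h2.1, Or.inl h5⟩, fun h => h4 (Or.inr h)⟩, h2.2⟩
      · by_cases h6 : G.pi (G.al d) ∈ R
        · left
          have h7 : nv cl (G.pi (G.al d)) ∉ W := fun h => (h3.resolve_left h5) ⟨h6, h⟩
          refine ⟨⟨?_, fun h => h4 (Or.inl h)⟩, h2.2, h7⟩
          rw [mem_ind]
          refine ⟨h1, h2.1, h5, h6, fun h => h7 ?_⟩
          rw [nv_eq.2 h]
          exact h2.2
        · exact Or.inr ⟨⟨⟨h1, h2.1, Or.inr h6⟩, fun h => h4 (Or.inr h)⟩, h2.2⟩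
    · rintro (⟨⟨h1, h2⟩, h3, h4⟩ | ⟨⟨h1, h2⟩, h3⟩)
      · have h5 := mem_ind.1 h1
        refine ⟨⟨h5.1, ⟨h5.2.1, h3⟩, Or.inr fun h => h4 h.2⟩, ?_⟩
        rintro (h | h)
        · exact h2 h
        · rcases (msb.1 (hS h)).2.2 with h6 | h6
          · exact h5.2.2.1 h6
          · exact h6 h5.2.2.2.1
      · refine ⟨⟨h1.1, ⟨h1.2.1, h3⟩, ?_⟩, ?_⟩
        · rcases h1.2.2 with h6 | h6
          · exact Or.inl h6
          · exact Or.inr fun h => h6 h.1
        · rintro (h | h)
          · have h5 := mem_ind.1 (hP h)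
            rcases h1.2.2 with h6 | h6
            · exact h5.2.2.1 h6
            · exact h6 h5.2.2.2.1
          · exact h2 h
  have h2 : Disjoint ((ind G cl R \ P).filter fun d => cn G cl d ∈ W ∧ cn G cl (G.al d) ∉ W)
      ((G.sb R \ S).filter fun d => cn G cl d ∈ W) := by
    rw [disjoint_left]
    intro d h3 h4
    have h5 := mem_ind.1 (mem_sdiff.1 (mem_filter.1 h3).1).1
    rcases (msb.1 (mem_sdiff.1 (mem_filter.1 h4).1).1).2.2 with h6 | h6
    · exact h5.2.2.1 h6
    · exact h6 h5.2.2.2.1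
  rw [h1, card_union_of_disjoint h2]
  unfold ThmQ.dct
  congr 1
  rw [card_eq_sum_card_fiberwise (f := cn G cl) (t := W)
    (s := (G.sb R \ S).filter fun d => cn G cl d ∈ W) (fun d hd => (mem_filter.1 hd).2)]
  refine sum_congr rfl fun c hc => ?_
  unfold rho
  rw [filter_filter]
  congr 1
  ext d
  simp only [mem_filter]
  constructor
  · rintro ⟨h3, _, h4⟩
    exact ⟨h3, h4⟩
  · rintro ⟨h3, h4⟩
    exact ⟨h3, h4 ▸ hc, h4⟩

/-- removing one more root edge -/
theorem sum_rho_insert (W : Finset (Nd V)) {S : Finset D} {e : D} (he : e ∈ G.sb R)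
    (heS : e ∉ S) : ∑ c ∈ W, rho G cl R S c =
      ∑ c ∈ W, rho G cl R (insert e S) c + if cn G cl e ∈ W then 1 else 0 := by
  have h1 : ∀ S' : Finset D, ∑ c ∈ W, rho G cl R S' c =
      ((G.sb R \ S').filter fun d => cn G cl d ∈ W).card := by
    intro S'
    rw [card_eq_sum_card_fiberwise (f := cn G cl) (t := W)
      (s := (G.sb R \ S').filter fun d => cn G cl d ∈ W) (fun d hd => (mem_filter.1 hd).2)]
    refine sum_congr rfl fun c hc => ?_
    unfold rho
    rw [filter_filter]
    congr 1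
    ext d
    simp only [mem_filter]
    constructor
    · rintro ⟨h3, h4⟩
      exact ⟨h3, h4 ▸ hc, h4⟩
    · rintro ⟨h3, _, h4⟩
      exact ⟨h3, h4⟩
  rw [h1, h1]
  have h2 : G.sb R \ S = insert e (G.sb R \ insert e S) := by
    ext d
    simp only [mem_sdiff, mem_insert]
    by_cases h : d = e
    · subst h
      tauto
    · tauto
  have h3 : e ∉ G.sb R \ insert e S := by
    rw [mem_sdiff, mem_insert]
    tauto
  rw [h2, filter_insert]
  split_ifs with h4
  · rw [card_insert_of_notMem fun h => h3 (mem_filter.1 h).1]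
  · rfl

/-- the path of inner darts, basic facts -/
lemma ind_al : ∀ d ∈ ind G cl R, G.al d ∈ ind G cl R := by
  intro d hd
  have h := mem_ind.1 hd
  rw [mem_ind, G.al_al d h.1]
  exact ⟨G.al_mem d h.1, h.2.2.2.1, fun h1 => h.2.2.1 h1.symm, h.2.1, fun h1 => h.2.2.2.2 h1.symm⟩

end RX

open RX

/-- crossing an odd region of degree 5 -/
theorem routeX {cl : V → Finset V} (hp : G.Part cl) {R : Finset V} (hR : R ⊆ G.vs)
    (sR : CSat cl R) (h5 : G.dg R = 5) (_ho : Odd R.card)
    (L5 : ∀ X ⊆ R, CSat cl X → Odd X.card → 5 ≤ G.dg X) {e1 e2 : D} (h1 : e1 ∈ G.sb R)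
    (h2 : e2 ∈ G.sb R) (hne : e1 ≠ e2) :
    ∃ B, G.Rx cl R e1 e2 B ∧ ∀ X ⊆ R, CSat cl X → Odd X.card → 3 ≤ (G.sb X \ B).card := by
  have m1 := msb.1 h1
  have m2 := msb.1 h2
  set w1 := cn G cl e1 with hw1
  set w2 := cn G cl e2 with hw2
  have hSs : ({e1, e2} : Finset D) ⊆ G.sb R := by
    intro d hd
    rw [mem_insert, mem_singleton] at hd
    rcases hd with rfl | rfl
    · exact h1
    · exact h2
  -- the value
  have hval : ∀ W : Finset (Nd V), ThmQ.dv2 G.al (cn G cl) (ind G cl R)
      (rho G cl R {e1, e2}) w1 w2 W = G.dg (vsn cl R W) := by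
    intro W
    have h3 := sb_count (G := G) (cl := cl) (R := R) (W := W) (P := ∅) (S := ∅) (empty_subset _)
      (empty_subset _)
    rw [union_empty, sdiff_empty, sdiff_empty] at h3
    rw [dgs, h3, sum_rho_insert W h2 (notMem_empty _),
      sum_rho_insert W (S := insert e2 ∅) h1 (by simpa using hne)]
    unfold ThmQ.dv2
    have h4 : insert e1 (insert e2 ∅) = ({e1, e2} : Finset D) := by simp
    rw [h4, ← hw1, ← hw2]
    omega
  have hW : ∀ W : Finset (Nd V), Odd (ThmQ.dv2 G.al (cn G cl) (ind G cl R)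
      (rho G cl R {e1, e2}) w1 w2 W) ↔ Odd (vsn cl R W).card := by
    intro W
    rw [hval, G.dg_parity ((vsn_sub W).trans hR)]
  obtain ⟨P, hPs, hP, hPv⟩ := ThmQ.cross_dart (al := G.al) (nd := cn G cl) (N := R.image (nv cl))
    (ds := ind G cl R) (ρ := rho G cl R {e1, e2}) (w1 := w1) (w2 := w2)
    ind_al (fun d hd => G.al_al d (mem_ind.1 hd).1)
    (fun d hd => (mem_ind.1 hd).2.2.1) (fun d hd => mem_image_of_mem _ (mem_ind.1 hd).2.1)
    (mem_image_of_mem _ m1.2.1) (mem_image_of_mem _ m2.2.1)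
    (fun W _ ho => by
      rw [hW] at ho
      rw [hval]
      exact L5 _ (vsn_sub W) (vsn_sat hp hR sR W) ho)
    (by rw [hval, vsn_img hp hR (Subset.refl _) sR, h5])
  have hcl : ∀ v ∈ R, ∀ d, G.pi d ∈ R → (G.pi d ∈ cl v ↔ cn G cl d = nv cl v) := by
    intro v hv d hd
    unfold cn
    rw [nv_eq]
    constructor
    · intro h
      exact hp.eq v (hR hv) _ h
    · intro h
      rw [← h]
      exact hp.self _ (hR hd)
  have he1P : e1 ∉ P := by
    intro h
    have h5 := mem_ind.1 (hPs h)
    rcases m1.2.2 with h6 | h6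
    · exact h5.2.2.1 h6
    · exact h6 h5.2.2.2.1
  have he2P : e2 ∉ P := by
    intro h
    have h5 := mem_ind.1 (hPs h)
    rcases m2.2.2 with h6 | h6
    · exact h5.2.2.1 h6
    · exact h6 h5.2.2.2.1
  have hBm : ∀ d, d ∈ P ∪ {e1, e2} ↔ d ∈ P ∨ d = e1 ∨ d = e2 := by
    intro d
    rw [mem_union, mem_insert, mem_singleton]
  refine ⟨P ∪ {e1, e2}, ⟨?_, ?_, ?_, ?_, ?_, ?_, ?_⟩, ?_⟩
  · intro d hd
    rcases (hBm d).1 hd with h | rfl | rfl
    · have := mem_ind.1 (hPs h)
      exact ⟨this.1, this.2.1⟩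
    · exact ⟨m1.1, m1.2.1⟩
    · exact ⟨m2.1, m2.2.1⟩
  · exact (hBm _).2 (Or.inr (Or.inl rfl))
  · exact (hBm _).2 (Or.inr (Or.inr rfl))
  · intro d hd hd1 hd2
    have h : d ∈ P := by
      rcases (hBm d).1 hd with h | h | h
      · exact h
      · exact absurd h hd1
      · exact absurd h hd2
    have h3 := hP.clo d h
    refine ⟨(mem_ind.1 (hPs h)).2.2.1, (hBm _).2 (Or.inl h3), ?_, ?_⟩
    · exact fun h4 => he1P (h4 ▸ h3)
    · exact fun h4 => he2P (h4 ▸ h3)
  · intro d hd hd1 hd2 hc
    have h : d ∈ P := by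
      rcases (hBm d).1 hd with h | h | h
      · exact h
      · exact absurd h hd1
      · exact absurd h hd2
    have h3 := mem_ind.1 (hPs h)
    exact h3.2.2.2.2 (hp.eq _ (hR h3.2.1) _ hc)
  · intro v hv
    have h3 : ((P ∪ {e1, e2}).filter fun d => G.pi d ∈ cl v).card =
        (P.filter fun d => cn G cl d = nv cl v).card + (if w1 = nv cl v then 1 else 0) +
        (if w2 = nv cl v then 1 else 0) := by
      have h4 : (P ∪ {e1, e2}).filter (fun d => G.pi d ∈ cl v) =
          (insert e1 (insert e2 P)).filter (fun d => cn G cl d = nv cl v) := by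
        ext d
        rw [mem_filter, mem_filter, hBm, mem_insert, mem_insert]
        constructor
        · rintro ⟨h5, h6⟩
          refine ⟨by tauto, ?_⟩
          have hd : G.pi d ∈ R := by
            rcases h5 with h | rfl | rfl
            · exact (mem_ind.1 (hPs h)).2.1
            · exact m1.2.1
            · exact m2.2.1
          exact (hcl v hv d hd).1 h6
        · rintro ⟨h5, h6⟩
          refine ⟨by tauto, ?_⟩
          have hd : G.pi d ∈ R := by
            rcases h5 with rfl | rfl | h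
            · exact m1.2.1
            · exact m2.2.1
            · exact (mem_ind.1 (hPs h)).2.1
          exact (hcl v hv d hd).2 h6
      rw [h4, filter_insert, filter_insert]
      have h6 : e1 ∉ insert e2 P := by
        rw [mem_insert]
        tauto
      have n1 : e1 ∉ insert e2 (P.filter fun d => cn G cl d = nv cl v) := by
        rw [mem_insert, mem_filter]
        tauto
      have n2 : e1 ∉ P.filter fun d => cn G cl d = nv cl v := fun h => he1P (mem_filter.1 h).1
      have n3 : e2 ∉ P.filter fun d => cn G cl d = nv cl v := fun h => he2P (mem_filter.1 h).1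
      split_ifs <;> simp [card_insert_of_notMem, n1, n2, n3]
    rw [h3]
    by_cases hww : w2 = w1
    · have hPe := hP.empty hww
      rw [hPe, filter_empty, card_empty, hww]
      by_cases h4 : w1 = nv cl v
      · rw [if_pos h4]
        right
        rfl
      · rw [if_neg h4]
        left
        rfl
    · by_cases h4 : w1 = nv cl v
      · rw [if_pos h4, if_neg (fun h => hww (h.trans h4.symm)), ← h4, hP.deg_p hww]
        right
        rfl
      · by_cases h6 : w2 = nv cl v
        · rw [if_neg h4, if_pos h6, ← h6, hP.deg_q hww]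
          right
          rfl
        · rw [if_neg h4, if_neg h6, add_zero, add_zero]
          exact hP.deg (fun h => h4 h.symm) (fun h => h6 h.symm)
  · rintro X hX sX ⟨a, ha, haX⟩ ⟨b, hb, hbX⟩
    have him : ∀ d, G.pi d ∈ R → (cn G cl d ∈ X.image (nv cl) ↔ G.pi d ∈ X) :=
      fun d hd => mem_img hp hR sX hd
    have hPR : ∀ d ∈ P, G.pi d ∈ R := fun d hd => (mem_ind.1 (hPs hd)).2.1
    by_cases hA : ∃ d ∈ P, G.pi d ∈ X
    · by_cases hB : ∃ d ∈ P, G.pi d ∉ X
      · obtain ⟨d1, k1, k2⟩ := hA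
        obtain ⟨d2, k3, k4⟩ := hB
        obtain ⟨d, hd, hd1, hd2⟩ := hP.conn (X := X.image (nv cl))
          ⟨d1, k1, (him d1 (hPR d1 k1)).2 k2⟩ ⟨d2, k3, fun h => k4 ((him d2 (hPR d2 k3)).1 h)⟩
        refine ⟨d, (hBm d).2 (Or.inl hd), fun h => he1P (h ▸ hd), fun h => he2P (h ▸ hd),
          (him d (hPR d hd)).1 hd1, fun h => hd2 ((him (G.al d) ?_).2 h)⟩
        exact hPR _ (hP.clo d hd)
      · -- all of `P` in `X`
        exfalso
        have hall : ∀ d ∈ P, G.pi d ∈ X := by
          intro d hd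
          by_contra h
          exact hB ⟨d, hd, h⟩
        obtain ⟨d0, hd0, _⟩ := hA
        have hww : w2 ≠ w1 := by
          intro h
          rw [hP.empty h] at hd0
          exact notMem_empty _ hd0
        have e1X : G.pi e1 ∈ X := by
          have h3 := hP.deg_p hww
          obtain ⟨d, hd⟩ := card_pos.1 (by rw [h3]; exact Nat.one_pos)
          rw [mem_filter] at hd
          rw [← him e1 m1.2.1, ← hw1, ← hd.2]
          exact (him d (hPR d hd.1)).2 (hall d hd.1)
        have e2X : G.pi e2 ∈ X := by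
          have h3 := hP.deg_q hww
          obtain ⟨d, hd⟩ := card_pos.1 (by rw [h3]; exact Nat.one_pos)
          rw [mem_filter] at hd
          rw [← him e2 m2.2.1, ← hw2, ← hd.2]
          exact (him d (hPR d hd.1)).2 (hall d hd.1)
        rcases (hBm b).1 hb with h | rfl | rfl
        · exact hbX (hall b h)
        · exact hbX e1X
        · exact hbX e2X
    · -- no dart of `P` in `X`
      exfalso
      have hall : ∀ d ∈ P, G.pi d ∉ X := by
        intro d hd h
        exact hA ⟨d, hd, h⟩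
      by_cases hww : w2 = w1
      · have h3 : G.pi e1 ∈ X ↔ G.pi e2 ∈ X := by
          rw [← him e1 m1.2.1, ← him e2 m2.2.1, ← hw1, ← hw2, hww]
        have hPe := hP.empty hww
        have h4 : ∀ d, d ∈ P ∪ {e1, e2} → (G.pi d ∈ X ↔ G.pi e1 ∈ X) := by
          intro d hd
          rcases (hBm d).1 hd with h | rfl | rfl
          · rw [hPe] at h
            exact absurd h (notMem_empty _)
          · rfl
          · exact h3.symm
        exact hbX ((h4 b hb).2 ((h4 a ha).1 haX))
      · have e1X : G.pi e1 ∉ X := by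
          have h3 := hP.deg_p hww
          obtain ⟨d, hd⟩ := card_pos.1 (by rw [h3]; exact Nat.one_pos)
          rw [mem_filter] at hd
          rw [← him e1 m1.2.1, ← hw1, ← hd.2]
          exact fun h => hall d hd.1 ((him d (hPR d hd.1)).1 h)
        have e2X : G.pi e2 ∉ X := by
          have h3 := hP.deg_q hww
          obtain ⟨d, hd⟩ := card_pos.1 (by rw [h3]; exact Nat.one_pos)
          rw [mem_filter] at hd
          rw [← him e2 m2.2.1, ← hw2, ← hd.2]
          exact fun h => hall d hd.1 ((him d (hPR d hd.1)).1 h)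
        rcases (hBm a).1 ha with h | rfl | rfl
        · exact hall a h haX
        · exact e1X haX
        · exact e2X haX
  · intro X hX sX hoX
    have h3 := hPv (X.image (nv cl)) (image_subset_image hX) (by
      rw [hW, vsn_img hp hR hX sX]
      exact hoX)
    have h4 := sb_count (G := G) (cl := cl) (R := R) (W := X.image (nv cl)) hPs hSs
    rw [vsn_img hp hR hX sX] at h4
    rw [h4]
    exact h3

end JP.CG
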