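import Pool.Agent.Lib.P5.Basic
import Pool.Agent.Lib.P5.Blk

/-! Prolongation of a route in a blocking set (MP_c95763_co, pentagon world). -/

set_option autoImplicit false

namespace JP.CG

open Finset Classical

variable {V D : Type*} {G : CG V D} {K : Finset V} {F : Finset D}

/-- a route inside `X` starting with `al (l 2)` is prolonged by `l 2` and `τ` -/
theorem PW.pfx (h : G.PW K F) {τ c c' : D} {p : ZMod 5 → V} {f l : ZMod 5 → D}
    (st : G.St K F τ c c' p f l) {X : Finset V} (hX : G.Blk K F τ p X)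
    {A : Finset D} {u : V} {φ : D}
    (hA : G.Rt (G.nd K F (G.gd τ p)) X (G.tg K F τ c' ∩ X) (G.al (l 2)) φ A u) :
    G.Rt (G.nd K F (G.gd τ p)) G.vs (G.tg K F τ c') τ c' (A ∪ {τ, l 2}) u := by
  have hP := st.part h
  have hT := st.tg_sat h
  have dX : ∀ v, v ∈ X → v ∉ G.gd τ p := fun v hv => (disjoint_left.1 hX.dis) hv
  have dX' : ∀ v, v ∈ G.gd τ p → v ∉ X := fun v hv hv' => dX v hv' hv
  have gτ : G.pi τ ∈ G.gd τ p := mem_insert_self _ _
  have gp : ∀ i, p i ∈ G.gd τ p := fun i => mem_insert_of_mem (mem_image_of_mem _ (mem_univ i))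
  have l2m := st.pen.lm 2
  have l2p := st.pen.lp 2
  have gl2 : G.pi (l 2) ∈ G.gd τ p := by rw [l2p]; exact gp 2
  have l2t := st.pen.l_tok 2
  have al2 : G.al (G.al (l 2)) = l 2 := G.al_al _ l2m
  have hl2X : G.pi (G.al (l 2)) ∈ X := (hA.sub _ hA.mem).2
  have l2τ : l 2 ≠ τ := by
    intro he
    apply l2t
    rw [he]
    exact st.tτ
  have mem' : ∀ d, d ∈ A ∪ {τ, l 2} ↔ d ∈ A ∨ d = τ ∨ d = l 2 := by
    intro d
    rw [mem_union, mem_insert, mem_singleton]
  have cgd : ∀ v, v ∈ G.gd τ p → G.nd K F (G.gd τ p) v = G.gd τ p := by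
    intro v hv
    unfold nd
    rw [if_pos hv]
  have hAX : ∀ d ∈ A, G.pi d ∈ X := fun d hd => (hA.sub d hd).2
  have hcu : G.nd K F (G.gd τ p) u ⊆ X := hX.sat u hA.um.1
  have sK : G.pi τ ∈ K := st.sK h.cls
  have c'p : ∀ i, G.pi c' ≠ p i := by
    intro i he
    rw [st.pc'] at he
    exact st.pen.nK i (he ▸ sK)
  refine ⟨?_, ?_, ?_, ?_, ?_, ?_, ?_, ?_, ?_, ?_⟩
  · -- sub
    intro d hd
    rcases (mem' d).1 hd with h1 | h1 | h1
    · exact ⟨(hA.sub d h1).1, G.pi_mem d (hA.sub d h1).1⟩
    · rw [h1]; exact ⟨st.mτ, G.pi_mem _ st.mτ⟩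
    · rw [h1]; exact ⟨l2m, G.pi_mem _ l2m⟩
  · exact (mem' τ).2 (Or.inr (Or.inl rfl))
  · -- clo
    intro d hd hne
    rcases (mem' d).1 hd with h1 | h1 | h1
    · by_cases h2 : d = G.al (l 2)
      · rw [h2, al2]
        exact ⟨fun he => l2t he.symm, (mem' _).2 (Or.inr (Or.inr rfl)), l2τ⟩
      · obtain ⟨h3, h4, h5⟩ := hA.clo d h1 h2
        refine ⟨h3, (mem' _).2 (Or.inl h4), ?_⟩
        intro he
        have h6 := hAX _ h4
        rw [he] at h6
        exact dX' _ gτ h6
    · exact absurd h1 hne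
    · rw [h1]
      refine ⟨l2t, (mem' _).2 (Or.inl hA.mem), ?_⟩
      intro he
      rw [he] at hl2X
      exact dX' _ gτ hl2X
  · -- nl
    intro d hd hne
    rcases (mem' d).1 hd with h1 | h1 | h1
    · by_cases h2 : d = G.al (l 2)
      · rw [h2, al2]
        intro h3
        exact dX _ (hX.sat _ hl2X h3) gl2
      · exact hA.nl d h1 h2
    · exact absurd h1 hne
    · rw [h1, cgd _ gl2]
      exact dX _ hl2X
  · exact ⟨hX.sub hA.um.1, (mem_inter.1 hA.um.2).1⟩
  · -- land
    obtain ⟨d, hd, hdu, hun⟩ := hA.land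
    refine ⟨d, (mem' d).2 (Or.inl hd), hdu, ?_⟩
    intro d' hd' hcl
    rcases (mem' d').1 hd' with h1 | h1 | h1
    · exact hun d' h1 hcl
    · rw [h1] at hcl
      exact absurd (hcu hcl) (dX' _ gτ)
    · rw [h1] at hcl
      exact absurd (hcu hcl) (dX' _ gl2)
  · -- deg
    intro v hv hvu
    by_cases h1 : v ∈ X
    · have h2 : ((A ∪ {τ, l 2}).filter fun d => G.pi d ∈ G.nd K F (G.gd τ p) v) =
          A.filter fun d => G.pi d ∈ G.nd K F (G.gd τ p) v := by
        ext d
        rw [mem_filter, mem_filter, mem']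
        constructor
        · rintro ⟨h3 | h3 | h3, h4⟩
          · exact ⟨h3, h4⟩
          · rw [h3] at h4
            exact absurd (hX.sat v h1 h4) (dX' _ gτ)
          · rw [h3] at h4
            exact absurd (hX.sat v h1 h4) (dX' _ gl2)
        · rintro ⟨h3, h4⟩
          exact ⟨Or.inl h3, h4⟩
      rw [h2]
      exact hA.deg v h1 hvu
    · by_cases h3 : v ∈ G.gd τ p
      · right
        have h2 : ((A ∪ {τ, l 2}).filter fun d => G.pi d ∈ G.nd K F (G.gd τ p) v) = {τ, l 2} := by
          ext d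
          rw [mem_filter, mem', cgd v h3, mem_insert, mem_singleton]
          constructor
          · rintro ⟨h4 | h4, h5⟩
            · exact absurd h5 (dX _ (hAX d h4))
            · exact h4
          · rintro h4
            refine ⟨Or.inr h4, ?_⟩
            rcases h4 with h4 | h4
            · rw [h4]; exact gτ
            · rw [h4]; exact gl2
        rw [h2]
        exact card_pair l2τ.symm
      · left
        rw [card_eq_zero, filter_eq_empty_iff]
        intro d hd hcl
        have h4 := hP.eq v hv _ hcl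
        have h5 := hP.self v hv
        rw [← h4] at h5
        rcases (mem' d).1 hd with h6 | h6 | h6
        · exact h1 (hX.sat _ (hAX d h6) h5)
        · rw [h6, cgd _ gτ] at h5
          exact h3 h5
        · rw [h6, cgd _ gl2] at h5
          exact h3 h5
  · -- off
    intro d hd hdT
    rcases (mem' d).1 hd with h1 | h1 | h1
    · exact hA.off d h1 (mem_inter.2 ⟨hdT, hAX d h1⟩)
    · rw [h1] at hdT
      exact absurd gτ ((disjoint_left.1 hT.2.2) hdT)
    · rw [h1] at hdT
      exact absurd gl2 ((disjoint_left.1 hT.2.2) hdT)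
  · -- con
    rintro Y hY sY ⟨d1, hd1, hd1Y⟩ ⟨d2, hd2, hd2Y⟩
    by_cases hc1 : ∃ d ∈ A, G.pi d ∈ Y
    · by_cases hc2 : ∃ d ∈ A, G.pi d ∉ Y
      · obtain ⟨d, hd, hdY⟩ := hc1
        obtain ⟨d', hd', hdY'⟩ := hc2
        obtain ⟨b, hb1, hb2, hb3, hb4⟩ := hA.con (Y ∩ X) inter_subset_right
          (csat_inter sY hX.sat) ⟨d, hd, mem_inter.2 ⟨hdY, hAX d hd⟩⟩
          ⟨d', hd', fun h' => hdY' (mem_inter.1 h').1⟩
        refine ⟨b, (mem' b).2 (Or.inl hb1), ?_, (mem_inter.1 hb3).1, ?_⟩
        · intro he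
          have := hAX b hb1
          rw [he] at this
          exact dX' _ gτ this
        · intro h'
          exact hb4 (mem_inter.2 ⟨h', hAX _ (hA.clo b hb1 hb2).2.1⟩)
      · push Not at hc2
        have hg : ∀ w, w ∈ G.gd τ p → w ∉ Y := by
          intro w hw hwY
          have h1 := sY w hwY
          rw [cgd w hw] at h1
          rcases (mem' d2).1 hd2 with h2 | h2 | h2
          · exact hd2Y (hc2 d2 h2)
          · rw [h2] at hd2Y
            exact hd2Y (h1 gτ)
          · rw [h2] at hd2Y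
            exact hd2Y (h1 gl2)
        refine ⟨G.al (l 2), (mem' _).2 (Or.inl hA.mem), ?_, hc2 _ hA.mem, ?_⟩
        · intro he
          rw [he] at hl2X
          exact dX' _ gτ hl2X
        · rw [al2]
          exact hg _ gl2
    · push Not at hc1
      have hg : G.gd τ p ⊆ Y := by
        rcases (mem' d1).1 hd1 with h2 | h2 | h2
        · exact absurd hd1Y (hc1 d1 h2)
        · rw [h2] at hd1Y
          have h1 := sY _ hd1Y
          rwa [cgd _ gτ] at h1
        · rw [h2] at hd1Y
          have h1 := sY _ hd1Y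
          rwa [cgd _ gl2] at h1
      exact ⟨l 2, (mem' _).2 (Or.inr (Or.inr rfl)), l2τ, hg gl2, hc1 _ hA.mem⟩
  · -- nphi
    intro hc
    have g' : G.pi c' ∈ G.gd τ p := by rw [st.pc']; exact gτ
    have hcA : c' ∉ A := fun h1 => dX' _ g' (hAX c' h1)
    have hcl : c' ≠ l 2 := by
      intro he
      apply c'p 2
      rw [he, l2p]
    have acc : G.al (G.al c') = c' := G.al_al _ st.mc'
    refine ⟨?_, ?_⟩
    · intro h1
      rcases (mem' c').1 h1 with h2 | h2 | h2
      · exact hcA h2
      · exact st.n2 h2.symm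
      · exact hcl h2
    · intro h1
      rcases (mem' (G.al c')).1 h1 with h2 | h2 | h2
      · by_cases h3 : G.al c' = G.al (l 2)
        · apply hcl
          rw [← acc, h3, al2]
        · have h4 := (hA.clo _ h2 h3).2.1
          rw [acc] at h4
          exact hcA h4
      · have h3 : c' = τ := by rw [← acc, h2, st.tτ]
        exact st.n2 h3.symm
      · have h3 : c' = G.al (l 2) := by rw [← acc, h2]
        rw [← h3] at hl2X
        exact dX' _ g' hl2X

end JP.CG
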