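import Pool.Agent.Lib.P5.W2
import Pool.Agent.Lib.P5.Route
import Pool.Agent.Lib.P5.S2pfx

/-! (S2): a blocking set of degree 3 gives exit 2 (MP_c95763_co, pentagon world). -/

set_option autoImplicit false

namespace JP.CG

open Finset Classical

variable {V D : Type*} {G : CG V D} {K : Finset V} {F : Finset D}

/-- the vertices of the gadget -/
private lemma S2_pg {τ : D} {p : ZMod 5 → V} (i : ZMod 5) : p i ∈ G.gd τ p :=
  mem_insert_of_mem (mem_image_of_mem p (mem_univ i))

private lemma S2_sg {τ : D} {p : ZMod 5 → V} : G.pi τ ∈ G.gd τ p := mem_insert_self _ _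

/-- three elements of a finite set -/
private lemma S2_three {S : Finset D} {a b : D} (ha : a ∈ S) (hb : b ∈ S) (hab : a ≠ b) :
    2 ≤ S.card := by
  have : ({a, b} : Finset D) ⊆ S := by
    intro x hx
    rw [mem_insert, mem_singleton] at hx
    rcases hx with rfl | rfl
    · exact ha
    · exact hb
  calc 2 = ({a, b} : Finset D).card := (card_pair hab).symm
    _ ≤ S.card := card_le_card this

private lemma S2_three' {S : Finset D} {a b c : D} (ha : a ∈ S) (hb : b ∈ S) (hc : c ∈ S)
    (hab : a ≠ b) (hac : a ≠ c) (hbc : b ≠ c) : 3 ≤ S.card := by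
  have : ({a, b, c} : Finset D) ⊆ S := by
    intro x hx
    rw [mem_insert, mem_insert, mem_singleton] at hx
    rcases hx with rfl | rfl | rfl
    · exact ha
    · exact hb
    · exact hc
  calc 3 = ({a, b, c} : Finset D).card := (card_eq_three.2 ⟨a, b, c, hab, hac, hbc, rfl⟩).symm
    _ ≤ S.card := card_le_card this

/-- (S2) -/
theorem PW.s2 (h : G.PW K F) {τ c c' : D} {p : ZMod 5 → V} {f l : ZMod 5 → D}
    (st : G.St K F τ c c' p f l) {X : Finset V} (hX : G.Blk K F τ p X)
    (h1 : G.pi (G.al (l 1)) ∈ X) (h2 : G.pi (G.al (l 2)) ∈ X) (h3 : G.dg X = 3) : G.Win K F := by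
  have hp := st.part h
  obtain ⟨sT, Tv, dT⟩ := st.tg_sat h
  -- basic facts
  have hXg : ∀ v ∈ X, v ∉ G.gd τ p := fun v hv => disjoint_left.1 hX.dis hv
  have ml2 : l 2 ∈ G.ds := st.pen.lm 2
  have mal2 : G.al (l 2) ∈ G.ds := G.al_mem _ ml2
  have aal2 : G.al (G.al (l 2)) = l 2 := G.al_al _ ml2
  have p2X : G.pi (l 2) ∉ X := by
    rw [st.pen.lp 2]
    exact fun hh => hXg _ hh (S2_pg 2)
  have p1X : G.pi (l 1) ∉ X := by
    rw [st.pen.lp 1]
    exact fun hh => hXg _ hh (S2_pg 1)
  have sX : G.pi τ ∉ X := fun hh => hXg _ hh S2_sg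
  have heX : G.al (l 2) ∈ G.sb X := by
    rw [mem_sb]
    exact ⟨mal2, h2, Or.inr (by rw [aal2]; exact p2X)⟩
  have he1X : G.al (l 1) ∈ G.sb X := by
    rw [mem_sb]
    exact ⟨G.al_mem _ (st.pen.lm 1), h1, Or.inr (by rw [G.al_al _ (st.pen.lm 1)]; exact p1X)⟩
  -- the route inside `X`
  obtain ⟨A, u, hA, hv⟩ := routeQ (G := G) (cl := G.nd K F (G.gd τ p)) hp (R := X)
    (T := G.tg K F τ c' ∩ X) hX.sub hX.sat inter_subset_right (csat_inter sT hX.sat)
    (e := G.al (l 2)) (φ := τ) mal2 h2 (Or.inr (by rw [aal2]; exact p2X)) st.mτ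
    (fun hh => absurd st.tτ hh) (fun hh => absurd st.tτ hh)
    (fun Y hY _ ho => h.b0 Y (hY.trans hX.sub) ho)
    (fun Y hY sY dY ho => st.five h (hY.trans hX.sub) sY (hX.dis.mono_left hY) (by
      rw [disjoint_left] at dY ⊢
      intro v hv hT
      exact dY hv (mem_inter.2 ⟨hT, hY hv⟩)) ho)
    (by
      intro Y hY sY dY heY
      by_contra hno
      push Not at hno
      have hT' : Disjoint Y (G.tg K F τ c') := by
        rw [disjoint_left] at dY ⊢
        intro v hv hT
        exact dY hv (mem_inter.2 ⟨hT, hY hv⟩)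
      -- no darts between `Y` and `X \ Y`
      have hnb : ∀ d ∈ G.ds, G.pi d ∈ Y → G.pi (G.al d) ∉ Y → G.pi (G.al d) ∉ X := by
        intro d hd hdY hdn hdX
        have hb : d ∈ G.bd Y := (G.mem_bd).2 ⟨hd, hdY, hdn⟩
        have hat : G.al d ≠ d := fun hh => hdn (by rw [hh]; exact hdY)
        have h4 := hno d hb hdX (fun hh => hat (by rw [hh]; exact st.tτ))
        have h5 : d = τ := by rw [← G.al_al d hd, h4, st.tτ]
        exact hat (h4.trans h5.symm)
      have hs1 : G.sb Y ⊆ G.sb X := by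
        intro d hd
        rw [mem_sb] at hd ⊢
        refine ⟨hd.1, hY hd.2.1, ?_⟩
        rcases hd.2.2 with h4 | h4
        · exact Or.inl h4
        · exact Or.inr (hnb d hd.1 hd.2.1 h4)
      have hs2 : G.sb (X \ Y) ⊆ G.sb X := by
        intro d hd
        rw [mem_sb, mem_sdiff] at hd
        rw [mem_sb]
        refine ⟨hd.1, hd.2.1.1, ?_⟩
        rcases hd.2.2 with h4 | h4
        · exact Or.inl h4
        · by_cases h5 : G.pi (G.al d) ∈ X
          · exfalso
            have h6 : G.pi (G.al d) ∈ Y := by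
              by_contra h6
              exact h4 (mem_sdiff.2 ⟨h5, h6⟩)
            have h7 := hnb (G.al d) (G.al_mem d hd.1) h6
            rw [G.al_al d hd.1] at h7
            exact h7 hd.2.1.2 hd.2.1.1
          · exact Or.inr h5
      have hd12 : Disjoint (G.sb Y) (G.sb (X \ Y)) := by
        rw [disjoint_left]
        intro d h4 h5
        rw [mem_sb] at h4 h5
        exact (mem_sdiff.1 h5.2.1).2 h4.2.1
      have hsum : (G.sb Y).card + (G.sb (X \ Y)).card ≤ 3 := by
        rw [← card_union_of_disjoint hd12, ← h3, dg_sb X]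
        exact card_le_card (union_subset hs1 hs2)
      have hepos : 1 ≤ (G.sb Y).card := by
        rw [Nat.one_le_iff_ne_zero, ← Nat.pos_iff_ne_zero, card_pos]
        refine ⟨G.al (l 2), ?_⟩
        rw [mem_sb]
        exact ⟨mal2, heY, Or.inr (by rw [aal2]; exact fun hh => p2X (hY hh))⟩
      rcases Nat.even_or_odd Y.card with ho | ho
      · have hU : Odd (X \ Y).card := by
          rw [card_sdiff_of_subset hY]
          exact Nat.Odd.sub_even (card_le_card hY) hX.odd ho
        have h4 := h.b0 (X \ Y) (sdiff_subset.trans hX.sub) hU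
        rw [dg_sb] at h4
        omega
      · have h4 := st.five h (hY.trans hX.sub) sY (hX.dis.mono_left hY) hT' ho
        rw [dg_sb] at h4
        omega)
  -- the prolonged route
  have hA' := h.pfx st hX hA
  have hsym := hA'.asym (Or.inl st.tτ)
  -- darts of `A` lie in `X`
  have hAX : ∀ d ∈ A, G.pi d ∈ X := fun d hd => (hA.sub d hd).2
  have hτA : τ ∉ A := fun hh => sX (hAX _ hh)
  have hl2A : l 2 ∉ A := fun hh => p2X (hAX _ hh)
  have hτA' : τ ∈ A ∪ {τ, l 2} := by simp
  have hl2A' : l 2 ∈ A ∪ {τ, l 2} := by simp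
  have memA' : ∀ d, d ∈ A ∪ {τ, l 2} ↔ d ∈ A ∨ d = τ ∨ d = l 2 := by
    intro d
    rw [mem_union, mem_insert, mem_singleton]
  have huX : u ∈ X := hA.um.1
  -- inside `X` the two values agree
  have hin : ∀ Y ⊆ X, G.rv (A ∪ {τ, l 2}) u Y = G.rv A u Y := by
    intro Y hY
    unfold rv
    congr 2
    ext d
    rw [mem_sdiff, mem_sdiff, memA']
    constructor
    · rintro ⟨h4, h5⟩
      exact ⟨h4, fun h6 => h5 (Or.inl h6)⟩
    · rintro ⟨h4, h5⟩
      refine ⟨h4, ?_⟩
      rw [mem_sb] at h4
      rintro (h6 | h6 | h6)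
      · exact h5 h6
      · rw [h6] at h4
        exact sX (hY h4.2.1)
      · rw [h6] at h4
        exact p2X (hY h4.2.1)
  -- killed darts in the star of a set containing `X`
  have hsup : ∀ Y, X ⊆ Y → ∀ d ∈ G.sb Y, d ∈ A → d = G.al (l 2) := by
    intro Y hY d hd hdA
    by_contra hne
    obtain ⟨h4, h5, -⟩ := hA.clo d hdA hne
    rw [mem_sb] at hd
    rcases hd.2.2 with h6 | h6
    · exact h4 h6
    · exact h6 (hY (hAX _ h5))
  -- the value of `X`
  have hfX : G.rv (A ∪ {τ, l 2}) u X ≤ 3 := by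
    rw [hin X Subset.rfl]
    unfold rv
    rw [if_pos huX]
    have h4 : G.sb X \ A ⊆ (G.sb X).erase (G.al (l 2)) := by
      intro d hd
      rw [mem_sdiff] at hd
      exact mem_erase.2 ⟨fun hh => hd.2 (by rw [hh]; exact hA.mem), hd.1⟩
    have h5 := card_le_card h4
    rw [card_erase_of_mem heX, ← dg_sb, h3] at h5
    omega
  -- sets containing `X`, saturated at the gadget
  have hbig : ∀ Y ⊆ G.vs, X ⊆ Y → (G.gd τ p ⊆ Y ∨ Disjoint (G.gd τ p) Y) → Odd Y.card →
      3 ≤ G.rv (A ∪ {τ, l 2}) u Y := by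
    intro Y hYv hXY hg ho
    have h4 := h.b0 Y hYv ho
    rw [dg_sb] at h4
    unfold rv
    rw [if_pos (hXY huX)]
    -- at most one killed dart in the star
    have h5 : ∃ x, G.sb Y ∩ (A ∪ {τ, l 2}) ⊆ {x} := by
      rcases hg with hg | hg
      · refine ⟨τ, ?_⟩
        intro d hd
        rw [mem_inter, memA'] at hd
        rw [mem_singleton]
        rcases hd.2 with h6 | h6 | h6
        · exfalso
          have h7 := hsup Y hXY d hd.1 h6
          have h8 := hd.1
          rw [h7, mem_sb, aal2, st.pen.lp 2] at h8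
          rcases h8.2.2 with h9 | h9
          · exact st.pen.l_tok 2 h9.symm
          · exact h9 (hg (S2_pg 2))
        · exact h6
        · exfalso
          have h8 := hd.1
          rw [h6, mem_sb] at h8
          rcases h8.2.2 with h9 | h9
          · exact st.pen.l_tok 2 h9
          · exact h9 (hXY h2)
      · refine ⟨G.al (l 2), ?_⟩
        intro d hd
        rw [mem_inter, memA'] at hd
        rw [mem_singleton]
        rcases hd.2 with h6 | h6 | h6
        · exact hsup Y hXY d hd.1 h6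
        · exfalso
          have h8 := hd.1
          rw [h6, mem_sb] at h8
          exact disjoint_left.1 hg S2_sg h8.2.1
        · exfalso
          have h8 := hd.1
          rw [h6, mem_sb, st.pen.lp 2] at h8
          exact disjoint_left.1 hg (S2_pg 2) h8.2.1
    obtain ⟨x, hx⟩ := h5
    have h6 := card_sdiff_add_card_inter (G.sb Y) (A ∪ {τ, l 2})
    have h7 := card_le_card hx
    rw [card_singleton] at h7
    omega
  -- sets disjoint from `X`
  have hdis : ∀ Y ⊆ G.vs, Disjoint X Y → (G.gd τ p ⊆ Y ∨ Disjoint (G.gd τ p) Y) → Odd Y.card →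
      2 ≤ G.rv (A ∪ {τ, l 2}) u Y := by
    intro Y hYv hXY hg ho
    have h4 := h.b0 Y hYv ho
    unfold rv
    have h6 := card_sdiff_add_card_inter (G.sb Y) (A ∪ {τ, l 2})
    rw [← dg_sb] at h6
    have hnA : ∀ d ∈ G.sb Y, d ∉ A := by
      intro d hd hh
      rw [mem_sb] at hd
      exact disjoint_left.1 hXY (hAX _ hh) hd.2.1
    rcases hg with hg | hg
    · have h7 : (G.sb Y ∩ (A ∪ {τ, l 2})).card ≤ 2 := by
        have h8 : G.sb Y ∩ (A ∪ {τ, l 2}) ⊆ {τ, l 2} := by
          intro d hd
          rw [mem_inter, memA'] at hd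
          rcases hd.2 with h6 | h6 | h6
          · exact absurd h6 (hnA d hd.1)
          · rw [h6]; simp
          · rw [h6]; simp
        exact (card_le_card h8).trans card_le_two
      have h8 : 4 ≤ G.dg Y := by
        by_contra hlt
        obtain ⟨v, hv1, hv2, -, -⟩ := st.five_gd h hYv hg ho (by omega)
        -- `X = {v}` has two tokens and two edges
        have h9 : X ⊆ {v} := by
          rw [← hv1]
          intro w hw
          exact mem_sdiff.2 ⟨hX.sub hw, disjoint_left.1 hXY hw⟩
        have h10 : X = {v} := by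
          rcases subset_singleton_iff.1 h9 with h10 | h10
          · rw [h10] at h1
            simp at h1
          · exact h10
        have h11 : 2 ≤ (G.bd X).card := by
          refine S2_three (a := G.al (l 1)) (b := G.al (l 2)) ?_ ?_ ?_
          · rw [G.mem_bd, G.al_al _ (st.pen.lm 1)]
            exact ⟨G.al_mem _ (st.pen.lm 1), h1, p1X⟩
          · rw [G.mem_bd, aal2]
            exact ⟨mal2, h2, p2X⟩
          · intro hh
            have h12 : l 1 = l 2 := by
              rw [← G.al_al _ (st.pen.lm 1), hh, aal2]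
            exact absurd (st.pen.l_inj h12) (by decide)
        have h12 : (G.tk X).card = 2 := by rw [h10, hv2]
        have h13 : G.dg X = (G.bd X).card + (G.tk X).card := rfl
        omega
      omega
    · have h7 : G.sb Y ∩ (A ∪ {τ, l 2}) = ∅ := by
        rw [eq_empty_iff_forall_notMem]
        intro d hd
        rw [mem_inter, memA'] at hd
        have h8 := hd.1
        rw [mem_sb] at h8
        rcases hd.2 with h6 | h6 | h6
        · exact hnA d hd.1 h6
        · rw [h6] at h8
          exact disjoint_left.1 hg S2_sg h8.2.1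
        · rw [h6, st.pen.lp 2] at h8
          exact disjoint_left.1 hg (S2_pg 2) h8.2.1
      rw [h7, card_empty] at h6
      omega
  -- parity
  have hodd : ∀ Y : Finset V, Odd Y.card → (Odd (X ∩ Y).card → Odd (X ∪ Y).card) ∧
      (Even (X ∩ Y).card → Odd (X \ Y).card ∧ Odd (Y \ X).card) := by
    intro Y ho
    have h4 := card_union_add_card_inter X Y
    have h5 := card_sdiff_add_card_inter X Y
    have h6 := card_sdiff_add_card_inter Y X
    rw [inter_comm Y X] at h6
    have h7 := hX.odd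
    rw [Nat.odd_iff] at ho h7
    constructor
    · intro h8
      rw [Nat.odd_iff] at h8 ⊢
      omega
    · intro h8
      rw [Nat.even_iff] at h8
      rw [Nat.odd_iff, Nat.odd_iff]
      omega
  have hcross1 : ∀ Y ⊆ G.vs, Odd (X ∩ Y).card → CSat (G.nd K F (G.gd τ p)) (X ∩ Y) →
      G.rv (A ∪ {τ, l 2}) u (X ∪ Y) ≤ G.rv (A ∪ {τ, l 2}) u Y := by
    intro Y _ ho hs
    have h4 := rv_sub (G := G) (A ∪ {τ, l 2}) u X Y
    have h5 := hv (X ∩ Y) inter_subset_left hs ho
    rw [← hin (X ∩ Y) inter_subset_left] at h5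
    omega
  have hcross2 : ∀ Y ⊆ G.vs, Odd (X \ Y).card → CSat (G.nd K F (G.gd τ p)) (X \ Y) →
      G.rv (A ∪ {τ, l 2}) u (Y \ X) ≤ G.rv (A ∪ {τ, l 2}) u Y := by
    intro Y hYv ho hs
    have h4 := rv_posi hsym u hX.sub hYv
    have h5 := hv (X \ Y) sdiff_subset hs ho
    rw [← hin (X \ Y) sdiff_subset] at h5
    omega
  -- saturated sets contain or avoid the gadget
  have hgsat : ∀ Y ⊆ G.vs, CSat (G.nd K F (G.gd τ p)) Y → G.gd τ p ⊆ Y ∨
      Disjoint (G.gd τ p) Y := by
    intro Y _ sY
    by_cases hh : Disjoint (G.gd τ p) Y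
    · exact Or.inr hh
    · left
      rw [not_disjoint_iff] at hh
      obtain ⟨v, hv1, hv2⟩ := hh
      have h4 := sY v hv2
      unfold nd at h4
      rw [if_pos hv1] at h4
      exact h4
  refine h.exit2 st hA' hl2A' ?_ ?_
  · -- class-valid
    intro Y hYv sY ho
    rcases Nat.even_or_odd (X ∩ Y).card with he | he
    · obtain ⟨o1, o2⟩ := (hodd Y ho).2 he
      have h4 := hcross2 Y hYv o1 (csat_sdiff hp hX.sub hX.sat sY)
      have h5 := hdis (Y \ X) (sdiff_subset.trans hYv) disjoint_sdiff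
        (hgsat _ (sdiff_subset.trans hYv) (csat_sdiff hp hYv sY hX.sat)) o2
      omega
    · have h4 := hcross1 Y hYv he (csat_inter hX.sat sY)
      have h5 := hbig (X ∪ Y) (union_subset hX.sub hYv) subset_union_left
        (hgsat _ (union_subset hX.sub hYv) (csat_union hX.sat sY)) ((hodd Y ho).1 he)
      omega
  · -- the spine
    intro Y hYv hYs ho hAB
    have ep1 : G.pi (G.al (f 0)) = p 1 := by
      rw [st.pen.fa 0]
      congr 1
    have ep4 : G.pi (G.al (f 3)) = p 4 := by
      rw [st.pen.fa 3]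
      congr 1
    have mf0 : f 0 ∈ G.ds := st.pen.fm h.cls 0
    have mf3 : f 3 ∈ G.ds := st.pen.fm h.cls 3
    -- darts at the gadget which are not killed
    have hlive : ∀ d, G.pi d ∈ G.gd τ p → d ≠ τ → d ≠ l 2 → d ∉ A ∪ {τ, l 2} := by
      intro d h4 h5 h6 h7
      rw [memA'] at h7
      rcases h7 with h7 | h7 | h7
      · exact hXg _ (hAX _ h7) h4
      · exact h5 h7
      · exact h6 h7
    have hFτ : ∀ d ∈ F, d ≠ τ := fun d hd hh => h.cls.Ftok d hd (by rw [hh]; exact st.tτ)
    have hFl : ∀ d ∈ F, ∀ i, d ≠ l i := fun d hd i hh => st.pen.lF i (hh ▸ hd)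
    have hFf : ∀ i, f i ∈ F := st.pen.fF
    have hFa : ∀ i, G.al (f i) ∈ F := fun i => h.cls.Fal _ (st.pen.fF i)
    have hinj := st.pen.inj
    have hsK : G.pi τ ∈ K := st.sK h.cls
    have hps : ∀ i, p i ≠ G.pi τ := fun i hh => st.pen.nK i (by rw [hh]; exact hsK)
    -- saturation of the part in `X`
    have hcl : ∀ Z, Z ⊆ X → ∀ v ∈ Z, v ∉ G.gd τ p := fun Z hZ v hv => hXg v (hZ hv)
    have sXY : CSat (G.nd K F (G.gd τ p)) (X ∩ Y) := by
      intro v hv
      rw [mem_inter] at hv
      exact subset_inter (hX.sat v hv.1) (hYs v hv.2 (hXg v hv.1))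
    have sXdY : CSat (G.nd K F (G.gd τ p)) (X \ Y) := by
      intro v hv w hw
      rw [mem_sdiff] at hv ⊢
      have hwX := hX.sat v hv.1 hw
      refine ⟨hwX, fun hwY => hv.2 ?_⟩
      have h4 := hYs w hwY (hXg w hwX)
      rw [hp.eq v (hX.sub hv.1) w hw] at h4
      exact h4 (hp.self v (hX.sub hv.1))
    -- membership of the gadget vertices in `Y`
    have memg : ∀ v ∈ G.gd τ p, v ∈ Y ↔ v ∈ Y ∩ G.gd τ p := by
      intro v hv
      rw [mem_inter]
      exact ⟨fun hh => ⟨hh, hv⟩, fun hh => hh.1⟩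
    rcases hAB with hAB | hAB
    · -- `Y ∩ C = {p 1, p 2, p 3}`
      have y1 : p 1 ∈ Y := by rw [memg _ (S2_pg 1), hAB]; simp
      have y3 : p 3 ∈ Y := by rw [memg _ (S2_pg 3), hAB]; simp
      have y0 : p 0 ∉ Y := by
        rw [memg _ (S2_pg 0), hAB, mem_insert, mem_insert, mem_singleton]
        rintro (hh | hh | hh) <;> exact absurd (hinj hh) (by decide)
      have y4 : p 4 ∉ Y := by
        rw [memg _ (S2_pg 4), hAB, mem_insert, mem_insert, mem_singleton]
        rintro (hh | hh | hh) <;> exact absurd (hinj hh) (by decide)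
      have n12 : G.al (f 0) ≠ f 3 := by
        intro hh
        have := congrArg G.pi hh
        rw [ep1, st.pen.fp 3] at this
        exact absurd (hinj this) (by decide)
      -- two live darts in the star of a set with this trace
      have hmem : ∀ W : Finset V, p 1 ∈ W → p 3 ∈ W → p 0 ∉ W → p 4 ∉ W →
          G.al (f 0) ∈ G.sb W \ (A ∪ {τ, l 2}) ∧ f 3 ∈ G.sb W \ (A ∪ {τ, l 2}) := by
        intro W w1 w3 w0 w4
        rw [mem_sdiff, mem_sdiff, mem_sb, mem_sb]
        refine ⟨⟨⟨G.al_mem _ mf0, by rw [ep1]; exact w1, Or.inr ?_⟩, ?_⟩,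
          ⟨⟨mf3, by rw [st.pen.fp 3]; exact w3, Or.inr (by rw [ep4]; exact w4)⟩, ?_⟩⟩
        · rw [G.al_al _ mf0, st.pen.fp 0]
          exact w0
        · refine hlive _ (by rw [ep1]; exact S2_pg 1) (hFτ _ (hFa 0)) (hFl _ (hFa 0) 2)
        · refine hlive _ (by rw [st.pen.fp 3]; exact S2_pg 3) (hFτ _ (hFf 3)) (hFl _ (hFf 3) 2)
      rcases Nat.even_or_odd (X ∩ Y).card with he | he
      · obtain ⟨o1, o2⟩ := (hodd Y ho).2 he
        have h4 := hcross2 Y hYv o1 sXdY
        refine le_trans ?_ h4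
        have nX : ∀ i, p i ∉ X := fun i hh => hXg _ hh (S2_pg i)
        obtain ⟨m1, m2⟩ := hmem (Y \ X) (mem_sdiff.2 ⟨y1, nX 1⟩) (mem_sdiff.2 ⟨y3, nX 3⟩)
          (fun hh => y0 (mem_sdiff.1 hh).1) (fun hh => y4 (mem_sdiff.1 hh).1)
        have m3 : l 1 ∈ G.sb (Y \ X) \ (A ∪ {τ, l 2}) := by
          rw [mem_sdiff, mem_sb, st.pen.lp 1]
          refine ⟨⟨st.pen.lm 1, mem_sdiff.2 ⟨y1, nX 1⟩, Or.inr ?_⟩, ?_⟩
          · exact fun hh => (mem_sdiff.1 hh).2 h1
          · refine hlive _ (by rw [st.pen.lp 1]; exact S2_pg 1) ?_ ?_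
            · intro hh
              exact st.pen.l_tok 1 (by rw [hh]; exact st.tτ)
            · intro hh
              exact absurd (st.pen.l_inj hh) (by decide)
        unfold rv
        have h5 := S2_three' m1 m2 m3 n12 (hFl _ (hFa 0) 1) (hFl _ (hFf 3) 1)
        omega
      · have h4 := hcross1 Y hYv he sXY
        refine le_trans ?_ h4
        have nX : ∀ i, p i ∉ X := fun i hh => hXg _ hh (S2_pg i)
        obtain ⟨m1, m2⟩ := hmem (X ∪ Y) (mem_union_right _ y1) (mem_union_right _ y3)
          (fun hh => (mem_union.1 hh).elim (nX 0) y0) (fun hh => (mem_union.1 hh).elim (nX 4) y4)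
        unfold rv
        rw [if_pos (mem_union_left _ huX)]
        have h5 := S2_three m1 m2 n12
        omega
    · -- `Y ∩ C = {p 4, p 0, s}`
      have y4 : p 4 ∈ Y := by rw [memg _ (S2_pg 4), hAB]; simp
      have y0 : p 0 ∈ Y := by rw [memg _ (S2_pg 0), hAB]; simp
      have ys : G.pi τ ∈ Y := by rw [memg _ S2_sg, hAB]; simp
      have y1 : p 1 ∉ Y := by
        rw [memg _ (S2_pg 1), hAB, mem_insert, mem_insert, mem_singleton]
        rintro (hh | hh | hh)
        · exact absurd (hinj hh) (by decide)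
        · exact absurd (hinj hh) (by decide)
        · exact hps 1 hh
      have y3 : p 3 ∉ Y := by
        rw [memg _ (S2_pg 3), hAB, mem_insert, mem_insert, mem_singleton]
        rintro (hh | hh | hh)
        · exact absurd (hinj hh) (by decide)
        · exact absurd (hinj hh) (by decide)
        · exact hps 3 hh
      have y2 : p 2 ∉ Y := by
        rw [memg _ (S2_pg 2), hAB, mem_insert, mem_insert, mem_singleton]
        rintro (hh | hh | hh)
        · exact absurd (hinj hh) (by decide)
        · exact absurd (hinj hh) (by decide)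
        · exact hps 2 hh
      have n12 : f 0 ≠ G.al (f 3) := by
        intro hh
        have := congrArg G.pi hh
        rw [ep4, st.pen.fp 0] at this
        exact absurd (hinj this) (by decide)
      have hmem : ∀ W : Finset V, p 0 ∈ W → p 4 ∈ W → p 1 ∉ W → p 3 ∉ W →
          f 0 ∈ G.sb W \ (A ∪ {τ, l 2}) ∧ G.al (f 3) ∈ G.sb W \ (A ∪ {τ, l 2}) := by
        intro W w0 w4 w1 w3
        rw [mem_sdiff, mem_sdiff, mem_sb, mem_sb]
        refine ⟨⟨⟨mf0, by rw [st.pen.fp 0]; exact w0, Or.inr (by rw [ep1]; exact w1)⟩, ?_⟩,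
          ⟨⟨G.al_mem _ mf3, by rw [ep4]; exact w4, Or.inr ?_⟩, ?_⟩⟩
        · refine hlive _ (by rw [st.pen.fp 0]; exact S2_pg 0) (hFτ _ (hFf 0)) (hFl _ (hFf 0) 2)
        · rw [G.al_al _ mf3, st.pen.fp 3]
          exact w3
        · refine hlive _ (by rw [ep4]; exact S2_pg 4) (hFτ _ (hFa 3)) (hFl _ (hFa 3) 2)
      rcases Nat.even_or_odd (X ∩ Y).card with he | he
      · obtain ⟨o1, o2⟩ := (hodd Y ho).2 he
        have h4 := hcross2 Y hYv o1 sXdY
        refine le_trans ?_ h4
        have nX : ∀ i, p i ∉ X := fun i hh => hXg _ hh (S2_pg i)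
        obtain ⟨m1, m2⟩ := hmem (Y \ X) (mem_sdiff.2 ⟨y0, nX 0⟩) (mem_sdiff.2 ⟨y4, nX 4⟩)
          (fun hh => y1 (mem_sdiff.1 hh).1) (fun hh => y3 (mem_sdiff.1 hh).1)
        have hsY : G.pi τ ∈ Y \ X := mem_sdiff.2 ⟨ys, sX⟩
        have hc's : c' ≠ l 2 := by
          intro hh
          have h5 := st.pc'
          rw [hh, st.pen.lp 2] at h5
          exact hps 2 h5
        rcases st.dich with ht | ⟨-, -, -, hone⟩
        · -- `c'` is a token
          have m3 : c' ∈ G.sb (Y \ X) \ (A ∪ {τ, l 2}) := by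
            rw [mem_sdiff, mem_sb, st.pc']
            refine ⟨⟨st.mc', hsY, Or.inl ht⟩, ?_⟩
            exact hlive _ (by rw [st.pc']; exact S2_sg) st.n2.symm hc's
          unfold rv
          have h5 := S2_three' m1 m2 m3 n12
            (fun hh => h.cls.Ftok _ (hFf 0) (by rw [hh]; exact ht))
            (fun hh => h.cls.Ftok _ (hFa 3) (by rw [hh]; exact ht))
          omega
        · -- no double vertex
          by_contra hlt
          have hlt' : G.rv (A ∪ {τ, l 2}) u (Y \ X) ≤ 2 := by omega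
          unfold rv at hlt'
          have h5 : (G.sb (Y \ X) \ (A ∪ {τ, l 2})).card ≤ 2 := by omega
          have h6 := card_sdiff_add_card_inter (G.sb (Y \ X)) (A ∪ {τ, l 2})
          have h7 : G.sb (Y \ X) ∩ (A ∪ {τ, l 2}) ⊆ {τ} := by
            intro d hd
            rw [mem_inter, memA'] at hd
            have h8 := hd.1
            rw [mem_sb] at h8
            rw [mem_singleton]
            rcases hd.2 with h9 | h9 | h9
            · exact absurd (hAX _ h9) (mem_sdiff.1 h8.2.1).2
            · exact h9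
            · rw [h9, st.pen.lp 2] at h8
              exact absurd (mem_sdiff.1 h8.2.1).1 y2
          have h8 := card_le_card h7
          rw [card_singleton] at h8
          rw [← dg_sb] at h6
          have h9 := h.b0 (Y \ X) (sdiff_subset.trans hYv) o2
          have h10 : G.dg (Y \ X) = 3 := by omega
          have h11 : (G.tk (Y \ X)).Nonempty := ⟨τ, (G.mem_tk).2 ⟨st.mτ, hsY, st.tτ⟩⟩
          have h12 : 1 < (Y \ X).card := by
            rw [one_lt_card]
            exact ⟨p 0, mem_sdiff.2 ⟨y0, nX 0⟩, p 4, mem_sdiff.2 ⟨y4, nX 4⟩,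
              fun hh => absurd (hinj hh) (by decide)⟩
          obtain ⟨v, hv1, hv2⟩ := h.glue (Y \ X) (sdiff_subset.trans hYv) o2 h12 h10 h11
          have h13 : v ∈ G.vs := by
            have : v ∈ G.vs \ (Y \ X) := by rw [hv1]; exact mem_singleton_self v
            exact (mem_sdiff.1 this).1
          have h14 := hone v h13
          omega
      · have h4 := hcross1 Y hYv he sXY
        refine le_trans ?_ h4
        have nX : ∀ i, p i ∉ X := fun i hh => hXg _ hh (S2_pg i)
        obtain ⟨m1, m2⟩ := hmem (X ∪ Y) (mem_union_right _ y0) (mem_union_right _ y4)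
          (fun hh => (mem_union.1 hh).elim (nX 1) y1) (fun hh => (mem_union.1 hh).elim (nX 3) y3)
        unfold rv
        rw [if_pos (mem_union_left _ huX)]
        have h5 := S2_three m1 m2 n12
        omega

end JP.CG
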