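import Pool.Agent.Lib.P5.W4
import Pool.Agent.Lib.P5.Route
import Pool.Agent.Lib.P5.Blk

/-! (S4): exit 4 works unless it is blocked (MP_c95763_co, pentagon world). -/

set_option autoImplicit false

namespace JP.CG

open Finset Classical

variable {V D : Type*} {G : CG V D} {K : Finset V} {F : Finset D}

private lemma adm_un {Z Z' : Finset V} (h : G.Adm K F Z) (h' : G.Adm K F Z') :
    G.Adm K F (Z ∪ Z') where
  sub := union_subset h.sub h'.sub
  dis := fun v hv => by
    rcases mem_union.1 hv with h1 | h1
    · exact h.dis v h1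
    · exact h'.dis v h1
  clo := fun d hd hv => by
    rcases mem_union.1 hv with h1 | h1
    · exact mem_union_left _ (h.clo d hd h1)
    · exact mem_union_right _ (h'.clo d hd h1)

/-- (S4) -/
theorem PW.s4 (h : G.PW K F) {τ c c' : D} {p : ZMod 5 → V} {f l : ZMod 5 → D}
    (st : G.St K F τ c c' p f l) : G.Win K F ∨ ∃ X, G.Blk K F τ p X ∧
      ((G.pi (G.al (l 1)) ∈ X ∧ G.pi (G.al (l 2)) ∈ X ∧ Disjoint X (G.tg K F τ c') ∧ G.dg X = 5) ∨
       (G.pi (G.al (l 1)) ∈ X ∧ G.pi (G.al (l 2)) ∈ X ∧ G.dg X = 3) ∨
       (G.al c' ≠ c' ∧ G.pi (G.al c') ∈ X ∧ G.pi (G.al (l 3)) ∈ X ∧ G.dg X = 3)) := by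
  refine or_iff_not_imp_right.2 fun hno => ?_
  have n10 : (1 : ZMod 5) ≠ 0 := by decide
  have n20 : (2 : ZMod 5) ≠ 0 := by decide
  have n30 : (3 : ZMod 5) ≠ 0 := by decide
  have n40 : (4 : ZMod 5) ≠ 0 := by decide
  -- basic facts on the darts
  have hlm := st.pen.lm
  have halinj : ∀ a ∈ G.ds, ∀ b ∈ G.ds, G.al a = G.al b → a = b := by
    intro a ha b hb hab
    rw [← G.al_al a ha, hab, G.al_al b hb]
  have hll : ∀ i j, i ≠ j → G.al (l i) ≠ G.al (l j) := fun i j hij he =>
    hij (st.pen.l_inj (halinj _ (hlm i) _ (hlm j) he))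
  have hsK := st.sK h.cls
  have hcl : ∀ i, G.al c' ≠ G.al (l i) := by
    intro i he
    have h1 := halinj _ st.mc' _ (hlm i) he
    have h2 : G.pi τ = p i := by rw [← st.pc', h1, st.pen.lp]
    exact st.pen.nK i (h2 ▸ hsK)
  have hout : ∀ i, i ≠ 0 → G.pi (G.al (l i)) ∈ G.vs \ G.gd τ p := fun i hi =>
    mem_sdiff.2 ⟨G.pi_mem _ (G.al_mem _ (hlm i)), st.o_out h hi⟩
  have hds : ∀ i, i ≠ 0 → G.al (l i) ∈ (G.g4 st h).ds := fun i hi => by
    show G.al (l i) ∈ G.ds.filter fun d => G.pi d ∉ G.gd τ p
    exact mem_filter.2 ⟨G.al_mem _ (hlm i), st.o_out h hi⟩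
  have a4 : (G.g4 st h).al (G.al (l 4)) = G.al (l 4) := by
    show G.al4 c' l (G.al (l 4)) = G.al (l 4)
    unfold al4
    rw [if_neg (hll 4 1 (by decide)), if_neg (hll 4 2 (by decide)), if_neg (hll 4 3 (by decide)),
      if_pos rfl]
  have a3 : (G.g4 st h).al (G.al (l 3)) = if G.al c' = c' then G.al (l 3) else G.al c' := by
    show G.al4 c' l (G.al (l 3)) = _
    unfold al4
    rw [if_neg (hll 3 1 (by decide)), if_neg (hll 3 2 (by decide)), if_pos rfl]
  obtain ⟨tsat, tsub, tdis⟩ := st.tg_sat h
  have hpart : (G.g4 st h).Part (G.nd K F (G.gd τ p)) := part_g4 st h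
  have hTR : G.tg K F τ c' ⊆ G.vs \ G.gd τ p := fun v hv =>
    mem_sdiff.2 ⟨tsub hv, fun h1 => disjoint_left.1 tdis hv h1⟩
  -- the far end of `c'`
  have hc2 : G.al c' ≠ c' → G.pi (G.al c') ∈ G.tg K F τ c' := by
    intro hc
    have h1 : G.pi (G.al c') ∈ G.vs := G.pi_mem _ (G.al_mem _ st.mc')
    unfold tg
    rw [if_neg hc]
    refine mem_union_right _ ?_
    unfold cir
    exact mem_filter.2 ⟨h1, fun Z _ hZ => hZ⟩
  have hblk : ∀ X ⊆ G.vs \ G.gd τ p, CSat (G.nd K F (G.gd τ p)) X → Odd X.card →
      G.Blk K F τ p X := by
    intro X hX hs ho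
    exact ⟨fun v hv => (mem_sdiff.1 (hX hv)).1, hs,
      disjoint_left.2 fun v hv => (mem_sdiff.1 (hX hv)).2, ho⟩
  have hodd : ∀ X ⊆ G.vs, Odd X.card → Odd (G.dg X) := fun X hX ho => (G.dg_parity hX).2 ho
  have L3 : ∀ X ⊆ G.vs \ G.gd τ p, CSat (G.nd K F (G.gd τ p)) X → Odd X.card →
      3 ≤ (G.g4 st h).dg X := by
    intro X hX hs ho
    have hb := hblk X hX hs ho
    have hd := dg_g4 st h hX
    have h3 := h.b0 X hb.sub ho
    have hpar := hodd X hb.sub ho
    have hpar' : G.dg X ≠ 3 → 5 ≤ G.dg X := by
      intro hne
      rcases hpar with ⟨k, hk⟩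
      omega
    have hpar'' : 5 ≤ G.dg X → G.dg X ≠ 5 → 7 ≤ G.dg X := by
      intro h5 hne
      rcases hpar with ⟨k, hk⟩
      omega
    by_cases c12 : G.pi (G.al (l 1)) ∈ X ∧ G.pi (G.al (l 2)) ∈ X
    · have h12 : G.dg X ≠ 3 := fun he => hno ⟨X, hb, Or.inr (Or.inl ⟨c12.1, c12.2, he⟩)⟩
      by_cases c3 : G.al c' ≠ c' ∧ G.pi (G.al (l 3)) ∈ X ∧ G.pi (G.al c') ∈ X
      · rw [if_pos c12, if_pos c3] at hd
        have h5 : G.dg X ≠ 5 := by
          intro he
          have hsb := G.sb_union_sub X (G.gd τ p)
          have hdis := hb.dis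
          -- the four edges between
          have hq : G.sb (X ∪ G.gd τ p) ⊆
              (G.sb X \ {G.al (l 1), G.al (l 2), G.al (l 3), G.al c'}) ∪
                (G.sb (G.gd τ p) \ {l 1, l 2, l 3, c'}) := by
            intro d hd'
            have hd0 := mem_sb.1 hd'
            have hpg : ∀ i, p i ∈ G.gd τ p := fun i =>
              mem_insert_of_mem (mem_image.2 ⟨i, mem_univ _, rfl⟩)
            have hsg : G.pi τ ∈ G.gd τ p := mem_insert_self _ _
            rcases mem_union.1 (hsb hd') with h1 | h1
            · refine mem_union_left _ (mem_sdiff.2 ⟨h1, ?_⟩)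
              intro h2
              simp only [mem_insert, mem_singleton] at h2
              have key : ∀ x ∈ G.ds, G.al x ≠ x → G.pi x ∈ G.gd τ p → d ≠ G.al x := by
                intro x hx hnx hpx hdx
                rcases hd0.2.2 with h3 | h3
                · rw [hdx, G.al_al x hx] at h3
                  exact hnx h3.symm
                · rw [hdx, G.al_al x hx] at h3
                  exact h3 (mem_union_right _ hpx)
              rcases h2 with h2 | h2 | h2 | h2
              · exact key _ (hlm 1) (st.pen.l_tok 1) (by rw [st.pen.lp]; exact hpg 1) h2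
              · exact key _ (hlm 2) (st.pen.l_tok 2) (by rw [st.pen.lp]; exact hpg 2) h2
              · exact key _ (hlm 3) (st.pen.l_tok 3) (by rw [st.pen.lp]; exact hpg 3) h2
              · exact key _ st.mc' c3.1 (by rw [st.pc']; exact hsg) h2
            · refine mem_union_right _ (mem_sdiff.2 ⟨h1, ?_⟩)
              intro h2
              simp only [mem_insert, mem_singleton] at h2
              have key : ∀ x ∈ G.ds, G.al x ≠ x → G.pi (G.al x) ∈ X → d ≠ x := by
                intro x hx hnx hpx hdx
                rcases hd0.2.2 with h3 | h3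
                · rw [hdx] at h3
                  exact hnx h3
                · rw [hdx] at h3
                  exact h3 (mem_union_left _ hpx)
              rcases h2 with h2 | h2 | h2 | h2
              · exact key _ (hlm 1) (st.pen.l_tok 1) c12.1 h2
              · exact key _ (hlm 2) (st.pen.l_tok 2) c12.2 h2
              · exact key _ (hlm 3) (st.pen.l_tok 3) c3.2.1 h2
              · exact key _ st.mc' c3.1 c3.2.2 h2
          have hA : ({G.al (l 1), G.al (l 2), G.al (l 3), G.al c'} : Finset D) ⊆ G.sb X := by
            have key : ∀ x ∈ G.ds, G.pi x ∈ G.gd τ p → G.pi (G.al x) ∈ X → G.al x ∈ G.sb X := by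
              intro x hx hp hq
              refine mem_sb.2 ⟨G.al_mem x hx, hq, Or.inr ?_⟩
              rw [G.al_al x hx]
              exact fun h1 => disjoint_left.1 hdis h1 hp
            have hpg : ∀ i, p i ∈ G.gd τ p := fun i =>
              mem_insert_of_mem (mem_image.2 ⟨i, mem_univ _, rfl⟩)
            have hsg : G.pi τ ∈ G.gd τ p := mem_insert_self _ _
            intro d hd'
            simp only [mem_insert, mem_singleton] at hd'
            rcases hd' with rfl | rfl | rfl | rfl
            · exact key _ (hlm 1) (by rw [st.pen.lp]; exact hpg 1) c12.1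
            · exact key _ (hlm 2) (by rw [st.pen.lp]; exact hpg 2) c12.2
            · exact key _ (hlm 3) (by rw [st.pen.lp]; exact hpg 3) c3.2.1
            · exact key _ st.mc' (by rw [st.pc']; exact hsg) c3.2.2
          have hAc : ({G.al (l 1), G.al (l 2), G.al (l 3), G.al c'} : Finset D).card = 4 := by
            rw [card_insert_of_notMem, card_insert_of_notMem, card_insert_of_notMem,
              card_singleton]
            · simp only [mem_singleton]
              exact (hcl 3).symm
            · simp only [mem_insert, mem_singleton, not_or]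
              exact ⟨hll 2 3 (by decide), (hcl 2).symm⟩
            · simp only [mem_insert, mem_singleton, not_or]
              exact ⟨hll 1 2 (by decide), hll 1 3 (by decide), (hcl 1).symm⟩
          have hlc : ∀ i, l i ≠ c' := fun i he2 => hcl i (by rw [he2])
          have hlln : ∀ i j, i ≠ j → l i ≠ l j := fun i j hij he2 => hij (st.pen.l_inj he2)
          have hB : ({l 1, l 2, l 3, c'} : Finset D) ⊆ G.sb (G.gd τ p) := by
            intro d hd'
            simp only [mem_insert, mem_singleton] at hd'
            refine (st.mem_sb_gd h).2 ?_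
            rcases hd' with rfl | rfl | rfl | rfl
            · exact Or.inr (Or.inr ⟨1, n10, rfl⟩)
            · exact Or.inr (Or.inr ⟨2, n20, rfl⟩)
            · exact Or.inr (Or.inr ⟨3, n30, rfl⟩)
            · exact Or.inr (Or.inl rfl)
          have hBc : ({l 1, l 2, l 3, c'} : Finset D).card = 4 := by
            rw [card_insert_of_notMem, card_insert_of_notMem, card_insert_of_notMem,
              card_singleton]
            · simp only [mem_singleton]
              exact hlc 3
            · simp only [mem_insert, mem_singleton, not_or]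
              exact ⟨hlln 2 3 (by decide), hlc 2⟩
            · simp only [mem_insert, mem_singleton, not_or]
              exact ⟨hlln 1 2 (by decide), hlln 1 3 (by decide), hlc 1⟩
          have hcard := (card_le_card hq).trans (card_union_le _ _)
          rw [card_sdiff_of_subset hA, card_sdiff_of_subset hB, hAc, hBc, ← dg_sb, ← dg_sb,
            ← dg_sb, he, st.dg_gd h] at hcard
          have hXg : Odd (X ∪ G.gd τ p).card := by
            rw [card_union_of_disjoint hdis, st.gd_card h.cls]
            exact ho.add_even (by decide)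
          obtain ⟨v, -, -, -, hc⟩ := st.five_gd h (union_subset hb.sub (st.gd_sub h.cls))
            subset_union_right hXg (by omega)
          exact c3.1 hc
        have := hpar'' (hpar' h12) h5
        omega
      · rw [if_pos c12, if_neg c3] at hd
        have := hpar' h12
        omega
    · rw [if_neg c12] at hd
      by_cases c3 : G.al c' ≠ c' ∧ G.pi (G.al (l 3)) ∈ X ∧ G.pi (G.al c') ∈ X
      · rw [if_pos c3] at hd
        have h12 : G.dg X ≠ 3 := fun he =>
          hno ⟨X, hb, Or.inr (Or.inr ⟨c3.1, c3.2.2, c3.2.1, he⟩)⟩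
        have := hpar' h12
        omega
      · rw [if_neg c3] at hd
        omega
  have hnc : ∀ X, Disjoint X (G.tg K F τ c') →
      ¬ (G.al c' ≠ c' ∧ G.pi (G.al (l 3)) ∈ X ∧ G.pi (G.al c') ∈ X) := by
    rintro X hXT ⟨h1, -, h3⟩
    exact disjoint_left.1 hXT h3 (hc2 h1)
  have L5 : ∀ X ⊆ G.vs \ G.gd τ p, CSat (G.nd K F (G.gd τ p)) X →
      Disjoint X (G.tg K F τ c') → Odd X.card → 5 ≤ (G.g4 st h).dg X := by
    intro X hX hs hT ho
    have hb := hblk X hX hs ho
    have hd := dg_g4 st h hX
    have h5 := st.five h hb.sub hs hb.dis hT ho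
    rw [if_neg (hnc X hT)] at hd
    by_cases c12 : G.pi (G.al (l 1)) ∈ X ∧ G.pi (G.al (l 2)) ∈ X
    · have h12 : G.dg X ≠ 5 := fun he => hno ⟨X, hb, Or.inl ⟨c12.1, c12.2, hT, he⟩⟩
      rcases hodd X hb.sub ho with ⟨k, hk⟩
      rw [if_pos c12] at hd
      omega
    · rw [if_neg c12] at hd
      omega
  have E : ∀ X ⊆ G.vs \ G.gd τ p, CSat (G.nd K F (G.gd τ p)) X →
      Disjoint X (G.tg K F τ c') → (G.g4 st h).pi (G.al (l 4)) ∈ X →
      ∃ d ∈ (G.g4 st h).bd X, (G.g4 st h).pi ((G.g4 st h).al d) ∈ G.vs \ G.gd τ p ∧
        d ≠ G.al (l 3) ∧ (G.g4 st h).al d ≠ G.al (l 3) := by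
    intro X hX hs hT hmem
    by_contra hcon
    push Not at hcon
    have hXv : X ⊆ G.vs := fun v hv => (mem_sdiff.1 (hX hv)).1
    have hXg : Disjoint X (G.gd τ p) := disjoint_left.2 fun v hv => (mem_sdiff.1 (hX hv)).2
    have hadm := st.adm_of_sat h hXv hs hXg hT
    -- the star of `X` in `G4`
    have hsb4 : (G.g4 st h).sb X ⊆ {G.al (l 4), G.al (l 3)} := by
      intro d hd
      obtain ⟨h1, h2, h3⟩ := mem_sb.1 hd
      have h1' : d ∈ G.ds ∧ G.pi d ∉ G.gd τ p := mem_filter.1 h1
      simp only [mem_insert, mem_singleton]
      by_contra hn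
      push Not at hn
      by_cases ht : (G.g4 st h).al d = d
      · -- a token
        have ht' : G.al4 c' l d = d := ht
        unfold al4 at ht'
        have hnt : G.al d ≠ d := h.notok h1'.1 (hadm.dis _ h2)
        split_ifs at ht' with e1 e2 e3 e4 e5 e6
        · exact hll 2 1 (by decide) (ht'.trans e1)
        · exact hll 1 2 (by decide) (ht'.trans e2)
        · exact hn.2 e3
        · exact hn.2 e3
        · exact hn.1 e5
        · exact hn.2 ht'.symm
        · exact hnt ht'
      · have h4 : d ∈ (G.g4 st h).bd X := by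
          rcases h3 with h3 | h3
          · exact absurd h3 ht
          · exact ((G.g4 st h).mem_bd).2 ⟨h1, h2, h3⟩
        have h5 := hcon d h4 ((G.g4 st h).pi_mem _ ((G.g4 st h).al_mem _ h1)) hn.2
        -- `d` is the partner of `al (l 3)`
        have h6 : (G.g4 st h).al (G.al (l 3)) = d := by
          rw [← h5]
          exact (G.g4 st h).al_al d h1
        rw [a3] at h6
        split_ifs at h6 with hc
        · exact hn.2 h6.symm
        · exact disjoint_left.1 hT (h6 ▸ h2) (hc2 hc)
    have hle : (G.g4 st h).dg X ≤ 2 := by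
      rw [dg_sb]
      exact (card_le_card hsb4).trans (card_le_two)
    have hev : Even X.card := by
      by_contra ho
      rw [Nat.not_even_iff_odd] at ho
      have := L5 X hX hs hT ho
      omega
    have hev4 : Even ((G.g4 st h).dg X) := by
      rw [← Nat.not_odd_iff_even, (G.g4 st h).dg_parity hX, Nat.not_odd_iff_even]
      exact hev
    have h4m : G.al (l 4) ∈ (G.g4 st h).sb X := mem_sb.2 ⟨hds 4 n40, hmem, Or.inl a4⟩
    have hpos : 0 < (G.g4 st h).dg X := by
      rw [dg_sb]
      exact card_pos.2 ⟨_, h4m⟩
    have h2 : (G.g4 st h).dg X = 2 := by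
      rcases hev4 with ⟨k, hk⟩
      omega
    have hsbe : (G.g4 st h).sb X = {G.al (l 4), G.al (l 3)} := by
      refine eq_of_subset_of_card_le hsb4 ?_
      rw [← dg_sb, h2]
      exact card_le_two
    have h3m : G.al (l 3) ∈ (G.g4 st h).sb X := by
      rw [hsbe]
      exact mem_insert_of_mem (mem_singleton_self _)
    have h3X : G.pi (G.al (l 3)) ∈ X := (mem_sb.1 h3m).2.1
    have hd := dg_g4 st h hX
    rw [if_neg (hnc X hT), h2] at hd
    have hpg : ∀ i, p i ∈ G.gd τ p := fun i =>
      mem_insert_of_mem (mem_image.2 ⟨i, mem_univ _, rfl⟩)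
    have hsbX : ∀ i, G.pi (G.al (l i)) ∈ X → G.al (l i) ∈ G.sb X := by
      intro i hi
      refine mem_sb.2 ⟨G.al_mem _ (hlm i), hi, Or.inr ?_⟩
      rw [G.al_al _ (hlm i), st.pen.lp]
      exact fun h1 => disjoint_left.1 hXg h1 (hpg i)
    by_cases c12 : G.pi (G.al (l 1)) ∈ X ∧ G.pi (G.al (l 2)) ∈ X
    · rw [if_pos c12] at hd
      have hq4 : ({G.al (l 1), G.al (l 2), G.al (l 3), G.al (l 4)} : Finset D).card = 4 := by
        rw [card_insert_of_notMem, card_insert_of_notMem, card_insert_of_notMem, card_singleton]
        · simp only [mem_singleton]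
          exact hll 3 4 (by decide)
        · simp only [mem_insert, mem_singleton, not_or]
          exact ⟨hll 2 3 (by decide), hll 2 4 (by decide)⟩
        · simp only [mem_insert, mem_singleton, not_or]
          exact ⟨hll 1 2 (by decide), hll 1 3 (by decide), hll 1 4 (by decide)⟩
      have hq : ({G.al (l 1), G.al (l 2), G.al (l 3), G.al (l 4)} : Finset D) = G.sb X := by
        refine eq_of_subset_of_card_le ?_ ?_
        · intro d hd'
          simp only [mem_insert, mem_singleton] at hd'
          rcases hd' with rfl | rfl | rfl | rfl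
          · exact hsbX 1 c12.1
          · exact hsbX 2 c12.2
          · exact hsbX 3 h3X
          · exact hsbX 4 hmem
        · rw [← dg_sb, ← hd, hq4]
      -- the star of the union
      have hU : G.sb (X ∪ G.gd τ p) ⊆ {τ, c'} := by
        intro d hd'
        have hd0 := mem_sb.1 hd'
        simp only [mem_insert, mem_singleton]
        rcases mem_union.1 (G.sb_union_sub X (G.gd τ p) hd') with h1 | h1
        · exfalso
          rw [← hq] at h1
          have key : ∀ i, d ≠ G.al (l i) := by
            intro i hdx
            rcases hd0.2.2 with h3 | h3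
            · rw [hdx, G.al_al _ (hlm i)] at h3
              exact st.pen.l_tok i h3.symm
            · rw [hdx, G.al_al _ (hlm i), st.pen.lp] at h3
              exact h3 (mem_union_right _ (hpg i))
          simp only [mem_insert, mem_singleton] at h1
          rcases h1 with h1 | h1 | h1 | h1
          · exact key _ h1
          · exact key _ h1
          · exact key _ h1
          · exact key _ h1
        · rcases (st.mem_sb_gd h).1 h1 with h2 | h2 | ⟨i, hi, h2⟩
          · exact Or.inl h2
          · exact Or.inr h2
          · exfalso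
            have hiX : G.pi (G.al (l i)) ∈ X := by
              have : i = 1 ∨ i = 2 ∨ i = 3 ∨ i = 4 := by
                clear h2
                revert hi
                revert i
                decide
              rcases this with rfl | rfl | rfl | rfl
              · exact c12.1
              · exact c12.2
              · exact h3X
              · exact hmem
            rcases hd0.2.2 with h3 | h3
            · rw [h2] at h3
              exact st.pen.l_tok i h3
            · rw [h2] at h3
              exact h3 (mem_union_left _ hiX)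
      have hUsub : X ∪ G.gd τ p ⊆ G.vs := union_subset hXv (st.gd_sub h.cls)
      have hUne : (X ∪ G.gd τ p).Nonempty := ⟨G.pi τ, mem_union_right _ (mem_insert_self _ _)⟩
      have hUev : Even (X ∪ G.gd τ p).card := by
        rw [card_union_of_disjoint hXg, st.gd_card h.cls]
        exact hev.add (by decide)
      by_cases hall : X ∪ G.gd τ p = G.vs
      · have h4 := h.four
        rw [← hall] at h4
        have h5 : G.tk (X ∪ G.gd τ p) ⊆ {τ, c'} := by
          intro d hd'
          exact hU (by rw [sb_eq]; exact mem_union_right _ hd')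
        have h6 := (card_le_card h5).trans (card_le_two)
        omega
      · have h4 := h.two _ hUsub hUev hUne hall
        have h5 : G.bd (X ∪ G.gd τ p) ⊆ {c'} := by
          intro d hd'
          have h6 := hU (by rw [sb_eq]; exact mem_union_left _ hd')
          simp only [mem_insert, mem_singleton] at h6 ⊢
          rcases h6 with h6 | h6
          · exfalso
            have h7 := (G.mem_bd).1 hd'
            rw [h6, st.tτ] at h7
            exact h7.2.2 h7.2.1
          · exact h6
        have h6 := card_le_card h5
        rw [card_singleton] at h6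
        omega
    · rw [if_neg c12] at hd
      have hq2 : ({G.al (l 3), G.al (l 4)} : Finset D).card = 2 :=
        card_pair (hll 3 4 (by decide))
      have hq : ({G.al (l 3), G.al (l 4)} : Finset D) = G.sb X := by
        refine eq_of_subset_of_card_le ?_ ?_
        · intro d hd'
          simp only [mem_insert, mem_singleton] at hd'
          rcases hd' with rfl | rfl
          · exact hsbX 3 h3X
          · exact hsbX 4 hmem
        · rw [← dg_sb, ← hd, hq2]
      have hUadm : G.Adm K F (X ∪ univ.image p) := adm_un hadm (st.pen.adm h.cls)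
      have hXp : Disjoint X (univ.image p) := by
        refine disjoint_left.2 fun v hv h1 => ?_
        exact disjoint_left.1 hXg hv (mem_insert_of_mem h1)
      have hUo : Odd (X ∪ univ.image p).card := by
        rw [card_union_of_disjoint hXp, st.pen.card]
        exact hev.add_odd (by decide)
      have hU5 := h.cc _ hUadm hUo
      have hip : ∀ i, p i ∈ univ.image p := fun i => mem_image.2 ⟨i, mem_univ _, rfl⟩
      have hUb : G.bd (X ∪ univ.image p) ⊆ {l 0, l 1, l 2} := by
        intro d hd'
        have hd1 : d ∈ G.sb (X ∪ univ.image p) := by rw [sb_eq]; exact mem_union_left _ hd'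
        have hd0 := mem_sb.1 hd1
        simp only [mem_insert, mem_singleton]
        rcases mem_union.1 (G.sb_union_sub X (univ.image p) hd1) with h1 | h1
        · exfalso
          rw [← hq] at h1
          have key : ∀ i, d ≠ G.al (l i) := by
            intro i hdx
            rcases hd0.2.2 with h3 | h3
            · rw [hdx, G.al_al _ (hlm i)] at h3
              exact st.pen.l_tok i h3.symm
            · rw [hdx, G.al_al _ (hlm i), st.pen.lp] at h3
              exact h3 (mem_union_right _ (hip i))
          simp only [mem_insert, mem_singleton] at h1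
          rcases h1 with h1 | h1
          · exact key _ h1
          · exact key _ h1
        · obtain ⟨i, h2⟩ := (st.pen.mem_sb_img h.cls).1 h1
          have hi : i = 0 ∨ i = 1 ∨ i = 2 ∨ i = 3 ∨ i = 4 := by
            clear h2
            revert i
            decide
          have key : G.pi (G.al (l i)) ∉ X := by
            intro hiX
            rcases hd0.2.2 with h3 | h3
            · rw [h2] at h3
              exact st.pen.l_tok i h3
            · rw [h2] at h3
              exact h3 (mem_union_left _ hiX)
          rcases hi with rfl | rfl | rfl | rfl | rfl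
          · exact Or.inl h2
          · exact Or.inr (Or.inl h2)
          · exact Or.inr (Or.inr h2)
          · exact absurd h3X key
          · exact absurd hmem key
      have h6 := card_le_card hUb
      have h7 : ({l 0, l 1, l 2} : Finset D).card ≤ 3 := card_le_three
      omega
  -- Theorem Q
  obtain ⟨A, u, hA, hv⟩ := routeQ (G := G.g4 st h) hpart (R := G.vs \ G.gd τ p)
    (T := G.tg K F τ c') (Finset.Subset.refl _) (fun v hv => hpart.sub v hv) hTR tsat
    (e := G.al (l 4)) (φ := G.al (l 3)) (hds 4 n40) (hout 4 n40) (Or.inl a4) (hds 3 n30)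
    (by
      intro h1
      refine ⟨hll 3 4 (by decide), ?_⟩
      rw [a3] at h1 ⊢
      split_ifs at h1 ⊢ with hc
      · exact absurd rfl h1
      · exact hcl 4)
    (by
      intro h1 _ _
      rw [a3] at h1 ⊢
      split_ifs at h1 ⊢ with hc
      · exact absurd rfl h1
      · exact Or.inr (hc2 hc))
    L3 L5 E
  exact h.exit4 st hA hv

end JP.CG
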