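import Pool.Agent.Lib.P5.BB
import Pool.Agent.Lib.P5.S4s4

/-! (S4): exit 4 works unless it is blocked, and the uncrossing of the two blocking sets
(MP_c95763_co, pentagon world): `PW.s4` and `PW.bb`. -/
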