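import Pool.Agent.Lib.P5.S5exit2
import Pool.Agent.Lib.P5.Co

/-! (S5): two disjoint blocking sets of degree 5 (MP_c95763_co, pentagon world). -/

set_option autoImplicit false

namespace JP.CG

open Finset Classical

variable {V D : Type*} {G : CG V D} {K : Finset V} {F : Finset D}

/-! ### the gadget and the target -/

namespace St

variable {τ c c' : D} {p : ZMod 5 → V} {f l : ZMod 5 → D}

lemma s5_pg (i : ZMod 5) : p i ∈ G.gd τ p := by
  unfold gd
  exact mem_insert_of_mem (mem_image_of_mem _ (mem_univ i))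

lemma s5_sg : G.pi τ ∈ G.gd τ p := by
  unfold gd
  exact mem_insert_self _ _

lemma s5_nd {v : V} (hv : v ∈ G.gd τ p) : G.nd K F (G.gd τ p) v = G.gd τ p := by
  unfold nd
  exact if_pos hv

lemma s5_tok (_h : G.St K F τ c c' p f l) {d : D} (hd : d ∈ G.ds) (ht : G.al d = d)
    (hn : G.pi d ≠ G.pi τ) (hc : G.Cls K F) : G.pi d ∈ G.tg K F τ c' := by
  unfold tg
  exact mem_union_left _ (mem_erase.2 ⟨hn, hc.tokK d hd ht⟩)

/-- the tokens of a set without targets are at `s` -/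
lemma s5_tk (h : G.St K F τ c c' p f l) (hc : G.Cls K F) {X : Finset V}
    (hT : Disjoint X (G.tg K F τ c')) : G.tk X ⊆ G.tk {G.pi τ} := by
  intro d hd
  rw [G.mem_tk] at hd ⊢
  refine ⟨hd.1, ?_, hd.2.2⟩
  rw [mem_singleton]
  by_contra hn
  exact disjoint_left.1 hT hd.2.1 (h.s5_tok hd.1 hd.2.2 hn hc)

lemma s5_far {v : V} (hv : v ∈ G.vs) : v ∈ G.cir K F v := by
  unfold cir
  rw [mem_filter]
  exact ⟨hv, fun Z _ h => h⟩

lemma s5_c'T (h : G.St K F τ c c' p f l) (ht : G.al c' ≠ c') :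
    G.pi (G.al c') ∈ G.tg K F τ c' := by
  unfold tg
  rw [if_neg ht]
  exact mem_union_right _ (s5_far (G.pi_mem _ (G.al_mem _ h.mc')))

/-- there is a target -/
lemma s5_ne (h : G.St K F τ c c' p f l) (hw : G.PW K F) : ∃ v ∈ G.vs, v ∈ G.tg K F τ c' := by
  by_cases ht : G.al c' = c'
  · have h1 : ∃ d ∈ G.tk G.vs, d ∉ G.tk {G.pi τ} := by
      by_contra hn
      push Not at hn
      have h2 := card_le_card (show G.tk G.vs ⊆ G.tk {G.pi τ} from fun d hd => hn d hd)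
      have h3 := hw.tk2 (G.pi τ) (G.pi_mem _ h.mτ)
      have h4 := hw.four
      omega
    obtain ⟨d, h2, h3⟩ := h1
    rw [G.mem_tk] at h2 h3
    refine ⟨G.pi d, h2.2.1, h.s5_tok h2.1 h2.2.2 ?_ hw.cls⟩
    intro h4
    exact h3 ⟨h2.1, mem_singleton.2 h4, h2.2.2⟩
  · exact ⟨_, G.pi_mem _ (G.al_mem _ h.mc'), h.s5_c'T ht⟩

/-- (L) of Theorem Q -/
lemma s5_five (h : G.St K F τ c c' p f l) (hw : G.PW K F) {X : Finset V} (hX : X ⊆ G.vs)
    (hs : CSat (G.nd K F (G.gd τ p)) X) (hT : Disjoint X (G.tg K F τ c')) (ho : Odd X.card) :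
    5 ≤ G.dg X := by
  by_cases hg : Disjoint X (G.gd τ p)
  · exact h.five hw hX hs hg hT ho
  · rw [not_disjoint_iff] at hg
    obtain ⟨v, h1, h2⟩ := hg
    have h3 := hs v h1
    rw [s5_nd h2] at h3
    by_contra hn
    have h4 := (G.dg_parity hX).2 ho
    rw [Nat.odd_iff] at h4
    obtain ⟨w, h5, h6, h7, h8⟩ := h.five_gd hw hX h3 ho (by omega)
    have hsX : G.pi τ ∈ X := h3 s5_sg
    have hKs : G.pi τ ∈ K := hw.cls.tokK τ h.mτ h.tτ
    have hwX : w ∈ G.vs ∧ w ∉ X := by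
      rw [← mem_sdiff, h5]
      exact mem_singleton_self w
    have hwK : w ∈ K := by
      have h9 : (G.tk {w}).Nonempty := by
        rw [← card_pos]
        omega
      obtain ⟨d, h10⟩ := h9
      rw [G.mem_tk, mem_singleton] at h10
      rw [← h10.2.1]
      exact hw.cls.tokK d h10.1 h10.2.2
    have h9 : (G.tk {G.pi τ}).card = 2 := by
      have h10 := hw.tk2 (G.pi τ) (G.pi_mem _ h.mτ)
      have h11 : ({τ, c'} : Finset D) ⊆ G.tk {G.pi τ} := by
        intro d hd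
        rw [mem_insert, mem_singleton] at hd
        rw [G.mem_tk, mem_singleton]
        rcases hd with rfl | rfl
        · exact ⟨h.mτ, rfl, h.tτ⟩
        · exact ⟨h.mc', h.pc', h8⟩
      have h12 := card_le_card h11
      rw [card_pair h.n2] at h12
      omega
    refine hw.dbl2 (G.pi τ) w h7.symm h9 h6 ?_
    ext v
    rw [mem_insert, mem_singleton]
    constructor
    · intro hv
      by_cases hvs : v = G.pi τ
      · exact Or.inl hvs
      · right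
        have h10 : v ∈ G.tg K F τ c' := mem_union_left _ (mem_erase.2 ⟨hvs, hv⟩)
        have h11 : v ∈ G.vs \ X := mem_sdiff.2 ⟨hw.cls.Ksub hv, disjoint_right.1 hT h10⟩
        rw [h5] at h11
        exact mem_singleton.1 h11
    · rintro (rfl | rfl)
      · exact hKs
      · exact hwK

/-- (E) of Theorem Q -/
lemma s5_E (h : G.St K F τ c c' p f l) (hw : G.PW K F) {X : Finset V} (hX : X ⊆ G.vs)
    (hT : Disjoint X (G.tg K F τ c')) (hs : G.pi τ ∈ X) :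
    ∃ d ∈ G.bd X, G.pi (G.al d) ∈ G.vs ∧ d ≠ c' ∧ G.al d ≠ c' := by
  by_contra hn
  push Not at hn
  have h1 : ∀ d ∈ G.bd X, d = c' := by
    intro d hd
    have hd' := G.mem_bd.1 hd
    by_contra h2
    have h3 := hn d hd (G.pi_mem _ (G.al_mem _ hd'.1)) h2
    rw [h3, h.pc'] at hd'
    exact hd'.2.2 hs
  have hne : X ≠ G.vs := by
    rintro rfl
    obtain ⟨v, h2, h3⟩ := h.s5_ne hw
    exact disjoint_left.1 hT h2 h3
  have h2 : (G.bd X).card ≤ 1 := by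
    rw [card_le_one]
    intro a ha b hb
    rw [h1 a ha, h1 b hb]
  have h3 := card_le_card (h.s5_tk hw.cls hT)
  by_cases ho : Odd X.card
  · have h4 := hw.b0 X hX ho
    unfold dg at h4
    rcases h.dich with h5 | ⟨-, -, -, h5⟩
    · have h6 : G.bd X = ∅ := by
        rw [eq_empty_iff_forall_notMem]
        intro d hd
        have h7 := h1 d hd
        rw [h7, G.mem_bd, h5, h.pc'] at hd
        exact hd.2.2 hs
      rw [h6, card_empty] at h4
      have h7 := hw.tk2 (G.pi τ) (G.pi_mem _ h.mτ)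
      omega
    · have h7 := h5 (G.pi τ) (G.pi_mem _ h.mτ)
      omega
  · have h4 := hw.two X hX (Nat.not_odd_iff_even.1 ho) ⟨_, hs⟩ hne
    omega

end St

lemma Blk.s5_mirror {τ : D} {p : ZMod 5 → V} {X : Finset V} (hX : G.Blk K F τ p X) :
    G.Blk K F τ (fun i => p (-i)) X where
  sub := hX.sub
  sat := by
    rw [St.gd_mirror]
    exact hX.sat
  dis := by
    rw [St.gd_mirror]
    exact hX.dis
  odd := hX.odd

/-- (S5), the route leaves the gadget by `l 1` or `l 2` -/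
theorem PW.s5_half (h : G.PW K F) {τ c c' : D} {p : ZMod 5 → V} {f l : ZMod 5 → D}
    (st : G.St K F τ c c' p f l) {X Z : Finset V} (hX : G.Blk K F τ p X) (hZ : G.Blk K F τ p Z)
    (hd : Disjoint X Z) (o1 : G.pi (G.al (l 1)) ∈ X) (o2 : G.pi (G.al (l 2)) ∈ X)
    (tX : Disjoint X (G.tg K F τ c')) (dX : G.dg X = 5)
    (o4 : G.pi (G.al (l 4)) ∈ Z) (o3 : G.pi (G.al (l 3)) ∈ Z) (tZ : Disjoint Z (G.tg K F τ c'))
    (dZ : G.dg Z = 5) {A : Finset D} {u : V}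
    (hA : G.Rt (co (co (G.nd K F (G.gd τ p)) X) Z) G.vs (G.tg K F τ c') τ c' A u)
    (hv : ∀ Y ⊆ G.vs, CSat (co (co (G.nd K F (G.gd τ p)) X) Z) Y → Odd Y.card → 3 ≤ G.rv A u Y)
    (h12 : l 1 ∈ A ∨ l 2 ∈ A) : G.Win K F := by
  have hp := st.part h
  obtain ⟨sT, hTv, hTg⟩ := st.tg_sat h
  have hp1 := hp.co hX.sub hX.sat
  have sZ1 : CSat (co (G.nd K F (G.gd τ p)) X) Z := csat_co_disj hd.symm hZ.sat
  have hp2 := hp1.co hZ.sub sZ1
  have sT1 : CSat (co (G.nd K F (G.gd τ p)) X) (G.tg K F τ c') := csat_co_disj tX.symm sT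
  have sT2 : CSat (co (co (G.nd K F (G.gd τ p)) X) Z) (G.tg K F τ c') := csat_co_disj tZ.symm sT1
  have gX : ∀ {v}, v ∈ G.gd τ p → v ∉ X := fun hv h1 => disjoint_left.1 hX.dis h1 hv
  have gZ : ∀ {v}, v ∈ G.gd τ p → v ∉ Z := fun hv h1 => disjoint_left.1 hZ.dis h1 hv
  have gT : ∀ {v}, v ∈ G.gd τ p → v ∉ G.tg K F τ c' := fun hv h1 => disjoint_left.1 hTg h1 hv
  have hlg : ∀ i, G.pi (l i) ∈ G.gd τ p := by
    intro i
    rw [st.pen.lp i]
    exact St.s5_pg i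
  have hsg : G.pi τ ∈ G.gd τ p := St.s5_sg
  have hcl : ∀ {v}, v ∈ G.gd τ p → co (co (G.nd K F (G.gd τ p)) X) Z v = G.gd τ p := by
    intro v hv
    rw [co_not (gZ hv), co_not (gX hv), St.s5_nd hv]
  have hclX : ∀ {v}, v ∈ X → co (co (G.nd K F (G.gd τ p)) X) Z v = X := by
    intro v hv
    rw [co_not (disjoint_left.1 hd hv), co_mem hv]
  -- the swap
  obtain ⟨A1, hA1, hv1, h2⟩ : ∃ A1, G.Rt (co (co (G.nd K F (G.gd τ p)) X) Z) G.vs
      (G.tg K F τ c') τ c' A1 u ∧ (∀ Y ⊆ G.vs, CSat (co (co (G.nd K F (G.gd τ p)) X) Z) Y →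
        Odd Y.card → 3 ≤ G.rv A1 u Y) ∧ l 2 ∈ A1 := by
    rcases h12 with h1 | h2
    swap
    · exact ⟨A, hA, hv, h2⟩
    have hsy : G.Sy (co (co (G.nd K F (G.gd τ p)) X) Z) (G.sw (l 1) (l 2)) := by
      refine sy_sw hp2 (st.pen.lm 1) (st.pen.lm 2) (st.pen.l_tok 1) (st.pen.l_tok 2) ?_ ?_ ?_ ?_
      · intro he
        exact absurd (st.pen.l_inj he) (by decide)
      · intro he
        have h3 := hlg 2
        rw [← he] at h3
        exact gX h3 o1
      · rw [hcl (hlg 1)]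
        exact hlg 2
      · rw [hclX o1]
        exact o2
    have hfix : ∀ d ∈ G.ds, d ≠ l 1 → d ≠ l 2 → G.pi d ∉ X → G.sw (l 1) (l 2) d = d := by
      intro d _ h3 h4 h5
      refine sw_fix h3 h4 ?_ ?_
      · rintro rfl
        exact h5 o1
      · rintro rfl
        exact h5 o2
    have hpl : ∀ i, G.pi τ ≠ G.pi (l i) := by
      intro i he
      have h3 := st.pen.nK i
      rw [← st.pen.lp i, ← he] at h3
      exact h3 (h.cls.tokK τ st.mτ st.tτ)
    have hτ : G.sw (l 1) (l 2) τ = τ := by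
      refine hfix τ st.mτ ?_ ?_ (gX hsg)
      · intro he
        exact hpl 1 (by rw [← he])
      · intro he
        exact hpl 2 (by rw [← he])
    have hc' : G.sw (l 1) (l 2) c' = c' := by
      refine hfix c' st.mc' ?_ ?_ ?_
      · intro he
        exact hpl 1 (by rw [← he, st.pc'])
      · intro he
        exact hpl 2 (by rw [← he, st.pc'])
      · rw [st.pc']
        exact gX hsg
    have hT : ∀ d ∈ G.ds, G.pi d ∈ G.tg K F τ c' → G.sw (l 1) (l 2) d = d := by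
      intro d hd h3
      refine hfix d hd ?_ ?_ ?_
      · rintro rfl
        exact gT (hlg 1) h3
      · rintro rfl
        exact gT (hlg 2) h3
      · intro h4
        exact disjoint_left.1 tX h4 h3
    refine ⟨A.image (G.sw (l 1) (l 2)), hsy.rt hp2 sT2 hA hτ st.mc' hc' hT, ?_,
      mem_image.2 ⟨l 1, h1, sw_a⟩⟩
    intro Y hY sY ho
    rw [hsy.rv_eq hp2 sY (fun d hd => (hA.sub d hd).1)]
    exact hv Y hY sY ho
  -- fill `Z`
  have hcX : ∀ {W : Finset V}, Disjoint W (G.gd τ p) → ¬ (G.pi c' ∈ W ∧ G.pi (G.al c') ∈ W) := by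
    rintro W hW ⟨h3, -⟩
    rw [st.pc'] at h3
    exact disjoint_left.1 hW h3 hsg
  obtain ⟨A2, hA2, e2, hv2⟩ := fill hp1 hZ.sub sZ1 hZ.odd dZ
    (fun Y hY sY ho => st.five h (hY.trans hZ.sub) (csat_of_co hX.sat sY)
      (disjoint_of_subset_left hY hZ.dis) (disjoint_of_subset_left hY tZ) ho)
    tZ hTv sT1 st.tτ (gZ hsg) st.mc' (hcX hZ.dis) hA1 hv1
  -- fill `X`
  obtain ⟨A3, hA3, e3, hv3⟩ := fill hp hX.sub hX.sat hX.odd dX
    (fun Y hY sY ho => st.five h (hY.trans hX.sub) sY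
      (disjoint_of_subset_left hY hX.dis) (disjoint_of_subset_left hY tX) ho)
    tX hTv sT st.tτ (gX hsg) st.mc' (hcX hX.dis) hA2 hv2
  have h3 : l 2 ∈ A3 := by
    rw [e3 _ fun h4 => gX (hlg 2) h4.1, e2 _ fun h4 => gZ (hlg 2) h4.1]
    exact h2
  exact h.s5_exit2 st hZ o4 o3 tZ dZ hA3 h3 hv3

/-- (S5) -/
theorem PW.s5 (h : G.PW K F) {τ c c' : D} {p : ZMod 5 → V} {f l : ZMod 5 → D}
    (st : G.St K F τ c c' p f l) {X Z : Finset V} (hX : G.Blk K F τ p X) (hZ : G.Blk K F τ p Z)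
    (hd : Disjoint X Z) (o1 : G.pi (G.al (l 1)) ∈ X) (o2 : G.pi (G.al (l 2)) ∈ X)
    (tX : Disjoint X (G.tg K F τ c')) (dX : G.dg X = 5)
    (o4 : G.pi (G.al (l 4)) ∈ Z) (o3 : G.pi (G.al (l 3)) ∈ Z) (tZ : Disjoint Z (G.tg K F τ c'))
    (dZ : G.dg Z = 5) : G.Win K F := by
  have hp := st.part h
  obtain ⟨sT, hTv, hTg⟩ := st.tg_sat h
  have hp1 := hp.co hX.sub hX.sat
  have sZ1 : CSat (co (G.nd K F (G.gd τ p)) X) Z := csat_co_disj hd.symm hZ.sat
  have hp2 := hp1.co hZ.sub sZ1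
  have sT1 : CSat (co (G.nd K F (G.gd τ p)) X) (G.tg K F τ c') := csat_co_disj tX.symm sT
  have sT2 : CSat (co (co (G.nd K F (G.gd τ p)) X) Z) (G.tg K F τ c') := csat_co_disj tZ.symm sT1
  have gX : ∀ {v}, v ∈ G.gd τ p → v ∉ X := fun hv h1 => disjoint_left.1 hX.dis h1 hv
  have gZ : ∀ {v}, v ∈ G.gd τ p → v ∉ Z := fun hv h1 => disjoint_left.1 hZ.dis h1 hv
  have gT : ∀ {v}, v ∈ G.gd τ p → v ∉ G.tg K F τ c' := fun hv h1 => disjoint_left.1 hTg h1 hv
  have hsg : G.pi τ ∈ G.gd τ p := St.s5_sg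
  have hcl : ∀ {v}, v ∈ G.gd τ p → co (co (G.nd K F (G.gd τ p)) X) Z v = G.gd τ p := by
    intro v hv
    rw [co_not (gZ hv), co_not (gX hv), St.s5_nd hv]
  have hsat : ∀ {Y : Finset V}, CSat (co (co (G.nd K F (G.gd τ p)) X) Z) Y →
      CSat (G.nd K F (G.gd τ p)) Y := fun hY => csat_of_co hX.sat (csat_of_co sZ1 hY)
  obtain ⟨A, u, hA, hv⟩ := routeQ (e := τ) (φ := c') hp2 (R := G.vs) (T := G.tg K F τ c')
    (subset_refl _) (fun v hv => hp2.sub v hv) hTv sT2 st.mτ (G.pi_mem _ st.mτ) (Or.inl st.tτ)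
    st.mc' (fun _ => ⟨st.n2.symm, fun h1 => st.n2 (by rw [← G.al_al _ st.mc', h1, st.tτ])⟩)
    (fun h2 _ _ => Or.inr (st.s5_c'T h2)) (fun Y hY _ ho => h.b0 Y hY ho)
    (fun Y hY sY hT ho => st.s5_five h hY (hsat sY) hT ho)
    (fun Y hY _ hT hs => st.s5_E h hY hT hs)
  -- the exit
  obtain ⟨i, hi, hiA⟩ : ∃ i : ZMod 5, i ≠ 0 ∧ l i ∈ A := by
    have hu : G.pi τ ∉ co (co (G.nd K F (G.gd τ p)) X) Z u := by
      intro h1
      exact gT hsg (sT2 u hA.um.2 h1)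
    have h1 := hA.deg (G.pi τ) (G.pi_mem _ st.mτ) hu
    rw [hcl hsg] at h1
    have h2 : τ ∈ A.filter fun d => G.pi d ∈ G.gd τ p := mem_filter.2 ⟨hA.mem, hsg⟩
    have h3 : (A.filter fun d => G.pi d ∈ G.gd τ p).card = 2 := by
      rcases h1 with h1 | h1
      · rw [card_eq_zero] at h1
        rw [h1] at h2
        exact absurd h2 (notMem_empty _)
      · exact h1
    obtain ⟨d, h4, h5⟩ := exists_mem_ne (by omega) τ (s := A.filter fun d => G.pi d ∈ G.gd τ p)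
    rw [mem_filter] at h4
    obtain ⟨h6, h7, h8⟩ := hA.clo d h4.1 h5
    have h9 := hA.nl d h4.1 h5
    rw [hcl h4.2] at h9
    have h10 : d ∈ G.sb (G.gd τ p) := mem_sb.2 ⟨(hA.sub d h4.1).1, h4.2, Or.inr h9⟩
    rw [st.mem_sb_gd h] at h10
    rcases h10 with rfl | rfl | ⟨i, hi, rfl⟩
    · exact absurd rfl h5
    · exact absurd h4.1 (hA.nphi h6).1
    · exact ⟨i, hi, h4.1⟩
  have hi' : ∀ i : ZMod 5, i ≠ 0 → i = 1 ∨ i = 2 ∨ i = 3 ∨ i = 4 := by decide
  rcases hi' i hi with rfl | rfl | rfl | rfl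
  · exact h.s5_half st hX hZ hd o1 o2 tX dX o4 o3 tZ dZ hA hv (Or.inl hiA)
  · exact h.s5_half st hX hZ hd o1 o2 tX dX o4 o3 tZ dZ hA hv (Or.inr hiA)
  · have hc : co (co (G.nd K F (G.gd τ p)) X) Z =
        co (co (G.nd K F (G.gd τ fun i => p (-i))) Z) X := by
      rw [St.gd_mirror, co_comm _ hd]
    rw [hc] at hA hv
    exact h.s5_half (st.mirror h.cls) hZ.s5_mirror hX.s5_mirror hd.symm o4 o3 tZ dZ o1 o2 tX dX
      hA hv (Or.inr hiA)
  · have hc : co (co (G.nd K F (G.gd τ p)) X) Z =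
        co (co (G.nd K F (G.gd τ fun i => p (-i))) Z) X := by
      rw [St.gd_mirror, co_comm _ hd]
    rw [hc] at hA hv
    exact h.s5_half (st.mirror h.cls) hZ.s5_mirror hX.s5_mirror hd.symm o4 o3 tZ dZ o1 o2 tX dX
      hA hv (Or.inl hiA)

end JP.CG
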