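import Pool.Agent.Lib.P5.Basic
import Pool.Agent.Lib.P5.Route

/-! (S5): refining a coarse route inside a blocking set of degree 5 (MP_c95763_co, pentagon
world). -/

set_option autoImplicit false

namespace JP.CG

open Finset Classical

variable {V D : Type*} {G : CG V D} {K : Finset V} {F : Finset D}

/-- the class `X` merged -/
noncomputable def co (cl : V → Finset V) (X : Finset V) (v : V) : Finset V :=
  if v ∈ X then X else cl v

private lemma co_in {cl : V → Finset V} {X : Finset V} {v : V} (hv : v ∈ X) :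
    co cl X v = X := if_pos hv

private lemma co_out {cl : V → Finset V} {X : Finset V} {v : V} (hv : v ∉ X) :
    co cl X v = cl v := if_neg hv

/-- the classes of vertices outside a saturated set avoid it -/
private lemma cl_dis {cl : V → Finset V} (hp : G.Part cl) {X : Finset V} (sX : CSat cl X) {v : V}
    (hv : v ∈ G.vs) (hX : v ∉ X) {w : V} (hw : w ∈ cl v) : w ∉ X := by
  intro h1
  have h2 := sX w h1
  rw [hp.eq v hv w hw] at h2
  exact hX (h2 (hp.self v hv))

private lemma co_union {cl : V → Finset V} {X Y : Finset V} (sY : CSat cl Y) :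
    CSat (co cl X) (Y ∪ X) := by
  intro v hv
  by_cases h1 : v ∈ X
  · rw [co_in h1]
    exact subset_union_right
  · rw [co_out h1]
    rcases mem_union.1 hv with h2 | h2
    · exact (sY v h2).trans subset_union_left
    · exact absurd h2 h1

private lemma co_sdiff {cl : V → Finset V} (hp : G.Part cl) {X Y : Finset V} (sX : CSat cl X)
    (hY : Y ⊆ G.vs) (sY : CSat cl Y) : CSat (co cl X) (Y \ X) := by
  intro v hv w hw
  rw [mem_sdiff] at hv ⊢
  rw [co_out hv.2] at hw
  exact ⟨sY v hv.1 hw, cl_dis hp sX (hY hv.1) hv.2 hw⟩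

/-- values only depend on the darts of the star -/
private lemma rv_congr {A A' : Finset D} {u : V} {Z : Finset V}
    (h : ∀ d ∈ G.sb Z, (d ∈ A' ↔ d ∈ A)) : G.rv A' u Z = G.rv A u Z := by
  unfold rv
  congr 2
  ext d
  rw [mem_sdiff, mem_sdiff]
  constructor
  · rintro ⟨h1, h2⟩
    exact ⟨h1, fun h3 => h2 ((h d h1).2 h3)⟩
  · rintro ⟨h1, h2⟩
    exact ⟨h1, fun h3 => h2 ((h d h1).1 h3)⟩

/-- a route for the coarse classes (`X` is one class, odd, of degree 5, not a target) is refined -/
theorem fill {cl : V → Finset V} (hp : G.Part cl) {X T : Finset V} (hX : X ⊆ G.vs)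
    (sX : CSat cl X) (ho : Odd X.card) (h5 : G.dg X = 5)
    (L5 : ∀ Y ⊆ X, CSat cl Y → Odd Y.card → 5 ≤ G.dg Y) (hT : Disjoint X T) (hTv : T ⊆ G.vs)
    (sT : CSat cl T) {e φ : D} (te : G.al e = e) (pe : G.pi e ∉ X) (mφ : φ ∈ G.ds)
    (hφ : ¬ (G.pi φ ∈ X ∧ G.pi (G.al φ) ∈ X)) {A : Finset D} {u : V}
    (hA : G.Rt (co cl X) G.vs T e φ A u)
    (hv : ∀ Y ⊆ G.vs, CSat (co cl X) Y → Odd Y.card → 3 ≤ G.rv A u Y) :
    ∃ A', G.Rt cl G.vs T e φ A' u ∧ (∀ d, ¬ (G.pi d ∈ X ∧ G.pi (G.al d) ∈ X) → (d ∈ A' ↔ d ∈ A)) ∧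
      (∀ Y ⊆ G.vs, CSat cl Y → Odd Y.card → 3 ≤ G.rv A' u Y) := by
  have hTX : ∀ v ∈ T, v ∉ X := fun v h1 h2 => disjoint_left.1 hT h2 h1
  have huT := hA.um.2
  have huv := hA.um.1
  have huX : u ∉ X := hTX u huT
  have hcu : co cl X u = cl u := co_out huX
  have hcuX : ∀ w ∈ cl u, w ∉ X := fun w hw => hTX w (sT u huT hw)
  -- parities
  have par : ∀ Y : Finset V, Odd Y.card →
      (Odd (Y ∩ X).card ∧ Odd (Y ∪ X).card) ∨ (Odd (X \ Y).card ∧ Odd (Y \ X).card) := by
    intro Y hY
    have e1 := card_union_add_card_inter Y X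
    have e2 := card_sdiff_add_card_inter Y X
    have e3 := card_sdiff_add_card_inter X Y
    rw [inter_comm X Y] at e3
    rcases Nat.even_or_odd (Y ∩ X).card with h1 | h1
    · right
      rw [Nat.even_iff] at h1
      rw [Nat.odd_iff] at hY ho ⊢
      rw [Nat.odd_iff]
      omega
    · left
      refine ⟨h1, ?_⟩
      rw [Nat.odd_iff] at h1 hY ho ⊢
      omega
  by_cases hcross : ∃ d ∈ A, G.pi d ∈ X
  · -- the route passes through `X`
    obtain ⟨d0, hd0, hd0X⟩ := hcross
    have hd0v : G.pi d0 ∈ G.vs := hX hd0X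
    have hn : G.pi d0 ∉ co cl X u := by
      rw [hcu]
      exact fun h1 => hcuX _ h1 hd0X
    have hdeg := hA.deg (G.pi d0) hd0v hn
    rw [co_in hd0X] at hdeg
    have h2 : (A.filter fun d => G.pi d ∈ X).card = 2 := by
      rcases hdeg with h0 | h0
      · rw [card_eq_zero] at h0
        exact absurd (mem_filter.2 ⟨hd0, hd0X⟩) (by rw [h0]; exact notMem_empty _)
      · exact h0
    obtain ⟨e1, e2, hne, h12⟩ := card_eq_two.1 h2
    have hin : ∀ d, (d ∈ A ∧ G.pi d ∈ X) ↔ (d = e1 ∨ d = e2) := by
      intro d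
      have := Finset.ext_iff.1 h12 d
      rw [mem_filter, mem_insert, mem_singleton] at this
      exact this
    have m1 := (hin e1).2 (Or.inl rfl)
    have m2 := (hin e2).2 (Or.inr rfl)
    have hnee : ∀ d, G.pi d ∈ X → d ≠ e := by
      rintro d h1 rfl
      exact pe h1
    have hsb : ∀ d ∈ A, G.pi d ∈ X → d ∈ G.sb X := by
      intro d h1 h3
      rw [mem_sb]
      refine ⟨(hA.sub d h1).1, h3, Or.inr ?_⟩
      have := hA.nl d h1 (hnee d h3)
      rwa [co_in h3] at this
    have hcloA : ∀ d ∈ A, G.pi d ∈ X → G.al d ≠ d ∧ G.al d ∈ A ∧ G.pi (G.al d) ∉ X := by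
      intro d h1 h3
      have h4 := hA.clo d h1 (hnee d h3)
      have h6 := hA.nl d h1 (hnee d h3)
      rw [co_in h3] at h6
      exact ⟨h4.1, h4.2.1, h6⟩
    obtain ⟨B, hB, hBv⟩ := routeX hp hX sX h5 ho L5 (hsb e1 m1.1 m1.2) (hsb e2 m2.1 m2.2) hne
    have hBX : ∀ d ∈ B, G.pi d ∈ X := fun d hd => (hB.sub d hd).2
    have hAB : ∀ d ∈ A, G.pi d ∈ X → d ∈ B := by
      intro d h1 h3
      rcases (hin d).1 ⟨h1, h3⟩ with rfl | rfl
      · exact hB.mem1
      · exact hB.mem2
    have hBA : ∀ d ∈ B, d ∉ A → G.al d ≠ d ∧ G.al d ∈ B ∧ G.pi (G.al d) ∈ X ∧ G.al d ∉ A := by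
      intro d h1 h3
      have n1 : d ≠ e1 := by
        rintro rfl
        exact h3 m1.1
      have n2 : d ≠ e2 := by
        rintro rfl
        exact h3 m2.1
      obtain ⟨k1, k2, k3, k4⟩ := hB.clo d h1 n1 n2
      refine ⟨k1, k2, hBX _ k2, fun h7 => ?_⟩
      rcases (hin (G.al d)).1 ⟨h7, hBX _ k2⟩ with h8 | h8
      · exact k3 h8
      · exact k4 h8
    have memA' : ∀ d, G.pi d ∈ X → (d ∈ A ∪ B ↔ d ∈ B) := by
      intro d h1
      rw [mem_union]
      constructor
      · rintro (h3 | h3)
        · exact hAB d h3 h1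
        · exact h3
      · exact Or.inr
    have memA'' : ∀ d, G.pi d ∉ X → (d ∈ A ∪ B ↔ d ∈ A) := by
      intro d h1
      rw [mem_union]
      constructor
      · rintro (h3 | h3)
        · exact h3
        · exact absurd (hBX d h3) h1
      · exact Or.inl
    have hkeep : ∀ d, ¬ (G.pi d ∈ X ∧ G.pi (G.al d) ∈ X) → (d ∈ A ∪ B ↔ d ∈ A) := by
      intro d h1
      rw [mem_union]
      constructor
      · rintro (h3 | h3)
        · exact h3
        · by_contra h4
          exact h1 ⟨hBX d h3, (hBA d h3 h4).2.2.1⟩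
      · exact Or.inl
    -- the new route
    have hR : G.Rt cl G.vs T e φ (A ∪ B) u := by
      refine ⟨?_, ?_, ?_, ?_, hA.um, ?_, ?_, ?_, ?_, ?_⟩
      · intro d hd
        rcases mem_union.1 hd with h1 | h1
        · exact hA.sub d h1
        · exact ⟨(hB.sub d h1).1, hX (hBX d h1)⟩
      · exact mem_union_left _ hA.mem
      · intro d hd hde
        by_cases h1 : d ∈ A
        · obtain ⟨k1, k2, k3⟩ := hA.clo d h1 hde
          exact ⟨k1, mem_union_left _ k2, k3⟩
        · have h3 : d ∈ B := (mem_union.1 hd).resolve_left h1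
          obtain ⟨k1, k2, k3, -⟩ := hBA d h3 h1
          exact ⟨k1, mem_union_right _ k2, hnee _ k3⟩
      · intro d hd hde
        by_cases h1 : d ∈ A
        · have h3 := hA.nl d h1 hde
          by_cases h4 : G.pi d ∈ X
          · rw [co_in h4] at h3
            exact fun h7 => h3 (sX _ h4 h7)
          · rwa [co_out h4] at h3
        · have h3 : d ∈ B := (mem_union.1 hd).resolve_left h1
          refine hB.nl d h3 ?_ ?_
          · rintro rfl
            exact h1 m1.1
          · rintro rfl
            exact h1 m2.1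
      · obtain ⟨d, hd, hdu, hun⟩ := hA.land
        refine ⟨d, mem_union_left _ hd, hdu, fun d' hd' h1 => ?_⟩
        rcases mem_union.1 hd' with h3 | h3
        · exact hun d' h3 (by rw [hcu]; exact h1)
        · exact absurd (hBX d' h3) (hcuX _ h1)
      · intro v hvv hvu
        by_cases h1 : v ∈ X
        · have e1' : ((A ∪ B).filter fun d => G.pi d ∈ cl v) = B.filter fun d => G.pi d ∈ cl v := by
            ext d
            rw [mem_filter, mem_filter]
            constructor
            · rintro ⟨h3, h4⟩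
              exact ⟨(memA' d (sX v h1 h4)).1 h3, h4⟩
            · rintro ⟨h3, h4⟩
              exact ⟨mem_union_right _ h3, h4⟩
          rw [e1']
          exact hB.deg v h1
        · have e1' : ((A ∪ B).filter fun d => G.pi d ∈ cl v) = A.filter fun d => G.pi d ∈ cl v := by
            ext d
            rw [mem_filter, mem_filter]
            constructor
            · rintro ⟨h3, h4⟩
              exact ⟨(memA'' d (cl_dis hp sX hvv h1 h4)).1 h3, h4⟩
            · rintro ⟨h3, h4⟩
              exact ⟨mem_union_left _ h3, h4⟩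
          rw [e1']
          have h3 := hA.deg v hvv (by rw [hcu]; exact hvu)
          rwa [co_out h1] at h3
      · intro d hd h1
        rcases mem_union.1 hd with h3 | h3
        · have h4 := hA.off d h3 h1
          rwa [hcu] at h4
        · exact absurd (hBX d h3) (hTX _ h1)
      · -- connectivity
        intro Y hYv sY hin' hout'
        obtain ⟨a, ha, haY⟩ := hin'
        obtain ⟨b, hb, hbY⟩ := hout'
        by_cases c1 : ∃ d ∈ B, G.pi d ∈ Y
        · by_cases c2 : ∃ d ∈ B, G.pi d ∉ Y
          · obtain ⟨d1, hd1, hd1Y⟩ := c1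
            obtain ⟨d2, hd2, hd2Y⟩ := c2
            obtain ⟨d, hd, n1, n2, h3, h4⟩ := hB.con (Y ∩ X) inter_subset_right
              (csat_inter sY sX) ⟨d1, hd1, mem_inter.2 ⟨hd1Y, hBX _ hd1⟩⟩
              ⟨d2, hd2, fun h7 => hd2Y (mem_inter.1 h7).1⟩
            obtain ⟨k1, k2, k3, k4⟩ := hB.clo d hd n1 n2
            refine ⟨d, mem_union_right _ hd, hnee _ (hBX _ hd), (mem_inter.1 h3).1, fun h7 => ?_⟩
            exact h4 (mem_inter.2 ⟨h7, hBX _ k2⟩)
          · -- all darts of `B` in `Y`
            have hall : ∀ d ∈ B, G.pi d ∈ Y := fun d hd => by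
              by_contra h7
              exact c2 ⟨d, hd, h7⟩
            have hbX : G.pi b ∉ X := fun h7 =>
              hbY (hall b ((memA' b h7).1 hb))
            have hbA : b ∈ A := (memA'' b hbX).1 hb
            obtain ⟨d, hd, hde, h3, h4⟩ := hA.con (Y ∪ X) (union_subset hYv hX) (co_union sY)
              ⟨e1, m1.1, mem_union_right _ m1.2⟩
              ⟨b, hbA, fun h7 => (mem_union.1 h7).elim hbY hbX⟩
            refine ⟨d, mem_union_left _ hd, hde, ?_, fun h7 => h4 (mem_union_left _ h7)⟩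
            rcases mem_union.1 h3 with h7 | h7
            · exact h7
            · exact hall d (hAB d hd h7)
        · -- no dart of `B` in `Y`
          have hnone : ∀ d ∈ B, G.pi d ∉ Y := fun d hd h7 => c1 ⟨d, hd, h7⟩
          have haX : G.pi a ∉ X := fun h7 => hnone a ((memA' a h7).1 ha) haY
          have haA : a ∈ A := (memA'' a haX).1 ha
          obtain ⟨d, hd, hde, h3, h4⟩ := hA.con (Y \ X) (sdiff_subset.trans hYv)
            (co_sdiff hp sX hYv sY) ⟨a, haA, mem_sdiff.2 ⟨haY, haX⟩⟩
            ⟨e1, m1.1, fun h7 => (mem_sdiff.1 h7).2 m1.2⟩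
          refine ⟨d, mem_union_left _ hd, hde, (mem_sdiff.1 h3).1, fun h7 => ?_⟩
          by_cases h8 : G.pi (G.al d) ∈ X
          · exact hnone _ (hAB _ (hA.clo d hd hde).2.1 h8) h7
          · exact h4 (mem_sdiff.2 ⟨h7, h8⟩)
      · intro hn1
        obtain ⟨k1, k2⟩ := hA.nphi hn1
        constructor
        · intro h1
          have h3 : φ ∈ B := (mem_union.1 h1).resolve_left k1
          exact hφ ⟨hBX _ h3, (hBA φ h3 k1).2.2.1⟩
        · intro h1
          have h3 : G.al φ ∈ B := (mem_union.1 h1).resolve_left k2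
          have h4 := (hBA _ h3 k2).2.2.1
          rw [G.al_al φ mφ] at h4
          exact hφ ⟨h4, hBX _ h3⟩
    refine ⟨A ∪ B, hR, hkeep, ?_⟩
    -- values
    have valX : G.rv (A ∪ B) u X = 3 := by
      unfold rv
      rw [if_neg huX, add_zero]
      have e1' : G.sb X \ (A ∪ B) = (G.sb X \ {e1, e2} : Finset D) := by
        ext d
        rw [mem_sdiff, mem_sdiff]
        constructor
        · rintro ⟨h1, h3⟩
          refine ⟨h1, fun h4 => h3 ?_⟩
          rw [mem_insert, mem_singleton] at h4
          exact mem_union_left _ ((hin d).2 h4).1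
        · rintro ⟨h1, h3⟩
          refine ⟨h1, fun h4 => h3 ?_⟩
          rw [mem_sb] at h1
          rw [mem_insert, mem_singleton]
          by_contra h7
          have h8 : d ∉ A := fun h9 => h7 ((hin d).1 ⟨h9, h1.2.1⟩)
          have h9 := hBA d ((mem_union.1 h4).resolve_left h8) h8
          rcases h1.2.2 with h10 | h10
          · exact h9.1 h10
          · exact h10 h9.2.2.1
      have hs : ({e1, e2} : Finset D) ⊆ G.sb X := by
        intro d hd
        rw [mem_insert, mem_singleton] at hd
        have := (hin d).2 hd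
        exact hsb d this.1 this.2
      rw [e1', card_sdiff_of_subset hs, ← dg_sb, h5, card_pair hne]
    have valIn : ∀ Y ⊆ X, CSat cl Y → Odd Y.card → 3 ≤ G.rv (A ∪ B) u Y := by
      intro Y hY sY oY
      have h1 := hBv Y hY sY oY
      unfold rv
      have e1' : G.sb Y \ (A ∪ B) = G.sb Y \ B := by
        ext d
        rw [mem_sdiff, mem_sdiff]
        constructor
        · rintro ⟨h3, h4⟩
          exact ⟨h3, fun h7 => h4 (mem_union_right _ h7)⟩
        · rintro ⟨h3, h4⟩
          exact ⟨h3, fun h7 => h4 ((memA' d (hY (mem_sb.1 h3).2.1)).1 h7)⟩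
      rw [e1']
      omega
    have valOut : ∀ Y ⊆ G.vs, CSat (co cl X) Y → Odd Y.card → 3 ≤ G.rv (A ∪ B) u Y := by
      intro Y hY sY oY
      rw [rv_congr (A := A)]
      · exact hv Y hY sY oY
      · intro d hd
        rw [mem_union]
        constructor
        · rintro (h3 | h3)
          · exact h3
          · by_contra h4
            obtain ⟨k1, k2, k3, -⟩ := hBA d h3 h4
            rw [mem_sb] at hd
            have h7 := sY _ hd.2.1
            rw [co_in (hBX d h3)] at h7
            rcases hd.2.2 with h8 | h8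
            · exact k1 h8
            · exact h8 (h7 k3)
        · exact Or.inl
    intro Y hY sY oY
    rcases par Y oY with ⟨o1, o2⟩ | ⟨o1, o2⟩
    · have h1 := rv_sub (G := G) (A ∪ B) u Y X
      have h3 := valIn (Y ∩ X) inter_subset_right (csat_inter sY sX) o1
      have h4 := valOut (Y ∪ X) (union_subset hY hX) (co_union sY) o2
      omega
    · have h1 := rv_posi (hR.asym (Or.inl te)) u hY hX
      have h3 := valIn (X \ Y) sdiff_subset (csat_sdiff hp hX sX sY) o1
      have h4 := valOut (Y \ X) (sdiff_subset.trans hY) (co_sdiff hp sX hY sY) o2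
      omega
  · -- the route avoids `X`
    have hno : ∀ d ∈ A, G.pi d ∉ X := fun d hd h1 => hcross ⟨d, hd, h1⟩
    have hR : G.Rt cl G.vs T e φ A u := by
      refine ⟨hA.sub, hA.mem, hA.clo, ?_, hA.um, ?_, ?_, ?_, ?_, hA.nphi⟩
      · intro d hd hde
        have h1 := hA.nl d hd hde
        rwa [co_out (hno d hd)] at h1
      · obtain ⟨d, hd, hdu, hun⟩ := hA.land
        exact ⟨d, hd, hdu, fun d' hd' h1 => hun d' hd' (by rw [hcu]; exact h1)⟩
      · intro v hvv hvu
        by_cases h1 : v ∈ X
        · left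
          rw [card_eq_zero, filter_eq_empty_iff]
          exact fun d hd h3 => hno d hd (sX v h1 h3)
        · have h3 := hA.deg v hvv (by rw [hcu]; exact hvu)
          rwa [co_out h1] at h3
      · intro d hd h1
        have h4 := hA.off d hd h1
        rwa [hcu] at h4
      · intro Y hYv sY hin' hout'
        obtain ⟨a, ha, haY⟩ := hin'
        obtain ⟨b, hb, hbY⟩ := hout'
        obtain ⟨d, hd, hde, h3, h4⟩ := hA.con (Y ∪ X) (union_subset hYv hX) (co_union sY)
          ⟨a, ha, mem_union_left _ haY⟩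
          ⟨b, hb, fun h7 => (mem_union.1 h7).elim hbY (hno b hb)⟩
        exact ⟨d, hd, hde, (mem_union.1 h3).resolve_right (hno d hd),
          fun h7 => h4 (mem_union_left _ h7)⟩
    refine ⟨A, hR, fun d _ => Iff.rfl, ?_⟩
    have valIn : ∀ Y ⊆ X, G.rv A u Y = G.dg Y := by
      intro Y hY
      unfold rv
      rw [if_neg (fun h1 => huX (hY h1)), add_zero, dg_sb]
      congr 1
      rw [Finset.sdiff_eq_self_iff_disjoint, disjoint_left]
      exact fun d h1 h3 => hno d h3 (hY (mem_sb.1 h1).2.1)
    intro Y hY sY oY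
    have hx := valIn X Subset.rfl
    rcases par Y oY with ⟨o1, o2⟩ | ⟨o1, o2⟩
    · have h1 := rv_sub (G := G) A u Y X
      have h3 := L5 (Y ∩ X) inter_subset_right (csat_inter sY sX) o1
      have h4 := hv (Y ∪ X) (union_subset hY hX) (co_union sY) o2
      have h7 := valIn (Y ∩ X) inter_subset_right
      omega
    · have h1 := rv_posi (hR.asym (Or.inl te)) u hY hX
      have h3 := L5 (X \ Y) sdiff_subset (csat_sdiff hp hX sX sY) o1
      have h4 := hv (Y \ X) (sdiff_subset.trans hY) (co_sdiff hp sX hY sY) o2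
      have h7 := valIn (X \ Y) sdiff_subset
      omega

end JP.CG
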