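import Pool.Agent.Lib.P5.W2
import Pool.Agent.Lib.P5.Blk

/-! (S5), exit 2: the spine is not tight (MP_c95763_co, pentagon world). -/

set_option autoImplicit false

namespace JP.CG

open Finset Classical

variable {V D : Type*} {G : CG V D} {K : Finset V} {F : Finset D}

/-- a route crosses a saturated set without the end class evenly -/
private lemma x2_even {cl : V → Finset V} (hp : G.Part cl) {T : Finset V} {e φ : D}
    {A : Finset D} {u : V} (hA : G.Rt cl G.vs T e φ A u) {Z : Finset V} (hZ : Z ⊆ G.vs)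
    (sZ : CSat cl Z) (hu : u ∉ Z) (he : G.pi e ∉ Z) : Even (G.sb Z ∩ A).card := by
  have hcu : ∀ v ∈ Z, v ∉ cl u := by
    intro v hv hvu
    have h1 := hp.eq u hA.um.1 v hvu
    have h2 := sZ v hv
    rw [h1] at h2
    exact hu (h2 (hp.self u hA.um.1))
  have h1 : Even (A.filter fun d => G.pi d ∈ Z).card := by
    rw [card_eq_sum_card_fiberwise (f := fun d => cl (G.pi d)) (t := Z.image cl)
      (fun d hd => by
        rw [mem_coe, mem_filter] at hd
        exact mem_coe.2 (mem_image_of_mem cl hd.2))]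
    apply even_sum
    intro C hC
    obtain ⟨v, hv, rfl⟩ := mem_image.1 hC
    have h2 : ((A.filter fun d => G.pi d ∈ Z).filter fun d => cl (G.pi d) = cl v) =
        A.filter fun d => G.pi d ∈ cl v := by
      ext d
      rw [mem_filter, mem_filter, mem_filter]
      constructor
      · rintro ⟨⟨a1, a2⟩, a3⟩
        refine ⟨a1, ?_⟩
        rw [← a3]
        exact hp.self _ (hZ a2)
      · rintro ⟨a1, a2⟩
        exact ⟨⟨a1, sZ v hv a2⟩, hp.eq v (hZ hv) _ a2⟩
    rw [h2]
    rcases hA.deg v (hZ hv) (hcu v hv) with h3 | h3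
    · rw [h3]; exact Even.zero
    · rw [h3]; exact even_two
  have h2 : Even ((A.filter fun d => G.pi d ∈ Z ∧ G.pi (G.al d) ∈ Z)).card := by
    apply G.even_of_closed
    · intro d hd
      exact (hA.sub d (mem_filter.1 hd).1).1
    · intro d hd
      rw [mem_filter] at hd ⊢
      have hne : d ≠ e := fun hh => he (hh ▸ hd.2.1)
      have h3 := hA.clo d hd.1 hne
      rw [G.al_al d (hA.sub d hd.1).1]
      exact ⟨h3.2.1, hd.2.2, hd.2.1⟩
    · intro d hd
      rw [mem_filter] at hd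
      have hne : d ≠ e := fun hh => he (hh ▸ hd.2.1)
      exact (hA.clo d hd.1 hne).1
  have h3 : (G.sb Z ∩ A).card + (A.filter fun d => G.pi d ∈ Z ∧ G.pi (G.al d) ∈ Z).card =
      (A.filter fun d => G.pi d ∈ Z).card := by
    rw [← card_union_of_disjoint]
    · congr 1
      ext d
      rw [mem_union, mem_inter, mem_sb, mem_filter, mem_filter]
      constructor
      · rintro (⟨⟨-, a2, -⟩, a4⟩ | ⟨a1, a2, -⟩)
        · exact ⟨a4, a2⟩
        · exact ⟨a1, a2⟩
      · rintro ⟨a1, a2⟩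
        by_cases a3 : G.pi (G.al d) ∈ Z
        · exact Or.inr ⟨a1, a2, a3⟩
        · exact Or.inl ⟨⟨(hA.sub d a1).1, a2, Or.inr a3⟩, a1⟩
    · rw [disjoint_left]
      intro d hd hd'
      rw [mem_inter, mem_sb] at hd
      rw [mem_filter] at hd'
      have hne : d ≠ e := fun hh => he (hh ▸ hd.1.2.1)
      rcases hd.1.2.2 with h4 | h4
      · exact (hA.clo d hd.2 hne).1 h4
      · exact h4 hd'.2.2
  rw [← h3] at h1
  exact (Nat.even_add.1 h1).2 h2

/-- three live members of a star -/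
private lemma x2_three {A : Finset D} {u : V} {X : Finset V} {a b c : D} (ha : a ∈ G.sb X \ A)
    (hb : b ∈ G.sb X \ A) (hc : c ∈ G.sb X \ A) (hab : a ≠ b) (hac : a ≠ c) (hbc : b ≠ c) :
    3 ≤ G.rv A u X := by
  have h1 : ({a, b, c} : Finset D) ⊆ G.sb X \ A := by
    intro x hx
    rw [mem_insert, mem_insert, mem_singleton] at hx
    rcases hx with rfl | rfl | rfl
    · exact ha
    · exact hb
    · exact hc
  have h2 := card_le_card h1
  rw [card_eq_three.2 ⟨a, b, c, hab, hac, hbc, rfl⟩] at h2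
  unfold rv
  omega

/-- (S5), exit 2 -/
theorem PW.s5_exit2 (h : G.PW K F) {τ c c' : D} {p : ZMod 5 → V} {f l : ZMod 5 → D}
    (st : G.St K F τ c c' p f l) {Z : Finset V} (hZ : G.Blk K F τ p Z)
    (o4 : G.pi (G.al (l 4)) ∈ Z) (o3 : G.pi (G.al (l 3)) ∈ Z) (tZ : Disjoint Z (G.tg K F τ c'))
    (dZ : G.dg Z = 5) {A : Finset D} {u : V}
    (hA : G.Rt (G.nd K F (G.gd τ p)) G.vs (G.tg K F τ c') τ c' A u) (h2 : l 2 ∈ A)
    (hv : ∀ Y ⊆ G.vs, CSat (G.nd K F (G.gd τ p)) Y → Odd Y.card → 3 ≤ G.rv A u Y) :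
    G.Win K F := by
  have hc := h.cls
  have hp := st.pen
  have part := st.part h
  have pg : ∀ i, p i ∈ G.gd τ p := fun i => mem_insert_of_mem (mem_image_of_mem p (mem_univ i))
  have sg : G.pi τ ∈ G.gd τ p := mem_insert_self _ _
  have ngZ : ∀ v ∈ Z, v ∉ G.gd τ p := fun v hv hg => disjoint_left.1 hZ.dis hv hg
  have huZ : u ∉ Z := fun hu => disjoint_left.1 tZ hu hA.um.2
  have hτZ : G.pi τ ∉ Z := fun hh => ngZ _ hh sg
  refine h.exit2 st hA h2 (fun X hX hs ho => le_trans (by norm_num) (hv X hX hs ho)) ?_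
  intro X hX hsat ho hcase
  by_contra hlt
  have hlt' : G.rv A u X ≤ 2 := by omega
  -- the darts of the route at the gadget: `τ` and `l 2`
  have hgu : G.pi τ ∉ G.nd K F (G.gd τ p) u := by
    intro hh
    have h3 := part.eq u hA.um.1 _ hh
    have h4 : G.nd K F (G.gd τ p) (G.pi τ) = G.gd τ p := by
      unfold nd
      rw [if_pos sg]
    rw [h4] at h3
    have h5 : u ∈ G.gd τ p := by
      rw [h3]
      exact part.self u hA.um.1
    exact disjoint_left.1 (st.tg_sat h).2.2 hA.um.2 h5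
  have hgA : ∀ d ∈ A, G.pi d ∈ G.gd τ p → d = τ ∨ d = l 2 := by
    have h4 : G.nd K F (G.gd τ p) (G.pi τ) = G.gd τ p := by
      unfold nd
      rw [if_pos sg]
    have h3 := hA.deg (G.pi τ) (G.pi_mem τ st.mτ) hgu
    rw [h4] at h3
    have hτm : τ ∈ A.filter fun d => G.pi d ∈ G.gd τ p := mem_filter.2 ⟨hA.mem, sg⟩
    have h2m : l 2 ∈ A.filter fun d => G.pi d ∈ G.gd τ p :=
      mem_filter.2 ⟨h2, by rw [hp.lp]; exact pg 2⟩
    have hne : τ ≠ l 2 := fun hh => hp.l_tok 2 (by rw [← hh]; exact st.tτ)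
    have h5 : (A.filter fun d => G.pi d ∈ G.gd τ p).card = 2 := by
      rcases h3 with h3 | h3
      · rw [card_eq_zero] at h3
        rw [h3] at hτm
        exact absurd hτm (notMem_empty _)
      · exact h3
    have h6 : ({τ, l 2} : Finset D) = A.filter fun d => G.pi d ∈ G.gd τ p := by
      apply eq_of_subset_of_card_le
      · intro x hx
        rw [mem_insert, mem_singleton] at hx
        rcases hx with rfl | rfl
        · exact hτm
        · exact h2m
      · rw [h5, card_pair hne]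
    intro d hd hg
    have h7 : d ∈ ({τ, l 2} : Finset D) := by
      rw [h6]
      exact mem_filter.2 ⟨hd, hg⟩
    rw [mem_insert, mem_singleton] at h7
    exact h7
  have asym := hA.asym (Or.inl st.tτ)
  -- darts between the gadget and the outside which are live
  have live : ∀ d ∈ G.ds, G.pi d ∈ G.gd τ p → d ≠ τ → d ≠ l 2 → d ∉ A ∧ G.al d ∉ A := by
    intro d hd hg n1 n2
    have h3 : d ∉ A := fun hh => by
      rcases hgA d hh hg with h4 | h4
      · exact n1 h4
      · exact n2 h4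
    refine ⟨h3, fun hh => ?_⟩
    by_cases h4 : G.al d = d
    · exact h3 (h4 ▸ hh)
    · exact h3 ((asym d hd h4 (G.pi_mem d hd) (G.pi_mem _ (G.al_mem d hd))).1 hh)
  have nτ : ∀ i, l i ≠ τ := fun i hh => hp.l_tok i (by rw [hh]; exact st.tτ)
  have nfτ : ∀ i, f i ≠ τ := fun i hh => by
    have := hc.Ftok _ (hp.fF i)
    rw [hh] at this
    exact this st.tτ
  have nfaτ : ∀ i, G.al (f i) ≠ τ := fun i hh => by
    have := hc.Ftok _ (hc.Fal _ (hp.fF i))
    rw [hh] at this
    exact this st.tτ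
  have nfl : ∀ i j, f i ≠ l j := fun i j hh => hp.lF j (hh ▸ hp.fF i)
  have nfal : ∀ i j, G.al (f i) ≠ l j := fun i j hh => hp.lF j (hh ▸ hc.Fal _ (hp.fF i))
  have L : ∀ i, i ≠ 2 → l i ∉ A ∧ G.al (l i) ∉ A := fun i hi =>
    live (l i) (hp.lm i) (by rw [hp.lp]; exact pg i) (nτ i) (fun hh => hi (hp.l_inj hh))
  have Fl : ∀ i, f i ∉ A ∧ G.al (f i) ∉ A := fun i =>
    live (f i) (hp.fm hc i) (by rw [hp.fp]; exact pg i) (nfτ i) (nfl i 2)
  -- parts of `Z`
  have hZpar := x2_even part hA hZ.sub hZ.sat huZ hτZ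
  have hZrv : G.rv A u Z + (G.sb Z ∩ A).card = 5 := by
    have h3 := card_sdiff_add_card_inter (G.sb Z) A
    unfold rv
    rw [if_neg huZ, ← dZ, dg_sb]
    omega
  have hmin : ∀ Y ⊆ Z, CSat (G.nd K F (G.gd τ p)) Y → Odd Y.card → G.rv A u Z ≤ G.rv A u Y := by
    intro Y hY sY oY
    have h3 := hv Y (hY.trans hZ.sub) sY oY
    by_cases hv' : ∃ d ∈ A, G.pi d ∈ Z
    · obtain ⟨d, hd, hdZ, hdo, -⟩ : ∃ d ∈ A, d ≠ τ ∧ G.pi d ∈ Z ∧ G.pi (G.al d) ∉ Z :=
        hA.con Z hZ.sub hZ.sat hv' ⟨τ, hA.mem, hτZ⟩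
      have h4 : 0 < (G.sb Z ∩ A).card := by
        obtain ⟨d, hd, hne, hdZ, hdo⟩ := hA.con Z hZ.sub hZ.sat hv' ⟨τ, hA.mem, hτZ⟩
        exact card_pos.2 ⟨d, mem_inter.2 ⟨mem_sb.2 ⟨(hA.sub d hd).1, hdZ, Or.inr hdo⟩, hd⟩⟩
      obtain ⟨k, hk⟩ := hZpar
      omega
    · push Not at hv'
      have h4 : G.rv A u Y = G.dg Y := by
        unfold rv
        rw [if_neg (fun hh => huZ (hY hh)), dg_sb, add_zero]
        congr 1
        rw [Finset.sdiff_eq_self_iff_disjoint, disjoint_left]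
        intro d hd hdA
        exact hv' d hdA (hY (mem_sb.1 hd).2.1)
      have h5 := st.five h (hY.trans hZ.sub) sY
        (disjoint_of_subset_left hY hZ.dis) (disjoint_of_subset_left hY tZ) oY
      omega
  -- saturation
  have satI : CSat (G.nd K F (G.gd τ p)) (X ∩ Z) := by
    intro v hv'
    rw [mem_inter] at hv'
    exact subset_inter (hsat v hv'.1 (ngZ v hv'.2)) (hZ.sat v hv'.2)
  have satD : CSat (G.nd K F (G.gd τ p)) (Z \ X) := by
    intro v hv' w hw
    rw [mem_sdiff] at hv' ⊢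
    refine ⟨hZ.sat v hv'.1 hw, fun hwX => hv'.2 ?_⟩
    have h3 := part.eq v (hZ.sub hv'.1) w hw
    have h4 := hsat w hwX (ngZ w (hZ.sat v hv'.1 hw))
    rw [h3] at h4
    exact h4 (part.self v (hZ.sub hv'.1))
  have hZg : ∀ v, v ∈ G.gd τ p → v ∉ Z := fun v hg hz => ngZ v hz hg
  -- membership of gadget vertices in `X`
  have hgX : ∀ v ∈ G.gd τ p, (v ∈ X ↔ v ∈ X ∩ G.gd τ p) := fun v hg =>
    ⟨fun hh => mem_inter.2 ⟨hh, hg⟩, fun hh => (mem_inter.1 hh).1⟩
  have pne : ∀ i j : ZMod 5, i ≠ j → p i ≠ p j := fun i j hij hh => hij (hp.inj hh)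
  have sne : ∀ i, G.pi τ ≠ p i := st.s_ne hc
  have e01 : (0 : ZMod 5) + 1 = 1 := by decide
  have e34 : (3 : ZMod 5) + 1 = 4 := by decide
  rcases hcase with hA1 | hB1
  · -- `p 1, p 2, p 3` in `X`
    have m1 : p 1 ∈ X := by rw [hgX _ (pg 1), hA1]; simp
    have m3 : p 3 ∈ X := by rw [hgX _ (pg 3), hA1]; simp
    have m0 : p 0 ∉ X := by
      rw [hgX _ (pg 0), hA1]
      simp [pne 0 1 (by decide), pne 0 2 (by decide), pne 0 3 (by decide)]
    have m4 : p 4 ∉ X := by
      rw [hgX _ (pg 4), hA1]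
      simp [pne 4 1 (by decide), pne 4 2 (by decide), pne 4 3 (by decide)]
    by_cases hpar : Odd (X ∩ Z).card
    · have h3 := rv_sub (G := G) A u X Z
      have h4 := hmin _ inter_subset_right satI hpar
      have h5 : 3 ≤ G.rv A u (X ∪ Z) := by
        refine x2_three (a := G.al (f 0)) (b := f 3) (c := G.al (l 4)) ?_ ?_ ?_ ?_ ?_ ?_
        · refine mem_sdiff.2 ⟨mem_sb.2 ⟨G.al_mem _ (hp.fm hc 0), ?_, Or.inr ?_⟩, (Fl 0).2⟩
          · rw [hp.fa, e01]
            exact mem_union_left _ m1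
          · rw [G.al_al _ (hp.fm hc 0), hp.fp, mem_union, not_or]
            exact ⟨m0, hZg _ (pg 0)⟩
        · refine mem_sdiff.2 ⟨mem_sb.2 ⟨hp.fm hc 3, ?_, Or.inr ?_⟩, (Fl 3).1⟩
          · rw [hp.fp]
            exact mem_union_left _ m3
          · rw [hp.fa, e34, mem_union, not_or]
            exact ⟨m4, hZg _ (pg 4)⟩
        · refine mem_sdiff.2 ⟨mem_sb.2 ⟨G.al_mem _ (hp.lm 4), mem_union_right _ o4, Or.inr ?_⟩,
            (L 4 (by decide)).2⟩
          rw [G.al_al _ (hp.lm 4), hp.lp, mem_union, not_or]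
          exact ⟨m4, hZg _ (pg 4)⟩
        · intro hh
          have := congrArg G.pi hh
          rw [hp.fa, hp.fp, e01] at this
          exact pne 1 3 (by decide) this
        · intro hh
          have := congrArg G.pi hh
          rw [hp.fa, e01] at this
          exact hZg _ (pg 1) (this ▸ o4)
        · intro hh
          have := congrArg G.pi hh
          rw [hp.fp] at this
          exact hZg _ (pg 3) (this ▸ o4)
      omega
    · rw [Nat.not_odd_iff_even] at hpar
      have oD : Odd (Z \ X).card := by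
        have h3 := card_sdiff_add_card_inter Z X
        rw [inter_comm] at h3
        have h4 := hZ.odd
        rw [← h3] at h4
        exact (Nat.odd_add.1 h4).2 hpar
      have h3 := rv_posi asym u hX hZ.sub
      have h4 := hmin _ sdiff_subset satD oD
      have h5 : 3 ≤ G.rv A u (X \ Z) := by
        refine x2_three (a := G.al (f 0)) (b := f 3) (c := l 3) ?_ ?_ ?_ ?_ ?_ ?_
        · refine mem_sdiff.2 ⟨mem_sb.2 ⟨G.al_mem _ (hp.fm hc 0), ?_, Or.inr ?_⟩, (Fl 0).2⟩
          · rw [hp.fa, e01]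
            exact mem_sdiff.2 ⟨m1, hZg _ (pg 1)⟩
          · rw [G.al_al _ (hp.fm hc 0), hp.fp, mem_sdiff, not_and]
            exact fun hh => absurd hh m0
        · refine mem_sdiff.2 ⟨mem_sb.2 ⟨hp.fm hc 3, ?_, Or.inr ?_⟩, (Fl 3).1⟩
          · rw [hp.fp]
            exact mem_sdiff.2 ⟨m3, hZg _ (pg 3)⟩
          · rw [hp.fa, e34, mem_sdiff, not_and]
            exact fun hh => absurd hh m4
        · refine mem_sdiff.2 ⟨mem_sb.2 ⟨hp.lm 3, ?_, Or.inr ?_⟩, (L 3 (by decide)).1⟩
          · rw [hp.lp]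
            exact mem_sdiff.2 ⟨m3, hZg _ (pg 3)⟩
          · rw [mem_sdiff, not_and, not_not]
            exact fun _ => o3
        · intro hh
          have := congrArg G.pi hh
          rw [hp.fa, hp.fp, e01] at this
          exact pne 1 3 (by decide) this
        · exact nfal 0 3
        · exact nfl 3 3
      omega
  · -- `p 4, p 0, s` in `X`
    have m0 : p 0 ∈ X := by rw [hgX _ (pg 0), hB1]; simp
    have m4 : p 4 ∈ X := by rw [hgX _ (pg 4), hB1]; simp
    have m1 : p 1 ∉ X := by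
      rw [hgX _ (pg 1), hB1]
      simp [pne 1 4 (by decide), pne 1 0 (by decide), (sne 1).symm]
    have m3 : p 3 ∉ X := by
      rw [hgX _ (pg 3), hB1]
      simp [pne 3 4 (by decide), pne 3 0 (by decide), (sne 3).symm]
    by_cases hpar : Odd (X ∩ Z).card
    · have h3 := rv_sub (G := G) A u X Z
      have h4 := hmin _ inter_subset_right satI hpar
      have h5 : 3 ≤ G.rv A u (X ∪ Z) := by
        refine x2_three (a := f 0) (b := G.al (f 3)) (c := G.al (l 3)) ?_ ?_ ?_ ?_ ?_ ?_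
        · refine mem_sdiff.2 ⟨mem_sb.2 ⟨hp.fm hc 0, ?_, Or.inr ?_⟩, (Fl 0).1⟩
          · rw [hp.fp]
            exact mem_union_left _ m0
          · rw [hp.fa, e01, mem_union, not_or]
            exact ⟨m1, hZg _ (pg 1)⟩
        · refine mem_sdiff.2 ⟨mem_sb.2 ⟨G.al_mem _ (hp.fm hc 3), ?_, Or.inr ?_⟩, (Fl 3).2⟩
          · rw [hp.fa, e34]
            exact mem_union_left _ m4
          · rw [G.al_al _ (hp.fm hc 3), hp.fp, mem_union, not_or]
            exact ⟨m3, hZg _ (pg 3)⟩
        · refine mem_sdiff.2 ⟨mem_sb.2 ⟨G.al_mem _ (hp.lm 3), mem_union_right _ o3, Or.inr ?_⟩,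
            (L 3 (by decide)).2⟩
          rw [G.al_al _ (hp.lm 3), hp.lp, mem_union, not_or]
          exact ⟨m3, hZg _ (pg 3)⟩
        · intro hh
          have := congrArg G.pi hh
          rw [hp.fa, hp.fp, e34] at this
          exact pne 0 4 (by decide) this
        · intro hh
          have := congrArg G.pi hh
          rw [hp.fp] at this
          exact hZg _ (pg 0) (this ▸ o3)
        · intro hh
          have := congrArg G.pi hh
          rw [hp.fa, e34] at this
          exact hZg _ (pg 4) (this ▸ o3)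
      omega
    · rw [Nat.not_odd_iff_even] at hpar
      have oD : Odd (Z \ X).card := by
        have h3 := card_sdiff_add_card_inter Z X
        rw [inter_comm] at h3
        have h4 := hZ.odd
        rw [← h3] at h4
        exact (Nat.odd_add.1 h4).2 hpar
      have h3 := rv_posi asym u hX hZ.sub
      have h4 := hmin _ sdiff_subset satD oD
      have h5 : 3 ≤ G.rv A u (X \ Z) := by
        refine x2_three (a := f 0) (b := G.al (f 3)) (c := l 4) ?_ ?_ ?_ ?_ ?_ ?_
        · refine mem_sdiff.2 ⟨mem_sb.2 ⟨hp.fm hc 0, ?_, Or.inr ?_⟩, (Fl 0).1⟩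
          · rw [hp.fp]
            exact mem_sdiff.2 ⟨m0, hZg _ (pg 0)⟩
          · rw [hp.fa, e01, mem_sdiff, not_and]
            exact fun hh => absurd hh m1
        · refine mem_sdiff.2 ⟨mem_sb.2 ⟨G.al_mem _ (hp.fm hc 3), ?_, Or.inr ?_⟩, (Fl 3).2⟩
          · rw [hp.fa, e34]
            exact mem_sdiff.2 ⟨m4, hZg _ (pg 4)⟩
          · rw [G.al_al _ (hp.fm hc 3), hp.fp, mem_sdiff, not_and]
            exact fun hh => absurd hh m3
        · refine mem_sdiff.2 ⟨mem_sb.2 ⟨hp.lm 4, ?_, Or.inr ?_⟩, (L 4 (by decide)).1⟩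
          · rw [hp.lp]
            exact mem_sdiff.2 ⟨m4, hZg _ (pg 4)⟩
          · rw [mem_sdiff, not_and, not_not]
            exact fun _ => o4
        · intro hh
          have := congrArg G.pi hh
          rw [hp.fa, hp.fp, e34] at this
          exact pne 0 4 (by decide) this
        · exact nfl 0 4
        · exact nfal 3 4
      omega

end JP.CG
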