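import Pool.Agent.Lib.JP.Two
import Pool.Agent.Lib.JP.Tok
import Pool.Agent.Lib.JP.EvenSub

/-! From the main theorem in the pentagon world to 2-factors of cubic graphs, with at most two edges
which are prescribed in the second 2-factor. -/

set_option autoImplicit false

namespace JP

open Finset Classical

section

variable {V : Type} [Fintype V] (G : SimpleGraph V)
  (hc : ∀ v : V, (G.neighborSet v).ncard = 3)

/-- the complement of a perfect matching -/
private def compl2 (M : Finset (V × V)) (hM : (ofSG G hc).IsPM M) : SimpleGraph V where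
  Adj v w := G.Adj v w ∧ (v, w) ∉ M
  symm := ⟨fun v w h => ⟨h.1.symm, fun hw => h.2 (hM.closed (w, v) hw)⟩⟩
  loopless := ⟨fun v h => G.loopless.irrefl v h.1⟩

private lemma compl2_le (M : Finset (V × V)) (hM : (ofSG G hc).IsPM M) :
    compl2 G hc M hM ≤ G := fun _ _ h => h.1

private lemma compl2_card (M : Finset (V × V))
    (hM : (ofSG G hc).IsPM M) (v : V) : ((compl2 G hc M hM).neighborSet v).ncard = 2 := by
  obtain ⟨d, hd⟩ := Finset.card_eq_one.1 (hM.one v (Finset.mem_univ v))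
  have hd1 : d ∈ M ∧ d.1 = v := by
    have : d ∈ M.filter fun d => (ofSG G hc).pi d = v := by rw [hd]; simp
    rw [Finset.mem_filter] at this
    exact this
  obtain ⟨a, w⟩ := d
  obtain ⟨hm, rfl⟩ := hd1
  have hadj : G.Adj a w := by
    have := hM.sub hm
    simpa [ofSG] using this
  have hset : (compl2 G hc M hM).neighborSet a = G.neighborSet a \ {w} := by
    ext x
    simp only [SimpleGraph.mem_neighborSet, Set.mem_sdiff, Set.mem_singleton_iff]
    constructor
    · rintro ⟨h1, h2⟩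
      refine ⟨h1, ?_⟩
      rintro rfl
      exact h2 hm
    · rintro ⟨h1, h2⟩
      refine ⟨h1, fun h3 => h2 ?_⟩
      have : (a, x) ∈ M.filter fun d => (ofSG G hc).pi d = a := by
        rw [Finset.mem_filter]
        exact ⟨h3, rfl⟩
      rw [hd, Finset.mem_singleton] at this
      exact (Prod.ext_iff.1 this).2
  rw [hset, Set.ncard_sdiff_singleton_of_mem (show w ∈ G.neighborSet a from hadj), hc]

private lemma filt_inst {α : Type*} {s : Finset α} {p : α → Prop} (i j : DecidablePred p) :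
    @Finset.filter α p i s = @Finset.filter α p j s := by
  have h : i = j := Subsingleton.elim i j
  subst h
  rfl

/-- the darts of the edges of `G` outside `F` -/
private noncomputable def mt (F : SimpleGraph V) : Finset (V × V) :=
  univ.filter fun d => G.Adj d.1 d.2 ∧ ¬ F.Adj d.1 d.2

private lemma mem_mt {F : SimpleGraph V} {d : V × V} :
    d ∈ mt G F ↔ G.Adj d.1 d.2 ∧ ¬ F.Adj d.1 d.2 := by
  unfold mt
  rw [mem_filter]
  exact ⟨fun h => h.2, fun h => ⟨mem_univ _, h⟩⟩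

private lemma mt_pm {F : SimpleGraph V} (hF : F ≤ G)
    (hF2 : ∀ v : V, (F.neighborSet v).ncard = 2) : (ofSG G hc).IsPM (mt G F) := by
  refine ⟨?_, ?_, ?_, ?_⟩
  · intro d hd
    rw [ofSG_mem_ds]
    exact ((mem_mt G).1 hd).1
  · intro d hd
    rw [mem_mt] at hd ⊢
    exact ⟨hd.1.symm, fun h => hd.2 h.symm⟩
  · intro d hd h
    have h1 := ((mem_mt G).1 hd).1
    have h4 : d.2 = d.1 := congrArg Prod.fst (h : d.swap = d)
    rw [h4] at h1
    exact G.loopless.irrefl _ h1
  · intro v _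
    have h1 : ((mt G F).filter fun p => (ofSG G hc).pi p = v) =
        (univ.filter fun w => G.Adj v w ∧ ¬ F.Adj v w).image fun w => (v, w) := by
      ext ⟨a, b⟩
      rw [mem_filter, mem_mt]
      simp only [mem_filter, mem_univ, true_and, mem_image, Prod.mk.injEq]
      constructor
      · rintro ⟨h, e⟩
        have e' : a = v := e
        subst e'
        exact ⟨b, h, rfl, rfl⟩
      · rintro ⟨w, h, rfl, rfl⟩
        exact ⟨h, rfl⟩
    rw [h1, card_image_of_injective _ (fun a b h => (Prod.mk.injEq _ _ _ _ ▸ h).2)]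
    have h2 : ((univ.filter fun w => G.Adj v w ∧ ¬ F.Adj v w : Finset V) : Set V) =
        G.neighborSet v \ F.neighborSet v := by
      ext w
      simp
    have h3 : F.neighborSet v ⊆ G.neighborSet v := fun w hw => hF hw
    rw [← Set.ncard_coe_finset, h2, Set.ncard_sdiff h3 (Set.toFinite _), hc, hF2]

private lemma mt_sm {F : SimpleGraph V} (hF : F ≤ G) {K0 : Finset V}
    (h5 : ∀ v : V, v ∉ K0 → {w | F.Reachable v w}.ncard ≤ 5) (E : Finset (V × V))
    (hE : ∀ d, d ∈ E ↔ d ∈ (ofSG G hc).ds ∧ d ∉ mt G F) :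
    (ofSG G hc).Sm K0 E := by
  have hmem : ∀ d : V × V, d ∈ E ↔ F.Adj d.1 d.2 := by
    intro d
    rw [hE, ofSG_mem_ds, mem_mt]
    constructor
    · rintro ⟨h1, h2⟩
      by_contra h
      exact h2 ⟨h1, h⟩
    · intro h
      exact ⟨hF h, fun h2 => h2.2 h⟩
  intro Z hZ v hv
  have hcl : ∀ w : V, F.Reachable v w → w ∈ Z := by
    intro w hw
    by_contra hn
    obtain ⟨q⟩ := hw
    obtain ⟨d, -, hd1, hd2⟩ := q.exists_boundary_dart (Z : Set V) (by exact_mod_cast hv)
      (by exact_mod_cast hn)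
    have h1 := hZ.clo (d.fst, d.snd) ((hmem _).2 d.adj) (by exact_mod_cast hd1)
    exact hd2 (by exact_mod_cast h1)
  have hv0 : v ∉ K0 := hZ.dis v hv
  refine ⟨univ.filter fun w => F.Reachable v w, ?_, ?_, ?_, ?_⟩
  · intro w hw
    exact hcl w (mem_filter.1 hw).2
  · refine ⟨fun w hw => hZ.sub (hcl w (mem_filter.1 hw).2),
      fun w hw => hZ.dis w (hcl w (mem_filter.1 hw).2), ?_⟩
    intro d hd hdw
    have h1 : F.Reachable v d.1 := (mem_filter.1 hdw).2
    refine mem_filter.2 ⟨mem_univ _, ?_⟩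
    exact h1.trans ((hmem d).1 hd).reachable
  · exact mem_filter.2 ⟨mem_univ _, SimpleGraph.Reachable.refl _⟩
  · refine le_trans (le_of_eq ?_) (h5 v hv0)
    rw [← Set.ncard_coe_finset]
    congr 1
    ext w
    simp

private lemma mt_three {F : SimpleGraph V} (hF : F ≤ G)
    (hF2 : ∀ v : V, (F.neighborSet v).ncard = 2)
    (hcut : ∀ X : Set V, {e : V × V | e.1 ∈ X ∧ e.2 ∉ X ∧ G.Adj e.1 e.2}.ncard = 3 →
      ∃ v ∈ X, ∃ w, w ∉ X ∧ F.Adj v w) (i : DecidablePred fun d : V × V => d ∈ mt G F) :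
    ∀ X ⊆ (ofSG G hc).vs, Odd X.card → ((ofSG G hc).bd X).card = 3 →
      (@Finset.filter _ (fun d => d ∈ mt G F) i ((ofSG G hc).bd X)).card = 1 := by
  intro X hX ho h3
  have hpm := mt_pm G hc hF hF2
  have hpar := (hpm.parity hX).2 ho
  rw [filt_inst _ i] at hpar
  have hset : {e : V × V | e.1 ∈ (X : Set V) ∧ e.2 ∉ (X : Set V) ∧ G.Adj e.1 e.2} =
      (((ofSG G hc).bd X : Finset (V × V)) : Set (V × V)) := by
    ext e
    rw [mem_coe, ofSG_mem_bd]
    simp only [Set.mem_ofPred_eq, mem_coe]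
    tauto
  obtain ⟨v, hv, w, hw, hvw⟩ := hcut X (by rw [hset, Set.ncard_coe_finset]; exact h3)
  have hlt : (@Finset.filter _ (fun d => d ∈ mt G F) i ((ofSG G hc).bd X)).card < 3 := by
    rw [← h3]
    apply card_lt_card
    refine ⟨filter_subset _ _, fun h => ?_⟩
    have h1 : (v, w) ∈ (ofSG G hc).bd X := by
      rw [ofSG_mem_bd]
      exact ⟨hF hvw, by exact_mod_cast hv, by exact_mod_cast hw⟩
    exact ((mem_mt G).1 (mem_filter.1 (h h1)).2).2 hvw
  obtain ⟨k, hk⟩ := hpar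
  omega

end

/-- the main theorem applied to a 2-factor whose complement `M1` contains no odd cut of size 3; `B`
is a set of at most two edges which the second perfect matching has to avoid; `K0` is a component of
the union of the 2-factor and `B` -/
lemma two_coreK {V : Type} [Fintype V] {D : Type} (G : CG V D) (huniv : G.vs = univ)
    (heven : Even G.vs.card) (htk : G.tk G.vs = ∅) (hb : G.B0)
    (hmain : ∀ (G : CG V D) (K : Finset V) (F : Finset D), G.Inst K F → ∃ M, G.Good K F M)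
    {M1 : Finset D} (hM1 : G.IsPM M1)
    (h3 : ∀ X ⊆ G.vs, Odd X.card → (G.bd X).card = 3 →
      ((G.bd X).filter fun d => d ∈ M1).card = 1) (B : Finset D) (hBa : ∀ d ∈ B, G.al d ∈ B)
    (hBd : B ⊆ G.ds) (hBc : B.card ≤ 4) (K0 : Finset V) (hBK : ∀ d ∈ B, G.pi d ∈ K0)
    (hcl : ∀ Z : Finset V, (∀ d ∈ G.ds, (d ∉ M1 ∨ d ∈ B) → G.pi d ∈ Z → G.pi (G.al d) ∈ Z) →
      K0 ⊆ Z ∨ ∀ v ∈ Z, v ∉ K0)
    (hsm : G.Sm K0 (G.ds \ M1)) :
    ∃ M2 : Finset D, G.IsPM M2 ∧ (∀ d ∈ B, d ∉ M2) ∧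
      ∀ Z : Finset V, Odd Z.card → ∃ d ∈ G.bd Z, ¬ (d ∈ M1 ∧ d ∈ M2) := by
  have hsub : ∀ Z : Finset V, Z ⊆ G.vs := fun Z => by rw [huniv]; exact subset_univ _
  have hnotok : ∀ d ∈ G.ds, G.al d ≠ d := by
    intro d hd h
    have : d ∈ G.tk G.vs := (G.mem_tk).2 ⟨hd, G.pi_mem d hd, h⟩
    rw [htk] at this
    exact absurd this (notMem_empty _)
  have htkZ : ∀ Z : Finset V, G.tk Z = ∅ := by
    intro Z
    rw [eq_empty_iff_forall_notMem]
    intro d hd
    obtain ⟨h1, _, h2⟩ := (G.mem_tk).1 hd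
    exact hnotok d h1 h2
  have hsubM : ∀ Z : Finset V, G.Adm K0 (G.ds \ M1) Z → G.bd Z ⊆ M1 := by
    intro Z hZ d hd
    by_contra hdM
    obtain ⟨h1, h2, h3'⟩ := (G.mem_bd).1 hd
    exact h3' (hZ.clo d (mem_sdiff.2 ⟨h1, hdM⟩) h2)
  have hinst : G.Inst K0 (G.ds \ M1) := by
    refine ⟨heven, ?_, hb, ?_, ?_, hsm⟩
    · rw [htk]; simp
    · refine ⟨hsub _, sdiff_subset, ?_, ?_, ?_, ?_⟩
      · intro d hd
        obtain ⟨h1, h2⟩ := mem_sdiff.1 hd
        refine mem_sdiff.2 ⟨G.al_mem d h1, fun h => h2 ?_⟩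
        have := hM1.closed _ h
        rwa [G.al_al d h1] at this
      · intro d hd
        exact hnotok d (mem_sdiff.1 hd).1
      · intro v hv _
        have e1 : ((G.ds \ M1).filter fun d => G.pi d = v) =
            (G.ds.filter fun d => G.pi d = v) \ (M1.filter fun d => G.pi d = v) := by
          ext d
          simp only [mem_filter, mem_sdiff]
          tauto
        rw [e1, card_sdiff_of_subset (filter_subset_filter _ hM1.sub), G.cubic v hv, hM1.one v hv]
      · intro d hd h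
        exact absurd h (hnotok d hd)
    · intro Z hZ hodd
      have hs := hsubM Z hZ
      have e0 : G.dg Z = (G.bd Z).card := by
        unfold CG.dg
        rw [htkZ Z]
        simp
      have h1 : 3 ≤ (G.bd Z).card := by
        rw [← e0]; exact hb Z (hsub Z) hodd
      have h2 : Odd (G.bd Z).card := by
        rw [← e0]; exact (G.dg_parity (hsub Z)).2 hodd
      have h4 : (G.bd Z).card ≠ 3 := by
        intro h
        have h5 := h3 Z (hsub Z) hodd h
        rw [filter_true_of_mem (fun d hd => hs hd), h] at h5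
        omega
      obtain ⟨k, hk⟩ := h2
      omega
  have hinst' := CG.tok_cut G hinst hBa hBd (fun d hd => hnotok d (hBd hd)) (by
    rw [htk, card_empty, zero_add]
    exact hBc)
  obtain ⟨M2, hM2⟩ := hmain _ _ _ hinst'
  obtain ⟨hpm, hBM⟩ := (CG.cutS_pm hBa).1 hM2.pm
  refine ⟨M2, hpm, hBM, ?_⟩
  -- it is enough to exclude closed odd sets disjoint from `K0`
  have main : ∀ Z : Finset V, Odd Z.card → (∀ v ∈ Z, v ∉ K0) →
      (∀ d ∈ G.bd Z, d ∈ M1 ∧ d ∈ M2) → False := by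
    intro Z hodd hK hZ1
    have hadm : G.Adm K0 (G.ds \ M1) Z := by
      refine ⟨hsub Z, hK, ?_⟩
      intro d hd hp
      obtain ⟨h1, h2⟩ := mem_sdiff.1 hd
      by_contra h
      exact h2 (hZ1 d ((G.mem_bd).2 ⟨h1, hp, h⟩)).1
    obtain ⟨d, hd, hdM⟩ := hM2.hit Z ((CG.cutS_adm hBa hBd hinst.cls).2
      ⟨hadm, fun d hd hp => hK _ hp (hBK d hd)⟩) hodd
    rw [CG.cutS_bd hBa, mem_sdiff] at hd
    exact hdM (hZ1 d hd.1).2
  intro Z hodd
  by_contra hcon
  push Not at hcon
  have hZ1 : ∀ d ∈ G.bd Z, d ∈ M1 ∧ d ∈ M2 := hcon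
  have hclo : ∀ d ∈ G.ds, (d ∉ M1 ∨ d ∈ B) → G.pi d ∈ Z → G.pi (G.al d) ∈ Z := by
    intro d hd h1 h2
    by_contra h4
    have h5 := hZ1 d ((G.mem_bd).2 ⟨hd, h2, h4⟩)
    rcases h1 with h1 | h1
    · exact h1 h5.1
    · exact hBM d h1 h5.2
  rcases hcl Z hclo with hv | hv
  · -- use the complement
    have hcard : (G.vs \ Z).card + Z.card = G.vs.card := card_sdiff_add_card_eq_card (hsub Z)
    have hoddc : Odd (G.vs \ Z).card := by
      obtain ⟨a, ha⟩ := hodd
      obtain ⟨b, hb'⟩ := heven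
      rw [Nat.odd_iff]
      omega
    refine main (G.vs \ Z) hoddc (fun v hvv h => (mem_sdiff.1 hvv).2 (hv h)) ?_
    intro d hd
    obtain ⟨h1, h2, h6⟩ := (G.mem_bd).1 hd
    have h7 : G.pi (G.al d) ∈ Z := by
      by_contra h8
      exact h6 (mem_sdiff.2 ⟨G.pi_mem _ (G.al_mem d h1), h8⟩)
    have h8 : G.al d ∈ G.bd Z := by
      refine (G.mem_bd).2 ⟨G.al_mem d h1, h7, ?_⟩
      rw [G.al_al d h1]
      exact (mem_sdiff.1 h2).2
    have h9 := hZ1 _ h8
    have h10 := hM1.closed _ h9.1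
    have h11 := hpm.closed _ h9.2
    rw [G.al_al d h1] at h10 h11
    exact ⟨h10, h11⟩
  · exact main Z hodd hv hZ1

/-- **the pentagon theorem for cubic graphs**, given the main theorem -/
theorem finalA (hmain : ∀ (V D : Type) (G : CG V D) (K : Finset V) (F : Finset D),
      G.Inst K F → ∃ M, G.Good K F M) :
    ∀ (V : Type) [Fintype V] (G F A : SimpleGraph V),
      (∀ v : V, (G.neighborSet v).ncard = 3) →
      (∀ v w : V, G.Adj v w → (G.deleteEdges {s(v, w)}).Reachable v w) →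
      F ≤ G → (∀ v : V, (F.neighborSet v).ncard = 2) →
      (∀ X : Set V, {e : V × V | e.1 ∈ X ∧ e.2 ∉ X ∧ G.Adj e.1 e.2}.ncard = 3 →
        ∃ v ∈ X, ∃ w, w ∉ X ∧ F.Adj v w) →
      A ≤ G → A.edgeSet.ncard ≤ 2 →
      ∀ v₀ : V, (∀ v w : V, A.Adj v w → (F ⊔ A).Reachable v₀ v) →
      (∀ v : V, ¬ (F ⊔ A).Reachable v₀ v → {w | F.Reachable v w}.ncard ≤ 5) →
      ∃ F₂ C : SimpleGraph V,
        F₂ ≤ G ∧ C ≤ G ∧ A ≤ F₂ ∧
        (∀ v : V, (F₂.neighborSet v).ncard = 2) ∧
        (∀ v : V, Even ((C.neighborSet v).ncard)) ∧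
        F ⊔ F₂ ⊔ C = G := by
  intro V _ G F A hc hb hF hF2 hcut hA hA2 v0 hAv h5
  have h1 := mt_pm G hc hF hF2
  -- the darts of `A`
  obtain ⟨B, hB⟩ : ∃ B : Finset (V × V), ∀ d, d ∈ B ↔ A.Adj d.1 d.2 :=
    ⟨univ.filter fun d => A.Adj d.1 d.2, fun d => by simp⟩
  have hBa : ∀ d ∈ B, (ofSG G hc).al d ∈ B := by
    intro d hd
    exact (hB _).2 ((hB d).1 hd).symm
  have hBd : B ⊆ (ofSG G hc).ds := by
    intro d hd
    rw [ofSG_mem_ds]
    exact hA ((hB d).1 hd)
  have hBc : B.card ≤ 4 := by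
    have h2 : B.card ≤ 2 * (A.edgeFinset).card := by
      rw [← SimpleGraph.sum_degrees_eq_twice_card_edges]
      have h3 : B = univ.biUnion fun v : V => (A.neighborFinset v).image fun w => (v, w) := by
        ext ⟨a, b⟩
        rw [hB]
        simp
      rw [h3]
      refine (card_biUnion_le).trans (sum_le_sum fun v _ => ?_)
      exact card_image_le.trans (le_of_eq (SimpleGraph.card_neighborFinset_eq_degree _ _))
    have h3 : (A.edgeFinset).card ≤ 2 := by
      rw [← Set.ncard_coe_finset, SimpleGraph.coe_edgeFinset]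
      exact hA2
    omega
  obtain ⟨K0, hK0⟩ : ∃ K0 : Finset V, ∀ v, v ∈ K0 ↔ (F ⊔ A).Reachable v0 v :=
    ⟨univ.filter fun v => (F ⊔ A).Reachable v0 v, fun v => by simp⟩
  obtain ⟨M2, h2, hBM, hZ⟩ := two_coreK (ofSG G hc) rfl (ofSG_even G hc) (ofSG_tk G hc)
    (ofSG_b0 G hc hb) (hmain V (V × V)) h1 (mt_three G hc hF hF2 hcut _) B hBa hBd hBc K0
    (fun d hd => (hK0 _).2 (hAv _ _ ((hB d).1 hd)))
    (by
      intro Z hZ
      by_cases hn : ∃ v ∈ Z, v ∈ K0
      · left
        obtain ⟨v, hv, hvK⟩ := hn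
        intro w hw
        by_contra hwZ
        obtain ⟨q⟩ := ((hK0 v).1 hvK).symm.trans ((hK0 w).1 hw)
        obtain ⟨d, -, hd1, hd2⟩ := q.exists_boundary_dart (Z : Set V) (by exact_mod_cast hv)
          (by exact_mod_cast hwZ)
        have hadj := d.adj
        rw [SimpleGraph.sup_adj] at hadj
        have hG : G.Adj d.fst d.snd := hadj.elim (fun h => hF h) (fun h => hA h)
        have h6 := hZ (d.fst, d.snd) ((ofSG_mem_ds G hc).2 hG) (by
          rcases hadj with h | h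
          · left
            intro h7
            exact ((mem_mt G).1 h7).2 h
          · right
            exact (hB _).2 h) (by exact_mod_cast hd1)
        exact hd2 (by exact_mod_cast h6)
      · right
        push Not at hn
        exact hn)
    (mt_sm G hc hF (fun v hv => h5 v (fun h => hv ((hK0 v).2 h))) _ fun d =>
      @mem_sdiff _ (fun a b => propDecidable (a = b)) _ _ d)
  obtain ⟨C, hC, hT, hev⟩ := exists_even G hc (mt G F ∩ M2)
    (fun d hd => ((mem_mt G).1 (Finset.mem_inter.1 hd).1).1)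
    (fun d hd => Finset.mem_inter.2 ⟨h1.closed d (Finset.mem_inter.1 hd).1,
      h2.closed d (Finset.mem_inter.1 hd).2⟩)
    (fun Z hZo => by
      obtain ⟨d, hd, hd'⟩ := hZ Z hZo
      exact ⟨d, hd, fun h => hd' (Finset.mem_inter.1 h)⟩)
  refine ⟨compl2 G hc M2 h2, C, compl2_le G hc M2 h2, hC, ?_, compl2_card G hc M2 h2, hev, ?_⟩
  · intro v w h
    exact ⟨hA h, hBM _ ((hB (v, w)).2 h)⟩
  ext v w
  simp only [SimpleGraph.sup_adj]
  constructor
  · rintro ((h | h) | h)
    · exact hF h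
    · exact h.1
    · exact hC h
  · intro h
    by_cases hm1 : F.Adj v w
    · exact Or.inl (Or.inl hm1)
    · by_cases hm2 : (v, w) ∈ M2
      · exact Or.inr (hT _ (Finset.mem_inter.2 ⟨(mem_mt G).2 ⟨h, hm1⟩, hm2⟩))
      · exact Or.inl (Or.inr ⟨h, hm2⟩)

end JP
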