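import Pool.Agent.Lib.P5.Basic
import Pool.Agent.Lib.JP.PZ
import Pool.Agent.Lib.JP.Gad

/-! Exit 2 (MP_c95763_co, pentagon world). -/

set_option autoImplicit false
set_option linter.unusedSectionVars false

namespace JP.CG

namespace W2

lemma five_ne : ∀ i : ZMod 5, i ≠ i + 1 + 1 := by
  decide

lemma five_cases : ∀ i : ZMod 5, i = 0 ∨ i = 1 ∨ i = 2 ∨ i = 3 ∨ i = 4 := by
  decide

end W2

open Finset Classical

variable {V D : Type*} {G : CG V D} {K : Finset V} {F : Finset D}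

namespace W2

variable {τ c c' : D} {p : ZMod 5 → V} {f l : ZMod 5 → D}

lemma mem_gd {v : V} : v ∈ G.gd τ p ↔ v = G.pi τ ∨ ∃ i, p i = v := by
  unfold gd
  rw [mem_insert, mem_image]
  simp

lemma p_gd (i : ZMod 5) : p i ∈ G.gd τ p := mem_gd.2 (Or.inr ⟨i, rfl⟩)

lemma s_gd : G.pi τ ∈ G.gd τ p := mem_gd.2 (Or.inl rfl)

lemma nd_gd {v : V} (hv : v ∈ G.gd τ p) : G.nd K F (G.gd τ p) v = G.gd τ p := by
  unfold nd
  rw [if_pos hv]

lemma nd_K {v : V} (hv : v ∉ G.gd τ p) (hK : v ∈ K) : G.nd K F (G.gd τ p) v = {v} := by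
  unfold nd
  rw [if_neg hv, if_pos hK]

lemma nd_f {v : V} (hv : v ∉ G.gd τ p) (hK : v ∉ K) :
    G.nd K F (G.gd τ p) v = G.cir K F v := by
  unfold nd
  rw [if_neg hv, if_neg hK]

variable (h : G.PW K F) (st : G.St K F τ c c' p f l)
include h

omit st in
lemma nabs {v : V} (hv : v ∈ G.vs) (hK : v ∉ K) : ¬ G.Abs K F v := fun ha => hK (h.full.abs v hv ha)

omit st h in
lemma nabs_K {v : V} (ha : ¬ G.Abs K F v) : v ∈ G.vs ∧ v ∉ K := by
  unfold Abs at ha
  push Not at ha
  obtain ⟨Z, hZ, hv⟩ := ha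
  exact ⟨hZ.sub hv, hZ.dis v hv⟩

omit st in
/-- darts of `F` -/
lemma F_fresh {d : D} (hd : d ∈ F) : G.pi d ∈ G.vs ∧ G.pi d ∉ K ∧ G.al d ∈ F ∧ d ∈ G.ds ∧
    G.al d ≠ d ∧ G.pi (G.al d) ∈ G.cir K F (G.pi d) :=
  ⟨G.pi_mem _ (h.cls.Fsub hd), h.full.out d hd, h.cls.Fal d hd, h.cls.Fsub hd, h.cls.Ftok d hd,
    cir_mem_al h.cls hd⟩

include st

lemma s_mem : G.pi τ ∈ G.vs := G.pi_mem _ st.mτ

lemma cir_p (i : ZMod 5) : G.cir K F (p i) = univ.image p := st.pen.cir_eq h.cls i

/-- circuits outside the gadget do not meet it -/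
lemma cir_out {v : V} (hv : v ∈ G.vs) (hK : v ∉ K) (hg : v ∉ G.gd τ p) {w : V}
    (hw : w ∈ G.cir K F v) : w ∉ G.gd τ p := by
  intro hwg
  have hna := nabs h hv hK
  have hwK : w ∉ K := (adm_cir hna).dis w hw
  rcases mem_gd.1 hwg with rfl | ⟨i, rfl⟩
  · exact hwK (st.sK h.cls)
  · have h1 := cir_eq h.cls hna hw
    rw [cir_p h st] at h1
    have h2 : v ∈ univ.image p := h1 ▸ self_mem_cir hv
    rw [mem_image] at h2
    obtain ⟨j, -, rfl⟩ := h2
    exact hg (p_gd j)

/-- no `F`-dart at `s` -/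
lemma F_gd {d : D} (hd : d ∈ F) (hg : G.pi d ∈ G.gd τ p) : ∃ i, d = f i ∨ d = G.al (f i) := by
  rcases mem_gd.1 hg with h1 | ⟨i, h1⟩
  · exact absurd (h1 ▸ st.sK h.cls) (F_fresh h hd).2.1
  · rcases st.pen.three i d (h.cls.Fsub hd) h1.symm with h2 | h2 | h2
    · exact ⟨i, Or.inl h2⟩
    · exact ⟨i - 1, Or.inr h2⟩
    · exact absurd (h2 ▸ hd) (st.pen.lF i)

/-- cyclic coordinates -/
lemma cy : Cy G F (univ.image p) 5 f := by
  refine ⟨st.pen.fF, ?_, ?_, ?_, ?_, ?_⟩
  · intro i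
    rw [st.pen.fp]
    exact mem_image_of_mem _ (mem_univ _)
  · intro i
    rw [st.pen.fa, st.pen.fp]
  · intro i e
    have h1 := congrArg (fun d => G.pi (G.al d)) e
    beta_reduce at h1
    rw [G.al_al _ (st.pen.fm h.cls i), st.pen.fp, st.pen.fa] at h1
    exact five_ne i (st.pen.inj h1)
  · intro i j e
    rw [st.pen.fp, st.pen.fp] at e
    exact st.pen.inj e
  · intro v hv
    rw [mem_image] at hv
    obtain ⟨i, -, rfl⟩ := hv
    exact ⟨i, st.pen.fp i⟩

lemma f_ne_al (i j : ZMod 5) : f i ≠ G.al (f j) := fun e => (cy h st).al_ne_r j i e.symm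

lemma f_inj {i j : ZMod 5} (e : f i = f j) : i = j := (cy h st).rinj e

lemma alf_inj {i j : ZMod 5} (e : G.al (f i) = G.al (f j)) : i = j :=
  (cy h st).alinj h.cls.Fsub e

lemma c_nF : c ∉ F := by
  intro hc
  have h1 := h.cls.Fal c hc
  rw [st.ac] at h1
  exact st.pen.lF 0 h1

lemma c'_nF : c' ∉ F := by
  intro hc
  have h1 := (F_fresh h hc).2.1
  rw [st.pc'] at h1
  exact h1 (st.sK h.cls)

lemma τ_nF : τ ∉ F := fun hc => h.cls.Ftok τ hc st.tτ

lemma al_l0 : G.al (l 0) = c := by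
  rw [← st.ac, G.al_al _ st.mc]

lemma s_ne_p (i : ZMod 5) : G.pi τ ≠ p i := fun e => st.pen.nK i (e ▸ st.sK h.cls)

lemma c_ne_l (i : ZMod 5) : c ≠ l i := by
  intro e
  have h1 := congrArg G.pi e
  rw [st.pc, st.pen.lp] at h1
  exact s_ne_p h st i h1

lemma τ_ne_l (i : ZMod 5) : τ ≠ l i := by
  intro e
  have h1 := congrArg G.pi e
  rw [st.pen.lp] at h1
  exact s_ne_p h st i h1

/-! ### the route -/

variable {A : Finset D} {u : V}
  (hA : G.Rt (G.nd K F (G.gd τ p)) G.vs (G.tg K F τ c') τ c' A u) (h2 : l 2 ∈ A)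
include hA

lemma u_out : u ∉ G.gd τ p := fun hu =>
  disjoint_left.1 (st.tg_sat h).2.2 hA.um.2 hu

lemma A_nF {d : D} (hd : d ∈ A) : d ∉ F := by
  intro hF
  have hτ : d ≠ τ := fun e => τ_nF h st (e ▸ hF)
  have h1 := hA.nl d hd hτ
  obtain ⟨k1, k2, k3, k4, k5, k6⟩ := F_fresh h hF
  by_cases hg : G.pi d ∈ G.gd τ p
  · rw [nd_gd hg] at h1
    obtain ⟨i, rfl | rfl⟩ := F_gd h st hF hg
    · rw [st.pen.fa] at h1
      exact h1 (p_gd _)
    · rw [G.al_al _ (st.pen.fm h.cls i), st.pen.fp] at h1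
      exact h1 (p_gd _)
  · rw [nd_f hg k2] at h1
    exact h1 k6

lemma s_ncl : G.pi τ ∉ G.nd K F (G.gd τ p) u := by
  intro hs
  have hp := st.part h
  have h1 := hp.eq u hA.um.1 _ hs
  rw [nd_gd s_gd] at h1
  have h3 := hp.self u hA.um.1
  rw [← h1] at h3
  exact u_out h st hA h3

include h2

lemma A_gd {d : D} (hd : d ∈ A) (hg : G.pi d ∈ G.gd τ p) : d = τ ∨ d = l 2 := by
  have h3 := hA.deg (G.pi τ) (s_mem h st) (s_ncl h st hA)
  rw [nd_gd s_gd] at h3
  have m1 : τ ∈ A.filter fun d => G.pi d ∈ G.gd τ p := mem_filter.2 ⟨hA.mem, s_gd⟩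
  have m2 : l 2 ∈ A.filter fun d => G.pi d ∈ G.gd τ p :=
    mem_filter.2 ⟨h2, by rw [st.pen.lp]; exact p_gd 2⟩
  have m3 : d ∈ A.filter fun d => G.pi d ∈ G.gd τ p := mem_filter.2 ⟨hd, hg⟩
  have h4 : (A.filter fun d => G.pi d ∈ G.gd τ p).card = 2 := by
    rcases h3 with h3 | h3
    · rw [card_eq_zero] at h3
      rw [h3] at m1
      exact absurd m1 (notMem_empty _)
    · exact h3
  have h5 : ({τ, l 2} : Finset D) = A.filter fun d => G.pi d ∈ G.gd τ p := by
    apply eq_of_subset_of_card_le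
    · intro x hx
      rw [mem_insert, mem_singleton] at hx
      rcases hx with rfl | rfl
      · exact m1
      · exact m2
    · rw [h4, card_pair (τ_ne_l h st 2)]
  rw [← h5, mem_insert, mem_singleton] at m3
  exact m3

lemma c_nA : c ∉ A := by
  intro hc
  rcases A_gd h st hA h2 hc (by rw [st.pc]; exact s_gd) with h3 | h3
  · exact st.n1 h3.symm
  · exact c_ne_l h st 2 h3

lemma c'_nA : c' ∉ A := by
  intro hc
  rcases A_gd h st hA h2 hc (by rw [st.pc']; exact s_gd) with h3 | h3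
  · exact st.n2 h3.symm
  · have h4 := congrArg G.pi h3
    rw [st.pc', st.pen.lp] at h4
    exact s_ne_p h st 2 h4

lemma l_nA {i : ZMod 5} (hi : i ≠ 2) : l i ∉ A := by
  intro hc
  rcases A_gd h st hA h2 hc (by rw [st.pen.lp]; exact p_gd i) with h3 | h3
  · exact τ_ne_l h st i h3.symm
  · exact hi (st.pen.l_inj h3)

omit h2 in
lemma al_A {d : D} (hd : d ∈ G.ds) : G.al d ∈ A ↔ d ∈ A := by
  constructor
  · intro h1
    by_cases h3 : G.al d = τ
    · have h4 := congrArg G.al h3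
      rw [G.al_al _ hd, st.tτ] at h4
      rw [h4]
      exact hA.mem
    · have h4 := (hA.clo _ h1 h3).2.1
      rwa [G.al_al _ hd] at h4
  · intro h1
    by_cases h3 : d = τ
    · rw [h3, st.tτ]
      exact hA.mem
    · exact (hA.clo _ h1 h3).2.1

/-! ### the weights -/

omit h st hA h2 in
/-- the weights of exit 2 -/
noncomputable def z (G : CG V D) (F : Finset D) (τ c : D) (p : ZMod 5 → V) (f l : ZMod 5 → D)
    (A : Finset D) (y : D → ℕ) (d : D) : ℕ :=
  if d ∈ F then
    if G.pi d ∈ G.gd τ p then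
      if d = f 0 ∨ d = G.al (f 0) then 0 else if d = f 1 ∨ d = G.al (f 1) then 2 else 1
    else y d
  else if d ∈ A then 0 else if d = c ∨ d = l 0 then 2 else 1


variable {y : D → ℕ}

lemma z_A {d : D} (hd : d ∈ A) : z G F τ c p f l A y d = 0 := by
  unfold z
  rw [if_neg (A_nF h st hA hd), if_pos hd]

lemma z_c : z G F τ c p f l A y c = 2 := by
  unfold z
  rw [if_neg (c_nF h st), if_neg (c_nA h st hA h2), if_pos (Or.inl rfl)]

lemma z_l0 : z G F τ c p f l A y (l 0) = 2 := by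
  unfold z
  rw [if_neg (st.pen.lF 0), if_neg (l_nA h st hA h2 (by decide)), if_pos (Or.inr rfl)]

omit h st hA h2 in
lemma z_one {d : D} (h1 : d ∉ F) (h3 : d ∉ A) (h4 : d ≠ c) (h5 : d ≠ l 0) :
    z G F τ c p f l A y d = 1 := by
  unfold z
  rw [if_neg h1, if_neg h3, if_neg]
  rintro (h6 | h6)
  · exact h4 h6
  · exact h5 h6

lemma z_lo {i : ZMod 5} (h3 : i ≠ 0) (h4 : i ≠ 2) : z G F τ c p f l A y (l i) = 1 :=
  z_one (st.pen.lF i) (l_nA h st hA h2 h4) (fun e => c_ne_l h st i e.symm)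
    fun e => h3 (st.pen.l_inj e)

omit hA h2

lemma z_f0 : z G F τ c p f l A y (f 0) = 0 := by
  unfold z
  rw [if_pos (st.pen.fF 0), if_pos (by rw [st.pen.fp]; exact p_gd 0), if_pos (Or.inl rfl)]

lemma z_al0 : z G F τ c p f l A y (G.al (f 0)) = 0 := by
  unfold z
  rw [if_pos (h.cls.Fal _ (st.pen.fF 0)), if_pos (by rw [st.pen.fa]; exact p_gd _),
    if_pos (Or.inr rfl)]

lemma z_f1 : z G F τ c p f l A y (f 1) = 2 := by
  unfold z
  rw [if_pos (st.pen.fF 1), if_pos (by rw [st.pen.fp]; exact p_gd 1), if_neg, if_pos (Or.inl rfl)]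
  rintro (e | e)
  · exact absurd (f_inj h st e) (by decide)
  · exact f_ne_al h st _ _ e

lemma z_al1 : z G F τ c p f l A y (G.al (f 1)) = 2 := by
  unfold z
  rw [if_pos (h.cls.Fal _ (st.pen.fF 1)), if_pos (by rw [st.pen.fa]; exact p_gd _), if_neg,
    if_pos (Or.inr rfl)]
  rintro (e | e)
  · exact f_ne_al h st _ _ e.symm
  · exact absurd (alf_inj h st e) (by decide)

lemma z_fo {i : ZMod 5} (h3 : i ≠ 0) (h4 : i ≠ 1) : z G F τ c p f l A y (f i) = 1 := by
  unfold z
  rw [if_pos (st.pen.fF i), if_pos (by rw [st.pen.fp]; exact p_gd i), if_neg, if_neg]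
  · rintro (e | e)
    · exact h4 (f_inj h st e)
    · exact f_ne_al h st _ _ e
  · rintro (e | e)
    · exact h3 (f_inj h st e)
    · exact f_ne_al h st _ _ e

lemma z_alo {i : ZMod 5} (h3 : i ≠ 0) (h4 : i ≠ 1) : z G F τ c p f l A y (G.al (f i)) = 1 := by
  unfold z
  rw [if_pos (h.cls.Fal _ (st.pen.fF i)), if_pos (by rw [st.pen.fa]; exact p_gd _), if_neg,
    if_neg]
  · rintro (e | e)
    · exact f_ne_al h st _ _ e.symm
    · exact h4 (alf_inj h st e)
  · rintro (e | e)
    · exact f_ne_al h st _ _ e.symm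
    · exact h3 (alf_inj h st e)

lemma z_alf (i : ZMod 5) : z G F τ c p f l A y (G.al (f i)) = z G F τ c p f l A y (f i) := by
  by_cases h0 : i = 0
  · subst h0
    rw [z_al0 h st, z_f0 h st]
  · by_cases h1 : i = 1
    · subst h1
      rw [z_al1 h st, z_f1 h st]
    · rw [z_alo h st h0 h1, z_fo h st h0 h1]

omit h st in
lemma z_y {d : D} (hd : d ∈ F) (hg : G.pi d ∉ G.gd τ p) : z G F τ c p f l A y d = y d := by
  unfold z
  rw [if_pos hd, if_neg hg]

/-- an `F`-dart outside the gadget -/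
lemma F_out {d : D} (hd : d ∈ F) (hg : G.pi d ∉ G.gd τ p) : G.pi (G.al d) ∉ G.gd τ p := by
  obtain ⟨k1, k2, k3, k4, k5, k6⟩ := F_fresh h hd
  exact cir_out h st k1 k2 hg k6

include hA h2

lemma z_sym (hy : ∀ d ∈ F, ¬ G.Abs K F (G.pi d) → G.pi d ∉ G.gd τ p → y (G.al d) = y d) {d : D}
    (hd : d ∈ G.ds) : z G F τ c p f l A y (G.al d) = z G F τ c p f l A y d := by
  by_cases hF : d ∈ F
  · obtain ⟨k1, k2, k3, k4, k5, k6⟩ := F_fresh h hF
    by_cases hg : G.pi d ∈ G.gd τ p
    · obtain ⟨i, rfl | rfl⟩ := F_gd h st hF hg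
      · exact z_alf h st i
      · rw [G.al_al _ (st.pen.fm h.cls i)]
        exact (z_alf h st i).symm
    · rw [z_y hF hg, z_y k3 (F_out h st hF hg)]
      exact hy d hF (nabs h k1 k2) hg
  · have hF' : G.al d ∉ F := fun e => hF (by
      have := h.cls.Fal _ e
      rwa [G.al_al _ hd] at this)
    by_cases ha : d ∈ A
    · rw [z_A h st hA h2 ha, z_A h st hA h2 ((al_A h st hA hd).2 ha)]
    · have ha' : G.al d ∉ A := fun e => ha ((al_A h st hA hd).1 e)
      by_cases hc : d = c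
      · rw [hc, st.ac, z_c h st hA h2, z_l0 h st hA h2]
      · by_cases hl : d = l 0
        · rw [hl, al_l0 h st, z_c h st hA h2, z_l0 h st hA h2]
        · rw [z_one hF ha hc hl, z_one hF' ha']
          · intro e
            apply hl
            rw [← st.ac, ← e, G.al_al _ hd]
          · intro e
            apply hc
            rw [← al_l0 h st, ← e, G.al_al _ hd]

/-! ### the vertex sums -/

lemma sum_s : ∑ d ∈ G.ds.filter (fun d => G.pi d = G.pi τ), z G F τ c p f l A y d = 3 := by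
  have h3 : G.ds.filter (fun d => G.pi d = G.pi τ) = {τ, c, c'} := by
    ext d
    rw [mem_filter, mem_insert, mem_insert, mem_singleton]
    constructor
    · rintro ⟨k1, k2⟩
      exact st.three k1 k2
    · rintro (rfl | rfl | rfl)
      · exact ⟨st.mτ, rfl⟩
      · exact ⟨st.mc, st.pc⟩
      · exact ⟨st.mc', st.pc'⟩
  have h4 : c' ≠ l 0 := by
    intro e
    have h4 := congrArg G.pi e
    rw [st.pc', st.pen.lp] at h4
    exact s_ne_p h st 0 h4
  have h5 : τ ∉ ({c, c'} : Finset D) := by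
    rw [mem_insert, mem_singleton]
    rintro (e | e)
    · exact st.n1 e
    · exact st.n2 e
  rw [h3, sum_insert h5, sum_pair st.n3, z_A h st hA h2 hA.mem, z_c h st hA h2,
    z_one (c'_nF h st) (c'_nA h st hA h2) st.n3.symm h4, zero_add]

omit hA h2 in
lemma sum_pp (w : D → ℕ) (i j : ZMod 5) (hj : i - 1 = j) :
    ∑ d ∈ G.ds.filter (fun d => G.pi d = p i), w d = w (f i) + (w (G.al (f j)) + w (l i)) := by
  subst hj
  have h3 : G.ds.filter (fun d => G.pi d = p i) = {f i, G.al (f (i - 1)), l i} := by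
    ext d
    rw [mem_filter, mem_insert, mem_insert, mem_singleton]
    constructor
    · rintro ⟨k1, k2⟩
      exact st.pen.three i d k1 k2
    · rintro (rfl | rfl | rfl)
      · exact ⟨st.pen.fm h.cls i, st.pen.fp i⟩
      · exact ⟨G.al_mem _ (st.pen.fm h.cls _), by rw [st.pen.fa, sub_add_cancel]⟩
      · exact ⟨st.pen.lm i, st.pen.lp i⟩
  have h4 : G.al (f (i - 1)) ≠ l i := fun e => st.pen.lF i (e ▸ h.cls.Fal _ (st.pen.fF _))
  have h5 : f i ≠ l i := fun e => st.pen.lF i (e ▸ st.pen.fF _)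
  rw [h3, sum_insert, sum_pair h4]
  rw [mem_insert, mem_singleton]
  rintro (e | e)
  · exact f_ne_al h st _ _ e
  · exact h5 e

lemma sum_p (i : ZMod 5) :
    ∑ d ∈ G.ds.filter (fun d => G.pi d = p i), z G F τ c p f l A y d = 3 := by
  rcases five_cases i with rfl | rfl | rfl | rfl | rfl
  · rw [sum_pp h st _ 0 4 (by decide), z_f0 h st, z_alo h st (by decide) (by decide),
      z_l0 h st hA h2]
  · rw [sum_pp h st _ 1 0 (by decide), z_f1 h st, z_al0 h st,
      z_lo h st hA h2 (by decide) (by decide)]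
  · rw [sum_pp h st _ 2 1 (by decide), z_fo h st (by decide) (by decide), z_al1 h st,
      z_A h st hA h2 h2]
  · rw [sum_pp h st _ 3 2 (by decide), z_fo h st (by decide) (by decide),
      z_alo h st (by decide) (by decide), z_lo h st hA h2 (by decide) (by decide)]
  · rw [sum_pp h st _ 4 3 (by decide), z_fo h st (by decide) (by decide),
      z_alo h st (by decide) (by decide), z_lo h st hA h2 (by decide) (by decide)]

omit h2 in
/-- killed darts in the class of `u` -/
lemma A_cl {v : V} (hv : v ∈ G.nd K F (G.gd τ p) u) {d : D} (hd : d ∈ A) (hdv : G.pi d = v) :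
    v = u := by
  obtain ⟨d0, k1, k2, k3⟩ := hA.land
  have h4 := k3 d hd (by rw [hdv]; exact hv)
  rw [← hdv, h4, k2]

omit h2 in
lemma A_at_u : ∃ d ∈ A, G.pi d = u := by
  obtain ⟨d0, k1, k2, k3⟩ := hA.land
  exact ⟨d0, k1, k2⟩

omit h2 in
lemma cl_self {v : V} (hv : v ∈ G.vs) : v ∈ G.nd K F (G.gd τ p) v := (st.part h).self v hv

omit h2 in
/-- killed darts at a vertex of `K` -/
lemma A_K {v : V} (hv : v ∈ K) (hg : v ∉ G.gd τ p) {d : D} (hd : d ∈ A) (hdv : G.pi d = v) :
    v = u := by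
  refine A_cl h st hA ?_ hd hdv
  rw [← hdv]
  apply hA.off d hd
  unfold tg
  rw [mem_union, mem_erase, hdv]
  exact Or.inl ⟨fun e => hg (e ▸ s_gd), hv⟩

lemma sum_K {v : V} (hv : v ∈ K) (hg : v ∉ G.gd τ p) :
    (∑ d ∈ G.ds.filter (fun d => G.pi d = v), z G F τ c p f l A y d) +
      (if v = u then 1 else 0) = 3 := by
  have hvs := h.cls.Ksub hv
  have hz : ∀ d ∈ G.ds.filter (fun d => G.pi d = v), z G F τ c p f l A y d =
      if d ∈ A then 0 else 1 := by
    intro d hd
    rw [mem_filter] at hd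
    split_ifs with ha
    · exact z_A h st hA h2 ha
    · refine z_one (fun e => (F_fresh h e).2.1 (hd.2 ▸ hv)) ha ?_ ?_
      · rintro rfl
        rw [st.pc] at hd
        exact hg (hd.2 ▸ s_gd)
      · rintro rfl
        rw [st.pen.lp] at hd
        exact hg (hd.2 ▸ p_gd 0)
  rw [sum_congr rfl hz]
  have h3 := G.cubic v hvs
  by_cases hu : v = u
  · obtain ⟨d0, k1, k2, k3⟩ := hA.land
    have h4 : ∑ d ∈ G.ds.filter (fun d => G.pi d = v), (if d ∈ A then 0 else 1) =
        ∑ d ∈ (G.ds.filter (fun d => G.pi d = v)).erase d0, 1 := by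
      rw [← sum_erase_add _ _ (show d0 ∈ G.ds.filter (fun d => G.pi d = v) from
        mem_filter.2 ⟨(hA.sub _ k1).1, by rw [k2, hu]⟩), if_pos k1, add_zero]
      refine sum_congr rfl fun d hd => ?_
      rw [mem_erase, mem_filter] at hd
      rw [if_neg]
      intro ha
      apply hd.1
      refine k3 d ha ?_
      rw [hd.2.2, hu]
      exact cl_self h st hA hA.um.1
    rw [h4, sum_const, smul_eq_mul, mul_one, card_erase_of_mem, h3, if_pos hu]
    exact mem_filter.2 ⟨(hA.sub _ k1).1, by rw [k2, hu]⟩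
  · have h4 : ∑ d ∈ G.ds.filter (fun d => G.pi d = v), (if d ∈ A then 0 else 1) =
        ∑ d ∈ (G.ds.filter (fun d => G.pi d = v)), 1 := by
      refine sum_congr rfl fun d hd => ?_
      rw [mem_filter] at hd
      rw [if_neg]
      intro ha
      exact hu (A_K h st hA hv hg ha hd.2)
    rw [h4, sum_const, smul_eq_mul, mul_one, h3, if_neg hu]

/-- the fresh vertices outside the gadget -/
lemma sum_f (hy : ∀ v, ¬ G.Abs K F v → v ∉ G.gd τ p → ∑ d ∈ F.filter (fun d => G.pi d = v), y d =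
      if ∃ a ∈ A.filter (fun d => G.pi d ∉ G.nd K F (G.gd τ p) u), G.pi a = v then 3 else 2)
    {v : V} (hvs : v ∈ G.vs) (hv : v ∉ K) (hg : v ∉ G.gd τ p) :
    (∑ d ∈ G.ds.filter (fun d => G.pi d = v), z G F τ c p f l A y d) +
      (if v = u then 1 else 0) = 3 := by
  have h3 := G.cubic v hvs
  have h4 := h.cls.F2 v hvs hv
  have hsub : F.filter (fun d => G.pi d = v) ⊆ G.ds.filter (fun d => G.pi d = v) := by
    intro d hd
    rw [mem_filter] at hd ⊢
    exact ⟨h.cls.Fsub hd.1, hd.2⟩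
  have h5 : (G.ds.filter (fun d => G.pi d = v) \ F.filter (fun d => G.pi d = v)).card = 1 := by
    rw [card_sdiff_of_subset hsub, h3, h4]
  obtain ⟨j, hj⟩ := card_eq_one.1 h5
  have hj1 : j ∈ G.ds.filter (fun d => G.pi d = v) \ F.filter (fun d => G.pi d = v) := by
    rw [hj]
    exact mem_singleton_self j
  rw [mem_sdiff, mem_filter, mem_filter, not_and] at hj1
  obtain ⟨⟨j1, j2⟩, j3⟩ := hj1
  have jF : j ∉ F := fun e => j3 e j2
  have hun : ∀ a ∈ A, G.pi a = v → a = j := by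
    intro a ha hav
    have : a ∈ G.ds.filter (fun d => G.pi d = v) \ F.filter (fun d => G.pi d = v) := by
      rw [mem_sdiff, mem_filter, mem_filter]
      exact ⟨⟨(hA.sub a ha).1, hav⟩, fun e => A_nF h st hA ha e.1⟩
    rw [hj, mem_singleton] at this
    exact this
  have hsum : ∑ d ∈ G.ds.filter (fun d => G.pi d = v), z G F τ c p f l A y d =
      (∑ d ∈ F.filter (fun d => G.pi d = v), y d) + z G F τ c p f l A y j := by
    rw [← sum_sdiff hsub, hj, sum_singleton, add_comm]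
    congr 1
    refine sum_congr rfl fun d hd => ?_
    rw [mem_filter] at hd
    exact z_y hd.1 (by rw [hd.2]; exact hg)
  have hzj : z G F τ c p f l A y j = if j ∈ A then 0 else 1 := by
    split_ifs with ha
    · exact z_A h st hA h2 ha
    · refine z_one jF ha ?_ ?_
      · rintro rfl
        rw [st.pc] at j2
        exact hg (j2 ▸ s_gd)
      · rintro rfl
        rw [st.pen.lp] at j2
        exact hg (j2 ▸ p_gd 0)
  rw [hsum, hzj, hy v (nabs h hvs hv) hg]
  by_cases hcl : v ∈ G.nd K F (G.gd τ p) u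
  · rw [if_neg]
    · by_cases hu : v = u
      · obtain ⟨d0, k1, k2⟩ := A_at_u h st hA
        have h6 := hun d0 k1 (k2.trans hu.symm)
        rw [if_pos (h6 ▸ k1), if_pos hu]
      · rw [if_neg (fun e => hu (A_cl h st hA hcl e j2)), if_neg hu]
    · rintro ⟨a, ha, hav⟩
      rw [mem_filter] at ha
      exact ha.2 (hav ▸ hcl)
  · have hu : v ≠ u := by
      rintro rfl
      exact hcl (cl_self h st hA hvs)
    by_cases ha : j ∈ A
    · rw [if_pos, if_pos ha, if_neg hu]
      exact ⟨j, mem_filter.2 ⟨ha, by rw [j2]; exact hcl⟩, j2⟩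
    · rw [if_neg, if_neg ha, if_neg hu]
      rintro ⟨a, ha', hav⟩
      rw [mem_filter] at ha'
      exact ha (hun a ha'.1 hav ▸ ha'.1)

theorem zw (hy1 : ∀ d ∈ F, ¬ G.Abs K F (G.pi d) → G.pi d ∉ G.gd τ p → y (G.al d) = y d)
    (hy : ∀ v, ¬ G.Abs K F v → v ∉ G.gd τ p → ∑ d ∈ F.filter (fun d => G.pi d = v), y d =
      if ∃ a ∈ A.filter (fun d => G.pi d ∉ G.nd K F (G.gd τ p) u), G.pi a = v then 3 else 2) :
    G.ZW (z G F τ c p f l A y) (fun v => if v = u then 1 else 0) := by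
  refine ⟨fun d hd => z_sym h st hA h2 hy1 hd, ?_⟩
  intro v hv
  by_cases hg : v ∈ G.gd τ p
  · have hu : v ≠ u := by
      rintro rfl
      exact u_out h st hA hg
    beta_reduce
    rw [if_neg hu, add_zero]
    rcases mem_gd.1 hg with rfl | ⟨i, rfl⟩
    · exact sum_s h st hA h2
    · exact sum_p h st hA h2 i
  · by_cases hK : v ∈ K
    · exact sum_K h st hA h2 hK hg
    · exact sum_f h st hA h2 hy hv hK hg

/-! ### tokens -/

lemma sum_tk : ∑ d ∈ G.tk G.vs, z G F τ c p f l A y d ≤ 3 := by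
  have h3 : τ ∈ G.tk G.vs := G.mem_tk.2 ⟨st.mτ, s_mem h st, st.tτ⟩
  rw [← sum_erase_add _ _ h3, z_A h st hA h2 hA.mem, add_zero]
  have h4 : ∑ d ∈ (G.tk G.vs).erase τ, z G F τ c p f l A y d =
      ∑ d ∈ (G.tk G.vs).erase τ, 1 := by
    refine sum_congr rfl fun d hd => ?_
    rw [mem_erase, G.mem_tk] at hd
    refine z_one (fun e => h.cls.Ftok d e hd.2.2.2) ?_ ?_ ?_
    · intro ha
      exact (hA.clo d ha hd.1).1 hd.2.2.2
    · rintro rfl
      have := hd.2.2.2
      rw [st.ac] at this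
      exact c_ne_l h st 0 this.symm
    · rintro rfl
      exact st.pen.l_tok 0 hd.2.2.2
  rw [h4, sum_const, smul_eq_mul, mul_one, card_erase_of_mem h3, h.four]

/-! ### joined -/

omit h st hA h2 in
lemma five_ne2 (i : ZMod 5) (e : i + 1 = i - 1) : False := by
  have h3 := congrArg (fun x => x + 1) e
  beta_reduce at h3
  rw [sub_add_cancel] at h3
  exact five_ne i h3.symm

omit h st hA h2 in
/-- the two `F`-darts at a vertex of a pentagon -/
lemma pen_F {p' : ZMod 5 → V} {f' l' : ZMod 5 → D} (hp : G.Pen K F p' f' l') (hc : G.Cls K F)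
    (w : D → ℕ) (i : ZMod 5) :
    ∑ d ∈ F.filter (fun d => G.pi d = p' i), w d = w (f' i) + w (G.al (f' (i - 1))) := by
  have h3 : F.filter (fun d => G.pi d = p' i) = {f' i, G.al (f' (i - 1))} := by
    ext d
    rw [mem_filter, mem_insert, mem_singleton]
    constructor
    · rintro ⟨k1, k2⟩
      rcases hp.three i d (hc.Fsub k1) k2 with k3 | k3 | k3
      · exact Or.inl k3
      · exact Or.inr k3
      · exact absurd (k3 ▸ k1) (hp.lF i)
    · rintro (rfl | rfl)
      · exact ⟨hp.fF i, hp.fp i⟩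
      · exact ⟨hc.Fal _ (hp.fF _), by rw [hp.fa, sub_add_cancel]⟩
  rw [h3, sum_pair]
  intro e
  have h4 := congrArg (fun d => G.pi (G.al d)) e
  beta_reduce at h4
  rw [G.al_al _ (hp.fm hc _), hp.fp, hp.fa] at h4
  exact five_ne2 i (hp.inj h4)

/-- an untouched pentagon -/
lemma y_one (hy1 : ∀ d ∈ F, ¬ G.Abs K F (G.pi d) → G.pi d ∉ G.gd τ p → y (G.al d) = y d)
    (hy : ∀ v, ¬ G.Abs K F v → v ∉ G.gd τ p → ∑ d ∈ F.filter (fun d => G.pi d = v), y d =
      if ∃ a ∈ A.filter (fun d => G.pi d ∉ G.nd K F (G.gd τ p) u), G.pi a = v then 3 else 2)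
    {v : V} (hvs : v ∈ G.vs) (hv : v ∉ K) (hg : v ∉ G.gd τ p)
    (hno : ∀ a ∈ A, G.pi a ∉ G.cir K F v) {d : D} (hd : d ∈ F) (hdv : G.pi d = v) : y d = 1 := by
  obtain ⟨p', f', l', hp, hp0, hcir⟩ := h.cir_pen hvs hv
  have hin : ∀ i, p' i ∈ G.cir K F v := fun i => by
    rw [hcir]
    exact mem_image_of_mem _ (mem_univ _)
  have hna := nabs h hvs hv
  have hin2 : ∀ i, ¬ G.Abs K F (p' i) := fun i e => e _ (adm_cir hna) (hin i)
  have hin3 : ∀ i, p' i ∉ G.gd τ p := fun i => cir_out h st hvs hv hg (hin i)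
  have key : ∀ i, y (f' i) + y (f' (i - 1)) = 2 := by
    intro i
    have h3 := hy (p' i) (hin2 i) (hin3 i)
    rw [pen_F hp h.cls, if_neg, hy1 _ (hp.fF _) (by rw [hp.fp]; exact hin2 _)
      (by rw [hp.fp]; exact hin3 _)] at h3
    · exact h3
    · rintro ⟨a, ha, hap⟩
      rw [mem_filter] at ha
      exact hno a ha.1 (hap ▸ hin i)
  have k0 := key 0
  have k1 := key 1
  have k2 := key 2
  have k3 := key 3
  have k4 := key 4
  rw [show (0 : ZMod 5) - 1 = 4 by decide] at k0
  rw [show (1 : ZMod 5) - 1 = 0 by decide] at k1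
  rw [show (2 : ZMod 5) - 1 = 1 by decide] at k2
  rw [show (3 : ZMod 5) - 1 = 2 by decide] at k3
  rw [show (4 : ZMod 5) - 1 = 3 by decide] at k4
  rcases hp.three 0 d (h.cls.Fsub hd) (hdv.trans hp0.symm) with e | e | e
  · rw [e]
    omega
  · rw [e, hy1 _ (hp.fF _) (by rw [hp.fp]; exact hin2 _) (by rw [hp.fp]; exact hin3 _),
      show (0 : ZMod 5) - 1 = 4 by decide]
    omega
  · exact absurd (e ▸ hd) (hp.lF 0)

/-- touched vertices lie on circuits with killed darts -/
lemma touched (hy1 : ∀ d ∈ F, ¬ G.Abs K F (G.pi d) → G.pi d ∉ G.gd τ p → y (G.al d) = y d)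
    (hy : ∀ v, ¬ G.Abs K F v → v ∉ G.gd τ p → ∑ d ∈ F.filter (fun d => G.pi d = v), y d =
      if ∃ a ∈ A.filter (fun d => G.pi d ∉ G.nd K F (G.gd τ p) u), G.pi a = v then 3 else 2)
    {v : V} (hvt : v ∈ G.ztch (z G F τ c p f l A y)) (hv : v ∉ K) :
    ∃ a ∈ A, G.pi a ∈ G.cir K F v := by
  obtain ⟨hvs, d, hd, hdv, hz⟩ := mem_ztch.1 hvt
  by_cases hg : v ∈ G.gd τ p
  · rcases mem_gd.1 hg with rfl | ⟨i, rfl⟩
    · exact absurd (st.sK h.cls) hv
    · refine ⟨l 2, h2, ?_⟩
      rw [cir_p h st, st.pen.lp]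
      exact mem_image_of_mem _ (mem_univ _)
  · by_contra hno
    push Not at hno
    apply hz
    by_cases hF : d ∈ F
    · rw [z_y hF (by rw [hdv]; exact hg)]
      exact y_one h st hA h2 hy1 hy hvs hv hg hno hF hdv
    · refine z_one hF ?_ ?_ ?_
      · intro ha
        exact hno d ha (by rw [hdv]; exact self_mem_cir hvs)
      · rintro rfl
        rw [st.pc] at hdv
        exact hg (hdv ▸ s_gd)
      · rintro rfl
        rw [st.pen.lp] at hdv
        exact hg (hdv ▸ p_gd 0)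

theorem joined (hy1 : ∀ d ∈ F, ¬ G.Abs K F (G.pi d) → G.pi d ∉ G.gd τ p → y (G.al d) = y d)
    (hy : ∀ v, ¬ G.Abs K F v → v ∉ G.gd τ p → ∑ d ∈ F.filter (fun d => G.pi d = v), y d =
      if ∃ a ∈ A.filter (fun d => G.pi d ∉ G.nd K F (G.gd τ p) u), G.pi a = v then 3 else 2) :
    G.ZJoined K F (z G F τ c p f l A y) := by
  rintro Z hZ ⟨v, hvZ, hvt⟩
  obtain ⟨a, ha, hav⟩ := touched h st hA h2 hy1 hy hvt (hZ.dis v hvZ)
  have haZ : G.pi a ∈ Z := cir_sub hZ hvZ hav
  have hsZ : G.pi τ ∉ Z := fun e => hZ.dis _ e (st.sK h.cls)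
  have hnd : ∀ w ∈ Z, w ∉ G.gd τ p → G.nd K F (G.gd τ p) w ⊆ Z := by
    intro w hw hg
    rw [nd_f hg (hZ.dis w hw)]
    exact cir_sub hZ hw
  have fin : ∀ d ∈ A, G.pi d ∈ Z → G.pi (G.al d) ∉ Z →
      ∃ d ∈ G.bd Z, z G F τ c p f l A y d = 0 := fun d hd h3 h4 =>
    ⟨d, G.mem_bd.2 ⟨(hA.sub d hd).1, h3, h4⟩, z_A h st hA h2 hd⟩
  by_cases hp : ∃ i, p i ∈ Z
  · obtain ⟨i, hi⟩ := hp
    have hpZ := st.pen.adm_sub h.cls hZ hi
    have hgX : G.gd τ p ⊆ insert (G.pi τ) Z := by
      intro w hw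
      rcases mem_gd.1 hw with rfl | ⟨j, rfl⟩
      · exact mem_insert_self _ _
      · exact mem_insert_of_mem (hpZ (mem_image_of_mem _ (mem_univ _)))
    by_cases hall : ∃ d ∈ A, G.pi d ∉ insert (G.pi τ) Z
    · have hX : insert (G.pi τ) Z ⊆ G.vs := by
        intro w hw
        rcases mem_insert.1 hw with rfl | h3
        · exact s_mem h st
        · exact hZ.sub h3
      have hs : CSat (G.nd K F (G.gd τ p)) (insert (G.pi τ) Z) := by
        intro w hw
        by_cases hg : w ∈ G.gd τ p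
        · rw [nd_gd hg]
          exact hgX
        · rcases mem_insert.1 hw with rfl | h3
          · exact absurd s_gd hg
          · exact (hnd w h3 hg).trans (subset_insert _ _)
      obtain ⟨d, k1, k2, k3, k4⟩ := hA.con _ hX hs ⟨a, ha, mem_insert_of_mem haZ⟩ hall
      left
      refine fin d k1 ?_ fun e => k4 (mem_insert_of_mem e)
      rcases mem_insert.1 k3 with k5 | k5
      · rcases A_gd h st hA h2 k1 (by rw [k5]; exact s_gd) with k6 | k6
        · exact absurd k6 k2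
        · rw [k6, st.pen.lp] at k5
          exact absurd k5.symm (s_ne_p h st 2)
      · exact k5
    · push Not at hall
      obtain ⟨d0, k1, k2⟩ := A_at_u h st hA
      have hug := u_out h st hA
      have huZ : u ∈ Z := by
        have h3 := hall d0 k1
        rw [k2] at h3
        rcases mem_insert.1 h3 with h3 | h3
        · exact absurd (h3 ▸ s_gd) hug
        · exact h3
      have hT := hA.um.2
      unfold tg at hT
      rw [mem_union, mem_erase] at hT
      rcases hT with h3 | h3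
      · exact absurd h3.2 (hZ.dis u huZ)
      · by_cases hc : G.al c' = c'
        · rw [if_pos hc] at h3
          exact absurd h3 (notMem_empty _)
        · rw [if_neg hc] at h3
          rcases st.dich with h4 | ⟨-, h4, h5, -⟩
          · exact absurd h4 hc
          · have hvs2 : G.pi (G.al c') ∈ G.vs := G.pi_mem _ (G.al_mem _ st.mc')
            have h6 := cir_eq h.cls (nabs h hvs2 h4) h3
            have h7 : G.pi (G.al c') ∈ Z := by
              apply cir_sub hZ huZ
              rw [h6]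
              exact self_mem_cir hvs2
            right
            refine ⟨l 0, G.mem_bd.2 ⟨st.pen.lm 0, ?_, ?_⟩, G.al c',
              G.mem_bd.2 ⟨G.al_mem _ st.mc', h7, ?_⟩, ?_, ?_⟩
            · rw [st.pen.lp]
              exact hpZ (mem_image_of_mem _ (mem_univ _))
            · rw [al_l0 h st, st.pc]
              exact hsZ
            · rw [G.al_al _ st.mc', st.pc']
              exact hsZ
            · intro e
              have h8 := congrArg G.pi e
              rw [st.pen.lp] at h8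
              exact h5 0 h8.symm
            · rw [al_l0 h st, G.al_al _ st.mc', st.pc, st.pc']
  · push Not at hp
    have hs : CSat (G.nd K F (G.gd τ p)) Z := by
      intro w hw
      apply hnd w hw
      intro hg
      rcases mem_gd.1 hg with rfl | ⟨j, rfl⟩
      · exact hsZ hw
      · exact hp j hw
    obtain ⟨d, k1, k2, k3, k4⟩ := hA.con Z hZ.sub hs ⟨a, ha, haZ⟩ ⟨τ, hA.mem, hsZ⟩
    exact Or.inl (fin d k1 k3 k4)

/-! ### values -/

/-- live darts of the star have positive weight -/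
lemma pos {X : Finset V} (hs : ∀ v ∈ X, v ∉ G.gd τ p → G.nd K F (G.gd τ p) v ⊆ X) {d : D} (hd : d ∈ G.sb X \ A)
    (hz : z G F τ c p f l A y d = 0) : d = f 0 ∨ d = G.al (f 0) := by
  rw [mem_sdiff, mem_sb] at hd
  obtain ⟨⟨k1, k2, k3⟩, k4⟩ := hd
  by_cases hF : d ∈ F
  · obtain ⟨q1, q2, q3, q4, q5, q6⟩ := F_fresh h hF
    by_cases hg : G.pi d ∈ G.gd τ p
    · obtain ⟨i, hi⟩ := F_gd h st hF hg
      have hz2 : z G F τ c p f l A y (f i) = 0 := by
        rcases hi with rfl | rfl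
        · exact hz
        · rw [← z_alf h st]
          exact hz
      by_cases h0 : i = 0
      · subst h0
        exact hi
      · by_cases h1 : i = 1
        · subst h1
          rw [z_f1 h st] at hz2
          omega
        · rw [z_fo h st h0 h1] at hz2
          omega
    · exfalso
      have h3 := hs _ k2 hg
      rw [nd_f hg q2] at h3
      rcases k3 with k3 | k3
      · exact q5 k3
      · exact k3 (h3 q6)
  · exfalso
    unfold z at hz
    rw [if_neg hF, if_neg k4] at hz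
    split_ifs at hz

omit h st hA h2 in
lemma rv_le {X : Finset V} (n : ℕ) (hn : ((G.sb X \ A).filter fun d => z G F τ c p f l A y d = 0).card ≤ n) :
    G.rv A u X ≤ G.zc (z G F τ c p f l A y) (fun v => if v = u then 1 else 0) X + n := by
  rw [zc_wv]
  unfold wv rv
  have h3 : ∑ v ∈ X, (if v = u then 1 else 0) = if u ∈ X then 1 else 0 := by
    rw [sum_ite_eq']
  have h4 : ∑ d ∈ G.sb X \ A, z G F τ c p f l A y d ≤ ∑ d ∈ G.sb X, z G F τ c p f l A y d :=
    sum_le_sum_of_subset sdiff_subset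
  have h5 : (G.sb X \ A).card ≤ ∑ d ∈ G.sb X \ A, z G F τ c p f l A y d +
      ((G.sb X \ A).filter fun d => z G F τ c p f l A y d = 0).card := by
    rw [card_eq_sum_ones, card_eq_sum_ones ((G.sb X \ A).filter _), sum_filter,
      ← sum_add_distrib]
    refine sum_le_sum fun d _ => ?_
    split_ifs with h6
    · omega
    · omega
  beta_reduce
  rw [h3]
  omega

theorem zb (hy1 : ∀ d ∈ F, ¬ G.Abs K F (G.pi d) → G.pi d ∉ G.gd τ p → y (G.al d) = y d)
    (hy : ∀ v, ¬ G.Abs K F v → v ∉ G.gd τ p → ∑ d ∈ F.filter (fun d => G.pi d = v), y d =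
      if ∃ a ∈ A.filter (fun d => G.pi d ∉ G.nd K F (G.gd τ p) u), G.pi a = v then 3 else 2)
    (hP : ∀ v, ¬ G.Abs K F v → v ∉ G.gd τ p → ∀ W ⊆ G.vs,
      G.zc (z G F τ c p f l A y) (fun v => if v = u then 1 else 0) W ≤ 1 →
      ∃ W' ⊆ G.vs, G.zc (z G F τ c p f l A y) (fun v => if v = u then 1 else 0) W' ≤ 1 ∧
        (Odd W.card → Odd W'.card) ∧ (G.cir K F v ⊆ W' ∨ Disjoint (G.cir K F v) W') ∧
        ∀ w, w ∉ G.cir K F v → (w ∈ W' ↔ w ∈ W))
    (hcl : ∀ X ⊆ G.vs, CSat (G.nd K F (G.gd τ p)) X → Odd X.card → 2 ≤ G.rv A u X)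
    (hsp : ∀ X ⊆ G.vs, (∀ v ∈ X, v ∉ G.gd τ p → G.nd K F (G.gd τ p) v ⊆ X) → Odd X.card →
      (X ∩ G.gd τ p = {p 1, p 2, p 3} ∨ X ∩ G.gd τ p = {p 4, p 0, G.pi τ}) → 3 ≤ G.rv A u X) :
    G.ZB (z G F τ c p f l A y) (fun v => if v = u then 1 else 0) := by
  have hw := zw h st hA h2 hy1 hy
  intro X hX ho
  by_contra hlt
  have hpar := (ZW.parity G hw hX).2 ho
  have hle : G.zc (z G F τ c p f l A y) (fun v => if v = u then 1 else 0) X ≤ 1 := by
    rw [Nat.odd_iff] at hpar
    omega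
  obtain ⟨W1, hW1, hv1, ho1, hc1, -⟩ := clean_all h.cls (fun v => v ∉ G.gd τ p) hP hX hle
  have ho1 := ho1 ho
  have hfr : ∀ v ∈ G.vs, v ∉ G.gd τ p → v ∉ K → v ∈ W1 → G.cir K F v ⊆ W1 := by
    intro v hv hg hK hvW
    rcases hc1 v (nabs h hv hK) hg with h3 | h3
    · exact h3
    · exact absurd hvW (disjoint_left.1 h3 (self_mem_cir hv))
  have hcC : G.pi c ∉ univ.image p := by
    rw [st.pc, mem_image]
    rintro ⟨i, -, e⟩
    exact s_ne_p h st i e.symm
  rcases (cy h st).gad2 h.cls.Fsub hw st.mc hcC (by rw [st.ac, st.pen.lp, st.pen.fp])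
    (z_c h st hA h2) (z_f1 h st) (z_fo h st (by decide) (by decide))
    (z_fo h st (by decide) (by decide)) (z_fo h st (by decide) (by decide)) hW1 hv1 with
    ⟨W2, hW2, hv2, ho2, hg2, hm2⟩ | ⟨e1, e2, e3, e4, e5⟩
  · -- clean
    have hgd : G.gd τ p ⊆ W2 ∨ Disjoint (G.gd τ p) W2 := by
      rcases hg2 with ⟨h3, h4⟩ | ⟨h3, h4⟩
      · left
        intro v hv
        rcases mem_gd.1 hv with rfl | ⟨i, rfl⟩
        · rw [← st.pc]
          exact h4
        · exact h3 (mem_image_of_mem _ (mem_univ _))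
      · right
        rw [disjoint_left]
        intro v hv hvW
        rcases mem_gd.1 hv with rfl | ⟨i, rfl⟩
        · rw [st.pc] at h4
          exact h4 hvW
        · exact disjoint_left.1 h3 (mem_image_of_mem _ (mem_univ _)) hvW
    have hout : ∀ v, v ∉ G.gd τ p → (v ∈ W2 ↔ v ∈ W1) := by
      intro v hv
      apply hm2
      · intro e
        rw [mem_image] at e
        obtain ⟨i, -, rfl⟩ := e
        exact hv (p_gd i)
      · intro e
        rw [st.pc] at e
        exact hv (e ▸ s_gd)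
    have hs : CSat (G.nd K F (G.gd τ p)) W2 := by
      intro v hv
      by_cases hg : v ∈ G.gd τ p
      · rw [nd_gd hg]
        rcases hgd with h3 | h3
        · exact h3
        · exact absurd hv (disjoint_left.1 h3 hg)
      · by_cases hK : v ∈ K
        · rw [nd_K hg hK]
          exact singleton_subset_iff.2 hv
        · rw [nd_f hg hK]
          intro w hw2
          have hvs := hW2 hv
          exact (hout w (cir_out h st hvs hK hg hw2)).2
            (hfr v hvs hg hK ((hout v hg).1 hv) hw2)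
    have h3 := hcl W2 hW2 hs (ho2 ho1)
    have h4 := rv_le (G := G) (F := F) (τ := τ) (c := c) (p := p) (f := f) (l := l) (A := A)
      (u := u) (y := y) (X := W2) 0 (by
        rw [Nat.le_zero, card_eq_zero, filter_eq_empty_iff]
        intro d hd hz
        have h5 := pos h st hA h2 (fun v hv _ => hs v hv) hd hz
        have h6 : G.pi d ∈ G.gd τ p ∧ G.pi (G.al d) ∈ G.gd τ p := by
          rcases h5 with rfl | rfl
          · rw [st.pen.fp, st.pen.fa]
            exact ⟨p_gd _, p_gd _⟩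
          · rw [G.al_al _ (st.pen.fm h.cls _), st.pen.fp, st.pen.fa]
            exact ⟨p_gd _, p_gd _⟩
        have h7 : G.al d ≠ d := by
          rcases h5 with rfl | rfl
          · exact h.cls.Ftok _ (st.pen.fF 0)
          · exact h.cls.Ftok _ (h.cls.Fal _ (st.pen.fF 0))
        rw [mem_sdiff, mem_sb] at hd
        rcases hgd with h8 | h8
        · rcases hd.1.2.2 with h9 | h9
          · exact h7 h9
          · exact h9 (h8 h6.2)
        · exact disjoint_left.1 h8 h6.1 hd.1.2.1)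
    omega
  · -- the spine
    rw [st.pen.fp, st.pen.fp] at e1 e2 e3 e4
    rw [st.pen.fp, st.pc] at e5
    have hs : ∀ v ∈ W1, v ∉ G.gd τ p → G.nd K F (G.gd τ p) v ⊆ W1 := by
      intro v hv hg
      by_cases hK : v ∈ K
      · rw [nd_K hg hK]
        exact singleton_subset_iff.2 hv
      · rw [nd_f hg hK]
        exact hfr v (hW1 hv) hg hK hv
    have hint : W1 ∩ G.gd τ p = {p 1, p 2, p 3} ∨ W1 ∩ G.gd τ p = {p 4, p 0, G.pi τ} := by
      by_cases q : p 3 ∈ W1
      · left
        have q4 := e3.1 q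
        have q0 : p 0 ∉ W1 := fun e => q4 (e4.2 e)
        have qs : G.pi τ ∉ W1 := fun e => q0 (e5.2 e)
        have q2 := e2.2 q
        have q1 := e1.2 q2
        ext v
        rw [mem_inter, mem_insert, mem_insert, mem_singleton]
        constructor
        · rintro ⟨k1, k2⟩
          rcases mem_gd.1 k2 with rfl | ⟨i, rfl⟩
          · exact absurd k1 qs
          · rcases five_cases i with rfl | rfl | rfl | rfl | rfl
            · exact absurd k1 q0
            · exact Or.inl rfl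
            · exact Or.inr (Or.inl rfl)
            · exact Or.inr (Or.inr rfl)
            · exact absurd k1 q4
        · rintro (rfl | rfl | rfl)
          · exact ⟨q1, p_gd _⟩
          · exact ⟨q2, p_gd _⟩
          · exact ⟨q, p_gd _⟩
      · right
        have q4 : p 4 ∈ W1 := by
          by_contra q5
          exact q (e3.2 q5)
        have q0 := e4.1 q4
        have qs := e5.1 q0
        have q2 : p 2 ∉ W1 := fun e => q (e2.1 e)
        have q1 : p 1 ∉ W1 := fun e => q2 (e1.1 e)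
        ext v
        rw [mem_inter, mem_insert, mem_insert, mem_singleton]
        constructor
        · rintro ⟨k1, k2⟩
          rcases mem_gd.1 k2 with rfl | ⟨i, rfl⟩
          · exact Or.inr (Or.inr rfl)
          · rcases five_cases i with rfl | rfl | rfl | rfl | rfl
            · exact Or.inr (Or.inl rfl)
            · exact absurd k1 q1
            · exact absurd k1 q2
            · exact absurd k1 q
            · exact Or.inl rfl
        · rintro (rfl | rfl | rfl)
          · exact ⟨q4, p_gd _⟩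
          · exact ⟨q0, p_gd _⟩
          · exact ⟨qs, s_gd⟩
    have h3 := hsp W1 hW1 hs ho1 hint
    have hp01 : ¬ (p 0 ∈ W1 ∧ p 1 ∈ W1) := by
      rintro ⟨q0, q1⟩
      exact e3.1 (e2.1 (e1.1 q1)) (e4.2 q0)
    have h4 := rv_le (G := G) (F := F) (τ := τ) (c := c) (p := p) (f := f) (l := l) (A := A)
      (u := u) (y := y) (X := W1) 1 (by
        rw [card_le_one]
        intro a ha b hb
        rw [mem_filter] at ha hb
        have h5 := pos h st hA h2 hs ha.1 ha.2
        have h6 := pos h st hA h2 hs hb.1 hb.2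
        have h7 := (mem_sb.1 (mem_sdiff.1 ha.1).1).2.1
        have h8 := (mem_sb.1 (mem_sdiff.1 hb.1).1).2.1
        have a01 : (0 : ZMod 5) + 1 = 1 := by decide
        rcases h5 with rfl | rfl <;> rcases h6 with rfl | rfl
        · rfl
        · rw [st.pen.fp] at h7
          rw [st.pen.fa, a01] at h8
          exact absurd ⟨h7, h8⟩ hp01
        · rw [st.pen.fp] at h8
          rw [st.pen.fa, a01] at h7
          exact absurd ⟨h8, h7⟩ hp01
        · rfl)
    omega

end W2

/-- a route leaving the gadget by `l 2` gives weights which finish, if it is class-valid and the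
spine `p 3 - p 4` is not tight. Weights: `τ` 0, `c` 2, `c'` 1, killed darts 0, circuit edges of the
gadget (`f 0, f 1, f 2, f 3, f 4`) = (0, 2, 1, 1, 1), the weights of `exists_pz` on the passed
circuits, everything else 1; `t u = 1`. -/
theorem PW.exit2 (h : G.PW K F) {τ c c' : D} {p : ZMod 5 → V} {f l : ZMod 5 → D}
    (st : G.St K F τ c c' p f l) {A : Finset D} {u : V}
    (hA : G.Rt (G.nd K F (G.gd τ p)) G.vs (G.tg K F τ c') τ c' A u) (h2 : l 2 ∈ A)
    (hcl : ∀ X ⊆ G.vs, CSat (G.nd K F (G.gd τ p)) X → Odd X.card → 2 ≤ G.rv A u X)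
    (hsp : ∀ X ⊆ G.vs, (∀ v ∈ X, v ∉ G.gd τ p → G.nd K F (G.gd τ p) v ⊆ X) → Odd X.card →
      (X ∩ G.gd τ p = {p 1, p 2, p 3} ∨ X ∩ G.gd τ p = {p 4, p 0, G.pi τ}) → 3 ≤ G.rv A u X) :
    G.Win K F := by
  have hpart := st.part h
  obtain ⟨y, hy1, hy, hy3⟩ := exists_pz h.cls
    (A := A.filter fun d => G.pi d ∉ G.nd K F (G.gd τ p) u)
    (fun d hd => (hA.sub d (mem_filter.1 hd).1).1)
    (fun d hd => W2.A_nF h st hA (mem_filter.1 hd).1)
    (fun v => v ∈ G.gd τ p)
    (by
      intro v hna hg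
      obtain ⟨hvs, hK⟩ := W2.nabs_K hna
      obtain ⟨p', f', l', hp, -, hcir⟩ := h.cir_pen hvs hK
      rw [hcir]
      exact hp.card)
    (by
      intro v hna hg
      obtain ⟨hvs, hK⟩ := W2.nabs_K hna
      have hnd : G.nd K F (G.gd τ p) v = G.cir K F v := W2.nd_f hg hK
      by_cases hcl2 : v ∈ G.nd K F (G.gd τ p) u
      · left
        rw [card_eq_zero, filter_eq_empty_iff]
        intro d hd hd2
        rw [mem_filter] at hd
        apply hd.2
        rw [← hpart.eq u hA.um.1 v hcl2, hnd]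
        exact hd2
      · have h3 := hA.deg v hvs hcl2
        rw [hnd] at h3
        have h4 : (A.filter fun d => G.pi d ∉ G.nd K F (G.gd τ p) u).filter
            (fun d => G.pi d ∈ G.cir K F v) = A.filter fun d => G.pi d ∈ G.cir K F v := by
          rw [filter_filter]
          refine filter_congr fun d _ => ⟨fun e => e.2, fun e => ⟨fun e2 => hcl2 ?_, e⟩⟩
          have h5 := hpart.eq u hA.um.1 _ e2
          rw [← hnd] at e
          have h6 := hpart.eq v hvs _ e
          rw [← h5, h6]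
          exact hpart.self v hvs
        rw [h4]
        exact h3)
  have hw := W2.zw h st hA h2 hy1 hy
  refine ⟨W2.z G F τ c p f l A y, fun v => if v = u then 1 else 0, hw, ?_, ?_, ?_, ?_⟩
  · refine W2.zb h st hA h2 hy1 hy ?_ hcl hsp
    intro v hna hg W hW hv
    obtain ⟨hvs, hK⟩ := W2.nabs_K hna
    exact hy3 _ _ hw (fun d hd _ hdg => W2.z_y hd hdg) v hna hg
      (fun w hw2 => W2.cir_out h st hvs hK hg hw2) W hW hv
  · have h3 := W2.sum_tk h st hA h2 (y := y)
    rw [sum_ite_eq', if_pos hA.um.1]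
    omega
  · exact W2.joined h st hA h2 hy1 hy
  · refine ⟨p 0, mem_ztch.2 ⟨st.pen.pv h.cls 0, f 0, st.pen.fm h.cls 0, st.pen.fp 0, ?_⟩,
      st.pen.nK 0⟩
    rw [W2.z_f0 h st]
    omega

end JP.CG
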