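import Pool.Agent.Lib.P5.Far
import Pool.Agent.Lib.P5.G4

/-! Exit 4 (MP_c95763_co, pentagon world). -/

set_option autoImplicit false
set_option linter.unusedSectionVars false
set_option linter.unusedVariables false

namespace JP.CG

open Finset Classical

variable {V D : Type*} {G : CG V D} {K : Finset V} {F : Finset D}

/-- the weights on the circuit edges of the gadget -/
def w4g (n : ℕ) (k : ZMod 5) : ℕ :=
  if k = 0 then 0 else if k = 1 then n else if k = 2 then 0 else if k = 3 then 2 else 1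

/-- the killed darts -/
noncomputable def k4 (G : CG V D) (τ : D) (l : ZMod 5 → D) (A : Finset D) : Finset D :=
  A ∪ ({τ, l 4} ∪ if G.al (l 1) ∈ A then {l 1, l 2} else ∅)

/-- the weights -/
noncomputable def z4 (G : CG V D) (F : Finset D) (τ c : D) (p : ZMod 5 → V) (f l : ZMod 5 → D)
    (g : D → ℕ) (A : Finset D) (d : D) : ℕ :=
  if d ∈ F then
    (if G.pi d ∈ univ.image p then G.wD f (w4g (if G.al (l 1) ∈ A then 3 else 2)) d else g d)
  else if d ∈ G.k4 τ l A then 0 else if d = c ∨ d = l 0 then 2 else 1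

lemma mem_k4 {τ : D} {l : ZMod 5 → D} {A : Finset D} {d : D} :
    d ∈ G.k4 τ l A ↔ d ∈ A ∨ d = τ ∨ d = l 4 ∨ (G.al (l 1) ∈ A ∧ (d = l 1 ∨ d = l 2)) := by
  unfold k4
  rw [mem_union, mem_union, mem_insert, mem_singleton]
  constructor
  · rintro (h | (h | h) | h)
    · exact Or.inl h
    · exact Or.inr (Or.inl h)
    · exact Or.inr (Or.inr (Or.inl h))
    · split_ifs at h with h1
      · rw [mem_insert, mem_singleton] at h
        exact Or.inr (Or.inr (Or.inr ⟨h1, h⟩))
      · exact absurd h (notMem_empty d)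
  · rintro (h | h | h | ⟨h1, h⟩)
    · exact Or.inl h
    · exact Or.inr (Or.inl (Or.inl h))
    · exact Or.inr (Or.inl (Or.inr h))
    · rw [if_pos h1, mem_insert, mem_singleton]
      exact Or.inr (Or.inr h)

/-- everything which is used about the route -/
structure R4x (G : CG V D) (K : Finset V) (F : Finset D) (τ c' : D) (p : ZMod 5 → V)
    (l : ZMod 5 → D) (A : Finset D) (u : V) : Prop where
  sub : ∀ d ∈ A, d ∈ G.ds ∧ G.pi d ∉ G.gd τ p
  n3 : G.al (l 3) ∉ A
  nc : G.al c' ∉ A
  m12 : G.al (l 1) ∈ A ↔ G.al (l 2) ∈ A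
  m4 : G.al (l 4) ∈ A
  cas : ∀ d ∈ A, d = G.al (l 1) ∨ d = G.al (l 2) ∨ d = G.al (l 4) ∨
    ((∀ i, i ≠ 0 → d ≠ G.al (l i)) ∧ d ≠ G.al c' ∧ G.al d ∈ A ∧ G.al d ≠ d)
  nF : ∀ d ∈ A, d ∉ F
  uv : u ∈ G.vs
  ug : u ∉ G.gd τ p
  uT : u ∈ G.tg K F τ c'
  land : ∃ d ∈ A, G.pi d = u ∧ ∀ d' ∈ A, G.pi d' ∈ G.nd K F (G.gd τ p) u → d' = d
  deg : ∀ v ∈ G.vs, v ∉ G.gd τ p → v ∉ G.nd K F (G.gd τ p) u →
    (A.filter fun d => G.pi d ∈ G.nd K F (G.gd τ p) v).card = 0 ∨
    (A.filter fun d => G.pi d ∈ G.nd K F (G.gd τ p) v).card = 2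
  off : ∀ d ∈ A, G.pi d ∈ G.tg K F τ c' → G.pi d ∈ G.nd K F (G.gd τ p) u

variable {τ c c' : D} {p : ZMod 5 → V} {f l : ZMod 5 → D} {A : Finset D} {u : V}

lemma Rt.r4x (st : G.St K F τ c c' p f l) (h : G.PW K F)
    (hA : (G.g4 st h).Rt (G.nd K F (G.gd τ p)) (G.vs \ G.gd τ p) (G.tg K F τ c') (G.al (l 4))
      (G.al (l 3)) A u) : G.R4x K F τ c' p l A u := by
  have hll : ∀ i j : ZMod 5, i ≠ j → G.al (l i) ≠ G.al (l j) := fun i j hij => st.g4_ll hij
  have hcl := st.g4_cl h
  have hsub : ∀ d ∈ A, d ∈ G.ds ∧ G.pi d ∉ G.gd τ p := by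
    intro d hd
    have h1 := hA.sub d hd
    have h2 : d ∈ G.ds.filter fun d => G.pi d ∉ G.gd τ p := h1.1
    exact mem_filter.1 h2
  have hclo : ∀ d ∈ A, d ≠ G.al (l 4) → G.al4 c' l d ≠ d ∧ G.al4 c' l d ∈ A ∧
      G.al4 c' l d ≠ G.al (l 4) := hA.clo
  have e3 : G.al4 c' l (G.al (l 3)) = if G.al c' = c' then G.al (l 3) else G.al c' :=
    al4_3 (hll 3 1 (by decide)) (hll 3 2 (by decide))
  have hn3 : G.al (l 3) ∉ A := by
    intro h1
    have h2 := hclo _ h1 (hll 3 4 (by decide))
    have h3 : G.al4 c' l (G.al (l 3)) ≠ G.al (l 3) → G.al (l 3) ∉ A ∧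
      G.al4 c' l (G.al (l 3)) ∉ A := hA.nphi
    exact (h3 h2.1).1 h1
  have hnc : G.al c' ∉ A := by
    intro h1
    by_cases h2 : G.al c' = c'
    · apply (hsub _ h1).2
      rw [h2, st.pc']
      exact St.g4_sgd
    · have h3 : G.al4 c' l (G.al (l 3)) ≠ G.al (l 3) → G.al (l 3) ∉ A ∧
        G.al4 c' l (G.al (l 3)) ∉ A := hA.nphi
      rw [e3, if_neg h2] at h3
      exact (h3 (hcl 3)).2 h1
  have hcas : ∀ d ∈ A, d = G.al (l 1) ∨ d = G.al (l 2) ∨ d = G.al (l 4) ∨
      ((∀ i, i ≠ 0 → d ≠ G.al (l i)) ∧ d ≠ G.al c' ∧ G.al d ∈ A ∧ G.al d ≠ d) := by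
    intro d hd
    rcases G.al4_cases c' l d with h1 | h1 | h1 | h1 | h1 | ⟨h1, h2⟩
    · exact Or.inl h1
    · exact Or.inr (Or.inl h1)
    · exact absurd (h1 ▸ hd) hn3
    · exact Or.inr (Or.inr (Or.inl h1))
    · exact absurd (h1 ▸ hd) hnc
    · have h3 := hclo d hd (h1 4 (by decide))
      rw [al4_g h1 h2] at h3
      exact Or.inr (Or.inr (Or.inr ⟨h1, h2, h3.2.1, h3.1⟩))
  have hm12 : G.al (l 1) ∈ A ↔ G.al (l 2) ∈ A := by
    constructor
    · intro h1
      have h2 := hclo _ h1 (hll 1 4 (by decide))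
      rw [al4_1] at h2
      exact h2.2.1
    · intro h1
      have h2 := hclo _ h1 (hll 2 4 (by decide))
      rw [al4_2 (hll 2 1 (by decide))] at h2
      exact h2.2.1
  have hnF : ∀ d ∈ A, d ∉ F := by
    intro d hd hF
    have hlF : ∀ i, G.al (l i) ∉ F := fun i hi => by
      have := h.cls.Fal _ hi
      rw [G.al_al _ (st.pen.lm i)] at this
      exact st.pen.lF i this
    rcases hcas d hd with h1 | h1 | h1 | ⟨h1, h2, h3, h4⟩
    · exact hlF 1 (h1 ▸ hF)
    · exact hlF 2 (h1 ▸ hF)
    · exact hlF 4 (h1 ▸ hF)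
    · have h5 : G.pi (G.al4 c' l d) ∉ G.nd K F (G.gd τ p) (G.pi d) :=
        hA.nl d hd (h1 4 (by decide))
      rw [al4_g h1 h2] at h5
      apply h5
      unfold nd
      rw [if_neg (hsub d hd).2, if_neg (h.full.out d hF)]
      exact cir_mem_al h.cls hF
  have hu := mem_sdiff.1 hA.um.1
  exact
    { sub := hsub
      n3 := hn3
      nc := hnc
      m12 := hm12
      m4 := hA.mem
      cas := hcas
      nF := hnF
      uv := hu.1
      ug := hu.2
      uT := hA.um.2
      land := hA.land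
      deg := fun v hv hg hn => hA.deg v (mem_sdiff.2 ⟨hv, hg⟩) hn
      off := hA.off }

section W4

variable (st : G.St K F τ c c' p f l) (h : G.PW K F) (r : G.R4x K F τ c' p l A u)
include st h r

lemma k4_out {d : D} (hg : G.pi d ∉ G.gd τ p) : d ∈ G.k4 τ l A ↔ d ∈ A := by
  rw [mem_k4]
  constructor
  · rintro (h1 | h1 | h1 | ⟨-, h1 | h1⟩)
    · exact h1
    · exact absurd (by rw [h1]; exact St.g4_sgd) hg
    · exact absurd (by rw [h1, st.pen.lp]; exact St.g4_pgd _) hg
    · exact absurd (by rw [h1, st.pen.lp]; exact St.g4_pgd _) hg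
    · exact absurd (by rw [h1, st.pen.lp]; exact St.g4_pgd _) hg
  · exact Or.inl

lemma k4_sym {d : D} (hd : d ∈ G.ds) (hk : d ∈ G.k4 τ l A) : G.al d ∈ G.k4 τ l A := by
  rw [mem_k4] at hk ⊢
  rcases hk with h1 | h1 | h1 | ⟨h0, h1 | h1⟩
  · rcases r.cas d h1 with h2 | h2 | h2 | ⟨-, -, h2, -⟩
    · rw [h2, G.al_al _ (st.pen.lm 1)]
      exact Or.inr (Or.inr (Or.inr ⟨h2 ▸ h1, Or.inl rfl⟩))
    · rw [h2, G.al_al _ (st.pen.lm 2)]
      exact Or.inr (Or.inr (Or.inr ⟨r.m12.2 (h2 ▸ h1), Or.inr rfl⟩))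
    · rw [h2, G.al_al _ (st.pen.lm 4)]
      exact Or.inr (Or.inr (Or.inl rfl))
    · exact Or.inl h2
  · rw [h1, st.tτ]
    exact Or.inr (Or.inl rfl)
  · rw [h1]
    exact Or.inl r.m4
  · rw [h1]
    exact Or.inl h0
  · rw [h1]
    exact Or.inl (r.m12.1 h0)

lemma k4_F {d : D} (hF : d ∈ F) : d ∉ G.k4 τ l A := by
  rw [mem_k4]
  rintro (h1 | h1 | h1 | ⟨-, h1 | h1⟩)
  · exact r.nF d h1 hF
  · exact h.cls.Ftok d hF (by rw [h1]; exact st.tτ)
  · exact st.pen.lF 4 (h1 ▸ hF)
  · exact st.pen.lF 1 (h1 ▸ hF)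
  · exact st.pen.lF 2 (h1 ▸ hF)

lemma w4_cF : c ∉ F := fun hF => h.full.out c hF (by rw [st.pc]; exact st.sK h.cls)

lemma w4_cF' : c' ∉ F := fun hF => h.full.out c' hF (by rw [st.pc']; exact st.sK h.cls)

lemma w4_cA : c ∉ G.k4 τ l A := by
  rw [mem_k4]
  have hn : ∀ i, c ≠ l i := fun i hi => st.s_ne h.cls i (by rw [← st.pc, hi, st.pen.lp])
  rintro (h1 | h1 | h1 | ⟨-, h1 | h1⟩)
  · exact (r.sub c h1).2 (by rw [st.pc]; exact St.g4_sgd)
  · exact st.n1 h1.symm
  · exact hn 4 h1
  · exact hn 1 h1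
  · exact hn 2 h1

lemma w4_cA' : c' ∉ G.k4 τ l A := by
  rw [mem_k4]
  have hn : ∀ i, c' ≠ l i := fun i hi => st.s_ne h.cls i (by rw [← st.pc', hi, st.pen.lp])
  rintro (h1 | h1 | h1 | ⟨-, h1 | h1⟩)
  · exact (r.sub c' h1).2 (by rw [st.pc']; exact St.g4_sgd)
  · exact st.n2 h1.symm
  · exact hn 4 h1
  · exact hn 1 h1
  · exact hn 2 h1

lemma w4_lA {i : ZMod 5} (hi : i = 0 ∨ i = 3 ∨ (G.al (l 1) ∉ A ∧ (i = 1 ∨ i = 2))) :
    l i ∉ G.k4 τ l A := by
  rw [mem_k4]
  have hj : ∀ j, l i = l j → i = j := fun j hj => st.pen.l_inj hj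
  rintro (h1 | h1 | h1 | ⟨h0, h1⟩)
  · exact (r.sub _ h1).2 (by rw [st.pen.lp]; exact St.g4_pgd i)
  · exact st.s_ne h.cls i (by rw [← h1, st.pen.lp])
  · have h2 := hj 4 h1
    rcases hi with h3 | h3 | ⟨-, h3 | h3⟩ <;> rw [h2] at h3 <;> revert h3 <;> decide
  · have h2 : i = 1 ∨ i = 2 := by
      rcases h1 with h1 | h1
      · exact Or.inl (hj 1 h1)
      · exact Or.inr (hj 2 h1)
    rcases hi with h3 | h3 | ⟨h3, -⟩
    · rw [h3] at h2; revert h2; decide
    · rw [h3] at h2; revert h2; decide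
    · exact h3 h0

lemma z4_A {g : D → ℕ} {d : D} (hd : d ∈ G.k4 τ l A) : G.z4 F τ c p f l g A d = 0 := by
  unfold z4
  rw [if_neg (fun hF => k4_F st h r hF hd), if_pos hd]

lemma z4_one {g : D → ℕ} {d : D} (hF : d ∉ F) (hk : d ∉ G.k4 τ l A) (h1 : d ≠ c) (h2 : d ≠ l 0) :
    G.z4 F τ c p f l g A d = 1 := by
  unfold z4
  rw [if_neg hF, if_neg hk, if_neg]
  rintro (h3 | h3)
  · exact h1 h3
  · exact h2 h3

lemma z4_c {g : D → ℕ} : G.z4 F τ c p f l g A c = 2 := by
  unfold z4
  rw [if_neg (w4_cF st h r), if_neg (w4_cA st h r), if_pos (Or.inl rfl)]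

lemma z4_l0 {g : D → ℕ} : G.z4 F τ c p f l g A (l 0) = 2 := by
  unfold z4
  rw [if_neg (st.pen.lF 0), if_neg (w4_lA st h r (Or.inl rfl)), if_pos (Or.inr rfl)]

lemma z4_out {g : D → ℕ} {d : D} (hF : d ∉ F) (hg : G.pi d ∉ G.gd τ p) :
    G.z4 F τ c p f l g A d = if d ∈ A then 0 else 1 := by
  by_cases h1 : d ∈ A
  · rw [if_pos h1]
    exact z4_A st h r ((k4_out st h r hg).2 h1)
  · rw [if_neg h1]
    refine z4_one st h r hF (fun h2 => h1 ((k4_out st h r hg).1 h2)) ?_ ?_
    · rintro rfl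
      exact hg (by rw [st.pc]; exact St.g4_sgd)
    · rintro rfl
      exact hg (by rw [st.pen.lp]; exact St.g4_pgd _)

lemma z4_f {g : D → ℕ} (k : ZMod 5) : G.z4 F τ c p f l g A (f k) =
    w4g (if G.al (l 1) ∈ A then 3 else 2) k := by
  unfold z4
  rw [if_pos (st.pen.fF k), if_pos (by rw [st.pen.fp]; exact mem_image_of_mem _ (mem_univ _)),
    wD_f st.pen h.cls]

lemma z4_fa {g : D → ℕ} (k : ZMod 5) : G.z4 F τ c p f l g A (G.al (f k)) =
    w4g (if G.al (l 1) ∈ A then 3 else 2) k := by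
  unfold z4
  rw [if_pos (h.cls.Fal _ (st.pen.fF k)),
    if_pos (by rw [st.pen.fa]; exact mem_image_of_mem _ (mem_univ _)), wD_fa st.pen h.cls]

lemma z4_Fout {g : D → ℕ} {d : D} (hF : d ∈ F) (hg : G.pi d ∉ G.gd τ p) :
    G.z4 F τ c p f l g A d = g d := by
  unfold z4
  rw [if_pos hF, if_neg]
  intro h1
  apply hg
  unfold gd
  exact mem_insert_of_mem h1

lemma w4_alc {d : D} (hd : d ∈ G.ds) : (G.al d = c ∨ G.al d = l 0) ↔ (d = c ∨ d = l 0) := by
  have h1 : G.al (l 0) = c := by rw [← st.ac, G.al_al c st.mc]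
  constructor
  · rintro (h2 | h2)
    · right
      rw [← G.al_al d hd, h2, st.ac]
    · left
      rw [← G.al_al d hd, h2, h1]
  · rintro (h2 | h2)
    · right
      rw [h2, st.ac]
    · left
      rw [h2, h1]

lemma z4_sym {g : D → ℕ} (hg : ∀ d ∈ F, g (G.al d) = g d) {d : D} (hd : d ∈ G.ds) :
    G.z4 F τ c p f l g A (G.al d) = G.z4 F τ c p f l g A d := by
  by_cases hF : d ∈ F
  · by_cases hp : G.pi d ∈ univ.image p
    · obtain ⟨k, hk | hk⟩ := far_mem st.pen h.cls hF hp
      · rw [hk, z4_f st h r, z4_fa st h r]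
      · rw [hk, G.al_al _ (h.cls.Fsub (st.pen.fF k)), z4_f st h r, z4_fa st h r]
    · have hp' : G.pi (G.al d) ∉ univ.image p := by
        intro h1
        apply hp
        have := (st.pen.adm h.cls).clo _ (h.cls.Fal d hF) h1
        rwa [G.al_al d hd] at this
      unfold z4
      rw [if_pos hF, if_pos (h.cls.Fal d hF), if_neg hp, if_neg hp', hg d hF]
  · have hF' : G.al d ∉ F := by
      intro h1
      apply hF
      have := h.cls.Fal _ h1
      rwa [G.al_al d hd] at this
    unfold z4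
    rw [if_neg hF, if_neg hF']
    by_cases hk : d ∈ G.k4 τ l A
    · rw [if_pos hk, if_pos (k4_sym st h r hd hk)]
    · have hk' : G.al d ∉ G.k4 τ l A := by
        intro h1
        apply hk
        have := k4_sym st h r (G.al_mem d hd) h1
        rwa [G.al_al d hd] at this
      rw [if_neg hk, if_neg hk']
      have h1 := w4_alc st h r hd
      by_cases h2 : d = c ∨ d = l 0
      · rw [if_pos h2, if_pos (h1.2 h2)]
      · rw [if_neg h2, if_neg (fun h3 => h2 (h1.1 h3))]

/-! ### sums -/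

lemma w4_land : ∃ d0 ∈ A, G.pi d0 = u ∧
    (A.filter fun d => G.pi d ∈ G.nd K F (G.gd τ p) u) = {d0} := by
  obtain ⟨d0, h1, h2, h3⟩ := r.land
  refine ⟨d0, h1, h2, ?_⟩
  ext d
  rw [mem_filter, mem_singleton]
  constructor
  · rintro ⟨h4, h5⟩
    exact h3 d h4 h5
  · rintro rfl
    refine ⟨h1, ?_⟩
    rw [h2]
    exact (st.part h).self u r.uv

lemma w4_nd {v : V} (hv : v ∈ G.vs) (hg : v ∉ G.gd τ p) (hK : v ∉ K) :
    G.nd K F (G.gd τ p) v = G.cir K F v := by
  unfold nd
  rw [if_neg hg, if_neg hK]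

/-- number of killed darts at a vertex -/
lemma w4_u : (A.filter fun d => G.pi d = u).card = 1 := by
  obtain ⟨d0, h1, h2, h3⟩ := w4_land st h r
  rw [card_eq_one]
  refine ⟨d0, ?_⟩
  ext d
  rw [mem_filter, mem_singleton]
  constructor
  · rintro ⟨h4, h5⟩
    rw [← mem_singleton, ← h3, mem_filter, h5]
    exact ⟨h4, (st.part h).self u r.uv⟩
  · rintro rfl
    exact ⟨h1, h2⟩

lemma w4_K {v : V} (hv : v ∈ G.vs) (hg : v ∉ G.gd τ p) (hK : v ∈ K) (hu : v ≠ u) :
    (A.filter fun d => G.pi d = v).card = 0 := by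
  rw [card_eq_zero, filter_eq_empty_iff]
  intro d hd hp
  have h1 : v ∈ G.tg K F τ c' := by
    unfold tg
    refine mem_union_left _ (mem_erase.2 ⟨?_, hK⟩)
    rintro rfl
    exact hg St.g4_sgd
  have h2 := r.off d hd (by rw [hp]; exact h1)
  rw [hp] at h2
  have h3 := (st.part h).eq u r.uv v h2
  have h4 := (st.part h).self u r.uv
  rw [← h3] at h4
  unfold nd at h4
  rw [if_neg hg, if_pos hK, mem_singleton] at h4
  exact hu h4.symm

lemma w4_fr {v : V} (hv : v ∈ G.vs) (hg : v ∉ G.gd τ p) (hK : v ∉ K) :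
    ((A.filter fun d => G.pi d ∈ G.cir K F v).card = 2 → v ≠ u) ∧
    ((A.filter fun d => G.pi d ∈ G.cir K F v).card ≠ 2 →
      (A.filter fun d => G.pi d = v).card = if v = u then 1 else 0) ∧
    (A.filter fun d => G.pi d ∈ G.cir K F v).card ≤ 2 := by
  obtain ⟨d0, h1, h2, h3⟩ := w4_land st h r
  have hnd := w4_nd st h r hv hg hK
  rw [← hnd]
  by_cases hc : v ∈ G.nd K F (G.gd τ p) u
  · have he := (st.part h).eq u r.uv v hc
    rw [he, h3, card_singleton]
    refine ⟨fun h4 => absurd h4 (by decide), fun _ => ?_, by decide⟩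
    split_ifs with h5
    · rw [h5]
      exact w4_u st h r
    · rw [card_eq_zero, filter_eq_empty_iff]
      intro d hd hp
      have h6 : d ∈ A.filter fun d => G.pi d ∈ G.nd K F (G.gd τ p) u := by
        rw [mem_filter, hp]
        exact ⟨hd, hc⟩
      rw [h3, mem_singleton] at h6
      rw [h6, h2] at hp
      exact h5 hp.symm
  · have hne : v ≠ u := by
      rintro rfl
      exact hc ((st.part h).self v hv)
    refine ⟨fun _ => hne, fun h4 => ?_, ?_⟩
    · rw [if_neg hne]
      rcases r.deg v hv hg hc with h5 | h5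
      · rw [card_eq_zero, filter_eq_empty_iff] at h5 ⊢
        intro d hd hp
        apply h5 hd
        rw [hp]
        exact (st.part h).self v hv
      · exact absurd h5 h4
    · rcases r.deg v hv hg hc with h5 | h5 <;> omega

lemma z4_sum {g : D → ℕ}
    (hg2 : ∀ v ∈ G.vs, v ∉ K → v ∉ G.gd τ p → (∑ d ∈ F.filter fun d => G.pi d = v, g d) = 2 +
        if (A.filter fun d => G.pi d ∈ G.cir K F v).card = 2 then
          (A.filter fun d => G.pi d = v).card else 0) {v : V} (hv : v ∈ G.vs) :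
    (∑ d ∈ G.ds.filter fun d => G.pi d = v, G.z4 F τ c p f l g A d) +
      (if v = u then 1 else 0) = 3 := by
  by_cases hg : v ∈ G.gd τ p
  · have hu : v ≠ u := by
      rintro rfl
      exact r.ug hg
    rw [if_neg hu, add_zero]
    rcases St.mem_gd.1 hg with h1 | ⟨i, h1⟩
    · have he : (G.ds.filter fun d => G.pi d = v) = {τ, c, c'} := by
        ext d
        rw [mem_filter, mem_insert, mem_insert, mem_singleton, h1]
        constructor
        · rintro ⟨h2, h3⟩
          exact st.three h2 h3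
        · rintro (rfl | rfl | rfl)
          · exact ⟨st.mτ, rfl⟩
          · exact ⟨st.mc, st.pc⟩
          · exact ⟨st.mc', st.pc'⟩
      have m1 : τ ∉ ({c, c'} : Finset D) := by
        rw [mem_insert, mem_singleton]
        rintro (h2 | h2)
        · exact st.n1 h2
        · exact st.n2 h2
      have m2 : c ∉ ({c'} : Finset D) := by
        rw [mem_singleton]
        exact st.n3
      have m3 : c' ≠ l 0 := fun h2 => st.s_ne h.cls 0 (by rw [← st.pc', h2, st.pen.lp])
      rw [he, sum_insert m1, sum_insert m2, sum_singleton, z4_c st h r,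
        z4_A st h r (mem_k4.2 (Or.inr (Or.inl rfl))),
        z4_one st h r (w4_cF' st h r) (w4_cA' st h r) st.n3.symm m3]
      rfl
    · have he : (G.ds.filter fun d => G.pi d = v) = {f i, G.al (f (i - 1)), l i} := by
        ext d
        rw [mem_filter, mem_insert, mem_insert, mem_singleton, h1]
        constructor
        · rintro ⟨h2, h3⟩
          exact st.pen.three i d h2 h3
        · rintro (rfl | rfl | rfl)
          · exact ⟨h.cls.Fsub (st.pen.fF i), st.pen.fp i⟩
          · refine ⟨G.al_mem _ (h.cls.Fsub (st.pen.fF _)), ?_⟩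
            rw [st.pen.fa, sub_add_cancel]
          · exact ⟨st.pen.lm i, st.pen.lp i⟩
      have n1 : f i ∉ ({G.al (f (i - 1)), l i} : Finset D) := by
        rw [mem_insert, mem_singleton]
        rintro (h2 | h2)
        · exact far_ffa st.pen h.cls _ _ h2
        · exact st.pen.lF i (h2 ▸ st.pen.fF i)
      have n2 : G.al (f (i - 1)) ∉ ({l i} : Finset D) := by
        rw [mem_singleton]
        intro h2
        exact st.pen.lF i (h2 ▸ h.cls.Fal _ (st.pen.fF _))
      rw [he, sum_insert n1, sum_insert n2, sum_singleton, z4_f st h r, z4_fa st h r]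
      have hi : i = 0 ∨ i = 1 ∨ i = 2 ∨ i = 3 ∨ i = 4 :=
        (by decide : ∀ i : ZMod 5, i = 0 ∨ i = 1 ∨ i = 2 ∨ i = 3 ∨ i = 4) i
      have hl12 : ∀ j : ZMod 5, (j = 1 ∨ j = 2) → G.z4 F τ c p f l g A (l j) =
          if G.al (l 1) ∈ A then 0 else 1 := by
        intro j hj
        split_ifs with h2
        · refine z4_A st h r (mem_k4.2 (Or.inr (Or.inr (Or.inr ⟨h2, ?_⟩))))
          rcases hj with hj | hj
          · exact Or.inl (by rw [hj])
          · exact Or.inr (by rw [hj])
        · refine z4_one st h r (st.pen.lF j) (w4_lA st h r (Or.inr (Or.inr ⟨h2, hj⟩))) ?_ ?_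
          · intro h3
            exact st.s_ne h.cls j (by rw [← st.pc, ← h3, st.pen.lp])
          · intro h3
            have h4 := st.pen.l_inj h3
            rw [h4] at hj
            revert hj
            decide
      rcases hi with rfl | rfl | rfl | rfl | rfl
      · rw [z4_l0 st h r]
        have e : (0 : ZMod 5) - 1 = 4 := by decide
        rw [e]
        rfl
      · rw [hl12 1 (Or.inl rfl)]
        have e : (1 : ZMod 5) - 1 = 0 := by decide
        rw [e]
        split_ifs <;> rfl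
      · rw [hl12 2 (Or.inr rfl)]
        have e : (2 : ZMod 5) - 1 = 1 := by decide
        rw [e]
        split_ifs <;> rfl
      · have h3 : G.z4 F τ c p f l g A (l 3) = 1 := by
          refine z4_one st h r (st.pen.lF 3) (w4_lA st h r (Or.inr (Or.inl rfl))) ?_ ?_
          · intro h3
            exact st.s_ne h.cls 3 (by rw [← st.pc, ← h3, st.pen.lp])
          · intro h3
            have h4 := st.pen.l_inj h3
            revert h4
            decide
        rw [h3]
        have e : (3 : ZMod 5) - 1 = 2 := by decide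
        rw [e]
        rfl
      · rw [z4_A st h r (mem_k4.2 (Or.inr (Or.inr (Or.inl rfl))))]
        have e : (4 : ZMod 5) - 1 = 3 := by decide
        rw [e]
        rfl
  · have hc3 := G.cubic v hv
    by_cases hK : v ∈ K
    · have h1 : ∀ d ∈ G.ds.filter (fun d => G.pi d = v), G.z4 F τ c p f l g A d =
          if d ∈ A then 0 else 1 := by
        intro d hd
        rw [mem_filter] at hd
        refine z4_out st h r (fun hF => h.full.out d hF (by rw [hd.2]; exact hK)) ?_
        rw [hd.2]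
        exact hg
      rw [sum_congr rfl h1]
      have h2 : ∑ d ∈ G.ds.filter (fun d => G.pi d = v), (if d ∈ A then 0 else 1) +
          (A.filter fun d => G.pi d = v).card = 3 := by
        have h3 : (A.filter fun d => G.pi d = v) =
            (G.ds.filter (fun d => G.pi d = v)).filter fun d => d ∈ A := by
          ext d
          rw [mem_filter, mem_filter, mem_filter]
          exact ⟨fun h4 => ⟨⟨(r.sub d h4.1).1, h4.2⟩, h4.1⟩, fun h4 => ⟨h4.2, h4.1.2⟩⟩
        rw [h3, card_filter, ← sum_add_distrib, ← hc3, card_eq_sum_ones]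
        refine sum_congr rfl fun d _ => ?_
        split_ifs <;> rfl
      by_cases hu : v = u
      · rw [if_pos hu]
        have h4 := w4_u st h r
        rw [← hu] at h4
        omega
      · rw [if_neg hu]
        have h4 := w4_K st h r hv hg hK hu
        omega
    · have h2 : ∑ d ∈ (G.ds.filter (fun d => G.pi d = v)).filter (fun d => d ∉ F),
          G.z4 F τ c p f l g A d + (A.filter fun d => G.pi d = v).card = 1 := by
        have h3 : (A.filter fun d => G.pi d = v) =
            ((G.ds.filter (fun d => G.pi d = v)).filter (fun d => d ∉ F)).filter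
              fun d => d ∈ A := by
          ext d
          rw [mem_filter, mem_filter, mem_filter, mem_filter]
          exact ⟨fun h4 => ⟨⟨⟨(r.sub d h4.1).1, h4.2⟩, r.nF d h4.1⟩, h4.1⟩,
            fun h4 => ⟨h4.2, h4.1.1.2⟩⟩
        have h4 : ((G.ds.filter (fun d => G.pi d = v)).filter (fun d => d ∉ F)).card = 1 := by
          have h5 := card_filter_add_card_filter_not
            (s := G.ds.filter (fun d => G.pi d = v)) (fun d => d ∈ F)
          have h6 : ((G.ds.filter (fun d => G.pi d = v)).filter (fun d => d ∈ F)).card = 2 := by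
            rw [← h.cls.F2 v hv hK]
            congr 1
            ext d
            rw [mem_filter, mem_filter, mem_filter]
            exact ⟨fun h7 => ⟨h7.2, h7.1.2⟩, fun h7 => ⟨⟨h.cls.Fsub h7.1, h7.2⟩, h7.1⟩⟩
          omega
        rw [card_eq_sum_ones] at h4
        rw [h3, card_filter, ← sum_add_distrib]
        refine (sum_congr rfl fun d hd => ?_).trans h4
        rw [mem_filter, mem_filter] at hd
        rw [z4_out st h r hd.2 (by rw [hd.1.2]; exact hg)]
        split_ifs <;> rfl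
      have h5 : ∑ d ∈ (G.ds.filter (fun d => G.pi d = v)).filter (fun d => d ∈ F),
          G.z4 F τ c p f l g A d = ∑ d ∈ F.filter fun d => G.pi d = v, g d := by
        refine sum_congr ?_ ?_
        · ext d
          rw [mem_filter, mem_filter, mem_filter]
          exact ⟨fun h7 => ⟨h7.2, h7.1.2⟩, fun h7 => ⟨⟨h.cls.Fsub h7.1, h7.2⟩, h7.1⟩⟩
        · intro d hd
          rw [mem_filter] at hd
          exact z4_Fout st h r hd.1 (by rw [hd.2]; exact hg)
      rw [← sum_filter_add_sum_filter_not (G.ds.filter fun d => G.pi d = v) (fun d => d ∈ F), h5,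
        hg2 v hv hK hg]
      obtain ⟨h6, h7, -⟩ := w4_fr st h r hv hg hK
      by_cases h8 : (A.filter fun d => G.pi d ∈ G.cir K F v).card = 2
      · rw [if_pos h8, if_neg (h6 h8)]
        omega
      · rw [if_neg h8]
        have h9 := h7 h8
        omega

/-! ### tame classes -/

lemma z4_zin {g : D → ℕ} {P S : Finset V} {d : D} (hd : d ∈ G.ds) (h1 : G.pi d ∈ S)
    (h2 : G.pi (G.al d) ∈ P) (h3 : G.pi (G.al d) ∉ S) :
    G.z4 F τ c p f l g A d ≤ G.zin (G.z4 F τ c p f l g A) P S := by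
  unfold zin
  exact single_le_sum (f := G.z4 F τ c p f l g A) (fun _ _ => Nat.zero_le _)
    (mem_filter.2 ⟨hd, h1, h2, h3⟩)

lemma w4_f1 {g : D → ℕ} : 2 ≤ G.z4 F τ c p f l g A (f 1) := by
  rw [z4_f st h r]
  split_ifs <;> decide

lemma w4_f1a {g : D → ℕ} : 2 ≤ G.z4 F τ c p f l g A (G.al (f 1)) := by
  rw [z4_fa st h r]
  split_ifs <;> decide

lemma w4_z4 {g : D → ℕ} {k : ZMod 5} {n : ℕ}
    (hk : ∀ m : ℕ, w4g m k = n) : G.z4 F τ c p f l g A (f k) = n := by
  rw [z4_f st h r, hk]

lemma w4_z4a {g : D → ℕ} {k : ZMod 5} {n : ℕ}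
    (hk : ∀ m : ℕ, w4g m k = n) : G.z4 F τ c p f l g A (G.al (f k)) = n := by
  rw [z4_fa st h r, hk]

lemma tm12 {g : D → ℕ} (t : V → ℕ) : G.Tm (G.z4 F τ c p f l g A) t {p 1, p 2} := by
  intro S hS hn hne
  have hf1 : f 1 ∈ G.ds := h.cls.Fsub (st.pen.fF 1)
  have e1 : G.pi (f 1) = p 1 := st.pen.fp 1
  have e2 : G.pi (G.al (f 1)) = p 2 := st.pen.fa 1
  have key : 2 ≤ G.zin (G.z4 F τ c p f l g A) {p 1, p 2} S := by
    by_cases h1 : p 1 ∈ S
    · have h2 : p 2 ∉ S := by
        intro h2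
        apply hne
        apply Subset.antisymm hS
        intro v hv
        rw [mem_insert, mem_singleton] at hv
        rcases hv with rfl | rfl
        · exact h1
        · exact h2
      refine (w4_f1 st h r (g := g)).trans (z4_zin st h r hf1 ?_ ?_ ?_)
      · rw [e1]; exact h1
      · rw [e2]; simp
      · rw [e2]; exact h2
    · have h2 : p 2 ∈ S := by
        obtain ⟨v, hv⟩ := hn
        have h3 := hS hv
        rw [mem_insert, mem_singleton] at h3
        rcases h3 with rfl | rfl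
        · exact absurd hv h1
        · exact hv
      refine (w4_f1a st h r (g := g)).trans (z4_zin st h r (G.al_mem _ hf1) ?_ ?_ ?_)
      · rw [e2]; exact h2
      · rw [G.al_al _ hf1, e1]; simp
      · rw [G.al_al _ hf1, e1]; exact h1
  exact ⟨by omega, fun h1 => absurd h1 (by omega)⟩

lemma tmQ {g : D → ℕ} {t : V → ℕ} (ht : ∀ v ∈ G.gd τ p, t v = 0) :
    G.Tm (G.z4 F τ c p f l g A) t {p 3, p 4, p 0, G.pi τ} := by
  intro S hS hn hne
  have hfm : ∀ i, f i ∈ G.ds := fun i => h.cls.Fsub (st.pen.fF i)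
  have haa : ∀ i, G.al (G.al (f i)) = f i := fun i => G.al_al _ (hfm i)
  have e33 : G.pi (f 3) = p 3 := st.pen.fp 3
  have e34 : G.pi (G.al (f 3)) = p 4 := st.pen.fa 3
  have e44 : G.pi (f 4) = p 4 := st.pen.fp 4
  have e40 : G.pi (G.al (f 4)) = p 0 := by
    rw [st.pen.fa]
    rfl
  have hal0 : G.al (l 0) = c := by rw [← st.ac, G.al_al c st.mc]
  have w3 : ∀ m : ℕ, w4g m 3 = 2 := fun _ => rfl
  have w4 : ∀ m : ℕ, w4g m 4 = 1 := fun _ => rfl
  have w2 : ∀ m : ℕ, w4g m 2 = 0 := fun _ => rfl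
  have m3 : p 3 ∈ ({p 3, p 4, p 0, G.pi τ} : Finset V) := by simp
  have m4 : p 4 ∈ ({p 3, p 4, p 0, G.pi τ} : Finset V) := by simp
  have m0 : p 0 ∈ ({p 3, p 4, p 0, G.pi τ} : Finset V) := by simp
  have ms : G.pi τ ∈ ({p 3, p 4, p 0, G.pi τ} : Finset V) := by simp
  have n34 : (3 : ZMod 5) ≠ 4 := by decide
  have hz : G.zex (G.z4 F τ c p f l g A) t {p 3, p 4, p 0, G.pi τ} {p 3, p 4} ≤ 1 := by
    unfold zex
    have h1 : ∑ v ∈ ({p 3, p 4} : Finset V), t v = 0 := by
      apply sum_eq_zero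
      intro v hv
      rw [mem_insert, mem_singleton] at hv
      apply ht
      rcases hv with rfl | rfl
      · exact St.g4_pgd _
      · exact St.g4_pgd _
    rw [h1, add_zero]
    have h2 : G.ds.filter (fun d => G.pi d ∈ ({p 3, p 4} : Finset V) ∧ (G.al d = d ∨
        G.pi (G.al d) ∉ ({p 3, p 4, p 0, G.pi τ} : Finset V))) ⊆ {G.al (f 2), l 3, l 4} := by
      intro d hd
      rw [mem_filter, mem_insert, mem_singleton] at hd
      obtain ⟨hd1, hd2, hd3⟩ := hd
      rw [mem_insert, mem_insert, mem_singleton]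
      have hF : d ∈ F → G.al d ≠ d := fun hF => h.cls.Ftok d hF
      have e1 : (3 : ZMod 5) - 1 = 2 := by decide
      have e2 : (4 : ZMod 5) - 1 = 3 := by decide
      rcases hd2 with hd2 | hd2
      · rcases st.pen.three 3 d hd1 hd2 with h3 | h3 | h3
        · exfalso
          rcases hd3 with hd3 | hd3
          · exact hF (h3 ▸ st.pen.fF 3) hd3
          · apply hd3
            rw [h3, e34]
            exact m4
        · rw [e1] at h3
          exact Or.inl h3
        · exact Or.inr (Or.inl h3)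
      · rcases st.pen.three 4 d hd1 hd2 with h3 | h3 | h3
        · exfalso
          rcases hd3 with hd3 | hd3
          · exact hF (h3 ▸ st.pen.fF 4) hd3
          · apply hd3
            rw [h3, e40]
            exact m0
        · exfalso
          rw [e2] at h3
          rcases hd3 with hd3 | hd3
          · exact hF (h3 ▸ h.cls.Fal _ (st.pen.fF 3)) hd3
          · apply hd3
            rw [h3, haa, e33]
            exact m3
        · exact Or.inr (Or.inr h3)
    refine (sum_le_sum_of_subset h2).trans ?_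
    have n1 : G.al (f 2) ∉ ({l 3, l 4} : Finset D) := by
      rw [mem_insert, mem_singleton]
      rintro (h3 | h3)
      · exact st.pen.lF 3 (h3 ▸ h.cls.Fal _ (st.pen.fF 2))
      · exact st.pen.lF 4 (h3 ▸ h.cls.Fal _ (st.pen.fF 2))
    have n2 : l 3 ∉ ({l 4} : Finset D) := by
      rw [mem_singleton]
      intro h3
      exact n34 (st.pen.l_inj h3)
    have h3 : G.z4 F τ c p f l g A (l 3) = 1 := by
      refine z4_one st h r (st.pen.lF 3) (w4_lA st h r (Or.inr (Or.inl rfl))) ?_ ?_
      · intro h3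
        exact st.s_ne h.cls 3 (by rw [← st.pc, ← h3, st.pen.lp])
      · intro h3
        have h4 := st.pen.l_inj h3
        revert h4
        decide
    rw [sum_insert n1, sum_insert n2, sum_singleton, w4_z4a st h r w2, h3,
      z4_A st h r (mem_k4.2 (Or.inr (Or.inr (Or.inl rfl))))]
    decide
  have c34 : Even ({p 3, p 4} : Finset V).card := by
    rw [card_pair]
    · decide
    · intro h2
      exact n34 (st.pen.inj h2)
  have big : ∀ d ∈ G.ds, 2 ≤ G.z4 F τ c p f l g A d → G.pi d ∈ S →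
      G.pi (G.al d) ∈ ({p 3, p 4, p 0, G.pi τ} : Finset V) → G.pi (G.al d) ∉ S →
      1 ≤ G.zin (G.z4 F τ c p f l g A) {p 3, p 4, p 0, G.pi τ} S ∧
      (G.zin (G.z4 F τ c p f l g A) {p 3, p 4, p 0, G.pi τ} S ≤ 1 → ∃ S',
        (S' = S ∨ S' = ({p 3, p 4, p 0, G.pi τ} : Finset V) \ S) ∧ Even S'.card ∧
        G.zex (G.z4 F τ c p f l g A) t {p 3, p 4, p 0, G.pi τ} S' ≤ 1) := by
    intro d hd h1 h2 h3 h4
    have h5 := h1.trans (z4_zin st h r hd h2 h3 h4)
    exact ⟨by omega, fun h6 => absurd h6 (by omega)⟩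
  -- the cut edges 3-4 and 0-s
  by_cases a34 : p 3 ∈ S ↔ p 4 ∈ S
  swap
  · by_cases a3 : p 3 ∈ S
    · have a4 : p 4 ∉ S := fun h1 => a34 ⟨fun _ => h1, fun _ => a3⟩
      exact big (f 3) (hfm 3) (w4_z4 st h r w3).ge (e33 ▸ a3) (e34 ▸ m4) (e34 ▸ a4)
    · have a4 : p 4 ∈ S := by
        by_contra h1
        exact a34 ⟨fun h2 => absurd h2 a3, fun h2 => absurd h2 h1⟩
      refine big (G.al (f 3)) (G.al_mem _ (hfm 3)) (w4_z4a st h r w3).ge (e34 ▸ a4) ?_ ?_
      · rw [haa, e33]; exact m3
      · rw [haa, e33]; exact a3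
  by_cases a0s : p 0 ∈ S ↔ G.pi τ ∈ S
  swap
  · by_cases a0 : p 0 ∈ S
    · have as : G.pi τ ∉ S := fun h1 => a0s ⟨fun _ => h1, fun _ => a0⟩
      refine big (l 0) (st.pen.lm 0) (z4_l0 st h r).ge ?_ ?_ ?_
      · rw [st.pen.lp]; exact a0
      · rw [hal0, st.pc]; exact ms
      · rw [hal0, st.pc]; exact as
    · have as : G.pi τ ∈ S := by
        by_contra h1
        exact a0s ⟨fun h2 => absurd h2 a0, fun h2 => absurd h2 h1⟩
      refine big c st.mc (z4_c st h r).ge ?_ ?_ ?_
      · rw [st.pc]; exact as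
      · rw [st.ac, st.pen.lp]; exact m0
      · rw [st.ac, st.pen.lp]; exact a0
  by_cases a3 : p 3 ∈ S
  · have a4 := a34.1 a3
    have a0 : p 0 ∉ S := by
      intro a0
      have as := a0s.1 a0
      apply hne
      apply Subset.antisymm hS
      intro v hv
      simp only [mem_insert, mem_singleton] at hv
      rcases hv with rfl | rfl | rfl | rfl
      · exact a3
      · exact a4
      · exact a0
      · exact as
    have as : G.pi τ ∉ S := fun h1 => a0 (a0s.2 h1)
    have hSe : S = {p 3, p 4} := by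
      ext v
      rw [mem_insert, mem_singleton]
      constructor
      · intro hv
        have h2 := hS hv
        simp only [mem_insert, mem_singleton] at h2
        rcases h2 with h2 | h2 | h2 | h2
        · exact Or.inl h2
        · exact Or.inr h2
        · exact absurd (h2 ▸ hv) a0
        · exact absurd (h2 ▸ hv) as
      · rintro (rfl | rfl)
        · exact a3
        · exact a4
    refine ⟨?_, fun _ => ⟨S, Or.inl rfl, ?_, ?_⟩⟩
    · refine (w4_z4 st h r (g := g) w4).ge.trans (z4_zin st h r (hfm 4) ?_ ?_ ?_)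
      · rw [e44]; exact a4
      · rw [e40]; exact m0
      · rw [e40]; exact a0
    · rw [hSe]
      exact c34
    · rw [hSe]
      exact hz
  · have a4 : p 4 ∉ S := fun h1 => a3 (a34.2 h1)
    have a0 : p 0 ∈ S := by
      by_contra a0
      have as : G.pi τ ∉ S := fun h1 => a0 (a0s.2 h1)
      obtain ⟨v, hv⟩ := hn
      have h2 := hS hv
      simp only [mem_insert, mem_singleton] at h2
      rcases h2 with h2 | h2 | h2 | h2
      · exact a3 (h2 ▸ hv)
      · exact a4 (h2 ▸ hv)
      · exact a0 (h2 ▸ hv)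
      · exact as (h2 ▸ hv)
    have as := a0s.1 a0
    have hSe : ({p 3, p 4, p 0, G.pi τ} : Finset V) \ S = {p 3, p 4} := by
      ext v
      rw [mem_sdiff, mem_insert (s := {p 4}), mem_singleton]
      constructor
      · rintro ⟨h2, h3⟩
        simp only [mem_insert, mem_singleton] at h2
        rcases h2 with h2 | h2 | h2 | h2
        · exact Or.inl h2
        · exact Or.inr h2
        · exact absurd (h2 ▸ a0) h3
        · exact absurd (h2 ▸ as) h3
      · rintro (rfl | rfl)
        · exact ⟨m3, a3⟩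
        · exact ⟨m4, a4⟩
    refine ⟨?_, fun _ => ⟨_, Or.inr rfl, ?_, ?_⟩⟩
    · refine (w4_z4a st h r (g := g) w4).ge.trans (z4_zin st h r (G.al_mem _ (hfm 4)) ?_ ?_ ?_)
      · rw [e40]; exact a0
      · rw [haa, e44]; exact m4
      · rw [haa, e44]; exact a4
    · rw [hSe]
      exact c34
    · rw [hSe]
      exact hz

/-! ### the partition -/

/-- the classes -/
noncomputable def cl4 (G : CG V D) (K : Finset V) (F : Finset D) (τ : D) (p : ZMod 5 → V)
    (v : V) : Finset V :=
  if v = p 1 ∨ v = p 2 then {p 1, p 2} else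
  if v ∈ G.gd τ p then {p 3, p 4, p 0, G.pi τ} else G.nd K F (G.gd τ p) v

lemma w4_memgd {v : V} : v ∈ G.gd τ p ↔ (v = p 1 ∨ v = p 2) ∨
    (v = p 3 ∨ v = p 4 ∨ v = p 0 ∨ v = G.pi τ) := by
  rw [St.mem_gd]
  constructor
  · rintro (h1 | ⟨i, h1⟩)
    · exact Or.inr (Or.inr (Or.inr (Or.inr h1)))
    · have hi : i = 0 ∨ i = 1 ∨ i = 2 ∨ i = 3 ∨ i = 4 :=
        (by decide : ∀ i : ZMod 5, i = 0 ∨ i = 1 ∨ i = 2 ∨ i = 3 ∨ i = 4) i
      rcases hi with rfl | rfl | rfl | rfl | rfl
      · exact Or.inr (Or.inr (Or.inr (Or.inl h1)))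
      · exact Or.inl (Or.inl h1)
      · exact Or.inl (Or.inr h1)
      · exact Or.inr (Or.inl h1)
      · exact Or.inr (Or.inr (Or.inl h1))
  · rintro ((h1 | h1) | (h1 | h1 | h1 | h1))
    · exact Or.inr ⟨_, h1⟩
    · exact Or.inr ⟨_, h1⟩
    · exact Or.inr ⟨_, h1⟩
    · exact Or.inr ⟨_, h1⟩
    · exact Or.inr ⟨_, h1⟩
    · exact Or.inl h1

lemma w4_q {v : V} (hv : v ∈ ({p 3, p 4, p 0, G.pi τ} : Finset V)) :
    ¬ (v = p 1 ∨ v = p 2) ∧ v ∈ G.gd τ p := by
  simp only [mem_insert, mem_singleton] at hv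
  refine ⟨?_, (w4_memgd st h r).2 (Or.inr hv)⟩
  have hn : ∀ i j : ZMod 5, p i = p j → i = j := fun i j hij => st.pen.inj hij
  rintro (h1 | h1)
  · rcases hv with h2 | h2 | h2 | h2
    · exact absurd (hn _ _ (h1.symm.trans h2)) (by decide)
    · exact absurd (hn _ _ (h1.symm.trans h2)) (by decide)
    · exact absurd (hn _ _ (h1.symm.trans h2)) (by decide)
    · exact st.s_ne h.cls 1 (h2.symm.trans h1)
  · rcases hv with h2 | h2 | h2 | h2
    · exact absurd (hn _ _ (h1.symm.trans h2)) (by decide)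
    · exact absurd (hn _ _ (h1.symm.trans h2)) (by decide)
    · exact absurd (hn _ _ (h1.symm.trans h2)) (by decide)
    · exact st.s_ne h.cls 2 (h2.symm.trans h1)

/-- nodes outside the gadget stay outside -/
lemma w4_ndout {v w : V} (hv : v ∈ G.vs) (hg : v ∉ G.gd τ p)
    (hw : w ∈ G.nd K F (G.gd τ p) v) : w ∉ G.gd τ p := by
  intro h1
  have h2 := (st.part h).eq v hv w hw
  have h3 : G.nd K F (G.gd τ p) w = G.gd τ p := by
    unfold nd
    rw [if_pos h1]
  rw [h3] at h2
  have h4 := (st.part h).self v hv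
  rw [← h2] at h4
  exact hg h4

lemma cl4_part : G.Part (G.cl4 K F τ p) where
  self := by
    intro v hv
    unfold cl4
    split_ifs with h1 h2
    · rw [mem_insert, mem_singleton]
      exact h1
    · rcases (w4_memgd st h r).1 h2 with h3 | h3
      · exact absurd h3 h1
      · simp only [mem_insert, mem_singleton]
        exact h3
    · exact (st.part h).self v hv
  sub := by
    intro v hv
    have hgs := st.gd_sub h.cls
    unfold cl4
    split_ifs with h1 h2
    · intro w hw
      rw [mem_insert, mem_singleton] at hw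
      exact hgs ((w4_memgd st h r).2 (Or.inl hw))
    · intro w hw
      exact hgs (w4_q st h r hw).2
    · exact (st.part h).sub v hv
  eq := by
    intro v hv w hw
    by_cases h1 : v = p 1 ∨ v = p 2
    · unfold cl4 at hw ⊢
      rw [if_pos h1] at hw ⊢
      rw [mem_insert, mem_singleton] at hw
      rw [if_pos hw]
    · by_cases h2 : v ∈ G.gd τ p
      · unfold cl4 at hw ⊢
        rw [if_neg h1, if_pos h2] at hw ⊢
        obtain ⟨h3, h4⟩ := w4_q st h r hw
        rw [if_neg h3, if_pos h4]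
      · unfold cl4 at hw ⊢
        rw [if_neg h1, if_neg h2] at hw ⊢
        have h3 := w4_ndout st h r hv h2 hw
        have h4 : ¬ (w = p 1 ∨ w = p 2) := fun h5 => h3 ((w4_memgd st h r).2 (Or.inl h5))
        rw [if_neg h4, if_neg h3]
        exact (st.part h).eq v hv w hw

/-- all classes are tame -/
lemma cl4_tm {g : D → ℕ} (hg3 : ∀ v ∈ G.vs, v ∉ K → v ∉ G.gd τ p → ∀ (z : D → ℕ) (t : V → ℕ),
        (∀ d ∈ F, G.pi d ∈ G.cir K F v → z d = g d) →
        (∀ d ∈ G.ds, d ∉ F → G.pi d ∈ G.cir K F v → z d = if d ∈ A then 0 else 1) →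
        ((A.filter fun d => G.pi d ∈ G.cir K F v).card = 2 → ∀ w ∈ G.cir K F v, t w = 0) →
        G.Tm z t (G.cir K F v)) {v : V} (hv : v ∈ G.vs) :
    G.Tm (G.z4 F τ c p f l g A) (fun w => if w = u then 1 else 0) (G.cl4 K F τ p v) := by
  unfold cl4
  split_ifs with h1 h2
  · exact tm12 st h r _
  · refine tmQ st h r fun w hw => ?_
    rw [if_neg]
    rintro rfl
    exact r.ug hw
  · by_cases hK : v ∈ K
    · have h3 : G.nd K F (G.gd τ p) v = {v} := by
        unfold nd
        rw [if_neg h2, if_pos hK]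
      rw [h3]
      intro S hS hn hne
      exfalso
      rcases subset_singleton_iff.1 hS with h4 | h4
      · exact hn.ne_empty h4
      · exact hne h4
    · rw [w4_nd st h r hv h2 hK]
      have hout : ∀ w ∈ G.cir K F v, w ∉ G.gd τ p := by
        intro w hw
        rw [← w4_nd st h r hv h2 hK] at hw
        exact w4_ndout st h r hv h2 hw
      refine hg3 v hv hK h2 _ _ ?_ ?_ ?_
      · intro d hd hp
        exact z4_Fout st h r hd (hout _ hp)
      · intro d hd hF hp
        exact z4_out st h r hF (hout _ hp)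
      · intro h4 w hw
        rw [if_neg]
        rintro rfl
        have hwK : w ∉ K := (h.cir_adm hv hK).dis w hw
        have h5 := (w4_fr st h r r.uv r.ug hwK).1
        rw [cir_eq h.cls (St.nabs h hv hK) hw] at h5
        exact h5 h4 rfl

/-! ### saturated sets -/

lemma w4_val (hv3 : ∀ X ⊆ G.vs \ G.gd τ p, CSat (G.nd K F (G.gd τ p)) X → Odd X.card →
      3 ≤ (G.g4 st h).rv A u X) {g : D → ℕ} {X : Finset V} (hX : X ⊆ G.vs)
    (hs : CSat (G.cl4 K F τ p) X) (ho : Odd X.card) :
    2 ≤ G.zc (G.z4 F τ c p f l g A) (fun w => if w = u then 1 else 0) X := by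
  have hP := st.part h
  have hn : ∀ i j : ZMod 5, p i = p j → i = j := fun i j hij => st.pen.inj hij
  have hlj : ∀ i j : ZMod 5, l i = l j → i = j := fun i j hij => st.pen.l_inj hij
  -- saturation in the gadget
  have c1 : G.cl4 K F τ p (p 1) = {p 1, p 2} := by
    unfold cl4
    rw [if_pos (Or.inl rfl)]
  have c2 : G.cl4 K F τ p (p 2) = {p 1, p 2} := by
    unfold cl4
    rw [if_pos (Or.inr rfl)]
  have cq : ∀ v ∈ ({p 3, p 4, p 0, G.pi τ} : Finset V), G.cl4 K F τ p v =
      {p 3, p 4, p 0, G.pi τ} := by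
    intro v hv
    obtain ⟨h1, h2⟩ := w4_q st h r hv
    unfold cl4
    rw [if_neg h1, if_pos h2]
  have m3 : p 3 ∈ ({p 3, p 4, p 0, G.pi τ} : Finset V) := by simp
  have ms : G.pi τ ∈ ({p 3, p 4, p 0, G.pi τ} : Finset V) := by simp
  have s12 : p 1 ∈ X ↔ p 2 ∈ X := by
    constructor
    · intro h1
      have h2 := hs _ h1
      rw [c1] at h2
      exact h2 (by simp)
    · intro h1
      have h2 := hs _ h1
      rw [c2] at h2
      exact h2 (by simp)
  have sQ : ∀ v ∈ ({p 3, p 4, p 0, G.pi τ} : Finset V), v ∈ X →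
      ({p 3, p 4, p 0, G.pi τ} : Finset V) ⊆ X := by
    intro v hv hvX
    have h2 := hs _ hvX
    rwa [cq v hv] at h2
  have s3s : p 3 ∈ X ↔ G.pi τ ∈ X := ⟨fun h1 => sQ _ m3 h1 ms, fun h1 => sQ _ ms h1 m3⟩
  -- outside the gadget
  set Y := X \ G.gd τ p with hY
  have hYX : ∀ v, v ∉ G.gd τ p → (v ∈ Y ↔ v ∈ X) := by
    intro v hg
    rw [hY, mem_sdiff]
    exact ⟨fun h1 => h1.1, fun h1 => ⟨h1, hg⟩⟩
  have hYg : ∀ v ∈ Y, v ∉ G.gd τ p := fun v hv => (mem_sdiff.1 hv).2
  have hYs : Y ⊆ G.vs \ G.gd τ p := sdiff_subset_sdiff hX (Subset.refl _)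
  have hYc : CSat (G.nd K F (G.gd τ p)) Y := by
    intro v hv w hw
    have hg := hYg v hv
    have hvs := (mem_sdiff.1 (hYs hv)).1
    have h1 := w4_ndout st h r hvs hg hw
    rw [hYX w h1]
    have h2 := hs v ((hYX v hg).1 hv)
    apply h2
    unfold cl4
    have h4 : ¬ (v = p 1 ∨ v = p 2) := fun h5 => hg ((w4_memgd st h r).2 (Or.inl h5))
    rw [if_neg h4, if_neg hg]
    exact hw
  have hYo : Odd Y.card := by
    have h1 : (X ∩ G.gd τ p).card + Y.card = X.card := by
      rw [hY, add_comm]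
      exact card_sdiff_add_card_inter X (G.gd τ p)
    have h2 : X ∩ G.gd τ p = (X ∩ {p 1, p 2}) ∪ (X ∩ {p 3, p 4, p 0, G.pi τ}) := by
      ext v
      rw [mem_inter, mem_union, mem_inter, mem_inter, w4_memgd st h r]
      simp only [mem_insert, mem_singleton]
      constructor
      · rintro ⟨h2, h3 | h3⟩
        · exact Or.inl ⟨h2, h3⟩
        · exact Or.inr ⟨h2, h3⟩
      · rintro (⟨h2, h3⟩ | ⟨h2, h3⟩)
        · exact ⟨h2, Or.inl h3⟩
        · exact ⟨h2, Or.inr h3⟩
    have h3 : Disjoint (X ∩ {p 1, p 2}) (X ∩ {p 3, p 4, p 0, G.pi τ}) := by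
      rw [disjoint_left]
      intro v h4 h5
      rw [mem_inter, mem_insert, mem_singleton] at h4
      exact (w4_q st h r (mem_inter.1 h5).2).1 h4.2
    have h4 : Even (X ∩ {p 1, p 2}).card := by
      by_cases h5 : p 1 ∈ X
      · have h6 : X ∩ {p 1, p 2} = {p 1, p 2} := by
          apply inter_eq_right.2
          intro v hv
          rw [mem_insert, mem_singleton] at hv
          rcases hv with rfl | rfl
          · exact h5
          · exact s12.1 h5
        rw [h6, card_pair (fun h7 => absurd (hn _ _ h7) (by decide))]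
        decide
      · have h6 : X ∩ {p 1, p 2} = ∅ := by
          rw [eq_empty_iff_forall_notMem]
          intro v hv
          rw [mem_inter, mem_insert, mem_singleton] at hv
          rcases hv with ⟨h7, rfl | rfl⟩
          · exact h5 h7
          · exact h5 (s12.2 h7)
        rw [h6, card_empty]
        exact ⟨0, rfl⟩
    have h5 : Even (X ∩ {p 3, p 4, p 0, G.pi τ}).card := by
      by_cases h6 : p 3 ∈ X
      · rw [inter_eq_right.2 (sQ _ m3 h6), card_insert_of_notMem, card_insert_of_notMem,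
          card_insert_of_notMem, card_singleton]
        · decide
        · rw [mem_singleton]
          exact (st.s_ne h.cls 0).symm
        · rw [mem_insert, mem_singleton]
          rintro (h7 | h7)
          · exact absurd (hn _ _ h7) (by decide)
          · exact (st.s_ne h.cls 4).symm h7
        · rw [mem_insert, mem_insert, mem_singleton]
          rintro (h7 | h7 | h7)
          · exact absurd (hn _ _ h7) (by decide)
          · exact absurd (hn _ _ h7) (by decide)
          · exact (st.s_ne h.cls 3).symm h7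
      · have h7 : X ∩ {p 3, p 4, p 0, G.pi τ} = ∅ := by
          rw [eq_empty_iff_forall_notMem]
          intro v hv
          rw [mem_inter] at hv
          exact h6 (sQ v hv.2 hv.1 m3)
        rw [h7, card_empty]
        exact ⟨0, rfl⟩
    rw [h2, card_union_of_disjoint h3] at h1
    rw [← h1] at ho
    have h6 := h4.add h5
    exact (Nat.odd_add'.1 ho).2 h6
  have h3 := hv3 Y hYs hYc hYo
  rw [zc_wv]
  unfold wv
  unfold rv at h3
  rw [sum_ite_eq' X u (fun _ => 1)]
  have hu : (if u ∈ Y then 1 else 0) = (if u ∈ X then 1 else 0 : ℕ) := by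
    by_cases h4 : u ∈ X
    · rw [if_pos h4, if_pos ((hYX u r.ug).2 h4)]
    · rw [if_neg h4, if_neg (fun h5 => h4 ((hYX u r.ug).1 h5))]
  rw [hu] at h3
  have hll : ∀ i j : ZMod 5, i ≠ j → G.al (l i) ≠ G.al (l j) := fun i j hij => st.g4_ll hij
  have hcl := st.g4_cl h
  have hlF : ∀ i, G.al (l i) ∉ F := fun i hi => by
    have := h.cls.Fal _ hi
    rw [G.al_al _ (st.pen.lm i)] at this
    exact st.pen.lF i this
  have hcF : G.al c' ∉ F := fun hi => by
    have := h.cls.Fal _ hi
    rw [G.al_al _ st.mc'] at this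
    exact w4_cF' st h r this
  -- the map
  have key : ((G.g4 st h).sb Y \ A).card ≤ ∑ d ∈ G.sb X, G.z4 F τ c p f l g A d := by
    set m : D → D := fun d => if d = G.al (l 1) ∧ p 1 ∈ X then l 2 else
      if d = G.al (l 2) ∧ p 1 ∈ X then l 1 else
      if d = G.al (l 3) ∧ p 3 ∈ X then c' else
      if d = G.al c' ∧ p 3 ∈ X then l 3 else d with hm
    set n : D → D := fun x => if x = l 2 then G.al (l 1) else if x = l 1 then G.al (l 2) else
      if x = c' then G.al (l 3) else if x = l 3 then G.al c' else x with hnn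
    have hc'l : ∀ i, c' ≠ l i := fun i hi => st.s_ne h.cls i (by rw [← st.pc', hi, st.pen.lp])
    have hnid : ∀ x, G.pi x ∉ G.gd τ p → n x = x := by
      intro x hx
      have h1 : ∀ i, x ≠ l i := fun i hi => hx (by rw [hi, st.pen.lp]; exact St.g4_pgd i)
      have h2 : x ≠ c' := fun hi => hx (by rw [hi, st.pc']; exact St.g4_sgd)
      simp only [hnn]
      rw [if_neg (h1 2), if_neg (h1 1), if_neg h2, if_neg (h1 3)]
    have hn2 : n (l 2) = G.al (l 1) := if_pos rfl
    have hn1 : n (l 1) = G.al (l 2) := by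
      show (if l 1 = l 2 then G.al (l 1) else if l 1 = l 1 then G.al (l 2) else
        if l 1 = c' then G.al (l 3) else if l 1 = l 3 then G.al c' else l 1) = _
      rw [if_neg (fun h7 => absurd (hlj _ _ h7) (by decide)), if_pos rfl]
    have hnc : n c' = G.al (l 3) := by
      show (if c' = l 2 then G.al (l 1) else if c' = l 1 then G.al (l 2) else
        if c' = c' then G.al (l 3) else if c' = l 3 then G.al c' else c') = _
      rw [if_neg (hc'l 2), if_neg (hc'l 1), if_pos rfl]
    have hn3 : n (l 3) = G.al c' := by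
      show (if l 3 = l 2 then G.al (l 1) else if l 3 = l 1 then G.al (l 2) else
        if l 3 = c' then G.al (l 3) else if l 3 = l 3 then G.al c' else l 3) = _
      rw [if_neg (fun h7 => absurd (hlj _ _ h7) (by decide)),
        if_neg (fun h7 => absurd (hlj _ _ h7) (by decide)), if_neg (hc'l 3).symm, if_pos rfl]
    have hone : ∀ x, G.pi x ∉ G.gd τ p → x ∉ F → x ∉ A → 1 ≤ G.z4 F τ c p f l g A x := by
      intro x h1 h2 h3
      rw [z4_out st h r h2 h1, if_neg h3]
    have hl1 : ∀ j : ZMod 5, (j = 3 ∨ (G.al (l 1) ∉ A ∧ (j = 1 ∨ j = 2))) →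
        1 ≤ G.z4 F τ c p f l g A (l j) := by
      intro j hj
      apply ge_of_eq
      refine z4_one st h r (st.pen.lF j) (w4_lA st h r (Or.inr hj)) ?_ ?_
      · intro h3
        exact st.s_ne h.cls j (by rw [← st.pc, ← h3, st.pen.lp])
      · intro h3
        have h4 := hlj _ _ h3
        rw [h4] at hj
        revert hj
        have e1 : (0 : ZMod 5) ≠ 3 := by decide
        have e2 : (0 : ZMod 5) ≠ 1 := by decide
        have e3 : (0 : ZMod 5) ≠ 2 := by decide
        rintro (h5 | ⟨-, h5 | h5⟩)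
        · exact e1 h5
        · exact e2 h5
        · exact e3 h5
    have hc1 : 1 ≤ G.z4 F τ c p f l g A c' := by
      apply ge_of_eq
      exact z4_one st h r (w4_cF' st h r) (w4_cA' st h r) st.n3.symm (hc'l 0)
    have hmain : ∀ d ∈ (G.g4 st h).sb Y \ A, m d ∈ G.sb X ∧
        1 ≤ G.z4 F τ c p f l g A (m d) ∧ n (m d) = d := by
      intro d hd
      rw [mem_sdiff, mem_sb] at hd
      obtain ⟨⟨hd1, hd2, hd3⟩, hdA⟩ := hd
      have hd1' : d ∈ G.ds := (mem_filter.1 (show d ∈ G.ds.filter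
        (fun d => G.pi d ∉ G.gd τ p) from hd1)).1
      have hd2' : G.pi d ∈ Y := hd2
      have hd3' : G.al4 c' l d = d ∨ G.pi (G.al4 c' l d) ∉ Y := hd3
      have hdg := hYg _ hd2'
      have hdX := (hYX _ hdg).1 hd2'
      rcases G.al4_cases c' l d with he | he | he | he | he | ⟨k1, k2⟩
      · -- `o1`
        rw [he, al4_1] at hd3'
        have h4 : G.pi (G.al (l 2)) ∉ Y := by
          rcases hd3' with h5 | h5
          · exact absurd h5 (hll 2 1 (by decide))
          · exact h5
        rw [hYX _ (st.o_out h (by decide))] at h4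
        by_cases h5 : p 1 ∈ X
        · have h6 : m d = l 2 := by
            simp only [hm]
            rw [if_pos ⟨he, h5⟩]
          rw [h6]
          refine ⟨?_, hl1 2 (Or.inr ⟨he ▸ hdA, Or.inr rfl⟩), ?_⟩
          · rw [mem_sb, st.pen.lp]
            exact ⟨st.pen.lm 2, s12.1 h5, Or.inr h4⟩
          · rw [hn2, he]
        · have h6 : m d = d := by
            simp only [hm]
            rw [if_neg (fun h7 => h5 h7.2), if_neg (fun h7 => h5 h7.2),
              if_neg (fun h7 => hll 1 3 (by decide) (he.symm.trans h7.1)),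
              if_neg (fun h7 => hcl 1 (h7.1.symm.trans he))]
          rw [h6]
          refine ⟨?_, hone d hdg (he ▸ hlF 1) hdA, hnid d hdg⟩
          rw [mem_sb]
          refine ⟨hd1', hdX, Or.inr ?_⟩
          rw [he, G.al_al _ (st.pen.lm 1), st.pen.lp]
          exact h5
      · -- `o2`
        rw [he, al4_2 (hll 2 1 (by decide))] at hd3'
        have h4 : G.pi (G.al (l 1)) ∉ Y := by
          rcases hd3' with h5 | h5
          · exact absurd h5 (hll 1 2 (by decide))
          · exact h5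
        rw [hYX _ (st.o_out h (by decide))] at h4
        by_cases h5 : p 1 ∈ X
        · have h6 : m d = l 1 := by
            simp only [hm]
            rw [if_neg (fun h7 => hll 2 1 (by decide) (he.symm.trans h7.1)), if_pos ⟨he, h5⟩]
          rw [h6]
          refine ⟨?_, hl1 1 (Or.inr ⟨fun h7 => hdA (by rw [he]; exact r.m12.1 h7),
            Or.inl rfl⟩), ?_⟩
          · rw [mem_sb, st.pen.lp]
            exact ⟨st.pen.lm 1, h5, Or.inr h4⟩
          · rw [hn1, he]
        · have h6 : m d = d := by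
            simp only [hm]
            rw [if_neg (fun h7 => h5 h7.2), if_neg (fun h7 => h5 h7.2),
              if_neg (fun h7 => hll 2 3 (by decide) (he.symm.trans h7.1)),
              if_neg (fun h7 => hcl 2 (h7.1.symm.trans he))]
          rw [h6]
          refine ⟨?_, hone d hdg (he ▸ hlF 2) hdA, hnid d hdg⟩
          rw [mem_sb]
          refine ⟨hd1', hdX, Or.inr ?_⟩
          rw [he, G.al_al _ (st.pen.lm 2), st.pen.lp]
          exact fun h7 => h5 (s12.2 h7)
      · -- `o3`
        rw [he, al4_3 (hll 3 1 (by decide)) (hll 3 2 (by decide))] at hd3'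
        by_cases h5 : p 3 ∈ X
        · have h6 : m d = c' := by
            simp only [hm]
            rw [if_neg (fun h7 => hll 3 1 (by decide) (he.symm.trans h7.1)),
              if_neg (fun h7 => hll 3 2 (by decide) (he.symm.trans h7.1)), if_pos ⟨he, h5⟩]
          rw [h6]
          refine ⟨?_, hc1, ?_⟩
          · rw [mem_sb, st.pc']
            refine ⟨st.mc', s3s.1 h5, ?_⟩
            by_cases h7 : G.al c' = c'
            · exact Or.inl h7
            · right
              rw [if_neg h7] at hd3'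
              rcases hd3' with h8 | h8
              · exact absurd h8 (hcl 3)
              · rwa [hYX _ (st.c'_out h h7)] at h8
          · rw [hnc, he]
        · have h6 : m d = d := by
            simp only [hm]
            rw [if_neg (fun h7 => hll 3 1 (by decide) (he.symm.trans h7.1)),
              if_neg (fun h7 => hll 3 2 (by decide) (he.symm.trans h7.1)),
              if_neg (fun h7 => h5 h7.2), if_neg (fun h7 => h5 h7.2)]
          rw [h6]
          refine ⟨?_, hone d hdg (he ▸ hlF 3) hdA, hnid d hdg⟩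
          rw [mem_sb]
          refine ⟨hd1', hdX, Or.inr ?_⟩
          rw [he, G.al_al _ (st.pen.lm 3), st.pen.lp]
          exact h5
      · exact absurd (he ▸ r.m4) hdA
      · -- `c2`
        have h7 : G.al c' ≠ c' := by
          intro h8
          apply hdg
          rw [he, h8, st.pc']
          exact St.g4_sgd
        rw [he, al4_c hcl] at hd3'
        have h4 : G.pi (G.al (l 3)) ∉ Y := by
          rcases hd3' with h5 | h5
          · exact absurd h5.symm (hcl 3)
          · exact h5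
        rw [hYX _ (st.o_out h (by decide))] at h4
        by_cases h5 : p 3 ∈ X
        · have h6 : m d = l 3 := by
            simp only [hm]
            rw [if_neg (fun h7 => hcl 1 (he.symm.trans h7.1)),
              if_neg (fun h7 => hcl 2 (he.symm.trans h7.1)),
              if_neg (fun h7 => hcl 3 (he.symm.trans h7.1)), if_pos ⟨he, h5⟩]
          rw [h6]
          refine ⟨?_, hl1 3 (Or.inl rfl), ?_⟩
          · rw [mem_sb, st.pen.lp]
            exact ⟨st.pen.lm 3, h5, Or.inr h4⟩
          · rw [hn3, he]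
        · have h6 : m d = d := by
            simp only [hm]
            rw [if_neg (fun h7 => hcl 1 (he.symm.trans h7.1)),
              if_neg (fun h7 => hcl 2 (he.symm.trans h7.1)),
              if_neg (fun h7 => h5 h7.2), if_neg (fun h7 => h5 h7.2)]
          rw [h6]
          refine ⟨?_, hone d hdg (he ▸ hcF) hdA, hnid d hdg⟩
          rw [mem_sb]
          refine ⟨hd1', hdX, Or.inr ?_⟩
          rw [he, G.al_al _ st.mc', st.pc']
          exact fun h8 => h5 (s3s.2 h8)
      · rw [al4_g k1 k2] at hd3'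
        have h6 : m d = d := by
          simp only [hm]
          rw [if_neg (fun h7 => k1 1 (by decide) h7.1), if_neg (fun h7 => k1 2 (by decide) h7.1),
            if_neg (fun h7 => k1 3 (by decide) h7.1), if_neg (fun h7 => k2 h7.1)]
        rw [h6]
        have hdF : d ∉ F := by
          intro hF
          rcases hd3' with h7 | h7
          · exact h.cls.Ftok d hF h7
          · apply h7
            apply hYc _ hd2'
            unfold nd
            rw [if_neg hdg, if_neg (h.full.out d hF)]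
            exact cir_mem_al h.cls hF
        refine ⟨?_, hone d hdg hdF hdA, hnid d hdg⟩
        rw [mem_sb]
        refine ⟨hd1', hdX, ?_⟩
        rcases hd3' with h7 | h7
        · exact Or.inl h7
        · right
          rwa [hYX _ (st.g4_gen h hd1' hdg k1 k2)] at h7
    calc ((G.g4 st h).sb Y \ A).card
        ≤ ((G.sb X).filter fun d => 1 ≤ G.z4 F τ c p f l g A d).card := by
          refine card_le_card_of_injOn m ?_ ?_
          · intro d hd
            obtain ⟨h4, h5, -⟩ := hmain d hd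
            exact mem_filter.2 ⟨h4, h5⟩
          · intro d hd d' hd' he
            rw [← (hmain d hd).2.2, ← (hmain d' hd').2.2, he]
      _ = ∑ d ∈ (G.sb X).filter (fun d => 1 ≤ G.z4 F τ c p f l g A d), 1 := by
          rw [card_eq_sum_ones]
      _ ≤ ∑ d ∈ (G.sb X).filter (fun d => 1 ≤ G.z4 F τ c p f l g A d),
          G.z4 F τ c p f l g A d := sum_le_sum fun d hd => (mem_filter.1 hd).2
      _ ≤ ∑ d ∈ G.sb X, G.z4 F τ c p f l g A d := sum_le_sum_of_subset (filter_subset _ _)
  omega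

/-- the weights of a circuit which is not passed are 1 -/
lemma w4_g1 {g : D → ℕ} (hg : ∀ d ∈ F, g (G.al d) = g d)
    (hg2 : ∀ v ∈ G.vs, v ∉ K → v ∉ G.gd τ p → (∑ d ∈ F.filter fun d => G.pi d = v, g d) = 2 +
        if (A.filter fun d => G.pi d ∈ G.cir K F v).card = 2 then
          (A.filter fun d => G.pi d = v).card else 0) {v : V} (hv : v ∈ G.vs) (hK : v ∉ K)
    (hgd : v ∉ G.gd τ p) (h2 : (A.filter fun d => G.pi d ∈ G.cir K F v).card ≠ 2) {d : D}
    (hd : d ∈ F) (hdv : G.pi d ∈ G.cir K F v) : g d = 1 := by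
  obtain ⟨q, f', l', hp, -, he⟩ := h.cir_pen hv hK
  have hout : ∀ w ∈ G.cir K F v, w ∉ G.gd τ p := by
    intro w hw
    rw [← w4_nd st h r hv hgd hK] at hw
    exact w4_ndout st h r hv hgd hw
  have key : ∀ k, g (f' k) + g (f' (k - 1)) = 2 := by
    intro k
    have hq : q k ∈ G.cir K F v := by
      rw [he]
      exact mem_image_of_mem _ (mem_univ _)
    have h3 := hg2 (q k) (hp.pv h.cls k) (hp.nK k) (hout _ hq)
    rw [hp.cir_eq h.cls k, ← he, if_neg h2, far_star hp h.cls k,
      sum_pair (far_ffa hp h.cls k (k - 1)), hg _ (hp.fF _)] at h3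
    exact h3
  have k0 := key 0
  have k1 := key 1
  have k2 := key 2
  have k3 := key 3
  have k4 := key 4
  have e0 : (0 : ZMod 5) - 1 = 4 := by decide
  have e1 : (1 : ZMod 5) - 1 = 0 := by decide
  have e2 : (2 : ZMod 5) - 1 = 1 := by decide
  have e3 : (3 : ZMod 5) - 1 = 2 := by decide
  have e4 : (4 : ZMod 5) - 1 = 3 := by decide
  rw [e0] at k0
  rw [e1] at k1
  rw [e2] at k2
  rw [e3] at k3
  rw [e4] at k4
  have hall : ∀ k, g (f' k) = 1 := by
    intro k
    have hk : k = 0 ∨ k = 1 ∨ k = 2 ∨ k = 3 ∨ k = 4 :=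
      (by decide : ∀ i : ZMod 5, i = 0 ∨ i = 1 ∨ i = 2 ∨ i = 3 ∨ i = 4) k
    rcases hk with rfl | rfl | rfl | rfl | rfl <;> omega
  rw [he] at hdv
  obtain ⟨k, hk | hk⟩ := far_mem hp h.cls hd hdv
  · rw [hk, hall]
  · rw [hk, hg _ (hp.fF k), hall]

end W4

/-- a valid route in `G4` starting at `o4` and avoiding the edge `o3 c2` gives weights which finish.
Killed darts: `A`, `l 4`, `τ`, and `l 1, l 2` if `A` uses the edge `o1 o2`. Circuit edges of the
gadget (`f 0, .., f 4`) = (0, 2, 0, 2, 1), or (0, 3, 0, 2, 1) if `l 1, l 2` are killed; `c` 2.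
Classes for `lemV`: `{p 1, p 2}`, `{p 3, p 4, p 0, s}`, nodes outside the gadget; for a saturated `X`
the value of `X` is at least the value of `X \ gd` in `G4`. -/
theorem PW.exit4 (h : G.PW K F) {τ c c' : D} {p : ZMod 5 → V} {f l : ZMod 5 → D}
    (st : G.St K F τ c c' p f l) {A : Finset D} {u : V}
    (hA : (G.g4 st h).Rt (G.nd K F (G.gd τ p)) (G.vs \ G.gd τ p) (G.tg K F τ c') (G.al (l 4))
      (G.al (l 3)) A u)
    (hv : ∀ X ⊆ G.vs \ G.gd τ p, CSat (G.nd K F (G.gd τ p)) X → Odd X.card →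
      3 ≤ (G.g4 st h).rv A u X) :
    G.Win K F := by
  have r := Rt.r4x st h hA
  obtain ⟨g, hg1, hg2, hg3⟩ := h.far (A := A) (fun d hd => (r.sub d hd).1) r.nF
    (C := G.gd τ p) (fun v hv hK hg => (w4_fr st h r hv hg hK).2.2)
  have hZW : G.ZW (G.z4 F τ c p f l g A) (fun w => if w = u then 1 else 0) :=
    ⟨fun d hd => z4_sym st h r hg1 hd, fun v hv => z4_sum st h r hg2 hv⟩
  have hll : ∀ i j : ZMod 5, i ≠ j → G.al (l i) ≠ G.al (l j) := fun i j hij => st.g4_ll hij
  refine ⟨G.z4 F τ c p f l g A, fun w => if w = u then 1 else 0, hZW, ?_, ?_, ?_, ?_⟩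
  · exact lemV hZW (cl4_part st h r) (fun v hv => cl4_tm st h r hg3 hv)
      (fun X hX hs ho => w4_val st h r hv hX hs ho)
  · have h1 : ∑ v ∈ G.vs, (fun w => if w = u then 1 else 0) v = 1 := by
      show (∑ v ∈ G.vs, if v = u then 1 else 0) = 1
      rw [sum_ite_eq' G.vs u (fun _ => 1), if_pos r.uv]
    have hτ : τ ∈ G.tk G.vs := G.mem_tk.2 ⟨st.mτ, G.pi_mem _ st.mτ, st.tτ⟩
    have h2 : ∑ d ∈ G.tk G.vs, G.z4 F τ c p f l g A d ≤ 3 := by
      rw [← add_sum_erase _ _ hτ, z4_A st h r (mem_k4.2 (Or.inr (Or.inl rfl))), zero_add]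
      have h3 : ((G.tk G.vs).erase τ).card = 3 := by
        rw [card_erase_of_mem hτ, h.four]
      rw [← h3, card_eq_sum_ones]
      refine sum_le_sum fun d hd => ?_
      obtain ⟨-, hd⟩ := mem_erase.1 hd
      obtain ⟨h4, -, h5⟩ := G.mem_tk.1 hd
      have hF : d ∉ F := fun hF => h.cls.Ftok d hF h5
      by_cases hk : d ∈ G.k4 τ l A
      · rw [z4_A st h r hk]
        exact Nat.zero_le _
      · rw [z4_one st h r hF hk]
        · rintro rfl
          rw [st.ac] at h5
          exact st.s_ne h.cls 0 (by rw [← st.pc, ← h5, st.pen.lp])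
        · rintro rfl
          exact st.pen.l_tok 0 h5
    omega
  · -- joined
    intro Z hZ ⟨v, hvZ, hvt⟩
    have hsZ : G.pi τ ∉ Z := fun h1 => hZ.dis _ h1 (st.sK h.cls)
    have hsat : CSat (G.nd K F (G.gd τ p)) (Z \ G.gd τ p) := by
      intro w hw x hx
      rw [mem_sdiff] at hw ⊢
      refine ⟨?_, w4_ndout st h r (hZ.sub hw.1) hw.2 hx⟩
      rw [w4_nd st h r (hZ.sub hw.1) hw.2 (hZ.dis w hw.1)] at hx
      exact cir_sub hZ hw.1 hx
    have hX : Z \ G.gd τ p ⊆ G.vs \ G.gd τ p := sdiff_subset_sdiff hZ.sub (Subset.refl _)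
    have hcon : (∃ d ∈ A, G.pi d ∈ Z \ G.gd τ p) → (∃ d ∈ A, G.pi d ∉ Z \ G.gd τ p) →
        ∃ d ∈ A, d ≠ G.al (l 4) ∧ G.pi d ∈ Z \ G.gd τ p ∧
          G.pi (G.al4 c' l d) ∉ Z \ G.gd τ p := hA.con _ hX hsat
    have hin : ∀ w, w ∉ G.gd τ p → w ∉ Z \ G.gd τ p → w ∉ Z := by
      intro w h1 h2 h3
      exact h2 (mem_sdiff.2 ⟨h3, h1⟩)
    by_cases hp : ∃ i, p i ∈ Z
    · obtain ⟨i, hi⟩ := hp
      have hsub := st.pen.adm_sub h.cls hZ hi
      have hpZ : ∀ i, p i ∈ Z := fun i => hsub (mem_image_of_mem _ (mem_univ _))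
      by_cases ho : G.pi (G.al (l 4)) ∈ Z
      swap
      · left
        refine ⟨l 4, G.mem_bd.2 ⟨st.pen.lm 4, ?_, ho⟩,
          z4_A st h r (mem_k4.2 (Or.inr (Or.inr (Or.inl rfl))))⟩
        rw [st.pen.lp]
        exact hpZ 4
      have ho' : G.pi (G.al (l 4)) ∈ Z \ G.gd τ p :=
        mem_sdiff.2 ⟨ho, st.o_out h (by decide)⟩
      by_cases hall : ∀ d ∈ A, G.pi d ∈ Z \ G.gd τ p
      · right
        obtain ⟨d0, h1, h2, -⟩ := r.land
        have huZ : u ∈ Z := by
          rw [← h2]
          exact (mem_sdiff.1 (hall d0 h1)).1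
        have huK := hZ.dis u huZ
        have huT := r.uT
        unfold tg at huT
        rcases mem_union.1 huT with h3 | h3
        · exact absurd (mem_erase.1 h3).2 huK
        · by_cases ht : G.al c' = c'
          · rw [if_pos ht] at h3
            exact absurd h3 (notMem_empty u)
          · rw [if_neg ht] at h3
            rcases st.dich with h4 | ⟨-, h4, h5, -⟩
            · exact absurd h4 ht
            · have hm' := G.pi_mem _ (G.al_mem _ st.mc')
              obtain ⟨-, -, h8⟩ := st.cir_gd h hm' h4 h5 h3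
              have h9 : G.pi (G.al c') ∈ Z := by
                apply cir_sub hZ huZ
                rw [h8]
                exact self_mem_cir hm'
              have hal0 : G.al (l 0) = c := by rw [← st.ac, G.al_al c st.mc]
              refine ⟨l 0, G.mem_bd.2 ⟨st.pen.lm 0, ?_, ?_⟩, G.al c', G.mem_bd.2
                ⟨G.al_mem _ st.mc', h9, ?_⟩, ?_, ?_⟩
              · rw [st.pen.lp]
                exact hpZ 0
              · rw [hal0, st.pc]
                exact hsZ
              · rw [G.al_al _ st.mc', st.pc']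
                exact hsZ
              · intro h10
                exact h5 0 (by rw [← h10, st.pen.lp])
              · rw [hal0, G.al_al _ st.mc', st.pc, st.pc']
      · push Not at hall
        left
        obtain ⟨d, h1, h2, h3, h4⟩ := hcon ⟨_, r.m4, ho'⟩ hall
        rcases r.cas d h1 with h5 | h5 | h5 | ⟨h5, h6, h7, h8⟩
        · rw [h5, al4_1] at h4
          refine ⟨l 2, G.mem_bd.2 ⟨st.pen.lm 2, ?_, hin _ (st.o_out h (by decide)) h4⟩,
            z4_A st h r (mem_k4.2 (Or.inr (Or.inr (Or.inr ⟨h5 ▸ h1, Or.inr rfl⟩))))⟩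
          rw [st.pen.lp]
          exact hpZ 2
        · rw [h5, al4_2 (hll 2 1 (by decide))] at h4
          refine ⟨l 1, G.mem_bd.2 ⟨st.pen.lm 1, ?_, hin _ (st.o_out h (by decide)) h4⟩,
            z4_A st h r (mem_k4.2 (Or.inr (Or.inr (Or.inr ⟨r.m12.2 (h5 ▸ h1),
              Or.inl rfl⟩))))⟩
          rw [st.pen.lp]
          exact hpZ 1
        · exact absurd h5 h2
        · rw [al4_g h5 h6] at h4
          exact ⟨d, G.mem_bd.2 ⟨(r.sub d h1).1, (mem_sdiff.1 h3).1,
            hin _ (r.sub _ h7).2 h4⟩, z4_A st h r (mem_k4.2 (Or.inl h1))⟩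
    · push Not at hp
      left
      have hZg : ∀ w ∈ Z, w ∉ G.gd τ p := by
        intro w hw hg
        rcases St.mem_gd.1 hg with h1 | ⟨i, h1⟩
        · exact hsZ (h1 ▸ hw)
        · exact hp i (h1 ▸ hw)
      have hZe : Z \ G.gd τ p = Z := by
        rw [Finset.sdiff_eq_self_iff_disjoint, disjoint_left]
        exact hZg
      rw [hZe] at hcon
      have hex : ∃ d ∈ A, G.pi d ∈ Z := by
        obtain ⟨hvs, d, hd, hdv, hz⟩ := mem_ztch.1 hvt
        have hdg : G.pi d ∉ G.gd τ p := by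
          rw [hdv]
          exact hZg v hvZ
        by_cases hF : d ∈ F
        · rw [z4_Fout st h r hF hdg] at hz
          have h1 : (A.filter fun d => G.pi d ∈ G.cir K F v).card = 2 := by
            by_contra h2
            apply hz
            apply w4_g1 st h r hg1 hg2 hvs (hZ.dis v hvZ) (hZg v hvZ) h2 hF
            rw [hdv]
            exact self_mem_cir hvs
          obtain ⟨a, ha⟩ : (A.filter fun d => G.pi d ∈ G.cir K F v).Nonempty := by
            rw [← card_pos, h1]
            decide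
          rw [mem_filter] at ha
          exact ⟨a, ha.1, cir_sub hZ hvZ ha.2⟩
        · rw [z4_out st h r hF hdg] at hz
          by_cases hdA : d ∈ A
          · exact ⟨d, hdA, by rw [hdv]; exact hvZ⟩
          · rw [if_neg hdA] at hz
            exact absurd rfl hz
      have hfar : ∀ i, G.al (l i) ∈ A → G.pi (G.al (l i)) ∈ Z → ∃ d ∈ G.bd Z,
          G.z4 F τ c p f l g A d = 0 := by
        intro i h1 h2
        refine ⟨_, G.mem_bd.2 ⟨G.al_mem _ (st.pen.lm i), h2, ?_⟩,
          z4_A st h r (mem_k4.2 (Or.inl h1))⟩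
        rw [G.al_al _ (st.pen.lm i), st.pen.lp]
        exact hp i
      by_cases hall : ∀ d ∈ A, G.pi d ∈ Z
      · exact hfar 4 r.m4 (hall _ r.m4)
      · push Not at hall
        obtain ⟨d, h1, h2, h3, h4⟩ := hcon hex hall
        rcases r.cas d h1 with h5 | h5 | h5 | ⟨h5, h6, h7, h8⟩
        · exact hfar 1 (h5 ▸ h1) (h5 ▸ h3)
        · exact hfar 2 (h5 ▸ h1) (h5 ▸ h3)
        · exact absurd h5 h2
        · rw [al4_g h5 h6] at h4
          exact ⟨d, G.mem_bd.2 ⟨(r.sub d h1).1, h3, h4⟩, z4_A st h r (mem_k4.2 (Or.inl h1))⟩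
  · refine ⟨p 0, mem_ztch.2 ⟨st.pen.pv h.cls 0, f 0, h.cls.Fsub (st.pen.fF 0), st.pen.fp 0, ?_⟩,
      st.pen.nK 0⟩
    rw [w4_z4 st h r (n := 0) (fun _ => rfl)]
    decide

end JP.CG
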