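import Pool.Agent.Lib.P5.S2
import Pool.Agent.Lib.P5.S4
import Pool.Agent.Lib.P5.S5

/-! The pentagon world: weights which finish exist (MP_c95763_co). -/

set_option autoImplicit false

namespace JP.CG

open Finset Classical

variable {V D : Type*} {G : CG V D} {K : Finset V} {F : Finset D}

/-- a dart from `K` to a fresh vertex is a leg -/
private lemma leg_of (h : G.PW K F) {c : D} (mc : c ∈ G.ds) (pc : G.pi c ∈ K) {p : ZMod 5 → V}
    {f l : ZMod 5 → D} (hp : G.Pen K F p f l) (h0 : p 0 = G.pi (G.al c)) : G.al c = l 0 := by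
  have m' := G.al_mem c mc
  have hF : G.al c ∉ F := by
    intro hF
    have h1 := h.cls.Fal _ hF
    rw [G.al_al c mc] at h1
    exact h.full.out c h1 pc
  rcases hp.three 0 _ m' h0.symm with h1 | h1 | h1
  · exact absurd (h1 ▸ hp.fF 0) hF
  · exact absurd (h1 ▸ h.cls.Fal _ (hp.fF _)) hF
  · exact h1

/-- there is a start -/
theorem PW.exists_st (h : G.PW K F) : ∃ τ c c' p f l, G.St K F τ c c' p f l := by
  have key : ∀ τ ∈ G.ds, G.al τ = τ → ∃ c ∈ G.ds, ∃ c' ∈ G.ds, G.pi c = G.pi τ ∧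
      G.pi c' = G.pi τ ∧ τ ≠ c ∧ τ ≠ c' ∧ c ≠ c' ∧ ∀ d ∈ G.ds, G.pi d = G.pi τ →
        d = τ ∨ d = c ∨ d = c' := by
    intro τ mτ _
    have h3 := G.cubic (G.pi τ) (G.pi_mem τ mτ)
    obtain ⟨a, b, c, hab, hac, hbc, he⟩ := card_eq_three.1 h3
    have hm : ∀ d, d ∈ ({a, b, c} : Finset D) ↔ d ∈ G.ds ∧ G.pi d = G.pi τ := by
      intro d
      rw [← he, mem_filter]
    have hm' : ∀ d, (d = a ∨ d = b ∨ d = c) ↔ d ∈ G.ds ∧ G.pi d = G.pi τ := by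
      intro d
      rw [← hm]
      simp
    have ha := (hm' a).1 (Or.inl rfl)
    have hb := (hm' b).1 (Or.inr (Or.inl rfl))
    have hc := (hm' c).1 (Or.inr (Or.inr rfl))
    rcases (hm' τ).2 ⟨mτ, rfl⟩ with h1 | h1 | h1
    · refine ⟨b, hb.1, c, hc.1, hb.2, hc.2, by rw [h1]; exact hab, by rw [h1]; exact hac, hbc, ?_⟩
      intro d hd hp
      rw [h1]
      exact (hm' d).2 ⟨hd, hp⟩
    · refine ⟨a, ha.1, c, hc.1, ha.2, hc.2, by rw [h1]; exact hab.symm, by rw [h1]; exact hbc, hac,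
        ?_⟩
      intro d hd hp
      rw [h1]
      rcases (hm' d).2 ⟨hd, hp⟩ with h2 | h2 | h2
      · exact Or.inr (Or.inl h2)
      · exact Or.inl h2
      · exact Or.inr (Or.inr h2)
    · refine ⟨a, ha.1, b, hb.1, ha.2, hb.2, by rw [h1]; exact hac.symm, by rw [h1]; exact hbc.symm,
        hab, ?_⟩
      intro d hd hp
      rw [h1]
      rcases (hm' d).2 ⟨hd, hp⟩ with h2 | h2 | h2
      · exact Or.inr (Or.inl h2)
      · exact Or.inr (Or.inr h2)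
      · exact Or.inl h2
  by_cases hd : ∃ v ∈ G.vs, 2 ≤ (G.tk {v}).card
  · -- a double vertex
    obtain ⟨v, hv, h2⟩ := hd
    obtain ⟨τ, hτ, σ, hσ, hne⟩ := one_lt_card.1 (show 1 < (G.tk {v}).card by omega)
    obtain ⟨mτ, pτ, tτ⟩ := (G.mem_tk).1 hτ
    obtain ⟨mσ, pσ, tσ⟩ := (G.mem_tk).1 hσ
    rw [mem_singleton] at pτ pσ
    have hpp : G.pi σ = G.pi τ := by rw [pτ, pσ]
    obtain ⟨c, mc, c', mc', pc, pc', n1, n2, n3, hall⟩ := key τ mτ tτ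
    -- one of `c`, `c'` is `σ`
    have hcase : ∃ b ∈ G.ds, G.pi b = G.pi τ ∧ b ≠ τ ∧ b ≠ σ := by
      rcases hall σ mσ hpp with h1 | h1 | h1
      · exact absurd h1 hne.symm
      · exact ⟨c', mc', pc', n2.symm, by rw [h1]; exact n3.symm⟩
      · exact ⟨c, mc, pc, n1.symm, by rw [h1]; exact n3⟩
    obtain ⟨b, mb, pb, nb1, nb2⟩ := hcase
    obtain ⟨tb, hK⟩ := h.double τ mτ σ mσ b mb tτ tσ hpp pb hne nb1.symm nb2.symm
    obtain ⟨p, f, l, hp, hp0⟩ := h.pen _ (G.pi_mem _ (G.al_mem b mb)) hK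
    exact ⟨τ, b, σ, p, f, l, hp, mτ, tτ, mb, pb,
      leg_of h mb (by rw [pb]; exact h.cls.tokK τ mτ tτ) hp hp0, mσ, hpp, nb1.symm, hne, nb2,
      Or.inl tσ⟩
  · push Not at hd
    obtain ⟨τ, hτ⟩ : (G.tk G.vs).Nonempty := by
      rw [← card_pos, h.four]
      omega
    obtain ⟨mτ, pτ, tτ⟩ := (G.mem_tk).1 hτ
    obtain ⟨c, mc, c', mc', pc, pc', n1, n2, n3, hall⟩ := key τ mτ tτ
    have hone : ∀ σ ∈ G.ds, G.al σ = σ → G.pi σ = G.pi τ → σ = τ := by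
      intro σ mσ tσ pσ
      have h1 := hd (G.pi τ) (G.pi_mem τ mτ)
      have h2 : (G.tk {G.pi τ}).card ≤ 1 := by omega
      rw [card_le_one] at h2
      exact h2 σ ((G.mem_tk).2 ⟨mσ, mem_singleton.2 pσ, tσ⟩) τ
        ((G.mem_tk).2 ⟨mτ, mem_singleton_self _, tτ⟩)
    have tc : G.al c ≠ c := fun hh => n1 (hone c mc hh pc).symm
    have tc' : G.al c' ≠ c' := fun hh => n2 (hone c' mc' hh pc').symm
    obtain ⟨k1, k2, Z, hZ, hZ1, hZ2⟩ := h.single τ mτ c mc c' mc' tτ tc tc' pc pc' n1 n2 n3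
    obtain ⟨p, f, l, hp, hp0⟩ := h.pen _ (G.pi_mem _ (G.al_mem c mc)) k1
    refine ⟨τ, c, c', p, f, l, hp, mτ, tτ, mc, pc,
      leg_of h mc (by rw [pc]; exact h.cls.tokK τ mτ tτ) hp hp0, mc', pc', n1, n2, n3,
      Or.inr ⟨tc', k2, ?_, ?_⟩⟩
    · intro i hi
      apply hZ2
      rw [hi]
      exact hp.adm_sub h.cls hZ (i := 0) (by rw [hp0]; exact hZ1) (mem_image_of_mem _ (mem_univ i))
    · intro v hv
      have := hd v hv
      omega

/-- the mirror image of a blocking set -/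
private lemma blk_mirror {τ : D} {p : ZMod 5 → V} {X : Finset V}
    (hX : G.Blk K F τ (fun i => p (-i)) X) : G.Blk K F τ p X := by
  have h1 : G.gd τ (fun i => p (-i)) = G.gd τ p := St.gd_mirror
  exact ⟨hX.sub, h1 ▸ hX.sat, h1 ▸ hX.dis, hX.odd⟩

theorem PW.win (h : G.PW K F) : G.Win K F := by
  obtain ⟨τ, c, c', p, f, l, st⟩ := h.exists_st
  have st' := st.mirror h.cls
  have e1 : (-1 : ZMod 5) = 4 := by decide
  have e2 : (-2 : ZMod 5) = 3 := by decide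
  have e3 : (-3 : ZMod 5) = 2 := by decide
  have e4 : (-4 : ZMod 5) = 1 := by decide
  rcases h.s4 st with h1 | ⟨X, hX, h1⟩
  · exact h1
  rcases h.s4 st' with h2 | ⟨Z, hZ, h2⟩
  · exact h2
  simp only [e1, e2, e3] at h2
  have hZ' := blk_mirror hZ
  -- (S2), (S3)
  have h1' : (G.pi (G.al (l 1)) ∈ X ∧ G.pi (G.al (l 2)) ∈ X ∧ Disjoint X (G.tg K F τ c') ∧
      G.dg X = 5) ∨
      (G.al c' ≠ c' ∧ G.pi (G.al c') ∈ X ∧ G.pi (G.al (l 3)) ∈ X ∧ G.dg X = 3) ∨ G.Win K F := by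
    rcases h1 with h1 | ⟨k1, k2, k3⟩ | h1
    · exact Or.inl h1
    · exact Or.inr (Or.inr (h.s2 st hX k1 k2 k3))
    · exact Or.inr (Or.inl h1)
  have h2' : (G.pi (G.al (l 4)) ∈ Z ∧ G.pi (G.al (l 3)) ∈ Z ∧ Disjoint Z (G.tg K F τ c') ∧
      G.dg Z = 5) ∨
      (G.al c' ≠ c' ∧ G.pi (G.al c') ∈ Z ∧ G.pi (G.al (l 2)) ∈ Z ∧ G.dg Z = 3) ∨ G.Win K F := by
    rcases h2 with h2 | ⟨k1, k2, k3⟩ | h2
    · exact Or.inl h2
    · refine Or.inr (Or.inr (h.s2 st' hZ ?_ ?_ k3))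
      · simp only [e1]
        exact k1
      · simp only [e2]
        exact k2
    · exact Or.inr (Or.inl h2)
  rcases h1' with h1 | h1 | h1
  · rcases h2' with h2 | h2 | h2
    · obtain ⟨X', Z', a1, a2, a3, a4, a5, a6, a7, a8, a9, a10, a11⟩ :=
        h.bb st hX hZ' (Or.inl h1) (Or.inl h2)
      exact h.s5 st a1 a2 a3 a4 a5 a6 a7 a8 a9 a10 a11
    · obtain ⟨X', Z', a1, a2, a3, a4, a5, a6, a7, a8, a9, a10, a11⟩ :=
        h.bb st hX hZ' (Or.inl h1) (Or.inr h2)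
      exact h.s5 st a1 a2 a3 a4 a5 a6 a7 a8 a9 a10 a11
    · exact h2
  · rcases h2' with h2 | h2 | h2
    · obtain ⟨X', Z', a1, a2, a3, a4, a5, a6, a7, a8, a9, a10, a11⟩ :=
        h.bb st hX hZ' (Or.inr h1) (Or.inl h2)
      exact h.s5 st a1 a2 a3 a4 a5 a6 a7 a8 a9 a10 a11
    · obtain ⟨X', Z', a1, a2, a3, a4, a5, a6, a7, a8, a9, a10, a11⟩ :=
        h.bb st hX hZ' (Or.inr h1) (Or.inr h2)
      exact h.s5 st a1 a2 a3 a4 a5 a6 a7 a8 a9 a10 a11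
    · exact h2
  · exact h1

end JP.CG
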